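import Pool.Agent.Helper6.AVD.Base

/-! Project AVD, piece V1: recolouring along `σ`. -/

set_option autoImplicit false
set_option linter.unusedSectionVars false

namespace Pool.Agent.Helper6.AVD

open Finset

variable {V E K : Type*} [Fintype V] [DecidableEq V] [Fintype E] [DecidableEq E]
  [Fintype K] [DecidableEq K]

/-- Recolouring. If `σ v` is an involution of the colours for every vertex `v` and the two ends `u, v` of
an edge `e ∈ F` satisfy `σ u (c e) = σ v (c e)`, then `c' e := σ u (c e)` (`u` any end of `e`, e.g.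
`(Quot.out (M.ends e)).1`) is well defined on `F`, proper on `F`, and the missing colours are mapped by `σ v`.
PROOF. `c'` on `e ∈ F`: `M.ends e = s(a, b)` with `a` the chosen end; if `v ∈ M.ends e` then `v = a` or `v = b`,
in both cases `c' e = σ v (c e)`. Proper: `σ v` injective. Missing: `x ∈ misOn c' v ↔ ∀ e, σ v (c e) ≠ x ↔
∀ e, c e ≠ σ v x ↔ σ v x ∈ misOn c v ↔ x ∈ image (σ v) (misOn c v)`. -/
theorem sigma_flip (M : MG V E) (F : Finset E) (c : E → K) (hc : ProperOn M F c) (σ : V → K → K)
    (hσ : ∀ v a, σ v (σ v a) = a)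
    (he : ∀ e ∈ F, ∀ u v, M.ends e = s(u, v) → σ u (c e) = σ v (c e)) :
    ∃ c' : E → K, (∀ e ∈ F, ∀ v ∈ M.ends e, c' e = σ v (c e)) ∧ ProperOn M F c' ∧
      ∀ v, misOn M F c' v = (misOn M F c v).image (σ v) := by
  classical
  have hmem : ∀ e, (Quot.out (M.ends e)).1 ∈ M.ends e := fun e => Sym2.out_fst_mem (M.ends e)
  refine ⟨fun e => σ (Quot.out (M.ends e)).1 (c e), ?_⟩
  have key : ∀ e ∈ F, ∀ v ∈ M.ends e, σ (Quot.out (M.ends e)).1 (c e) = σ v (c e) := by
    intro e heF v hv
    by_cases huv : (Quot.out (M.ends e)).1 = v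
    · rw [huv]
    · exact he e heF _ _ ((Sym2.mem_and_mem_iff huv).1 ⟨hmem e, hv⟩)
  have hinj : ∀ v a b, σ v a = σ v b → a = b := by
    intro v a b hab
    rw [← hσ v a, hab, hσ v b]
  refine ⟨key, ?_, ?_⟩
  · intro v e f heF hfF hve hvf hef
    have h1 := key e heF v hve
    have h2 := key f hfF v hvf
    have h3 : σ v (c e) = σ v (c f) := by
      rw [← h1, ← h2]
      exact hef
    exact hc v e f heF hfF hve hvf (hinj v _ _ h3)
  · intro v
    ext x
    simp only [misOn, Finset.mem_filter, Finset.mem_univ, true_and, Finset.mem_image]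
    constructor
    · intro hx
      refine ⟨σ v x, ?_, hσ v x⟩
      intro e heF hve hcx
      apply hx e heF hve
      rw [key e heF v hve, hcx, hσ v x]
    · rintro ⟨a, ha, rfl⟩ e heF hve hcx
      rw [key e heF v hve] at hcx
      exact ha e heF hve (hinj v _ _ hcx)

/-- `|mis| + deg = |K|` for a proper colouring. -/
theorem card_mis (M : MG V E) (c : E → K) (hc : Proper M c) (v : V) :
    (mis M c v).card + M.deg v = Fintype.card K := by
  classical
  have h1 : (pal M c v).card = M.deg v := by
    unfold pal MG.deg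
    apply Finset.card_image_of_injOn
    intro e he f hf hef
    have he' : v ∈ M.ends e := by
      simpa [MG.inc] using he
    have hf' : v ∈ M.ends f := by
      simpa [MG.inc] using hf
    exact hc v e f (Finset.mem_univ _) (Finset.mem_univ _) he' hf' hef
  have h2 : mis M c v = (pal M c v)ᶜ := by
    ext x
    simp only [mis, misOn, pal, MG.inc, Finset.mem_filter, Finset.mem_univ, true_and,
      Finset.mem_compl, Finset.mem_image, true_imp_iff, not_exists, not_and]
  rw [h2, ← h1, Finset.card_compl]
  exact Nat.sub_add_cancel (Finset.card_le_univ _)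

/-- the colours at `v` are the non-missing ones -/
theorem pal_eq (M : MG V E) (c : E → K) (v : V) : pal M c v = univ \ mis M c v := by
  ext x
  simp only [pal, mis, misOn, MG.inc, Finset.mem_image, Finset.mem_filter, Finset.mem_univ,
    true_and, Finset.mem_sdiff, true_imp_iff]
  push Not
  rfl

end Pool.Agent.Helper6.AVD
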