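import Pool.Agent.Helper6.AVD.Base
import Pool.Agent.Helper6.AVD.St.V1

/-! Project AVD, piece F1: flattening over a cube of colours. -/

set_option autoImplicit false
set_option linter.unusedSectionVars false

namespace Pool.Agent.Helper6.AVD

open Finset

variable {V E K : Type*} [Fintype V] [DecidableEq V] [Fintype E] [DecidableEq E]
  [Fintype K] [DecidableEq K]

/-- flipping one bit -/
private def flipAt {r : ℕ} (j : Fin r) (x : Fin r → Bool) : Fin r → Bool :=
  Function.update x j (!x j)

private theorem flipAt_flipAt {r : ℕ} (j : Fin r) (x : Fin r → Bool) :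
    flipAt j (flipAt j x) = x := by
  funext k
  unfold flipAt
  by_cases h : k = j
  · subst h
    simp
  · simp [h]

private theorem flipAt_ne {r : ℕ} (j : Fin r) (x : Fin r → Bool) (k : Fin r) (h : k ≠ j) :
    flipAt j x k = x k := by
  unfold flipAt
  simp [h]

private theorem flipAt_same {r : ℕ} (j : Fin r) (x : Fin r → Bool) :
    flipAt j x j = !x j := by
  unfold flipAt
  simp

open Classical in
/-- the involution of the colours -/
private noncomputable def cubePi {r : ℕ} (g : (Fin r → Bool) → K) (j : Fin r) (a : K) : K :=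
  if h : ∃ x, g x = a then g (flipAt j (Classical.choose h)) else a

private theorem cubePi_g {r : ℕ} (g : (Fin r → Bool) → K) (hg : Function.Injective g) (j : Fin r)
    (x : Fin r → Bool) : cubePi g j (g x) = g (flipAt j x) := by
  unfold cubePi
  have h : ∃ y, g y = g x := ⟨x, rfl⟩
  rw [dif_pos h, hg (Classical.choose_spec h)]

private theorem cubePi_out {r : ℕ} (g : (Fin r → Bool) → K) (j : Fin r)
    (a : K) (ha : a ∉ Set.range g) : cubePi g j a = a := by
  unfold cubePi
  have h : ¬ ∃ y, g y = a := ha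
  rw [dif_neg h]

private theorem cubePi_invol {r : ℕ} (g : (Fin r → Bool) → K) (hg : Function.Injective g)
    (j : Fin r) (a : K) : cubePi g j (cubePi g j a) = a := by
  by_cases h : a ∈ Set.range g
  · obtain ⟨x, rfl⟩ := h
    rw [cubePi_g g hg, cubePi_g g hg, flipAt_flipAt]
  · rw [cubePi_out g j a h, cubePi_out g j a h]

private theorem cube_sum {r : ℕ} (f : (Fin r → Bool) → ℕ) (j : Fin r) (x : Fin r → Bool) :
    (∑ y with (∀ k : Fin r, (j : ℕ) + 1 ≤ (k : ℕ) → y k = x k), f y) =
      (∑ y with (∀ k : Fin r, (j : ℕ) ≤ (k : ℕ) → y k = x k), f y) +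
      (∑ y with (∀ k : Fin r, (j : ℕ) ≤ (k : ℕ) → y k = flipAt j x k), f y) := by
  rw [← Finset.sum_union]
  · apply Finset.sum_congr _ (fun _ _ => rfl)
    ext y
    simp only [mem_filter, mem_univ, true_and, mem_union]
    constructor
    · intro h
      by_cases hj : y j = x j
      · left
        intro k hk
        rcases Nat.lt_or_ge (j : ℕ) (k : ℕ) with h1 | h1
        · exact h k h1
        · have : k = j := Fin.ext (le_antisymm h1 hk)
          rw [this, hj]
      · right
        intro k hk
        rcases Nat.lt_or_ge (j : ℕ) (k : ℕ) with h1 | h1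
        · rw [flipAt_ne j x k (fun h2 => by rw [h2] at h1; exact lt_irrefl _ h1)]
          exact h k h1
        · have : k = j := Fin.ext (le_antisymm h1 hk)
          rw [this, flipAt_same]
          revert hj
          cases y j <;> cases x j <;> simp
    · rintro (h | h) k hk
      · exact h k (by omega)
      · rw [h k (by omega), flipAt_ne j x k (fun h2 => by rw [h2] at hk; omega)]
  · rw [Finset.disjoint_left]
    intro y hy hy2
    simp only [mem_filter, mem_univ, true_and] at hy hy2
    have h1 := hy j le_rfl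
    have h2 := hy2 j le_rfl
    rw [flipAt_same, h1] at h2
    revert h2
    cases x j <;> simp

private theorem flatten_aux (M : MG V E) (A₁ A₂ : V → Finset V) (e N : ℕ)
    (hR : RoundOK K M A₁ A₂ e N)
    (r : ℕ) (g : (Fin r → Bool) → K) (hg : Function.Injective g) (c : E → K) (hc : Proper M c)
    (i : ℕ) : i ≤ r →
    ∃ c' : E → K, Proper M c' ∧ (∀ v, (mis M c' v).card = (mis M c v).card) ∧
      (∀ u x, 2 ^ i * nn A₁ (mis M c') u (g x) ≤
        (∑ y with (∀ k : Fin r, i ≤ (k : ℕ) → y k = x k), nn A₁ (mis M c) u (g y)) +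
          2 ^ i * (i * e)) ∧
      ∀ u γ, γ ∉ Set.range g → nn A₁ (mis M c') u γ = nn A₁ (mis M c) u γ := by
  induction i with
  | zero =>
    intro _
    refine ⟨c, hc, fun _ => rfl, ?_, fun _ _ _ => rfl⟩
    intro u x
    have h1 : (univ.filter fun y : Fin r → Bool => ∀ k : Fin r, 0 ≤ (k : ℕ) → y k = x k) = {x} := by
      ext y
      simp only [mem_filter, mem_univ, true_and, mem_singleton]
      constructor
      · intro h
        funext k
        exact h k (Nat.zero_le _)
      · rintro rfl k _
        rfl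
    rw [h1]
    simp
  | succ i ih =>
    intro hi
    obtain ⟨c₁, hp₁, hcard₁, hn₁, hout₁⟩ := ih (by omega)
    obtain ⟨c', hstep, h1, -⟩ := hR c₁ hp₁ (cubePi g ⟨i, hi⟩) (cubePi_invol g hg ⟨i, hi⟩)
    obtain ⟨σ, hσ1, hσ2, hσ3⟩ := hstep.sig
    have hinj : ∀ v, Function.Injective (σ v) := by
      intro v a b hab
      rw [← hσ2 v a, hab, hσ2 v b]
    refine ⟨c', hstep.proper, ?_, ?_, ?_⟩
    · intro v
      rw [hσ3 v, Finset.card_image_of_injective _ (hinj v), hcard₁ v]
    · intro u x
      have h2 := h1 u (g x)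
      rw [cubePi_g g hg] at h2
      have h3 := hn₁ u x
      have h4 := hn₁ u (flipAt ⟨i, hi⟩ x)
      have h5 := cube_sum (fun y => nn A₁ (mis M c) u (g y)) ⟨i, hi⟩ x
      simp only at h5
      rw [h5]
      calc 2 ^ (i + 1) * nn A₁ (mis M c') u (g x)
          = 2 ^ i * (2 * nn A₁ (mis M c') u (g x)) := by ring
        _ ≤ 2 ^ i * (nn A₁ (mis M c₁) u (g x) +
              nn A₁ (mis M c₁) u (g (flipAt ⟨i, hi⟩ x)) + 2 * e) := Nat.mul_le_mul_left _ h2
        _ = 2 ^ i * nn A₁ (mis M c₁) u (g x) +
              2 ^ i * nn A₁ (mis M c₁) u (g (flipAt ⟨i, hi⟩ x)) + 2 ^ i * (2 * e) := by ring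
        _ ≤ _ := Nat.add_le_add_right (Nat.add_le_add h3 h4) _
        _ = _ := by ring
    · intro u γ hγ
      rw [← hout₁ u γ hγ]
      unfold nn
      congr 1
      ext v
      simp only [mem_filter, and_congr_right_iff]
      intro _
      rw [hσ3 v]
      have hfix : σ v γ = γ := by
        rcases hσ1 v γ with h | h
        · exact h
        · rw [h, cubePi_out g _ γ hγ]
      constructor
      · intro h
        obtain ⟨a, ha, hav⟩ := mem_image.mp h
        have : a = γ := hinj v (hav.trans hfix.symm)
        rwa [← this]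
      · intro h
        exact mem_image.mpr ⟨γ, h, hfix⟩

/-- PROOF. For `i ≤ r` show by induction on `i`: there is a proper `c'` with `(mis M c' v).card = (mis M c v).card`,
`2^i * nn A₁ (mis M c') u (g x) ≤ (∑ y with (∀ j, i ≤ j → y j = x j), nn A₁ (mis M c) u (g y)) + 2^i * i * e` for all `u, x`
and `nn` unchanged for `γ ∉ range g`. Step `i → i+1`: apply `RoundOK` with the involution `π` that maps `g x` to
`g (Function.update x i (!x i))` and fixes everything outside `range g` (`g` injective). `Step.sig`: `mis' v` is the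
image of `mis v` under the injective `σ v`, so the cardinality is kept, and for `γ` with `π γ = γ`: `σ v γ = γ`, so
`γ ∈ mis' v ↔ γ ∈ mis v` (injectivity of `σ v`), `nn` at `γ` is unchanged. For `g x`: `2 nn' ≤ nn (g x) + nn (g (flip x)) + 2e`,
multiply by `2^i`; the set `{y | ∀ j ≥ i+1, y j = x j}` is the disjoint union of the sets `{y | ∀ j ≥ i, ...}` for `x`
and for `flip x`. `i = r`: the filter is everything. -/
theorem flatten_cube (M : MG V E) (A₁ A₂ : V → Finset V) (e N : ℕ) (hR : RoundOK K M A₁ A₂ e N)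
    (r : ℕ) (g : (Fin r → Bool) → K) (hg : Function.Injective g) (c : E → K) (hc : Proper M c) :
    ∃ c' : E → K, Proper M c' ∧ (∀ v, (mis M c' v).card = (mis M c v).card) ∧
      (∀ u x, 2 ^ r * nn A₁ (mis M c') u (g x) ≤
        (∑ y, nn A₁ (mis M c) u (g y)) + 2 ^ r * (r * e)) ∧
      ∀ u γ, γ ∉ Set.range g → nn A₁ (mis M c') u γ = nn A₁ (mis M c) u γ := by
  obtain ⟨c', h1, h2, h3, h4⟩ := flatten_aux M A₁ A₂ e N hR r g hg c hc r le_rfl
  refine ⟨c', h1, h2, ?_, h4⟩
  intro u x
  have h5 := h3 u x
  have h6 : (univ.filter fun y : Fin r → Bool => ∀ k : Fin r, r ≤ (k : ℕ) → y k = x k) = univ := by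
    apply Finset.filter_true_of_mem
    intro y _ k hk
    exact absurd k.isLt (by omega)
  rw [h6] at h5
  exact h5

end Pool.Agent.Helper6.AVD
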