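import Pool.Agent.Helper6.AVD.Base
import Pool.Agent.Helper6.AVD.St.V1
import Pool.Agent.Helper6.AVD.St.F1

/-! Project AVD, piece F2: flat missing colours. -/

set_option autoImplicit false
set_option linter.unusedSectionVars false

namespace Pool.Agent.Helper6.AVD

open Finset

variable {V E K : Type*} [Fintype V] [DecidableEq V] [Fintype E] [DecidableEq E]
  [Fintype K] [DecidableEq K]

private theorem f2_param (r : ℕ) (A : Finset K) (hA : A.card = 2 ^ r) :
    ∃ g : (Fin r → Bool) → K, Function.Injective g ∧ Set.range g = (A : Set K) := by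
  have hcard : Fintype.card (Fin r → Bool) = Fintype.card (A : Finset K) := by
    simp [hA]
  let f := Fintype.equivOfCardEq hcard
  refine ⟨fun x => (f x : K), ?_, ?_⟩
  · intro x y hxy
    exact f.injective (Subtype.ext hxy)
  · ext γ
    constructor
    · rintro ⟨x, rfl⟩
      exact (f x).2
    · intro hγ
      exact ⟨f.symm ⟨γ, hγ⟩, by simp⟩

private theorem f2_double (A₁ : V → Finset V) (m : V → Finset K) (u : V) (D s : ℕ)
    (hD : (A₁ u).card ≤ D) (hs : ∀ v ∈ A₁ u, (m v).card ≤ s) :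
    ∑ γ, nn A₁ m u γ ≤ D * s := by
  have h1 : ∑ γ, nn A₁ m u γ = ∑ v ∈ A₁ u, (m v).card := by
    unfold nn
    simp_rw [Finset.card_filter]
    rw [Finset.sum_comm]
    refine Finset.sum_congr rfl fun v _ => ?_
    rw [← Finset.card_filter]
    congr 1
    ext γ
    simp
  rw [h1]
  calc ∑ v ∈ A₁ u, (m v).card ≤ ∑ v ∈ A₁ u, s := Finset.sum_le_sum hs
    _ = (A₁ u).card * s := by rw [Finset.sum_const, smul_eq_mul]
    _ ≤ D * s := Nat.mul_le_mul_right _ hD

private theorem f2_step (M : MG V E) (A₁ A₂ : V → Finset V) (e N : ℕ)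
    (hR : RoundOK K M A₁ A₂ e N) (D s : ℕ) (hD : ∀ u, (A₁ u).card ≤ D)
    (r : ℕ) (hr : D ≤ 2 * 2 ^ r) (A : Finset K) (hA : A.card = 2 ^ r)
    (c : E → K) (hc : Proper M c) (hs : ∀ u, ∀ v ∈ A₁ u, (mis M c v).card ≤ s) :
    ∃ c' : E → K, Proper M c' ∧ (∀ v, (mis M c' v).card = (mis M c v).card) ∧
      (∀ u, ∀ γ ∈ A, nn A₁ (mis M c') u γ ≤ 2 * s + r * e) ∧
      ∀ u γ, γ ∉ A → nn A₁ (mis M c') u γ = nn A₁ (mis M c) u γ := by
  obtain ⟨g, hg, hrange⟩ := f2_param r A hA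
  obtain ⟨c', hc', hcard, hA', hout⟩ := flatten_cube M A₁ A₂ e N hR r g hg c hc
  refine ⟨c', hc', hcard, ?_, ?_⟩
  · intro u γ hγ
    have hγ' : γ ∈ Set.range g := by rw [hrange]; exact hγ
    obtain ⟨x, rfl⟩ := hγ'
    have h1 := hA' u x
    have h2 : ∑ y, nn A₁ (mis M c) u (g y) ≤ ∑ γ, nn A₁ (mis M c) u γ := by
      rw [← Finset.sum_image (f := fun γ => nn A₁ (mis M c) u γ) (g := g)
        (s := univ) (fun x _ y _ h => hg h)]
      exact Finset.sum_le_sum_of_subset (Finset.subset_univ _)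
    have h3 := f2_double A₁ (mis M c) u D s (hD u) (hs u)
    have h4 : D * s ≤ 2 * 2 ^ r * s := Nat.mul_le_mul_right _ hr
    have h5 : 2 ^ r * nn A₁ (mis M c') u (g x) ≤ 2 ^ r * (2 * s + r * e) := by
      calc 2 ^ r * nn A₁ (mis M c') u (g x)
          ≤ (∑ y, nn A₁ (mis M c) u (g y)) + 2 ^ r * (r * e) := h1
        _ ≤ 2 * 2 ^ r * s + 2 ^ r * (r * e) :=
            Nat.add_le_add_right (h2.trans (h3.trans h4)) _
        _ = 2 ^ r * (2 * s + r * e) := by ring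
    exact Nat.le_of_mul_le_mul_left h5 (pow_pos (by norm_num) r)
  · intro u γ hγ
    refine hout u γ ?_
    rw [hrange]
    exact hγ

/-- PROOF. `r = Nat.log 2 |K|`: `2^r ≤ |K| < 2^(r+1)`. Choose `A ⊆ K` with `|A| = 2^r` and `B ⊇ Aᶜ` with `|B| = 2^r`
(`|Aᶜ| = |K| - 2^r ≤ 2^r`; `Finset.exists_superset_card_eq`, `Finset.exists_subset_card_eq`), bijections
`(Fin r → Bool) ≃ A`, `≃ B`. For every `c'` with the same `|mis|`: `∑ γ, nn A₁ (mis M c') u γ = ∑ v ∈ A₁ u, |mis M c' v|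
≤ D * s` (double counting). Apply `flatten_cube` (F1) for `A`, then for `B`. After the first step `2^r nn ≤ D s + 2^r r e`
on `A`; `2 * 2^r > |K| ≥ D` gives `D s ≤ 2 * 2^r * s`, so `nn ≤ 2 s + r e` on `A`. After the second step the same
on `B`, and the colours outside `B` (all in `A`) are unchanged. -/
theorem flatten_all (M : MG V E) (A₁ A₂ : V → Finset V) (e N : ℕ) (hR : RoundOK K M A₁ A₂ e N)
    (D s : ℕ) (hD : ∀ u, (A₁ u).card ≤ D) (hK : D ≤ Fintype.card K) (hK1 : 1 ≤ Fintype.card K)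
    (c : E → K) (hc : Proper M c) (hs : ∀ u, ∀ v ∈ A₁ u, (mis M c v).card ≤ s) :
    ∃ c' : E → K, Proper M c' ∧
      ∀ u γ, nn A₁ (mis M c') u γ ≤ 2 * s + Nat.log 2 (Fintype.card K) * e := by
  classical
  set n := Fintype.card K with hn
  set r := Nat.log 2 n with hrdef
  have hle : 2 ^ r ≤ n := Nat.pow_log_le_self 2 (by omega)
  have hlt : n < 2 ^ (r + 1) := Nat.lt_pow_succ_log_self (by norm_num) n
  have hlt' : n < 2 * 2 ^ r := by rw [pow_succ] at hlt; omega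
  have hr : D ≤ 2 * 2 ^ r := by omega
  obtain ⟨A, -, hA⟩ := Finset.exists_subset_card_eq (s := (univ : Finset K)) (n := 2 ^ r)
    (by rw [Finset.card_univ]; exact hle)
  have hAc : (Aᶜ : Finset K).card ≤ 2 ^ r := by
    rw [Finset.card_compl, hA]; omega
  obtain ⟨B, hAB, hB⟩ := Finset.exists_superset_card_eq hAc hle
  obtain ⟨c₁, hc₁, hcard₁, hA₁, -⟩ :=
    f2_step M A₁ A₂ e N hR D s hD r hr A hA c hc hs
  obtain ⟨c₂, hc₂, -, hB₂, hout₂⟩ :=
    f2_step M A₁ A₂ e N hR D s hD r hr B hB c₁ hc₁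
      (fun u v hv => by rw [hcard₁ v]; exact hs u v hv)
  refine ⟨c₂, hc₂, fun u γ => ?_⟩
  by_cases hγ : γ ∈ B
  · exact hB₂ u γ hγ
  · rw [hout₂ u γ hγ]
    refine hA₁ u γ ?_
    by_contra hγA
    exact hγ (hAB (Finset.mem_compl.mpr hγA))

end Pool.Agent.Helper6.AVD
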