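import Pool.Agent.Helper6.AVD.Base

/-! Project AVD, piece G1: four grid involutions split every set of middle size. -/

set_option autoImplicit false
set_option linter.unusedSectionVars false

namespace Pool.Agent.Helper6.AVD

open Finset

/-- exchange of neighbours -/
private def sw (ε q c : ℕ) : ℕ := if c % 2 = ε then (if c + 1 < q then c + 1 else c) else c - 1

private theorem sw_lt {ε q c : ℕ} (h : c < q) : sw ε q c < q := by
  unfold sw
  split_ifs <;> omega

private theorem sw_sw {ε q c : ℕ} (hε : ε < 2) (h : c < q) : sw ε q (sw ε q c) = c := by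
  unfold sw
  split_ifs <;> omega

private theorem sw_up {q c : ℕ} (h : c + 1 < q) : sw (c % 2) q c = c + 1 := by
  unfold sw
  split_ifs <;> omega

private theorem sw_down {q c : ℕ} (h : c + 1 < q) : sw (c % 2) q (c + 1) = c := by
  unfold sw
  split_ifs <;> omega

private def swF (q : ℕ) (ε : Fin 2) (c : Fin q) : Fin q := ⟨sw ε q c, sw_lt c.2⟩

private theorem swF_swF {q : ℕ} (ε : Fin 2) (c : Fin q) : swF q ε (swF q ε c) = c := by
  apply Fin.ext
  exact sw_sw ε.2 c.2

/-- a mixed line contains a split pair -/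
private theorem mixed {q : ℕ} (P : Fin q → Prop) (h1 : ∃ c, P c) (h2 : ∃ c, ¬ P c) :
    ∃ (ε : Fin 2) (c : Fin q), P c ∧ ¬ P (swF q ε c) := by
  classical
  by_contra hcon
  push Not at hcon
  have hstep : ∀ c (h : c + 1 < q), P ⟨c, by omega⟩ ↔ P ⟨c + 1, h⟩ := by
    intro c h
    have hε : c % 2 < 2 := Nat.mod_lt _ (by norm_num)
    have e1 : swF q ⟨c % 2, hε⟩ ⟨c, by omega⟩ = ⟨c + 1, h⟩ := Fin.ext (sw_up h)
    have e2 : swF q ⟨c % 2, hε⟩ ⟨c + 1, h⟩ = ⟨c, by omega⟩ := Fin.ext (sw_down h)
    constructor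
    · intro hp
      have := hcon ⟨c % 2, hε⟩ _ hp
      rwa [e1] at this
    · intro hp
      have := hcon ⟨c % 2, hε⟩ _ hp
      rwa [e2] at this
  have hall : ∀ c (h : c < q), P ⟨c, h⟩ ↔ P ⟨0, by omega⟩ := by
    intro c
    induction c with
    | zero => intro h; rfl
    | succ c ih =>
      intro h
      rw [← hstep c h]
      exact ih (by omega)
  obtain ⟨c, hc⟩ := h1
  obtain ⟨d, hd⟩ := h2
  exact hd ((hall d d.2).2 ((hall c c.2).1 hc))

section ext
open Classical

/-- extension of a map of the cells by the identity -/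
private noncomputable def ext {X Y : Type*} (ι : X → Y) (ρ : X → X) (a : Y) : Y :=
  if h : ∃ x, ι x = a then ι (ρ h.choose) else a

private theorem ext_apply {X Y : Type*} {ι : X → Y} (hι : Function.Injective ι) (ρ : X → X)
    (x : X) : ext ι ρ (ι x) = ι (ρ x) := by
  have h : ∃ y, ι y = ι x := ⟨x, rfl⟩
  unfold ext
  rw [dif_pos h, hι h.choose_spec]

private theorem ext_ext {X Y : Type*} {ι : X → Y} (hι : Function.Injective ι) {ρ : X → X}
    (hρ : ∀ x, ρ (ρ x) = x) (a : Y) : ext ι ρ (ext ι ρ a) = a := by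
  by_cases h : ∃ x, ι x = a
  · obtain ⟨x, rfl⟩ := h
    rw [ext_apply hι, ext_apply hι, hρ]
  · have e : ext ι ρ a = a := dif_neg h
    rw [e, e]

end ext

private theorem cnt {X Y : Type*} [Fintype X] [DecidableEq X] [DecidableEq Y] {ι : X → Y}
    (hι : Function.Injective ι) (ρ : X → X) (A : Finset Y) :
    (univ.filter fun x => ι x ∈ A ∧ ι (ρ x) ∉ A).card ≤ spl (ext ι ρ) A := by
  unfold spl
  rw [← card_image_of_injective _ hι]
  refine card_le_card ?_
  intro a ha
  rw [mem_image] at ha
  obtain ⟨x, hx, rfl⟩ := ha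
  rw [mem_filter] at hx
  rw [mem_filter, ext_apply hι]
  exact hx.2

/-- number of mixed rows -/
private theorem rows {q : ℕ} (P : Fin q → Fin q → Prop) [∀ r c, Decidable (P r c)]
    (T : Fin 2 → ℕ) (hT : ∀ ε, (univ.filter fun x : Fin q × Fin q =>
      P x.1 x.2 ∧ ¬ P x.1 (swF q ε x.2)).card ≤ T ε) :
    (univ.filter fun r => (∃ c, P r c) ∧ ∃ c, ¬ P r c).card ≤ T 0 + T 1 := by
  classical
  have hsub : (univ.filter fun r => (∃ c, P r c) ∧ ∃ c, ¬ P r c) ⊆
      ((univ.filter fun x : Fin q × Fin q => P x.1 x.2 ∧ ¬ P x.1 (swF q 0 x.2)).image Prod.fst) ∪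
      ((univ.filter fun x : Fin q × Fin q => P x.1 x.2 ∧ ¬ P x.1 (swF q 1 x.2)).image
        Prod.fst) := by
    intro r hr
    rw [mem_filter] at hr
    obtain ⟨ε, c, h1, h2⟩ := mixed (P r) hr.2.1 hr.2.2
    rw [mem_union, mem_image, mem_image]
    fin_cases ε
    · exact Or.inl ⟨(r, c), by rw [mem_filter]; exact ⟨mem_univ _, h1, h2⟩, rfl⟩
    · exact Or.inr ⟨(r, c), by rw [mem_filter]; exact ⟨mem_univ _, h1, h2⟩, rfl⟩
  refine (card_le_card hsub).trans ((card_union_le _ _).trans ?_)
  exact add_le_add (card_image_le.trans (hT 0)) (card_image_le.trans (hT 1))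

/-- the main counting: few mixed rows and columns -/
private theorem few {q : ℕ} (P : Fin q → Fin q → Prop) [∀ r c, Decidable (P r c)] (R C b : ℕ)
    (hR : (univ.filter fun r => (∃ c, P r c) ∧ ∃ c, ¬ P r c).card ≤ R)
    (hC : (univ.filter fun c => (∃ r, P r c) ∧ ∃ r, ¬ P r c).card ≤ C)
    (hb : R + C < b) (hbq : b ≤ q) :
    (univ.filter fun x : Fin q × Fin q => P x.1 x.2).card ≤ b ^ 2 ∨
      (univ.filter fun x : Fin q × Fin q => ¬ P x.1 x.2).card ≤ b ^ 2 := by
  classical
  set MR := univ.filter fun r : Fin q => (∃ c, P r c) ∧ ∃ c, ¬ P r c with hMR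
  set MC := univ.filter fun c : Fin q => (∃ r, P r c) ∧ ∃ r, ¬ P r c with hMC
  have hle : (MR ×ˢ MC).card ≤ b ^ 2 := by
    rw [card_product, sq]
    exact Nat.mul_le_mul (by omega) (by omega)
  obtain ⟨r0, hr0⟩ : ∃ r0, r0 ∉ MR := by
    by_contra hcon
    push Not at hcon
    have : MR = univ := eq_univ_of_forall hcon
    rw [this, card_univ, Fintype.card_fin] at hR
    omega
  obtain ⟨c0, hc0⟩ : ∃ c0, c0 ∉ MC := by
    by_contra hcon
    push Not at hcon
    have : MC = univ := eq_univ_of_forall hcon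
    rw [this, card_univ, Fintype.card_fin] at hC
    omega
  have hrow : ∀ r, r ∉ MR → ∀ c c', P r c → P r c' := by
    intro r hr c c' h
    by_contra h'
    exact hr (by rw [hMR, mem_filter]; exact ⟨mem_univ _, ⟨c, h⟩, ⟨c', h'⟩⟩)
  have hcol : ∀ c, c ∉ MC → ∀ r r', P r c → P r' c := by
    intro c hc r r' h
    by_contra h'
    exact hc (by rw [hMC, mem_filter]; exact ⟨mem_univ _, ⟨r, h⟩, ⟨r', h'⟩⟩)
  by_cases hk : P r0 c0
  · right
    refine (card_le_card ?_).trans hle
    intro x hx
    rw [mem_filter] at hx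
    rw [mem_product]
    constructor
    · by_contra h
      exact hx.2 (hrow x.1 h c0 x.2 (hcol c0 hc0 r0 x.1 hk))
    · by_contra h
      exact hx.2 (hcol x.2 h r0 x.1 (hrow r0 hr0 c0 x.2 hk))
  · left
    refine (card_le_card ?_).trans hle
    intro x hx
    rw [mem_filter] at hx
    rw [mem_product]
    constructor
    · by_contra h
      exact hk (hcol c0 hc0 x.1 r0 (hrow x.1 h x.2 c0 hx.2))
    · by_contra h
      exact hk (hrow r0 hr0 x.2 c0 (hcol x.2 h x.1 r0 hx.2))

/-- PROOF. `q = Nat.sqrt k`, `q * q ≤ k ≤ q*q + 2*q` (`Nat.sqrt_le`, `Nat.sqrt_le_add`/`Nat.lt_succ_sqrt`). Cells: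
`a < q*q`, row `a / q`, column `a % q`. `π 0, π 1`: exchange `a` and `a + 1` if both are in the same row and `a % q` is
even (`π 0`) resp. odd (`π 1`); `π 2, π 3`: exchange `a` and `a + q` (`a + q < q*q`) if `a / q` is even resp. odd;
everything else is fixed. Let `A` be given and suppose `4 * spl (π i) A < b` for all `i`. Every row (column) that
contains both cells in `A` and cells not in `A` contains two consecutive cells `a, a'` exactly one of which is in `A`,
and they are exchanged by `π 0` or `π 1` (`π 2` or `π 3`); different rows give different pairs. So the numbers of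
mixed rows plus mixed columns is at most `∑ i, spl (π i) A < b ≤ q`. There are a non-mixed row and a non-mixed column;
they cross, so all non-mixed rows and columns are of the same kind: all inside `A` or all disjoint from `A`.
First case: a cell outside `A` lies in a mixed row and a mixed column, so `|Aᶜ| ≤ b^2 + 2q`. Second case:
`|A| ≤ b^2 + 2q`. Contradiction. (If `b = 0` the claim is trivial.) -/
theorem grid (k : ℕ) : ∃ π : Fin 4 → Fin k → Fin k, (∀ i a, π i (π i a) = a) ∧
    ∀ (A : Finset (Fin k)) (b : ℕ), b ≤ Nat.sqrt k → b ^ 2 + 2 * Nat.sqrt k < A.card →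
      b ^ 2 + 2 * Nat.sqrt k < Aᶜ.card → ∃ i, b ≤ 4 * spl (π i) A := by
  classical
  set q := Nat.sqrt k with hq
  have hqk : q * q ≤ k := Nat.sqrt_le k
  have hkq : k ≤ q * q + 2 * q := by
    have h : k ≤ q * q + q + q := Nat.sqrt_le_add k
    omega
  have hlt : ∀ x : Fin q × Fin q, x.1.val * q + x.2.val < k := by
    intro x
    have h1 := x.1.2
    have h2 := x.2.2
    have h3 : (x.1.val + 1) * q ≤ q * q := Nat.mul_le_mul_right q h1
    rw [add_mul, one_mul] at h3
    omega
  set ι : Fin q × Fin q → Fin k := fun x => ⟨x.1.val * q + x.2.val, hlt x⟩ with hιd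
  have hι : Function.Injective ι := by
    intro x y hxy
    have h0 : x.1.val * q + x.2.val = y.1.val * q + y.2.val := congrArg Fin.val hxy
    have hq0 : 0 < q := Nat.pos_of_ne_zero fun h => by
      have := x.1.2
      omega
    have e1 : (x.1.val * q + x.2.val) / q = x.1.val := by
      rw [add_comm, Nat.add_mul_div_right _ _ hq0, Nat.div_eq_of_lt x.2.2, zero_add]
    have e2 : (y.1.val * q + y.2.val) / q = y.1.val := by
      rw [add_comm, Nat.add_mul_div_right _ _ hq0, Nat.div_eq_of_lt y.2.2, zero_add]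
    have h1 : x.1.val = y.1.val := by rw [← e1, ← e2, h0]
    have h2 : x.2.val = y.2.val := by
      rw [h1] at h0
      omega
    exact Prod.ext (Fin.ext h1) (Fin.ext h2)
  set H : Fin 2 → Fin q × Fin q → Fin q × Fin q := fun ε x => (x.1, swF q ε x.2) with hH
  set Vt : Fin 2 → Fin q × Fin q → Fin q × Fin q := fun ε x => (swF q ε x.1, x.2) with hV
  have hHH : ∀ ε x, H ε (H ε x) = x := fun ε x => by
    simp only [hH, swF_swF]
  have hVV : ∀ ε x, Vt ε (Vt ε x) = x := fun ε x => by
    simp only [hV, swF_swF]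
  refine ⟨![ext ι (H 0), ext ι (H 1), ext ι (Vt 0), ext ι (Vt 1)], ?_, ?_⟩
  · intro i a
    fin_cases i
    · exact ext_ext hι (hHH 0) a
    · exact ext_ext hι (hHH 1) a
    · exact ext_ext hι (hVV 0) a
    · exact ext_ext hι (hVV 1) a
  · intro A b hb hA hA'
    by_contra hcon
    push Not at hcon
    have k0 : 4 * spl (ext ι (H 0)) A < b := hcon 0
    have k1 : 4 * spl (ext ι (H 1)) A < b := hcon 1
    have k2 : 4 * spl (ext ι (Vt 0)) A < b := hcon 2
    have k3 : 4 * spl (ext ι (Vt 1)) A < b := hcon 3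
    have hR := rows (fun r c => ι (r, c) ∈ A) (fun ε => spl (ext ι (H ε)) A)
      (fun ε => cnt hι (H ε) A)
    have hC := rows (fun c r => ι (r, c) ∈ A) (fun ε => spl (ext ι (Vt ε)) A) (by
      intro ε
      refine le_trans (le_of_eq ?_) (cnt hι (Vt ε) A)
      refine card_bij (fun x _ => (x.2, x.1)) ?_ ?_ ?_
      · intro x hx
        rw [mem_filter] at hx ⊢
        exact ⟨mem_univ _, hx.2⟩
      · intro x _ y _ hxy
        rw [Prod.mk.injEq] at hxy
        exact Prod.ext hxy.2 hxy.1
      · intro y hy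
        refine ⟨(y.2, y.1), ?_, rfl⟩
        rw [mem_filter] at hy ⊢
        exact ⟨mem_univ _, hy.2⟩)
    have hfew := few (fun r c => ι (r, c) ∈ A) _ _ b hR hC (by omega) hb
    have hcell : ∀ B : Finset (Fin k), B.card ≤
        (univ.filter fun x : Fin q × Fin q => ι x ∈ B).card + 2 * q := by
      intro B
      have hr : (univ.image ι).card = q * q := by
        rw [card_image_of_injective _ hι, card_univ, Fintype.card_prod, Fintype.card_fin]
      have h1 : B ⊆ ((univ.filter fun x : Fin q × Fin q => ι x ∈ B).image ι) ∪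
          (univ.image ι)ᶜ := by
        intro a ha
        rw [mem_union]
        by_cases h : a ∈ univ.image ι
        · left
          obtain ⟨x, -, rfl⟩ := mem_image.1 h
          exact mem_image.2 ⟨x, by rw [mem_filter]; exact ⟨mem_univ _, ha⟩, rfl⟩
        · right
          exact mem_compl.2 h
      refine (card_le_card h1).trans ((card_union_le _ _).trans ?_)
      refine add_le_add card_image_le ?_
      rw [card_compl, hr, Fintype.card_fin]
      omega
    rcases hfew with h | h
    · have h1 := hcell A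
      have h2 : (univ.filter fun x : Fin q × Fin q => ι x ∈ A).card ≤ b ^ 2 := h
      omega
    · have h2 := hcell Aᶜ
      have h3 : (univ.filter fun x : Fin q × Fin q => ι x ∈ Aᶜ) =
          univ.filter fun x : Fin q × Fin q => ¬ ι (x.1, x.2) ∈ A := by
        apply filter_congr
        intro x _
        rw [mem_compl]
      rw [h3] at h2
      omega

end Pool.Agent.Helper6.AVD
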