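import Pool.Agent.Helper6.AVD.Base
import Pool.Agent.Helper6.AVD.St.V1

/-! Project AVD, piece G2A: small movements. -/

set_option autoImplicit false
set_option linter.unusedSectionVars false

namespace Pool.Agent.Helper6.AVD

open Finset

variable {V E : Type*} [Fintype V] [DecidableEq V] [Fintype E] [DecidableEq E]

/-- A poor set moves little. PROOF. `σ v a ≠ a` implies `σ v a = π a`; if `a, π a ∈ mis v` then both are in the image
again, if none is then none. So `symmDiff` is contained in the union of the split pairs `{a, π a}`. -/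
theorem step_move {K : Type*} [Fintype K] [DecidableEq K] (M : MG V E) (π : K → K)
    (hπ : ∀ a, π (π a) = a) (c c' : E → K) (h : Step M π c c') (v : V) :
    (symmDiff (mis M c v) (mis M c' v)).card ≤ 2 * spl π (mis M c v) := by
  obtain ⟨_, σ, hσ1, hσ2, hσ3⟩ := h
  rw [hσ3 v]
  set S := mis M c v with hS
  set T := S.filter (fun a => π a ∉ S) with hT
  have hsub : symmDiff S (S.image (σ v)) ⊆ T ∪ T.image π := by
    intro a ha
    rw [mem_symmDiff] at ha
    rw [mem_union]
    rcases ha with ⟨h1, h2⟩ | ⟨h1, h2⟩
    · left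
      rw [hT, mem_filter]
      refine ⟨h1, fun h3 => h2 ?_⟩
      rw [mem_image]
      refine ⟨σ v a, ?_, hσ2 v a⟩
      rcases hσ1 v a with h4 | h4 <;> rw [h4] <;> assumption
    · right
      obtain ⟨b, hb, hba⟩ := mem_image.1 h1
      have h4 : π b = a := by
        rcases hσ1 v b with h4 | h4
        · exact absurd (by rw [← hba, h4]; exact hb) h2
        · rw [← h4, hba]
      rw [mem_image]
      refine ⟨b, ?_, h4⟩
      rw [hT, mem_filter]
      exact ⟨hb, by rw [h4]; exact h2⟩
  calc (symmDiff S (S.image (σ v))).card ≤ (T ∪ T.image π).card := card_le_card hsub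
    _ ≤ T.card + (T.image π).card := card_union_le _ _
    _ ≤ T.card + T.card := Nat.add_le_add_left card_image_le _
    _ = 2 * spl π S := by rw [spl, two_mul]

/-- `spl` is Lipschitz. -/
theorem spl_lip {K : Type*} [Fintype K] [DecidableEq K] (π : K → K) (hπ : ∀ a, π (π a) = a)
    (A B : Finset K) : spl π A ≤ spl π B + (symmDiff A B).card := by
  have hsub : A.filter (fun a => π a ∉ A) ⊆
      B.filter (fun a => π a ∉ B) ∪ ((A \ B) ∪ (B \ A).image π) := by
    intro a ha
    rw [mem_filter] at ha
    simp only [mem_union, mem_filter, mem_sdiff, mem_image]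
    by_cases h1 : a ∈ B
    · by_cases h2 : π a ∈ B
      · right; right
        exact ⟨π a, ⟨h2, ha.2⟩, hπ a⟩
      · left
        exact ⟨h1, h2⟩
    · right; left
      exact ⟨ha.1, h1⟩
  have hcard : (symmDiff A B).card = (A \ B).card + (B \ A).card := by
    rw [symmDiff_def, sup_eq_union, card_union_of_disjoint disjoint_sdiff_sdiff]
  calc spl π A ≤ (B.filter (fun a => π a ∉ B) ∪ ((A \ B) ∪ (B \ A).image π)).card :=
        card_le_card hsub
    _ ≤ (B.filter (fun a => π a ∉ B)).card + ((A \ B) ∪ (B \ A).image π).card :=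
        card_union_le _ _
    _ ≤ (B.filter (fun a => π a ∉ B)).card + ((A \ B).card + (B \ A).card) :=
        Nat.add_le_add_left ((card_union_le _ _).trans (Nat.add_le_add_left card_image_le _)) _
    _ = spl π B + (symmDiff A B).card := by rw [spl, hcard]

end Pool.Agent.Helper6.AVD
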