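import Pool.Agent.Helper6.AVD.Base
import Pool.Agent.Helper6.AVD.St.V1
import Pool.Agent.Helper6.AVD.St.G1
import Pool.Agent.Helper6.AVD.St.G2A

/-! Project AVD, piece G2: four rounds separate all triples. -/

set_option autoImplicit false
set_option linter.unusedSectionVars false

namespace Pool.Agent.Helper6.AVD

open Finset

variable {V E : Type*} [Fintype V] [DecidableEq V] [Fintype E] [DecidableEq E]

/-- one of the three differences is large -/
private def G3 {k : ℕ} (M : MG V E) (c : E → Fin k) (u v w : V) (L : ℕ) : Prop :=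
  L ≤ 8 * (symmDiff (mis M c u) (mis M c v)).card ∨
    L ≤ 8 * (symmDiff (mis M c u) (mis M c w)).card ∨
    L ≤ 8 * (symmDiff (mis M c v) (mis M c w)).card

private theorem G3.mono {k : ℕ} {M : MG V E} {c : E → Fin k} {u v w : V} {L L' : ℕ}
    (h : G3 M c u v w L) (hL : L' ≤ L) : G3 M c u v w L' := by
  unfold G3 at *
  rcases h with h | h | h
  · exact Or.inl (hL.trans h)
  · exact Or.inr (Or.inl (hL.trans h))
  · exact Or.inr (Or.inr (hL.trans h))

private theorem sd_tri {K : Type*} [DecidableEq K] (A B C : Finset K) :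
    (symmDiff A C).card ≤ (symmDiff A B).card + (symmDiff B C).card := by
  refine (card_le_card ?_).trans (card_union_le _ _)
  intro x hx
  rw [mem_union, mem_symmDiff, mem_symmDiff]
  rw [mem_symmDiff] at hx
  tauto

private theorem sd_move {K : Type*} [DecidableEq K] (A B A' B' : Finset K) :
    (symmDiff A B).card ≤ (symmDiff A A').card + (symmDiff A' B').card + (symmDiff B B').card := by
  have h1 := sd_tri A A' B
  have h2 := sd_tri A' B' B
  rw [symmDiff_comm B' B] at h2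
  omega

private theorem poor_step {k : ℕ} {M : MG V E} {π : Fin k → Fin k} (hπ : ∀ a, π (π a) = a)
    {c c' : E → Fin k} (h : Step M π c c') {u v w : V} {N L : ℕ}
    (hp : ¬ (N ≤ spl π (mis M c u) ∨ N ≤ spl π (mis M c v) ∨ N ≤ spl π (mis M c w)))
    (hG : G3 M c u v w (L + 32 * N)) : G3 M c' u v w L := by
  push Not at hp
  obtain ⟨hu, hv, hw⟩ := hp
  have mu := step_move M π hπ c c' h u
  have mv := step_move M π hπ c c' h v
  have mw := step_move M π hπ c c' h w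
  have e1 := sd_move (mis M c u) (mis M c v) (mis M c' u) (mis M c' v)
  have e2 := sd_move (mis M c u) (mis M c w) (mis M c' u) (mis M c' w)
  have e3 := sd_move (mis M c v) (mis M c w) (mis M c' v) (mis M c' w)
  unfold G3 at *
  omega

private theorem flat_step {K : Type*} [Fintype K] [DecidableEq K] {M : MG V E} {π : K → K}
    {A₁ : V → Finset V} {c c' : E → K} {κ e : ℕ} (h0 : ∀ u γ, nn A₁ (mis M c) u γ ≤ κ)
    (h : ∀ u γ, 2 * nn A₁ (mis M c') u γ ≤ nn A₁ (mis M c) u γ + nn A₁ (mis M c) u (π γ) + 2 * e)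
    (u : V) (γ : K) : nn A₁ (mis M c') u γ ≤ κ + e := by
  have h1 := h u γ
  have h2 := h0 u γ
  have h3 := h0 u (π γ)
  omega

/-- PROOF. Apply `hR` successively with the involutions `π 0, π 1, π 2, π 3` of `grid` (G1) and `N = m^7, m^6, m^5, m^4`.
Let `c_0 = c, c_1, .., c_4 = c'`. Flatness: `2 nn' ≤ 2κ + 2e` each time. Triples: let `v, w ∈ A₂ u`, `u, v, w`
distinct. Say that `x ∈ {u, v, w}` is rich in round `j` if `N_j ≤ spl (π_j) (mis c_(j-1) x)`. `u` is rich in some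
round: otherwise `symmDiff (mis c_0 u) (mis c_(j-1) u)` has at most `2(m^7+m^6+m^5) ≤ 3 m^7` elements for all `j`
(`step_move`) and `spl (π_j) (mis c_0 u) < m^7 + 3 m^7` (`spl_lip`), contradicting `grid` with `b = 16 m^7`
(`|mis c_0 u| = k - deg u`, `card_mis` in V1). Let `j` be the last round in which one of `u, v, w` is rich. After it
one of the three symmetric differences has `≥ N_j / 8` elements, and in each later round `i` it changes by at most
`4 N_i` (both sets move by `≤ 2 N_i`), so at the end it has at least `N_j/8 - 4(N_(j+1) + ..) ≥ N_j/8 - 5 N_j/m ≥ 9`. -/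
theorem four_rounds (k : ℕ) (M : MG V E) (A₁ A₂ : V → Finset V) (e m κ : ℕ) (hm : 1000 ≤ m)
    (hR : ∀ N, m ^ 4 ≤ N → RoundOK (Fin k) M A₁ A₂ e N) (c : E → Fin k) (hc : Proper M c)
    (hflat : ∀ u γ, nn A₁ (mis M c) u γ ≤ κ) (hb : 16 * m ^ 7 ≤ Nat.sqrt k)
    (hA2 : ∀ u v, v ∈ A₂ u → M.deg v = M.deg u ∧
      (16 * m ^ 7) ^ 2 + 2 * Nat.sqrt k < M.deg u ∧
      (16 * m ^ 7) ^ 2 + 2 * Nat.sqrt k + M.deg u < k) :
    ∃ c' : E → Fin k, Proper M c' ∧ (∀ u γ, nn A₁ (mis M c') u γ ≤ κ + 4 * e) ∧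
      Tri A₂ (mis M c') 9 := by
  obtain ⟨π, hπ, hgrid⟩ := grid k
  have a4 : 1000 ≤ m ^ 4 := by
    calc 1000 ≤ m := hm
      _ = m ^ 1 := (pow_one m).symm
      _ ≤ m ^ 4 := Nat.pow_le_pow_right (by omega) (by norm_num)
  have a5 : 1000 * m ^ 4 ≤ m ^ 5 := by
    rw [pow_succ m 4, mul_comm]
    exact Nat.mul_le_mul_left _ hm
  have a6 : 1000 * m ^ 5 ≤ m ^ 6 := by
    rw [pow_succ m 5, mul_comm]
    exact Nat.mul_le_mul_left _ hm
  have a7 : 1000 * m ^ 6 ≤ m ^ 7 := by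
    rw [pow_succ m 6, mul_comm]
    exact Nat.mul_le_mul_left _ hm
  obtain ⟨c1, s1, f1, r1⟩ := hR (m ^ 7) (by omega) c hc (π 0) (hπ 0)
  obtain ⟨c2, s2, f2, r2⟩ := hR (m ^ 6) (by omega) c1 s1.proper (π 1) (hπ 1)
  obtain ⟨c3, s3, f3, r3⟩ := hR (m ^ 5) (by omega) c2 s2.proper (π 2) (hπ 2)
  obtain ⟨c4, s4, f4, r4⟩ := hR (m ^ 4) le_rfl c3 s3.proper (π 3) (hπ 3)
  refine ⟨c4, s4.proper, fun u γ => ?_, fun u v w hv hw huv huw hvw => ?_⟩
  · have g1 := flat_step hflat f1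
    have g2 := flat_step g1 f2
    have g3 := flat_step g2 f3
    have g4 := flat_step g3 f4 u γ
    omega
  · have t1 := r1 u v w hv hw huv huw hvw
    have t2 := r2 u v w hv hw huv huw hvw
    have t3 := r3 u v w hv hw huv huw hvw
    have t4 := r4 u v w hv hw huv huw hvw
    have fin : ∀ L, 72 ≤ L → G3 M c4 u v w L →
        (9 ≤ (symmDiff (mis M c4 u) (mis M c4 v)).card ∨
          9 ≤ (symmDiff (mis M c4 u) (mis M c4 w)).card ∨
          9 ≤ (symmDiff (mis M c4 v) (mis M c4 w)).card) := by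
      intro L hL h
      unfold G3 at h
      omega
    by_cases q4 : m ^ 4 ≤ spl (π 3) (mis M c3 u) ∨ m ^ 4 ≤ spl (π 3) (mis M c3 v) ∨
        m ^ 4 ≤ spl (π 3) (mis M c3 w)
    · exact fin (m ^ 4) (by omega) (t4 q4)
    have p4 : ∀ L, G3 M c3 u v w (L + 32 * m ^ 4) → G3 M c4 u v w L := fun L =>
      poor_step (hπ 3) s4 q4
    by_cases q3 : m ^ 5 ≤ spl (π 2) (mis M c2 u) ∨ m ^ 5 ≤ spl (π 2) (mis M c2 v) ∨
        m ^ 5 ≤ spl (π 2) (mis M c2 w)
    · have h : G3 M c3 u v w (m ^ 5) := t3 q3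
      exact fin 72 le_rfl (p4 72 (h.mono (by omega)))
    have p3 : ∀ L, G3 M c2 u v w (L + 32 * m ^ 5) → G3 M c3 u v w L := fun L =>
      poor_step (hπ 2) s3 q3
    by_cases q2 : m ^ 6 ≤ spl (π 1) (mis M c1 u) ∨ m ^ 6 ≤ spl (π 1) (mis M c1 v) ∨
        m ^ 6 ≤ spl (π 1) (mis M c1 w)
    · have h : G3 M c2 u v w (m ^ 6) := t2 q2
      exact fin 72 le_rfl (p4 72 (p3 (72 + 32 * m ^ 4) (h.mono (by omega))))
    have p2 : ∀ L, G3 M c1 u v w (L + 32 * m ^ 6) → G3 M c2 u v w L := fun L =>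
      poor_step (hπ 1) s2 q2
    by_cases q1 : m ^ 7 ≤ spl (π 0) (mis M c u) ∨ m ^ 7 ≤ spl (π 0) (mis M c v) ∨
        m ^ 7 ≤ spl (π 0) (mis M c w)
    · have h : G3 M c1 u v w (m ^ 7) := t1 q1
      exact fin 72 le_rfl (p4 72 (p3 (72 + 32 * m ^ 4)
        (p2 (72 + 32 * m ^ 4 + 32 * m ^ 5) (h.mono (by omega)))))
    exfalso
    push Not at q1 q2 q3 q4
    have m1 := step_move M (π 0) (hπ 0) c c1 s1 u
    have m2 := step_move M (π 1) (hπ 1) c1 c2 s2 u
    have m3 := step_move M (π 2) (hπ 2) c2 c3 s3 u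
    have d2 := sd_tri (mis M c u) (mis M c1 u) (mis M c2 u)
    have d3 := sd_tri (mis M c u) (mis M c2 u) (mis M c3 u)
    have l1 := spl_lip (π 1) (hπ 1) (mis M c u) (mis M c1 u)
    have l2 := spl_lip (π 2) (hπ 2) (mis M c u) (mis M c2 u)
    have l3 := spl_lip (π 3) (hπ 3) (mis M c u) (mis M c3 u)
    obtain ⟨-, hlo, hhi⟩ := hA2 u v hv
    have hcard := card_mis M c hc u
    rw [Fintype.card_fin] at hcard
    have hcompl : (mis M c u)ᶜ.card = M.deg u := by
      rw [card_compl, Fintype.card_fin]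
      omega
    obtain ⟨i, hi⟩ := hgrid (mis M c u) (16 * m ^ 7) hb (by omega) (by omega)
    fin_cases i
    · simp only [Fin.zero_eta] at hi
      omega
    · simp only [Fin.mk_one] at hi
      omega
    · simp only [Fin.reduceFinMk] at hi
      omega
    · simp only [Fin.reduceFinMk] at hi
      omega

end Pool.Agent.Helper6.AVD
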