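import Mathlib

/-! Project AVD, piece N1: numerical facts (polynomial times exponentially small). -/

set_option autoImplicit false
set_option linter.unusedSectionVars false

namespace Pool.Agent.Helper6.AVD

open Finset

private theorem ev_pow_exp (C c : ℝ) (hc : 0 < c) (n : ℕ) :
    ∃ m₀ : ℕ, ∀ m : ℕ, m₀ ≤ m → C * (m : ℝ) ^ n * Real.exp (-((m : ℝ) / c)) ≤ 1 := by
  have h1 : Filter.Tendsto (fun m : ℕ => (m : ℝ) / c) Filter.atTop Filter.atTop :=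
    Filter.Tendsto.atTop_div_const hc tendsto_natCast_atTop_atTop
  have h2 := (Real.tendsto_pow_mul_exp_neg_atTop_nhds_zero n).comp h1
  have h3 : Filter.Tendsto (fun m : ℕ => (C * c ^ n) * (((m : ℝ) / c) ^ n *
      Real.exp (-((m : ℝ) / c)))) Filter.atTop (nhds ((C * c ^ n) * 0)) :=
    Filter.Tendsto.const_mul _ h2
  rw [mul_zero] at h3
  have h4 := h3.eventually (ge_mem_nhds (show (0 : ℝ) < 1 by norm_num))
  obtain ⟨m₀, h5⟩ := Filter.eventually_atTop.1 h4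
  refine ⟨m₀, fun m hm => ?_⟩
  have h6 := h5 m hm
  have h7 : (C * c ^ n) * (((m : ℝ) / c) ^ n * Real.exp (-((m : ℝ) / c))) =
      C * (m : ℝ) ^ n * Real.exp (-((m : ℝ) / c)) := by
    rw [div_pow]
    field_simp
  rw [← h7]
  exact h6

/-- `e² = m^30`, `16 D ≤ 32 m^20`: the first exponential is `≤ exp(-m^10/32)`, the second `≤ exp(-m^4/400)`; the
polynomial factors are `≤ C m^60` and `≤ C m^100`. (`Real.tendsto_pow_mul_exp_neg_atTop_nhds_zero` or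
`exp x ≥ x^n / n!`.) -/
theorem num_round : ∃ m₀ : ℕ, ∀ m ≥ m₀, ∀ D : ℕ, m ^ 20 ≤ D → D ≤ 2 * m ^ 20 → ∀ N : ℕ, m ^ 4 ≤ N →
    4 * (((D : ℝ) + 1) ^ 2 * (((D + 1 : ℕ) : ℝ) + 1)) *
      (((D + 1 : ℕ) : ℝ) * Real.exp (-(((m ^ 15 : ℕ) : ℝ) ^ 2 / (16 * D))) +
        (D : ℝ) ^ 2 * (3 * Real.exp (-((N : ℝ) / 400)))) ≤ 1 := by
  obtain ⟨m₀, hm₀⟩ := ev_pow_exp 2160 400 (by norm_num) 100
  refine ⟨max m₀ 1, fun m hm D hD1 hD2 N hN => ?_⟩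
  have hm1 : 1 ≤ m := le_trans (le_max_right _ _) hm
  have hmain := hm₀ m (le_trans (le_max_left _ _) hm)
  have hmR : (1 : ℝ) ≤ (m : ℝ) := by exact_mod_cast hm1
  have hm0 : (0 : ℝ) < (m : ℝ) := by linarith
  have hD1R : (m : ℝ) ^ 20 ≤ (D : ℝ) := by exact_mod_cast hD1
  have hD2R : (D : ℝ) ≤ 2 * (m : ℝ) ^ 20 := by exact_mod_cast hD2
  have hNR : (m : ℝ) ^ 4 ≤ (N : ℝ) := by exact_mod_cast hN
  have h20 : (1 : ℝ) ≤ (m : ℝ) ^ 20 := one_le_pow₀ hmR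
  have hDpos : (0 : ℝ) < (D : ℝ) := by linarith
  have hA : (D : ℝ) + 1 ≤ 3 * (m : ℝ) ^ 20 := by linarith
  have hB : (((D + 1 : ℕ) : ℝ) + 1) ≤ 4 * (m : ℝ) ^ 20 := by push_cast; linarith
  have hC : ((D + 1 : ℕ) : ℝ) ≤ 3 * (m : ℝ) ^ 20 := by push_cast; linarith
  have hE1 : Real.exp (-(((m ^ 15 : ℕ) : ℝ) ^ 2 / (16 * D))) ≤ Real.exp (-((m : ℝ) / 400)) := by
    apply Real.exp_le_exp.2
    apply neg_le_neg
    rw [div_le_div_iff₀ (by norm_num) (by positivity)]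
    push_cast
    have h10 : (m : ℝ) ≤ (m : ℝ) ^ 10 := le_self_pow₀ hmR (by norm_num)
    have h30 : ((m : ℝ) ^ 15) ^ 2 = (m : ℝ) ^ 10 * (m : ℝ) ^ 20 := by ring
    rw [h30]
    have : (m : ℝ) * (16 * (D : ℝ)) ≤ (m : ℝ) ^ 10 * (16 * (2 * (m : ℝ) ^ 20)) := by
      apply mul_le_mul h10 (by linarith) (by positivity) (by positivity)
    nlinarith [mul_pos (pow_pos hm0 10) (pow_pos hm0 20)]
  have hE2 : Real.exp (-((N : ℝ) / 400)) ≤ Real.exp (-((m : ℝ) / 400)) := by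
    apply Real.exp_le_exp.2
    apply neg_le_neg
    have h4 : (m : ℝ) ≤ (m : ℝ) ^ 4 := le_self_pow₀ hmR (by norm_num)
    apply div_le_div_of_nonneg_right (le_trans h4 hNR) (by norm_num)
  set X := Real.exp (-((m : ℝ) / 400)) with hX
  have hXpos : 0 < X := Real.exp_pos _
  have hP : 4 * (((D : ℝ) + 1) ^ 2 * (((D + 1 : ℕ) : ℝ) + 1)) ≤ 144 * (m : ℝ) ^ 60 := by
    have h1 : ((D : ℝ) + 1) ^ 2 ≤ (3 * (m : ℝ) ^ 20) ^ 2 := by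
      apply pow_le_pow_left₀ (by positivity) hA
    have h2 : ((D : ℝ) + 1) ^ 2 * (((D + 1 : ℕ) : ℝ) + 1) ≤
        (3 * (m : ℝ) ^ 20) ^ 2 * (4 * (m : ℝ) ^ 20) :=
      mul_le_mul h1 hB (by positivity) (by positivity)
    have h3 : (3 * (m : ℝ) ^ 20) ^ 2 * (4 * (m : ℝ) ^ 20) = 36 * (m : ℝ) ^ 60 := by ring
    linarith
  have hQ : ((D + 1 : ℕ) : ℝ) * Real.exp (-(((m ^ 15 : ℕ) : ℝ) ^ 2 / (16 * D))) +
        (D : ℝ) ^ 2 * (3 * Real.exp (-((N : ℝ) / 400))) ≤ 15 * (m : ℝ) ^ 40 * X := by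
    have h1 : ((D + 1 : ℕ) : ℝ) * Real.exp (-(((m ^ 15 : ℕ) : ℝ) ^ 2 / (16 * D))) ≤
        (3 * (m : ℝ) ^ 20) * X := mul_le_mul hC hE1 (Real.exp_pos _).le (by positivity)
    have h2 : (D : ℝ) ^ 2 ≤ (2 * (m : ℝ) ^ 20) ^ 2 := pow_le_pow_left₀ (by positivity) hD2R 2
    have h3 : (D : ℝ) ^ 2 * (3 * Real.exp (-((N : ℝ) / 400))) ≤ (2 * (m : ℝ) ^ 20) ^ 2 * (3 * X) :=
      mul_le_mul h2 (by linarith) (by positivity) (by positivity)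
    have h4 : (m : ℝ) ^ 20 ≤ (m : ℝ) ^ 40 := pow_le_pow_right₀ hmR (by norm_num)
    have h5 : (3 * (m : ℝ) ^ 20) * X ≤ (3 * (m : ℝ) ^ 40) * X :=
      mul_le_mul_of_nonneg_right (by linarith) hXpos.le
    have h6 : (2 * (m : ℝ) ^ 20) ^ 2 * (3 * X) = 12 * (m : ℝ) ^ 40 * X := by ring
    have h7 : (3 * (m : ℝ) ^ 40) * X + 12 * (m : ℝ) ^ 40 * X = 15 * (m : ℝ) ^ 40 * X := by ring
    linarith
  have hfin : 4 * (((D : ℝ) + 1) ^ 2 * (((D + 1 : ℕ) : ℝ) + 1)) *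
      (((D + 1 : ℕ) : ℝ) * Real.exp (-(((m ^ 15 : ℕ) : ℝ) ^ 2 / (16 * D))) +
        (D : ℝ) ^ 2 * (3 * Real.exp (-((N : ℝ) / 400)))) ≤
      (144 * (m : ℝ) ^ 60) * (15 * (m : ℝ) ^ 40 * X) :=
    mul_le_mul hP hQ (by positivity) (by positivity)
  have hring : (144 * (m : ℝ) ^ 60) * (15 * (m : ℝ) ^ 40 * X) = 2160 * (m : ℝ) ^ 100 * X := by ring
  rw [hring] at hfin
  exact le_trans hfin hmain

theorem num_log : ∃ m₀ : ℕ, ∀ m ≥ m₀, ∀ D : ℕ, D ≤ 2 * m ^ 20 → Nat.log 2 (D + 1) ≤ m := by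
  have h := tendsto_pow_const_div_const_pow_of_one_lt 20 (show (1 : ℝ) < 2 by norm_num)
  have h4 := h.eventually (gt_mem_nhds (show (0 : ℝ) < 1 / 4 by norm_num))
  obtain ⟨m₀, h5⟩ := Filter.eventually_atTop.1 h4
  refine ⟨max m₀ 1, fun m hm D hD => ?_⟩
  have h6 := h5 m (le_trans (le_max_left _ _) hm)
  have hm1 : 1 ≤ m := le_trans (le_max_right _ _) hm
  have h2 : (0 : ℝ) < 2 ^ m := by positivity
  rw [div_lt_iff₀ h2] at h6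
  have h7 : (4 : ℝ) * (m : ℝ) ^ 20 < 2 ^ m := by linarith
  have h8 : 4 * m ^ 20 < 2 ^ m := by exact_mod_cast h7
  have h9 : D + 1 < 2 ^ (m + 1) := by
    have h10 : 1 ≤ m ^ 20 := Nat.one_le_pow _ _ hm1
    rw [pow_succ]
    omega
  exact Nat.lt_succ_iff.1 (Nat.log_lt_of_lt_pow (by omega) h9)

theorem num_sides : ∃ D₀ : ℕ, ∀ D : ℕ, D₀ ≤ D →
    4 * (2 * ((D : ℝ) + 1) ^ 2) * (4 * Real.exp (-((D : ℝ) / 640000))) ≤ 1 := by
  obtain ⟨m₀, hm₀⟩ := ev_pow_exp 128 640000 (by norm_num) 2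
  refine ⟨max m₀ 1, fun D hD => ?_⟩
  have h1 := hm₀ D (le_trans (le_max_left _ _) hD)
  have hD1 : (1 : ℝ) ≤ (D : ℝ) := by exact_mod_cast (le_trans (le_max_right _ _) hD)
  have hX : 0 < Real.exp (-((D : ℝ) / 640000)) := Real.exp_pos _
  have h2 : ((D : ℝ) + 1) ^ 2 ≤ 4 * (D : ℝ) ^ 2 := by nlinarith
  have h3 : 4 * (2 * ((D : ℝ) + 1) ^ 2) * (4 * Real.exp (-((D : ℝ) / 640000))) ≤
      4 * (2 * (4 * (D : ℝ) ^ 2)) * (4 * Real.exp (-((D : ℝ) / 640000))) := by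
    apply mul_le_mul_of_nonneg_right _ (by positivity)
    linarith
  calc _ ≤ _ := h3
    _ = 128 * (D : ℝ) ^ 2 * Real.exp (-((D : ℝ) / 640000)) := by ring
    _ ≤ 1 := h1

end Pool.Agent.Helper6.AVD
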