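import Mathlib

/-! Project AVD, piece N2: numerical facts for the sparse subgraph. -/

set_option autoImplicit false
set_option linter.unusedSectionVars false

namespace Pool.Agent.Helper6.AVD

open Finset

private theorem n2_exp_small : ∃ m₁ : ℕ, ∀ m ≥ m₁,
    60000 * (m : ℝ) ^ 52 * Real.exp (-((m : ℝ) / 160000)) ≤ 1 := by
  have h1 : Filter.Tendsto (fun m : ℕ => ((m : ℝ) / 160000) ^ 52 *
      Real.exp (-((m : ℝ) / 160000))) Filter.atTop (nhds 0) := by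
    have h := Real.tendsto_pow_mul_exp_neg_atTop_nhds_zero 52
    have h2 : Filter.Tendsto (fun m : ℕ => (m : ℝ) / 160000) Filter.atTop Filter.atTop :=
      Filter.Tendsto.atTop_div_const (by norm_num) tendsto_natCast_atTop_atTop
    exact h.comp h2
  have hpos : (0 : ℝ) < 1 / (60000 * 160000 ^ 52) := by positivity
  have h3 := h1.eventually (gt_mem_nhds hpos)
  rw [Filter.eventually_atTop] at h3
  obtain ⟨m₁, hm₁⟩ := h3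
  refine ⟨m₁, fun m hm => ?_⟩
  have h4 := hm₁ m hm
  have h5 : 60000 * (m : ℝ) ^ 52 * Real.exp (-((m : ℝ) / 160000)) =
      (60000 * 160000 ^ 52) * (((m : ℝ) / 160000) ^ 52 * Real.exp (-((m : ℝ) / 160000))) := by
    rw [div_pow]
    field_simp
  rw [h5]
  have h6 := mul_le_mul_of_nonneg_left h4.le (by positivity : (0 : ℝ) ≤ 60000 * 160000 ^ 52)
  calc _ ≤ (60000 * 160000 ^ 52 : ℝ) * (1 / (60000 * 160000 ^ 52)) := h6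
    _ = 1 := by
        rw [mul_one_div, div_self]
        positivity

/-- `p = 1/m^19`, `κ = 24 m^16`, `t = 40`. `m ≤ p D ≤ 2m`, so the first term is `≤ 2 exp(-m/160000)`;
`D κ p² ≤ 48 m^36 / m^38 = 48/m²`, `κ p = 24/m³`; the prefactor is `≤ C m^52` and `D(1+κ) ≤ C m^36`. -/
theorem num_sparse : ∃ m₀ : ℕ, ∀ m ≥ m₀, ∀ D : ℕ, m ^ 20 ≤ D → D ≤ 2 * m ^ 20 →
    2 * ((40 : ℕ) : ℝ) * (1 + (40 : ℕ)) ≤ 1 / (m : ℝ) ^ 19 * D / 200 ∧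
    4 * ((D : ℝ) * (1 + (24 * m ^ 16 : ℕ)) * (2 * (1 + (24 * m ^ 16 : ℕ)))) *
      (2 * Real.exp (-(1 / (m : ℝ) ^ 19 * D / 160000)) +
        (D * (24 * m ^ 16 : ℕ) * (1 / (m : ℝ) ^ 19) ^ 2) ^ 40 +
        D * (1 + (24 * m ^ 16 : ℕ)) * ((24 * m ^ 16 : ℕ) * (1 / (m : ℝ) ^ 19)) ^ 40) ≤ 1 := by
  obtain ⟨m₁, hm₁⟩ := n2_exp_small
  refine ⟨max m₁ (10 ^ 6), fun m hm D hD1 hD2 => ?_⟩
  have hm1 : m₁ ≤ m := le_trans (le_max_left _ _) hm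
  have hm6 : 10 ^ 6 ≤ m := le_trans (le_max_right _ _) hm
  have hmR : (10 ^ 6 : ℝ) ≤ m := by exact_mod_cast hm6
  have hm0 : (0 : ℝ) < m := lt_of_lt_of_le (by norm_num) hmR
  have hmge1 : (1 : ℝ) ≤ m := le_trans (by norm_num) hmR
  have hD1' : (m : ℝ) ^ 20 ≤ D := by exact_mod_cast hD1
  have hD2' : (D : ℝ) ≤ 2 * m ^ 20 := by exact_mod_cast hD2
  have hD0 : (0 : ℝ) ≤ D := Nat.cast_nonneg D
  have hpD : (m : ℝ) ≤ 1 / (m : ℝ) ^ 19 * D := by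
    rw [one_div, inv_mul_eq_div, le_div_iff₀ (by positivity)]
    calc (m : ℝ) * (m : ℝ) ^ 19 = (m : ℝ) ^ 20 := by ring
      _ ≤ (D : ℝ) := hD1'
  have hkap : ((24 * m ^ 16 : ℕ) : ℝ) = 24 * (m : ℝ) ^ 16 := by push_cast; ring
  constructor
  · push_cast
    linarith
  · rw [hkap]
    have h16 : (1 : ℝ) ≤ (m : ℝ) ^ 16 := one_le_pow₀ hmge1
    have hk1 : 1 + 24 * (m : ℝ) ^ 16 ≤ 25 * (m : ℝ) ^ 16 := by linarith
    have hpre : 4 * ((D : ℝ) * (1 + 24 * (m : ℝ) ^ 16) * (2 * (1 + 24 * (m : ℝ) ^ 16))) ≤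
        10000 * (m : ℝ) ^ 52 := by
      calc 4 * ((D : ℝ) * (1 + 24 * (m : ℝ) ^ 16) * (2 * (1 + 24 * (m : ℝ) ^ 16)))
          ≤ 4 * ((2 * (m : ℝ) ^ 20) * (25 * (m : ℝ) ^ 16) * (2 * (25 * (m : ℝ) ^ 16))) := by
            gcongr
        _ = 10000 * (m : ℝ) ^ 52 := by ring
    have hexp : Real.exp (-(1 / (m : ℝ) ^ 19 * D / 160000)) ≤ Real.exp (-((m : ℝ) / 160000)) := by
      apply Real.exp_le_exp.mpr
      have : (m : ℝ) / 160000 ≤ 1 / (m : ℝ) ^ 19 * D / 160000 := by gcongr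
      linarith
    have h2 : ((D : ℝ) * (24 * (m : ℝ) ^ 16) * (1 / (m : ℝ) ^ 19) ^ 2) ^ 40 ≤
        48 ^ 40 / (m : ℝ) ^ 80 := by
      calc ((D : ℝ) * (24 * (m : ℝ) ^ 16) * (1 / (m : ℝ) ^ 19) ^ 2) ^ 40
          ≤ ((2 * (m : ℝ) ^ 20) * (24 * (m : ℝ) ^ 16) * (1 / (m : ℝ) ^ 19) ^ 2) ^ 40 := by
            gcongr
        _ = (48 / (m : ℝ) ^ 2) ^ 40 := by
            congr 1
            field_simp
            ring
        _ = 48 ^ 40 / (m : ℝ) ^ 80 := by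
            rw [div_pow, ← pow_mul]
    have h3 : (D : ℝ) * (1 + 24 * (m : ℝ) ^ 16) * (24 * (m : ℝ) ^ 16 * (1 / (m : ℝ) ^ 19)) ^ 40 ≤
        50 * 24 ^ 40 / (m : ℝ) ^ 84 := by
      calc (D : ℝ) * (1 + 24 * (m : ℝ) ^ 16) * (24 * (m : ℝ) ^ 16 * (1 / (m : ℝ) ^ 19)) ^ 40
          ≤ (2 * (m : ℝ) ^ 20) * (25 * (m : ℝ) ^ 16) *
              (24 * (m : ℝ) ^ 16 * (1 / (m : ℝ) ^ 19)) ^ 40 := by
            gcongr
        _ = (2 * (m : ℝ) ^ 20) * (25 * (m : ℝ) ^ 16) * (24 / (m : ℝ) ^ 3) ^ 40 := by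
            congr 2
            field_simp
        _ = 50 * 24 ^ 40 / (m : ℝ) ^ 84 := by
            rw [div_pow, ← pow_mul, eq_div_iff (by positivity)]
            have h120 : (m : ℝ) ^ (3 * 40) = (m : ℝ) ^ 36 * (m : ℝ) ^ 84 := by
              rw [← pow_add]
            rw [h120]
            field_simp
            ring
    have hbr : 2 * Real.exp (-(1 / (m : ℝ) ^ 19 * D / 160000)) +
        ((D : ℝ) * (24 * (m : ℝ) ^ 16) * (1 / (m : ℝ) ^ 19) ^ 2) ^ 40 +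
        (D : ℝ) * (1 + 24 * (m : ℝ) ^ 16) * (24 * (m : ℝ) ^ 16 * (1 / (m : ℝ) ^ 19)) ^ 40 ≤
        2 * Real.exp (-((m : ℝ) / 160000)) + 48 ^ 40 / (m : ℝ) ^ 80 +
          50 * 24 ^ 40 / (m : ℝ) ^ 84 := by
      linarith
    have hbr0 : 0 ≤ 2 * Real.exp (-(1 / (m : ℝ) ^ 19 * D / 160000)) +
        ((D : ℝ) * (24 * (m : ℝ) ^ 16) * (1 / (m : ℝ) ^ 19) ^ 2) ^ 40 +
        (D : ℝ) * (1 + 24 * (m : ℝ) ^ 16) * (24 * (m : ℝ) ^ 16 * (1 / (m : ℝ) ^ 19)) ^ 40 := by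
      positivity
    have hA := hm₁ m hm1
    have hB : 10000 * (m : ℝ) ^ 52 * (48 ^ 40 / (m : ℝ) ^ 80) ≤ 1 / 3 := by
      have h80 : (m : ℝ) ^ 80 = (m : ℝ) ^ 52 * (m : ℝ) ^ 28 := by rw [← pow_add]
      rw [h80]
      have : 10000 * (m : ℝ) ^ 52 * (48 ^ 40 / ((m : ℝ) ^ 52 * (m : ℝ) ^ 28)) =
          10000 * 48 ^ 40 / (m : ℝ) ^ 28 := by
        field_simp
      rw [this, div_le_iff₀ (by positivity)]
      have h28 : ((10 : ℝ) ^ 6) ^ 28 ≤ (m : ℝ) ^ 28 := by gcongr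
      calc (10000 * 48 ^ 40 : ℝ) ≤ 1 / 3 * ((10 : ℝ) ^ 6) ^ 28 := by norm_num
        _ ≤ 1 / 3 * (m : ℝ) ^ 28 := by linarith
    have hC : 10000 * (m : ℝ) ^ 52 * (50 * 24 ^ 40 / (m : ℝ) ^ 84) ≤ 1 / 3 := by
      have h84 : (m : ℝ) ^ 84 = (m : ℝ) ^ 52 * (m : ℝ) ^ 32 := by rw [← pow_add]
      rw [h84]
      have : 10000 * (m : ℝ) ^ 52 * (50 * 24 ^ 40 / ((m : ℝ) ^ 52 * (m : ℝ) ^ 32)) =
          10000 * (50 * 24 ^ 40) / (m : ℝ) ^ 32 := by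
        field_simp
      rw [this, div_le_iff₀ (by positivity)]
      have h32 : ((10 : ℝ) ^ 6) ^ 32 ≤ (m : ℝ) ^ 32 := by gcongr
      calc (10000 * (50 * 24 ^ 40) : ℝ) ≤ 1 / 3 * ((10 : ℝ) ^ 6) ^ 32 := by norm_num
        _ ≤ 1 / 3 * (m : ℝ) ^ 32 := by linarith
    calc 4 * ((D : ℝ) * (1 + 24 * (m : ℝ) ^ 16) * (2 * (1 + 24 * (m : ℝ) ^ 16))) *
      (2 * Real.exp (-(1 / (m : ℝ) ^ 19 * D / 160000)) +
        ((D : ℝ) * (24 * (m : ℝ) ^ 16) * (1 / (m : ℝ) ^ 19) ^ 2) ^ 40 +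
        (D : ℝ) * (1 + 24 * (m : ℝ) ^ 16) * (24 * (m : ℝ) ^ 16 * (1 / (m : ℝ) ^ 19)) ^ 40)
        ≤ (10000 * (m : ℝ) ^ 52) *
          (2 * Real.exp (-((m : ℝ) / 160000)) + 48 ^ 40 / (m : ℝ) ^ 80 +
          50 * 24 ^ 40 / (m : ℝ) ^ 84) := mul_le_mul hpre hbr hbr0 (by positivity)
      _ = 1 / 3 * (60000 * (m : ℝ) ^ 52 * Real.exp (-((m : ℝ) / 160000))) +
          10000 * (m : ℝ) ^ 52 * (48 ^ 40 / (m : ℝ) ^ 80) +
          10000 * (m : ℝ) ^ 52 * (50 * 24 ^ 40 / (m : ℝ) ^ 84) := by ring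
      _ ≤ 1 := by linarith

/-- PROOF. `m` = the largest number with `m^20 ≤ D`; `D < (m+1)^20 ≤ 2 m^20` as soon as `m ≥ 30`
(`(1 + 1/m)^20 ≤ exp(20/m) ≤ 2` for `m ≥ 29`). -/
theorem num_param : ∀ m₀ : ℕ, ∃ D₀ : ℕ, ∀ D : ℕ, D₀ ≤ D →
    ∃ m : ℕ, m₀ ≤ m ∧ m ^ 20 ≤ D ∧ D ≤ 2 * m ^ 20 := by
  intro m₀
  refine ⟨(max m₀ 30) ^ 20, fun D hD => ?_⟩
  have hle : max m₀ 30 ≤ D :=
    le_trans (Nat.le_self_pow (by norm_num) _) hD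
  have hg : max m₀ 30 ≤ Nat.findGreatest (fun m => m ^ 20 ≤ D) D :=
    Nat.le_findGreatest hle hD
  have hs : (Nat.findGreatest (fun m => m ^ 20 ≤ D) D) ^ 20 ≤ D :=
    Nat.findGreatest_spec (P := fun m => m ^ 20 ≤ D) hle hD
  set m := Nat.findGreatest (fun m => m ^ 20 ≤ D) D with hm
  refine ⟨m, le_trans (le_max_left _ _) hg, hs, ?_⟩
  have h30 : 30 ≤ m := le_trans (le_max_right _ _) hg
  have hlt : D < (m + 1) ^ 20 := by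
    by_contra hcon
    push Not at hcon
    have h1 : m + 1 ≤ D := le_trans (Nat.le_self_pow (by norm_num) _) hcon
    have h2 : m + 1 ≤ Nat.findGreatest (fun m => m ^ 20 ≤ D) D := Nat.le_findGreatest h1 hcon
    omega
  have h31 : 30 * (m + 1) ≤ 31 * m := by omega
  have hpow : (30 * (m + 1)) ^ 20 ≤ (31 * m) ^ 20 := Nat.pow_le_pow_left h31 20
  rw [mul_pow, mul_pow] at hpow
  have hc : 31 ^ 20 ≤ 2 * 30 ^ 20 := by norm_num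
  have h3 : 30 ^ 20 * (m + 1) ^ 20 ≤ 30 ^ 20 * (2 * m ^ 20) := by
    calc 30 ^ 20 * (m + 1) ^ 20 ≤ 31 ^ 20 * m ^ 20 := hpow
      _ ≤ (2 * 30 ^ 20) * m ^ 20 := Nat.mul_le_mul_right _ hc
      _ = 30 ^ 20 * (2 * m ^ 20) := by ring
  have h4 : (m + 1) ^ 20 ≤ 2 * m ^ 20 := Nat.le_of_mul_le_mul_left h3 (by positivity)
  omega

end Pool.Agent.Helper6.AVD
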