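import Pool.Agent.Helper6.AVD.Base

/-! Project AVD: edge colourings of simple graphs (definitions). -/

set_option autoImplicit false
set_option linter.unusedSectionVars false

namespace Pool.Agent.Helper6.AVD

open Finset

variable {V : Type*} [Fintype V] [DecidableEq V]

/-- colours at `v` -/
def gpal (G : SimpleGraph V) [DecidableRel G.Adj] {n : ℕ} (c : Sym2 V → Fin n) (v : V) :
    Finset (Fin n) := (G.neighborFinset v).image fun w => c s(v, w)

/-- `c` is a proper edge colouring of `G` -/
def GProper (G : SimpleGraph V) {n : ℕ} (c : Sym2 V → Fin n) : Prop :=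
  ∀ v w w', G.Adj v w → G.Adj v w' → c s(v, w) = c s(v, w') → w = w'

/-- low vertices: `10 d(v) ≤ 3 D` -/
def Low (G : SimpleGraph V) [DecidableRel G.Adj] (D : ℕ) (v : V) : Prop := 10 * G.degree v ≤ 3 * D

/-- bad pairs: adjacent low vertices of the same degree `≥ 2` with the same colours -/
def IsBad (G : SimpleGraph V) [DecidableRel G.Adj] (D : ℕ) {n : ℕ} (c : Sym2 V → Fin n)
    (q : V × V) : Prop :=
  G.Adj q.1 q.2 ∧ Low G D q.1 ∧ Low G D q.2 ∧ G.degree q.1 = G.degree q.2 ∧ 2 ≤ G.degree q.1 ∧
    gpal G c q.1 = gpal G c q.2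

open Classical in
/-- the number of (ordered) bad pairs -/
noncomputable def badCount (G : SimpleGraph V) [DecidableRel G.Adj] (D : ℕ) {n : ℕ}
    (c : Sym2 V → Fin n) : ℕ := (univ.filter fun q => IsBad G D c q).card

/-- the two colourings agree except possibly on edges joining two low vertices -/
def AgreeOff (G : SimpleGraph V) [DecidableRel G.Adj] (D : ℕ) {n : ℕ} (c c' : Sym2 V → Fin n) :
    Prop := ∀ v w, G.Adj v w → ¬ (Low G D v ∧ Low G D w) → c s(v, w) = c' s(v, w)

end Pool.Agent.Helper6.AVD
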