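import Pool.Agent.Helper6.AVD.Base
import Pool.Agent.Helper6.AVD.St.L0

/-! Project AVD, piece L1: greedy extension to the low-low edges. -/

set_option autoImplicit false
set_option linter.unusedSectionVars false

namespace Pool.Agent.Helper6.AVD

open Finset

variable {V : Type*} [Fintype V] [DecidableEq V]

private theorem l1_aux (G : SimpleGraph V) [DecidableRel G.Adj] (D : ℕ)
    (c₀ : Sym2 V → Fin (D + 3))
    (h₀ : ∀ v w w', G.Adj v w → G.Adj v w' → ¬ (Low G D v ∧ Low G D w) → ¬ (Low G D v ∧ Low G D w') →
      c₀ s(v, w) = c₀ s(v, w') → w = w') (T : Finset (Sym2 V)) :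
    (∀ e ∈ T, ∃ v w, e = s(v, w) ∧ Low G D v ∧ Low G D w) →
    ∃ c : Sym2 V → Fin (D + 3), (∀ e, e ∉ T → c e = c₀ e) ∧
      ∀ v w w', G.Adj v w → G.Adj v w' → (s(v, w) ∈ T ∨ ¬ (Low G D v ∧ Low G D w)) →
        (s(v, w') ∈ T ∨ ¬ (Low G D v ∧ Low G D w')) → c s(v, w) = c s(v, w') → w = w' := by
  classical
  induction T using Finset.induction_on with
  | empty =>
    intro _
    refine ⟨c₀, fun _ _ => rfl, ?_⟩
    intro v w w' h1 h2 h3 h4 h5
    have h3' : ¬ (Low G D v ∧ Low G D w) := by
      rcases h3 with h | h
      · exact absurd h (Finset.notMem_empty _)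
      · exact h
    have h4' : ¬ (Low G D v ∧ Low G D w') := by
      rcases h4 with h | h
      · exact absurd h (Finset.notMem_empty _)
      · exact h
    exact h₀ v w w' h1 h2 h3' h4' h5
  | insert e T he ih =>
    intro hT
    obtain ⟨c, hc1, hc2⟩ := ih (fun f hf => hT f (Finset.mem_insert_of_mem hf))
    obtain ⟨v, w, hevw, hv, hw⟩ := hT e (Finset.mem_insert_self _ _)
    -- a free colour
    have hcard : (gpal G c v ∪ gpal G c w).card < D + 3 := by
      have h1 : (gpal G c v).card ≤ G.degree v := by
        unfold gpal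
        exact le_trans Finset.card_image_le (le_of_eq (G.card_neighborFinset_eq_degree v))
      have h2 : (gpal G c w).card ≤ G.degree w := by
        unfold gpal
        exact le_trans Finset.card_image_le (le_of_eq (G.card_neighborFinset_eq_degree w))
      have h3 := Finset.card_union_le (gpal G c v) (gpal G c w)
      unfold Low at hv hw
      omega
    obtain ⟨x, hx⟩ : ∃ x : Fin (D + 3), x ∉ gpal G c v ∪ gpal G c w := by
      by_contra hcon
      push Not at hcon
      have h1 : (Finset.univ : Finset (Fin (D + 3))) ⊆ gpal G c v ∪ gpal G c w :=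
        fun y _ => hcon y
      have h2 := Finset.card_le_card h1
      rw [Finset.card_univ, Fintype.card_fin] at h2
      omega
    rw [Finset.mem_union, not_or] at hx
    have key : ∀ a b b', G.Adj a b → G.Adj a b' → s(a, b) = e → s(a, b') ≠ e →
        c s(a, b') ≠ x := by
      intro a b b' _ hab' h1 _ h2
      have ha : a = v ∨ a = w := by
        have h3 : a ∈ s(v, w) := by
          rw [← hevw, ← h1]; exact Sym2.mem_mk_left a b
        exact Sym2.mem_iff.mp h3
      have h3 : x ∈ gpal G c a := by
        unfold gpal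
        rw [Finset.mem_image]
        exact ⟨b', (G.mem_neighborFinset a b').mpr hab', h2⟩
      rcases ha with rfl | rfl
      · exact hx.1 h3
      · exact hx.2 h3
    refine ⟨Function.update c e x, ?_, ?_⟩
    · intro f hf
      have hfe : f ≠ e := fun h => hf (h ▸ Finset.mem_insert_self _ _)
      have hfT : f ∉ T := fun h => hf (Finset.mem_insert_of_mem h)
      rw [Function.update_of_ne hfe]
      exact hc1 f hfT
    · intro a b b' hab hab' hb hb' heq
      by_cases h1 : s(a, b) = e
      · by_cases h2 : s(a, b') = e
        · have h3 : s(a, b) = s(a, b') := h1.trans h2.symm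
          exact Sym2.congr_right.mp h3
        · exfalso
          rw [h1, Function.update_self, Function.update_of_ne h2] at heq
          exact key a b b' hab hab' h1 h2 heq.symm
      · by_cases h2 : s(a, b') = e
        · exfalso
          rw [h2, Function.update_self, Function.update_of_ne h1] at heq
          exact key a b' b hab' hab h2 h1 heq
        · rw [Function.update_of_ne h1, Function.update_of_ne h2] at heq
          refine hc2 a b b' hab hab' ?_ ?_ heq
          · rcases hb with h | h
            · exact Or.inl ((Finset.mem_insert.mp h).resolve_left h1)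
            · exact Or.inr h
          · rcases hb' with h | h
            · exact Or.inl ((Finset.mem_insert.mp h).resolve_left h2)
            · exact Or.inr h

/-- `c₀` is proper on the edges that do not join two low vertices; it can be extended to a proper colouring.
PROOF. Colour the low-low edges one after the other (induction on a finset `T` of coloured low-low edges in
`Sym2 V`, keeping (proper on the non-low-low edges and the edges in `T`)). When `vw` is coloured at most
`(d(v)-1) + (d(w)-1) ≤ 6D/10 < D + 3` colours are forbidden. -/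
theorem extend_low (G : SimpleGraph V) [DecidableRel G.Adj] (D : ℕ) (c₀ : Sym2 V → Fin (D + 3))
    (h₀ : ∀ v w w', G.Adj v w → G.Adj v w' → ¬ (Low G D v ∧ Low G D w) → ¬ (Low G D v ∧ Low G D w') →
      c₀ s(v, w) = c₀ s(v, w') → w = w') :
    ∃ c : Sym2 V → Fin (D + 3), GProper G c ∧ AgreeOff G D c₀ c := by
  classical
  obtain ⟨c, hc1, hc2⟩ := l1_aux G D c₀ h₀
    (Finset.univ.filter fun e => ∃ v w, e = s(v, w) ∧ Low G D v ∧ Low G D w)
    (fun e he => (Finset.mem_filter.mp he).2)
  have hmem : ∀ v w, s(v, w) ∈ (Finset.univ.filter fun e : Sym2 V =>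
      ∃ v w, e = s(v, w) ∧ Low G D v ∧ Low G D w) ∨ ¬ (Low G D v ∧ Low G D w) := by
    intro v w
    by_cases h : Low G D v ∧ Low G D w
    · exact Or.inl (Finset.mem_filter.mpr ⟨Finset.mem_univ _, v, w, rfl, h.1, h.2⟩)
    · exact Or.inr h
  refine ⟨c, ?_, ?_⟩
  · intro v w w' h1 h2 h3
    exact hc2 v w w' h1 h2 (hmem v w) (hmem v w') h3
  · intro v w _ hn
    have h : s(v, w) ∉ (Finset.univ.filter fun e : Sym2 V =>
        ∃ v w, e = s(v, w) ∧ Low G D v ∧ Low G D w) := by
      intro hmem'
      obtain ⟨-, a, b, hab, ha, hb⟩ := Finset.mem_filter.mp hmem'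
      rcases Sym2.eq_iff.mp hab with ⟨rfl, rfl⟩ | ⟨rfl, rfl⟩
      · exact hn ⟨ha, hb⟩
      · exact hn ⟨hb, ha⟩
    exact (hc1 _ h).symm

end Pool.Agent.Helper6.AVD
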