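import Pool.Agent.Helper6.AVD.Base
import Pool.Agent.Helper6.AVD.St.L0

/-! Project AVD, piece L3: recolouring two low-low edges. -/

set_option autoImplicit false
set_option linter.unusedSectionVars false

namespace Pool.Agent.Helper6.AVD

open Finset

variable {V : Type*} [Fintype V] [DecidableEq V]

theorem l3_upd_same (G : SimpleGraph V) [DecidableRel G.Adj] {n : ℕ} (c : Sym2 V → Fin n)
    (hc : GProper G c) {a b : V} (hab : G.Adj a b) (γ : Fin n) :
    gpal G (Function.update c s(a, b) γ) a = insert γ ((gpal G c a).erase (c s(a, b))) := by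
  ext k
  simp only [gpal, mem_image, SimpleGraph.mem_neighborFinset, mem_insert, mem_erase]
  constructor
  · rintro ⟨x, hx, rfl⟩
    by_cases hxb : x = b
    · subst hxb
      left
      simp
    · right
      have hne : s(a, x) ≠ s(a, b) := fun h => hxb (Sym2.congr_right.mp h)
      rw [Function.update_of_ne hne]
      exact ⟨fun h => hxb (hc a x b hx hab h), x, hx, rfl⟩
  · rintro (h | ⟨hk, x, hx, rfl⟩)
    · exact ⟨b, hab, by rw [Function.update_self, h]⟩
    · have hxb : x ≠ b := by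
        rintro rfl
        exact hk rfl
      refine ⟨x, hx, ?_⟩
      rw [Function.update_of_ne]
      exact fun h => hxb (Sym2.congr_right.mp h)

theorem l3_upd_other (G : SimpleGraph V) [DecidableRel G.Adj] {n : ℕ} (c : Sym2 V → Fin n)
    {a b x : V} (hxa : x ≠ a) (hxb : x ≠ b) (γ : Fin n) :
    gpal G (Function.update c s(a, b) γ) x = gpal G c x := by
  unfold gpal
  apply image_congr
  intro y _
  show Function.update c s(a, b) γ s(x, y) = c s(x, y)
  rw [Function.update_of_ne]
  intro h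
  rcases Sym2.eq_iff.mp h with ⟨h1, _⟩ | ⟨h1, _⟩
  · exact hxa h1
  · exact hxb h1

theorem l3_mem_gpal (G : SimpleGraph V) [DecidableRel G.Adj] {n : ℕ} (c : Sym2 V → Fin n)
    {a b : V} (hab : G.Adj a b) : c s(a, b) ∈ gpal G c a := by
  unfold gpal
  rw [mem_image]
  exact ⟨b, by simpa using hab, rfl⟩

theorem l3_upd_proper (G : SimpleGraph V) [DecidableRel G.Adj] {n : ℕ} (c : Sym2 V → Fin n)
    (hc : GProper G c) {a b : V} {γ : Fin n} (ha : γ ∉ gpal G c a) (hb : γ ∉ gpal G c b) :
    GProper G (Function.update c s(a, b) γ) := by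
  have aux : ∀ p q, G.Adj p q → ∀ q₁, s(p, q₁) = s(a, b) → γ ≠ c s(p, q) := by
    intro p q hpq q₁ h1 h
    rcases Sym2.eq_iff.mp h1 with ⟨h2, _⟩ | ⟨h2, _⟩
    · apply ha
      rw [h, ← h2]
      exact l3_mem_gpal G c hpq
    · apply hb
      rw [h, ← h2]
      exact l3_mem_gpal G c hpq
  intro p q q' hq hq' h
  by_cases h1 : s(p, q) = s(a, b)
  · by_cases h2 : s(p, q') = s(a, b)
    · exact Sym2.congr_right.mp (h1.trans h2.symm)
    · exfalso
      rw [h1, Function.update_self, Function.update_of_ne h2] at h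
      exact aux p q' hq' q h1 h
  · by_cases h2 : s(p, q') = s(a, b)
    · exfalso
      rw [h2, Function.update_self, Function.update_of_ne h1] at h
      exact aux p q hq q' h2 h.symm
    · rw [Function.update_of_ne h1, Function.update_of_ne h2] at h
      exact hc p q q' hq hq' h

theorem l3_card_gpal (G : SimpleGraph V) [DecidableRel G.Adj] {n : ℕ} (c : Sym2 V → Fin n)
    (a : V) : (gpal G c a).card ≤ G.degree a := by
  unfold gpal
  exact card_image_le

/-- the admissible colours at one of the two edges -/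
theorem l3_gamma (D : ℕ) (Pu Pw A : Finset (Fin (D + 3))) (hA : A ⊆ Pw) (N : Finset V)
    (Q : V → Finset (Fin (D + 3))) (hu : 10 * Pu.card ≤ 3 * D) (hw : 10 * Pw.card ≤ 3 * D)
    (hN : 10 * N.card ≤ 3 * D) :
    D + 30 ≤ 10 * (univ.filter fun γ => γ ∉ Pu ∧ γ ∉ Pw ∧ ∀ x ∈ N, insert γ A ≠ Q x).card := by
  classical
  set Γ := univ.filter fun γ => γ ∉ Pu ∧ γ ∉ Pw ∧ ∀ x ∈ N, insert γ A ≠ Q x with hΓ
  have h1 : Γ.card + (Γᶜ).card = D + 3 := by
    rw [card_add_card_compl, Fintype.card_fin]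
  have h2 : Γᶜ ⊆ (Pu ∪ Pw) ∪ N.biUnion fun x =>
      univ.filter fun γ => γ ∉ Pw ∧ insert γ A = Q x := by
    intro γ hγ
    rw [mem_compl, hΓ, mem_filter] at hγ
    rw [mem_union, mem_union, mem_biUnion]
    by_contra hcon
    push Not at hcon
    obtain ⟨⟨h3, h4⟩, h5⟩ := hcon
    apply hγ
    refine ⟨mem_univ _, h3, h4, ?_⟩
    intro x hx hxx
    exact h5 x hx (mem_filter.mpr ⟨mem_univ _, h4, hxx⟩)
  have h3 : (N.biUnion fun x => univ.filter fun γ => γ ∉ Pw ∧ insert γ A = Q x).card ≤ N.card := by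
    calc _ ≤ ∑ x ∈ N, (univ.filter fun γ => γ ∉ Pw ∧ insert γ A = Q x).card := card_biUnion_le
      _ ≤ ∑ x ∈ N, 1 := by
          apply sum_le_sum
          intro x _
          rw [card_le_one]
          intro p hp q hq
          rw [mem_filter] at hp hq
          have h4 : p ∈ insert q A := by
            rw [hq.2.2, ← hp.2.2]
            exact mem_insert_self _ _
          rcases mem_insert.mp h4 with h5 | h5
          · exact h5
          · exact absurd (hA h5) hp.2.1
      _ = N.card := by simp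
  have h4 : (Γᶜ).card ≤ (Pu.card + Pw.card) + N.card := by
    calc (Γᶜ).card ≤ _ := card_le_card h2
      _ ≤ (Pu ∪ Pw).card + _ := card_union_le _ _
      _ ≤ (Pu.card + Pw.card) + N.card := Nat.add_le_add (card_union_le _ _) h3
  omega

/-- choice of the two colours -/
theorem l3_choice (D : ℕ) (hD : 1000 ≤ D) (A A' U : Finset (Fin (D + 3))) (X : Finset V)
    (Q : V → Finset (Fin (D + 3))) (hX : 10 * X.card ≤ 3 * D) (Γ Γ' : Finset (Fin (D + 3)))
    (hΓ : D + 30 ≤ 10 * Γ.card) (hΓ' : D + 30 ≤ 10 * Γ'.card) (h1 : ∀ γ ∈ Γ, γ ∉ A ∧ γ ∉ U)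
    (h2 : ∀ γ ∈ Γ', γ ∉ A' ∧ γ ∉ U) :
    ∃ γ ∈ Γ, ∃ γ' ∈ Γ', γ ≠ γ' ∧ insert γ A ≠ insert γ' A' ∧
      (∀ x ∈ X, insert γ' (insert γ U) ≠ Q x) ∧ insert γ' (insert γ U) ≠ insert γ A ∧
      insert γ' (insert γ U) ≠ insert γ' A' := by
  classical
  by_contra hcon
  push Not at hcon
  set S := Γ ×ˢ Γ' with hS
  have hinj1 : ∀ T : Finset (Fin (D + 3) × Fin (D + 3)),
      (∀ p ∈ T, ∀ q ∈ T, p.2 = q.2 → p.1 = q.1) → T.card ≤ D + 3 := by
    intro T hT
    have h3 : T.card ≤ (univ : Finset (Fin (D + 3))).card := by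
      apply card_le_card_of_injOn Prod.snd (fun _ _ => mem_coe.mpr (mem_univ _))
      intro p hp q hq hpq
      exact Prod.ext (hT p hp q hq hpq) hpq
    simpa using h3
  have hinj2 : ∀ T : Finset (Fin (D + 3) × Fin (D + 3)),
      (∀ p ∈ T, ∀ q ∈ T, p.1 = q.1 → p.2 = q.2) → T.card ≤ D + 3 := by
    intro T hT
    have h3 : T.card ≤ (univ : Finset (Fin (D + 3))).card := by
      apply card_le_card_of_injOn Prod.fst (fun _ _ => mem_coe.mpr (mem_univ _))
      intro p hp q hq hpq
      exact Prod.ext hpq (hT p hp q hq hpq)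
    simpa using h3
  set T1 := S.filter fun p => p.1 = p.2 with hT1
  set T2 := S.filter fun p => insert p.1 A = insert p.2 A' with hT2
  set T3 := X.biUnion fun x => S.filter fun p => insert p.2 (insert p.1 U) = Q x with hT3
  set T4 := S.filter fun p => p.1 ≠ p.2 ∧ insert p.2 (insert p.1 U) = insert p.1 A with hT4
  set T5 := S.filter fun p => p.1 ≠ p.2 ∧ insert p.2 (insert p.1 U) = insert p.2 A' with hT5
  have hsub : S ⊆ T1 ∪ (T2 ∪ (T3 ∪ (T4 ∪ T5))) := by
    intro p hp
    have hp' := hp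
    rw [hS, mem_product] at hp'
    simp only [mem_union]
    by_cases e1 : p.1 = p.2
    · left
      exact mem_filter.mpr ⟨hp, e1⟩
    right
    by_cases e2 : insert p.1 A = insert p.2 A'
    · left
      exact mem_filter.mpr ⟨hp, e2⟩
    right
    by_cases e3 : ∀ x ∈ X, insert p.2 (insert p.1 U) ≠ Q x
    · right
      by_cases e4 : insert p.2 (insert p.1 U) = insert p.1 A
      · left
        exact mem_filter.mpr ⟨hp, e1, e4⟩
      · right
        exact mem_filter.mpr ⟨hp, e1, hcon p.1 hp'.1 p.2 hp'.2 e1 e2 e3 e4⟩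
    · left
      push Not at e3
      obtain ⟨x, hx, e3⟩ := e3
      exact mem_biUnion.mpr ⟨x, hx, mem_filter.mpr ⟨hp, e3⟩⟩
  have c1 : T1.card ≤ D + 3 := by
    apply hinj1
    intro p hp q hq hpq
    rw [hT1, mem_filter] at hp hq
    rw [hp.2, hq.2, hpq]
  have mS : ∀ p ∈ S, (p.1 ∉ A ∧ p.1 ∉ U) ∧ (p.2 ∉ A' ∧ p.2 ∉ U) := by
    intro p hp
    rw [hS, mem_product] at hp
    exact ⟨h1 _ hp.1, h2 _ hp.2⟩
  have c2 : T2.card ≤ D + 3 := by
    apply hinj1
    intro p hp q hq hpq
    rw [hT2, mem_filter] at hp hq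
    have h3 : p.1 ∈ insert q.1 A := by
      rw [hq.2, ← hpq, ← hp.2]
      exact mem_insert_self _ _
    rcases mem_insert.mp h3 with h4 | h4
    · exact h4
    · exact absurd h4 (mS p hp.1).1.1
  have c4 : T4.card ≤ D + 3 := by
    apply hinj2
    intro p hp q hq hpq
    rw [hT4, mem_filter] at hp hq
    have h3 : p.2 ∈ insert q.2 (insert q.1 U) := by
      rw [hq.2.2, ← hpq, ← hp.2.2]
      exact mem_insert_self _ _
    rcases mem_insert.mp h3 with h4 | h4
    · exact h4
    · rcases mem_insert.mp h4 with h5 | h5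
      · exact absurd (hpq.trans h5.symm) hp.2.1
      · exact absurd h5 (mS p hp.1).2.2
  have c5 : T5.card ≤ D + 3 := by
    apply hinj1
    intro p hp q hq hpq
    rw [hT5, mem_filter] at hp hq
    have h3 : p.1 ∈ insert q.2 (insert q.1 U) := by
      rw [hq.2.2, ← hpq, ← hp.2.2]
      exact mem_insert_of_mem (mem_insert_self _ _)
    rcases mem_insert.mp h3 with h4 | h4
    · exact absurd (h4.trans hpq.symm) hp.2.1
    · rcases mem_insert.mp h4 with h5 | h5
      · exact h5
      · exact absurd h5 (mS p hp.1).1.2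
  have c3 : T3.card ≤ 4 * X.card := by
    calc T3.card ≤ ∑ x ∈ X, (S.filter fun p => insert p.2 (insert p.1 U) = Q x).card :=
          card_biUnion_le
      _ ≤ ∑ x ∈ X, 4 := by
          apply sum_le_sum
          intro x _
          rcases (S.filter fun p => insert p.2 (insert p.1 U) = Q x).eq_empty_or_nonempty with
            he | ⟨p0, hp0⟩
          · rw [he]
            simp
          · rw [mem_filter] at hp0
            have h3 : (Q x \ U).card ≤ 2 := by
              have h4 : Q x \ U ⊆ {p0.2, p0.1} := by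
                intro t ht
                rw [mem_sdiff, ← hp0.2, mem_insert, mem_insert] at ht
                rw [mem_insert, mem_singleton]
                rcases ht with ⟨h5 | h5 | h5, h6⟩
                · exact Or.inl h5
                · exact Or.inr h5
                · exact absurd h5 h6
              exact (card_le_card h4).trans (card_insert_le _ _ |>.trans (by simp))
            have h4 : (S.filter fun p => insert p.2 (insert p.1 U) = Q x) ⊆
                (Q x \ U) ×ˢ (Q x \ U) := by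
              intro p hp
              rw [mem_filter] at hp
              rw [mem_product, mem_sdiff, mem_sdiff, ← hp.2]
              exact ⟨⟨mem_insert_of_mem (mem_insert_self _ _), (mS p hp.1).1.2⟩,
                ⟨mem_insert_self _ _, (mS p hp.1).2.2⟩⟩
            calc _ ≤ ((Q x \ U) ×ˢ (Q x \ U)).card := card_le_card h4
              _ = (Q x \ U).card * (Q x \ U).card := card_product _ _
              _ ≤ 2 * 2 := Nat.mul_le_mul h3 h3
      _ = 4 * X.card := by simp [mul_comm]
  have htot : S.card ≤ 4 * (D + 3) + 4 * X.card := by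
    have e1 := card_le_card hsub
    have e2 := card_union_le T1 (T2 ∪ (T3 ∪ (T4 ∪ T5)))
    have e3 := card_union_le T2 (T3 ∪ (T4 ∪ T5))
    have e4 := card_union_le T3 (T4 ∪ T5)
    have e5 := card_union_le T4 T5
    omega
  rw [hS, card_product] at htot
  have h3 : (D + 30) * (D + 30) ≤ (10 * Γ.card) * (10 * Γ'.card) := Nat.mul_le_mul hΓ hΓ'
  have h4 : (10 * Γ.card) * (10 * Γ'.card) = 100 * (Γ.card * Γ'.card) := by ring
  have h5 : (D + 30) * (D + 30) ≤ 400 * (D + 3) + 40 * (3 * D) := by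
    rw [h4] at h3
    nlinarith
  nlinarith

/-- `(u, v)` is bad and `u` has two more low neighbours `w, w'`. `D ≥ 1000`.
PROOF. Recolour `s(u, w)` with `γ` and `s(u, w')` with `γ'`. Let `Γ` = the colours `γ ∉ gpal u ∪ gpal w` with
`insert γ (gpal w \ {c s(u,w)}) ≠ gpal x` for all low neighbours `x ≠ u, w'` of `w`; `|Γ| ≥ D + 3 - 9D/10 ≥ D/10`, similarly
`Γ'` for `w'`. Choose `(γ, γ') ∈ Γ × Γ'` avoiding: `γ = γ'` (`≤ D+3` pairs); `w, w'` adjacent and
`insert γ (gpal w \ {c s(u,w)}) = insert γ' (gpal w' \ {c s(u,w')})` (`γ` determined by `γ'`: `≤ D+3` pairs); for the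
low neighbours `x ≠ w, w', v` of `u`: `insert γ (insert γ' (gpal u \ {c s(u,w), c s(u,w')})) = gpal x` (the set `{γ, γ'}` is
determined: `≤ 2` pairs for each `x`, `≤ 6D/10` in total); `gpal' u = gpal' w`: after removing `γ` from both sides
`insert γ' (gpal u \ {..}) = gpal w \ {c s(u,w)}`: at most one `γ'` (`≤ D+3` pairs), same for `w'`. Total
`≤ 4(D+3) + 6D/10 < D²/100` for `D ≥ 1000`. Check: `c'` is proper, the palettes change only at `u, w, w'`, the pair
`(u, v)` is no longer bad (`γ ∈ gpal' u`, `γ ∉ gpal u = gpal v`), no pair meeting `{u, w, w'}` is bad (those with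
`(w, x)`: `x ≠ u, w'`: by `Γ`; `x = w'`: by the choice), all others are unchanged. -/
theorem recolour_two (G : SimpleGraph V) [DecidableRel G.Adj] (D : ℕ) (hD : 1000 ≤ D)
    (c : Sym2 V → Fin (D + 3)) (hc : GProper G c) (u v w w' : V) (hvw : v ≠ w) (hvw' : v ≠ w')
    (hww' : w ≠ w') (huw : G.Adj u w) (huw' : G.Adj u w') (hw : Low G D w) (hw' : Low G D w')
    (hbad : IsBad G D c (u, v)) :
    ∃ c' : Sym2 V → Fin (D + 3), GProper G c' ∧ AgreeOff G D c c' ∧
      badCount G D c' < badCount G D c := by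
  classical
  obtain ⟨huv, hlu, hlv, _, _, hpal⟩ := hbad
  simp only at huv hlu hlv hpal
  have huw0 : u ≠ w := huw.ne
  have huw0' : u ≠ w' := huw'.ne
  have huv0 : u ≠ v := huv.ne
  set P := gpal G c with hP
  set a := c s(u, w) with ha
  set a' := c s(u, w') with ha'
  have haP : a ∈ P u := l3_mem_gpal G c huw
  have haP' : a' ∈ P u := l3_mem_gpal G c huw'
  set A := (P w).erase a with hA
  set A' := (P w').erase a' with hA'
  set U := ((P u).erase a).erase a' with hU
  have dP : ∀ x, Low G D x → 10 * (P x).card ≤ 3 * D := fun x hx =>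
    (Nat.mul_le_mul_left 10 (l3_card_gpal G c x)).trans hx
  have dN : ∀ x, Low G D x → ∀ S : Finset V, 10 * (G.neighborFinset x \ S).card ≤ 3 * D := by
    intro x hx S
    refine le_trans (Nat.mul_le_mul_left 10 (card_le_card sdiff_subset)) ?_
    rw [SimpleGraph.card_neighborFinset_eq_degree]
    exact hx
  obtain ⟨γ, hγ, γ', hγ', hne, hB2, hB3, hB4, hB5⟩ := l3_choice D hD A A' U
    (G.neighborFinset u \ {v, w, w'}) P (dN u hlu _)
    (univ.filter fun γ => γ ∉ P u ∧ γ ∉ P w ∧ ∀ x ∈ G.neighborFinset w \ {u, w'},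
      insert γ A ≠ P x)
    (univ.filter fun γ => γ ∉ P u ∧ γ ∉ P w' ∧ ∀ x ∈ G.neighborFinset w' \ {u, w},
      insert γ A' ≠ P x)
    (l3_gamma D (P u) (P w) A (erase_subset _ _) _ P (dP u hlu) (dP w hw) (dN w hw _))
    (l3_gamma D (P u) (P w') A' (erase_subset _ _) _ P (dP u hlu) (dP w' hw') (dN w' hw' _))
    (by
      intro γ hγ
      rw [mem_filter] at hγ
      exact ⟨fun h => hγ.2.2.1 (erase_subset _ _ h),
        fun h => hγ.2.1 (erase_subset _ _ (erase_subset _ _ h))⟩)
    (by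
      intro γ hγ
      rw [mem_filter] at hγ
      exact ⟨fun h => hγ.2.2.1 (erase_subset _ _ h),
        fun h => hγ.2.1 (erase_subset _ _ (erase_subset _ _ h))⟩)
  rw [mem_filter] at hγ hγ'
  obtain ⟨-, hγu, hγw, hγx⟩ := hγ
  obtain ⟨-, hγu', hγw', hγx'⟩ := hγ'
  have hee : s(u, w') ≠ s(u, w) := fun h => hww' (Sym2.congr_right.mp h).symm
  set c₁ := Function.update c s(u, w) γ with hc₁
  set c₂ := Function.update c₁ s(u, w') γ' with hc₂
  have p1u : gpal G c₁ u = insert γ ((P u).erase a) := l3_upd_same G c hc huw γ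
  have p1w : gpal G c₁ w = insert γ A := by
    have h := l3_upd_same G c hc huw.symm γ
    rw [Sym2.eq_swap] at h
    exact h
  have p1x : ∀ x, x ≠ u → x ≠ w → gpal G c₁ x = P x := fun x h1 h2 =>
    l3_upd_other G c h1 h2 γ
  have hc1 : GProper G c₁ := l3_upd_proper G c hc hγu hγw
  have e1 : c₁ s(u, w') = a' := Function.update_of_ne hee _ _
  have hγa' : γ ≠ a' := fun h => hγu (h ▸ haP')
  have p2u : gpal G c₂ u = insert γ' (insert γ U) := by
    have h := l3_upd_same G c₁ hc1 huw' γ'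
    rw [e1, p1u, erase_insert_of_ne hγa'] at h
    exact h
  have p2w' : gpal G c₂ w' = insert γ' A' := by
    have h := l3_upd_same G c₁ hc1 huw'.symm γ'
    rw [Sym2.eq_swap, e1, p1x w' huw0'.symm hww'.symm] at h
    exact h
  have p2w : gpal G c₂ w = insert γ A := by
    rw [← p1w]
    exact l3_upd_other G c₁ huw0.symm hww' γ'
  have p2x : ∀ x, x ≠ u → x ≠ w → x ≠ w' → gpal G c₂ x = P x := by
    intro x h1 h2 h3
    rw [← p1x x h1 h2]
    exact l3_upd_other G c₁ h1 h3 γ'
  have hc2 : GProper G c₂ := by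
    apply l3_upd_proper G c₁ hc1
    · rw [p1u, mem_insert]
      rintro (h | h)
      · exact hne h.symm
      · exact hγu' (erase_subset _ _ h)
    · rw [p1x w' huw0'.symm hww'.symm]
      exact hγw'
  have nu : ∀ x, G.Adj u x → gpal G c₂ u ≠ gpal G c₂ x := by
    intro x hx
    by_cases h1 : x = w
    · rw [h1, p2u, p2w]
      exact hB4
    by_cases h2 : x = w'
    · rw [h2, p2u, p2w']
      exact hB5
    rw [p2x x hx.ne.symm h1 h2, p2u]
    by_cases h3 : x = v
    · intro h
      apply hγu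
      rw [hpal, ← h3, ← h]
      exact mem_insert_of_mem (mem_insert_self _ _)
    · apply hB3
      rw [mem_sdiff, SimpleGraph.mem_neighborFinset]
      refine ⟨hx, ?_⟩
      simp only [mem_insert, mem_singleton]
      push Not
      exact ⟨h3, h1, h2⟩
  have nw : ∀ x, G.Adj w x → gpal G c₂ w ≠ gpal G c₂ x := by
    intro x hx
    by_cases h1 : x = u
    · rw [h1]
      exact (nu w huw).symm
    by_cases h2 : x = w'
    · rw [h2, p2w, p2w']
      exact hB2
    rw [p2x x h1 hx.ne.symm h2, p2w]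
    apply hγx
    rw [mem_sdiff, SimpleGraph.mem_neighborFinset]
    refine ⟨hx, ?_⟩
    simp only [mem_insert, mem_singleton]
    push Not
    exact ⟨h1, h2⟩
  have nw' : ∀ x, G.Adj w' x → gpal G c₂ w' ≠ gpal G c₂ x := by
    intro x hx
    by_cases h1 : x = u
    · rw [h1]
      exact (nu w' huw').symm
    by_cases h2 : x = w
    · rw [h2, p2w, p2w']
      exact hB2.symm
    rw [p2x x h1 h2 hx.ne.symm, p2w']
    apply hγx'
    rw [mem_sdiff, SimpleGraph.mem_neighborFinset]
    refine ⟨hx, ?_⟩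
    simp only [mem_insert, mem_singleton]
    push Not
    exact ⟨h1, h2⟩
  have nall : ∀ p q, G.Adj p q → gpal G c₂ p = gpal G c₂ q → p ≠ u ∧ p ≠ w ∧ p ≠ w' := by
    intro p q hpq h
    refine ⟨?_, ?_, ?_⟩
    · rintro rfl
      exact nu q hpq h
    · rintro rfl
      exact nw q hpq h
    · rintro rfl
      exact nw' q hpq h
  refine ⟨c₂, hc2, ?_, ?_⟩
  · intro p q hpq hlow
    have h1 : s(p, q) ≠ s(u, w) := by
      intro h
      rcases Sym2.eq_iff.mp h with ⟨h2, h3⟩ | ⟨h2, h3⟩
      · exact hlow ⟨h2 ▸ hlu, h3 ▸ hw⟩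
      · exact hlow ⟨h2 ▸ hw, h3 ▸ hlu⟩
    have h1' : s(p, q) ≠ s(u, w') := by
      intro h
      rcases Sym2.eq_iff.mp h with ⟨h2, h3⟩ | ⟨h2, h3⟩
      · exact hlow ⟨h2 ▸ hlu, h3 ▸ hw'⟩
      · exact hlow ⟨h2 ▸ hw', h3 ▸ hlu⟩
    rw [hc₂, Function.update_of_ne h1', hc₁, Function.update_of_ne h1]
  · unfold badCount
    apply card_lt_card
    rw [Finset.ssubset_iff_of_subset]
    · refine ⟨(u, v), mem_filter.mpr ⟨mem_univ _, huv, hlu, hlv, by assumption, by assumption, hpal⟩, ?_⟩
      rw [mem_filter]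
      rintro ⟨-, h⟩
      exact nu v huv h.2.2.2.2.2
    · intro q hq
      rw [mem_filter] at hq ⊢
      obtain ⟨-, h1, h2, h3, h4, h5, h6⟩ := hq
      obtain ⟨a1, a2, a3⟩ := nall _ _ h1 h6
      obtain ⟨b1, b2, b3⟩ := nall _ _ h1.symm h6.symm
      refine ⟨mem_univ _, h1, h2, h3, h4, h5, ?_⟩
      rw [p2x _ a1 a2 a3, p2x _ b1 b2 b3] at h6
      exact h6

end Pool.Agent.Helper6.AVD
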