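import Pool.Agent.Helper6.AVD.Base
import Pool.Agent.Helper6.AVD.St.L0
import Pool.Agent.Helper6.AVD.St.L3

/-! Project AVD, piece L2: recolouring one low-low edge. -/

set_option autoImplicit false
set_option linter.unusedSectionVars false

namespace Pool.Agent.Helper6.AVD

open Finset

variable {V : Type*} [Fintype V] [DecidableEq V]

/-- `u` has exactly two low neighbours `v, w` and `(u, v)` is bad.
PROOF. Recolour `s(u, w)` with `γ` (`Function.update c s(u, w) γ`). Forbidden: `gpal u ∪ gpal w` (`≤ 6D/10` colours,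
contains the old colour), and for every low neighbour `x ≠ u` of `w` the (at most one) `γ ∉ gpal w` with
`insert γ (gpal w \ {c s(u,w)}) = gpal x` (`≤ 3D/10`). Total `≤ 9D/10 < D + 3`. Check: proper; palettes change only at
`u`, `w`: `gpal' u = insert γ (gpal u \ {c s(u,w)})`, same for `w` (G proper, so the colour `c s(u,w)` occurs at `u` only on
this edge). Bad pairs for `c'` are bad pairs for `c`: pairs not meeting `{u, w}` are unchanged; `(u, v)`, `(v, u)`: not bad,
since `gpal' u ≠ gpal u = gpal v` (`γ ∉ gpal u`), if `v ≠ w`; `(u, w)`: `gpal' u = gpal' w ↔ gpal u = gpal w`;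
`(w, x)`, `x ≠ u`: not bad by the choice of `γ` (note `gpal' x = gpal x`). `(u, v)` is no longer bad: strictly fewer. -/
theorem recolour_one (G : SimpleGraph V) [DecidableRel G.Adj] (D : ℕ) (c : Sym2 V → Fin (D + 3))
    (hc : GProper G c) (u v w : V) (hvw : v ≠ w) (huw : G.Adj u w) (hw : Low G D w)
    (honly : ∀ x, G.Adj u x → Low G D x → x = v ∨ x = w) (hbad : IsBad G D c (u, v)) :
    ∃ c' : Sym2 V → Fin (D + 3), GProper G c' ∧ AgreeOff G D c c' ∧
      badCount G D c' < badCount G D c := by
  classical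
  obtain ⟨huv, hlu, hlv, hd1, hd2, hpal⟩ := hbad
  simp only at huv hlu hlv hpal
  have huw0 : u ≠ w := huw.ne
  have huv0 : u ≠ v := huv.ne
  set P := gpal G c with hP
  set a := c s(u, w) with ha
  have haP : a ∈ P u := l3_mem_gpal G c huw
  have haPw : a ∈ P w := by
    have h := l3_mem_gpal G c huw.symm
    rw [Sym2.eq_swap] at h
    exact h
  set A := (P w).erase a with hA
  have dP : ∀ x, Low G D x → 10 * (P x).card ≤ 3 * D := fun x hx =>
    (Nat.mul_le_mul_left 10 (l3_card_gpal G c x)).trans hx
  have dN : ∀ x, Low G D x → ∀ S : Finset V, 10 * (G.neighborFinset x \ S).card ≤ 3 * D := by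
    intro x hx S
    refine le_trans (Nat.mul_le_mul_left 10 (card_le_card sdiff_subset)) ?_
    rw [SimpleGraph.card_neighborFinset_eq_degree]
    exact hx
  have hΓ := l3_gamma D (P u) (P w) A (erase_subset _ _) (G.neighborFinset w \ {u}) P
    (dP u hlu) (dP w hw) (dN w hw _)
  have hne : (univ.filter fun γ => γ ∉ P u ∧ γ ∉ P w ∧ ∀ x ∈ G.neighborFinset w \ {u},
      insert γ A ≠ P x).Nonempty := by
    rw [← card_pos]
    omega
  obtain ⟨γ, hγ⟩ := hne
  rw [mem_filter] at hγ
  obtain ⟨-, hγu, hγw, hγx⟩ := hγ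
  set c₁ := Function.update c s(u, w) γ with hc₁
  have p1u : gpal G c₁ u = insert γ ((P u).erase a) := l3_upd_same G c hc huw γ
  have p1w : gpal G c₁ w = insert γ A := by
    have h := l3_upd_same G c hc huw.symm γ
    rw [Sym2.eq_swap] at h
    exact h
  have p1x : ∀ x, x ≠ u → x ≠ w → gpal G c₁ x = P x := fun x h1 h2 =>
    l3_upd_other G c h1 h2 γ
  have hc1 : GProper G c₁ := l3_upd_proper G c hc hγu hγw
  -- equality of the two new palettes means equality of the old ones
  have huwP : gpal G c₁ u = gpal G c₁ w → P u = P w := by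
    intro h
    rw [p1u, p1w] at h
    have h1 : γ ∉ (P u).erase a := fun h => hγu (erase_subset _ _ h)
    have h2 : γ ∉ A := fun h => hγw (erase_subset _ _ h)
    have h3 : (P u).erase a = A := by
      rw [← erase_insert h1, h, erase_insert h2]
    calc P u = insert a ((P u).erase a) := (insert_erase haP).symm
      _ = insert a A := by rw [h3]
      _ = P w := insert_erase haPw
  have nuv : gpal G c₁ u ≠ gpal G c₁ v := by
    rw [p1x v huv0.symm hvw]
    intro h
    apply hγu
    rw [hpal, ← h, p1u]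
    exact mem_insert_self _ _
  have nwx : ∀ x, G.Adj w x → x ≠ u → gpal G c₁ w ≠ gpal G c₁ x := by
    intro x hx hxu
    rw [p1x x hxu hx.ne.symm, p1w]
    apply hγx
    rw [mem_sdiff, SimpleGraph.mem_neighborFinset, mem_singleton]
    exact ⟨hx, hxu⟩
  have key : ∀ p q, G.Adj p q → Low G D p → Low G D q → gpal G c₁ p = gpal G c₁ q →
      P p = P q := by
    intro p q hpq hlp hlq h
    by_cases hpu : p = u
    · subst hpu
      rcases honly q hpq hlq with h1 | h1
      · subst h1
        exact absurd h nuv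
      · subst h1
        exact huwP h
    by_cases hqu : q = u
    · subst hqu
      rcases honly p hpq.symm hlp with h1 | h1
      · subst h1
        exact absurd h.symm nuv
      · subst h1
        exact (huwP h.symm).symm
    by_cases hpw : p = w
    · subst hpw
      exact absurd h (nwx q hpq hqu)
    by_cases hqw : q = w
    · subst hqw
      exact absurd h.symm (nwx p hpq.symm hpu)
    rw [p1x p hpu hpw, p1x q hqu hqw] at h
    exact h
  refine ⟨c₁, hc1, ?_, ?_⟩
  · intro p q hpq hlow
    have h1 : s(p, q) ≠ s(u, w) := by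
      intro h
      rcases Sym2.eq_iff.mp h with ⟨h2, h3⟩ | ⟨h2, h3⟩
      · exact hlow ⟨h2 ▸ hlu, h3 ▸ hw⟩
      · exact hlow ⟨h2 ▸ hw, h3 ▸ hlu⟩
    rw [hc₁, Function.update_of_ne h1]
  · unfold badCount
    apply card_lt_card
    rw [Finset.ssubset_iff_of_subset]
    · refine ⟨(u, v), mem_filter.mpr ⟨mem_univ _, huv, hlu, hlv, hd1, hd2, hpal⟩, ?_⟩
      rw [mem_filter]
      rintro ⟨-, h⟩
      exact nuv h.2.2.2.2.2
    · intro q hq
      rw [mem_filter] at hq ⊢
      obtain ⟨-, h1, h2, h3, h4, h5, h6⟩ := hq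
      exact ⟨mem_univ _, h1, h2, h3, h4, h5, key _ _ h1 h2 h3 h6⟩

end Pool.Agent.Helper6.AVD
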