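import Pool.Agent.Helper6.AVD.Base
import Pool.Agent.Helper6.AVD.St.L0
import Pool.Agent.Helper6.AVD.St.L1
import Pool.Agent.Helper6.AVD.St.L2
import Pool.Agent.Helper6.AVD.St.L3

/-! Project AVD, piece L4: the low part. -/

set_option autoImplicit false
set_option linter.unusedSectionVars false

namespace Pool.Agent.Helper6.AVD

open Finset

variable {V : Type*} [Fintype V] [DecidableEq V]

/-- `u, v` are adjacent low vertices of the same degree `≥ 2` without other low neighbours -/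
def QPair (G : SimpleGraph V) [DecidableRel G.Adj] (D : ℕ) (u v : V) : Prop :=
  G.Adj u v ∧ Low G D u ∧ Low G D v ∧ G.degree u = G.degree v ∧ 2 ≤ G.degree u ∧
    (∀ x, G.Adj u x → Low G D x → x = v) ∧ ∀ x, G.Adj v x → Low G D x → x = u

/-- one improvement step at a bad pair whose first vertex has another low neighbour -/
private theorem l4_step (G : SimpleGraph V) [DecidableRel G.Adj] (D : ℕ) (hD : 1000 ≤ D)
    (c : Sym2 V → Fin (D + 3)) (hc : GProper G c) (u v w : V) (hvw : v ≠ w) (huw : G.Adj u w)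
    (hw : Low G D w) (hbad : IsBad G D c (u, v)) :
    ∃ c' : Sym2 V → Fin (D + 3), GProper G c' ∧ AgreeOff G D c c' ∧
      badCount G D c' < badCount G D c := by
  by_cases h : ∃ w', G.Adj u w' ∧ Low G D w' ∧ w' ≠ v ∧ w' ≠ w
  · obtain ⟨w', h1, h2, h3, h4⟩ := h
    exact recolour_two G D hD c hc u v w w' hvw h3.symm h4.symm huw h1 hw h2 hbad
  · refine recolour_one G D c hc u v w hvw huw hw ?_ hbad
    intro x hx hlx
    by_contra hcon
    rw [not_or] at hcon
    exact h ⟨x, hx, hlx, hcon.1, hcon.2⟩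

private theorem l4_bad_symm (G : SimpleGraph V) [DecidableRel G.Adj] (D : ℕ) {n : ℕ}
    (c : Sym2 V → Fin n) (u v : V) (h : IsBad G D c (u, v)) : IsBad G D c (v, u) := by
  obtain ⟨h1, h2, h3, h4, h5, h6⟩ := h
  exact ⟨h1.symm, h3, h2, h4.symm, le_of_le_of_eq h5 h4, h6.symm⟩

private theorem l4_qpair (G : SimpleGraph V) [DecidableRel G.Adj] (D : ℕ)
    (c₀ c : Sym2 V → Fin (D + 3)) (hc : GProper G c) (ha : AgreeOff G D c₀ c)
    (hQ : ∀ u v, QPair G D u v → ∀ x y, G.Adj u x → x ≠ v → G.Adj v y → y ≠ u →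
      c₀ s(u, x) ≠ c₀ s(v, y)) (u v : V) (hbad : IsBad G D c (u, v))
    (hu : ∀ x, G.Adj u x → Low G D x → x = v) (hv : ∀ x, G.Adj v x → Low G D x → x = u) :
    False := by
  obtain ⟨h1, h2, h3, h4, h5, h6⟩ := hbad
  simp only at h1 h2 h3 h4 h5 h6
  have hq : QPair G D u v := ⟨h1, h2, h3, h4, h5, hu, hv⟩
  obtain ⟨x, hx, hxv⟩ : ∃ x, G.Adj u x ∧ x ≠ v := by
    have hcard : 1 < (G.neighborFinset u).card := by
      rw [G.card_neighborFinset_eq_degree]
      exact h5
    obtain ⟨x, hx, hne⟩ := Finset.exists_mem_ne hcard v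
    exact ⟨x, (G.mem_neighborFinset u x).mp hx, hne⟩
  have hmem : c s(u, x) ∈ gpal G c v := by
    rw [← h6]
    unfold gpal
    rw [Finset.mem_image]
    exact ⟨x, (G.mem_neighborFinset u x).mpr hx, rfl⟩
  unfold gpal at hmem
  rw [Finset.mem_image] at hmem
  obtain ⟨y, hy, hyx⟩ := hmem
  rw [G.mem_neighborFinset] at hy
  by_cases hyu : y = u
  · subst hyu
    rw [Sym2.eq_swap] at hyx
    exact hxv (hc y v x h1 hx hyx).symm
  · have e1 : c₀ s(u, x) = c s(u, x) :=
      ha u x hx (fun h => hxv (hu x hx h.2))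
    have e2 : c₀ s(v, y) = c s(v, y) :=
      ha v y hy (fun h => hyu (hv y hy h.2))
    exact hQ u v hq x y hx hxv hy hyu (by rw [e1, e2, hyx])

private theorem l4_main (G : SimpleGraph V) [DecidableRel G.Adj] (D : ℕ) (hD : 1000 ≤ D)
    (c₀ : Sym2 V → Fin (D + 3))
    (hQ : ∀ u v, QPair G D u v → ∀ x y, G.Adj u x → x ≠ v → G.Adj v y → y ≠ u →
      c₀ s(u, x) ≠ c₀ s(v, y)) (n : ℕ) :
    ∀ c : Sym2 V → Fin (D + 3), GProper G c → AgreeOff G D c₀ c → badCount G D c = n →
      ∃ c' : Sym2 V → Fin (D + 3), GProper G c' ∧ AgreeOff G D c₀ c' ∧ ∀ q, ¬ IsBad G D c' q := by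
  induction n using Nat.strong_induction_on with
  | _ n ih =>
    intro c hc ha hn
    by_cases hb : ∃ q, IsBad G D c q
    · obtain ⟨⟨u, v⟩, hq⟩ := hb
      obtain ⟨c', hc', ha', hlt⟩ : ∃ c' : Sym2 V → Fin (D + 3), GProper G c' ∧
          AgreeOff G D c c' ∧ badCount G D c' < badCount G D c := by
        by_cases h1 : ∃ w, G.Adj u w ∧ Low G D w ∧ w ≠ v
        · obtain ⟨w, hw1, hw2, hw3⟩ := h1
          exact l4_step G D hD c hc u v w hw3.symm hw1 hw2 hq
        · by_cases h2 : ∃ w, G.Adj v w ∧ Low G D w ∧ w ≠ u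
          · obtain ⟨w, hw1, hw2, hw3⟩ := h2
            exact l4_step G D hD c hc v u w hw3.symm hw1 hw2 (l4_bad_symm G D c u v hq)
          · exfalso
            refine l4_qpair G D c₀ c hc ha hQ u v hq ?_ ?_
            · intro x hx hl
              by_contra hcon
              exact h1 ⟨x, hx, hl, hcon⟩
            · intro x hx hl
              by_contra hcon
              exact h2 ⟨x, hx, hl, hcon⟩
      refine ih (badCount G D c') (hn ▸ hlt) c' hc' ?_ rfl
      intro a b hab hl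
      exact (ha a b hab hl).trans (ha' a b hab hl)
    · exact ⟨c, hc, ha, fun q hq => hb ⟨q, hq⟩⟩

/-- PROOF. `extend_low` gives a proper `c₁` agreeing with `c₀` off the low-low edges. Among all such `c` choose one with
minimal `badCount`. Suppose `(u, v)` is bad (then so is `(v, u)`). If neither `u` nor `v` has another low neighbour,
`QPair u v`: `gpal u = insert (c s(u,v)) {c s(u,x) | x ≠ v}`, the colours `c s(u,x) = c₀ s(u,x)`, `x ≠ v` (a nonempty
set as `2 ≤ d(u)`, `x` is not low), are by `hQ` not among the `c s(v,y)`, `y ≠ u`, and not `c s(u,v)` by properness; so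
`gpal u ≠ gpal v`. Otherwise say `u` (or `v`, symmetric) has a low neighbour `w ≠ v`: if there is a third one use
`recolour_two`, else `recolour_one`: contradiction to minimality. -/
theorem low_part (G : SimpleGraph V) [DecidableRel G.Adj] (D : ℕ) (hD : 1000 ≤ D)
    (c₀ : Sym2 V → Fin (D + 3))
    (h₀ : ∀ v w w', G.Adj v w → G.Adj v w' → ¬ (Low G D v ∧ Low G D w) → ¬ (Low G D v ∧ Low G D w') →
      c₀ s(v, w) = c₀ s(v, w') → w = w')
    (hQ : ∀ u v, QPair G D u v → ∀ x y, G.Adj u x → x ≠ v → G.Adj v y → y ≠ u →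
      c₀ s(u, x) ≠ c₀ s(v, y)) :
    ∃ c : Sym2 V → Fin (D + 3), GProper G c ∧ AgreeOff G D c₀ c ∧ ∀ q, ¬ IsBad G D c q := by
  obtain ⟨c₁, hc₁, ha₁⟩ := extend_low G D c₀ h₀
  exact l4_main G D hD c₀ hQ _ c₁ hc₁ ha₁ rfl

end Pool.Agent.Helper6.AVD
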