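import Pool.Agent.Helper6.AVD.Base
import Pool.Agent.Helper6.AVD.St.L4

/-! Project AVD, piece Q2: the multigraph of non-low-low edges with the Q-pairs contracted. -/

set_option autoImplicit false
set_option linter.unusedSectionVars false

namespace Pool.Agent.Helper6.AVD

open Finset

/-- the conclusion of the main theorem for multigraphs, for one `D` -/
def MainMG (D : ℕ) : Prop := ∀ (V E : Type) [Fintype V] [DecidableEq V]
    [Fintype E] [DecidableEq E] (M : MG V E) (Hi : V → Prop), (∀ v, M.deg v ≤ D) →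
    (∀ x y, M.mult x y ≤ 2) → (∀ x y, Hi x → Hi y → M.mult x y ≤ 1) →
    (∀ e, ∃ x ∈ M.ends e, Hi x) → (∀ x, Hi x → 3 * D < 10 * M.deg x) →
    (∀ x, ¬ Hi x → 10 * M.deg x ≤ 6 * D) →
    ∃ c : E → Fin (D + 3), Proper M c ∧ ∀ u v, Sim M Hi u v → pal M c u ≠ pal M c v

section Q2aux

variable {V : Type} [Fintype V] [DecidableEq V] {G : SimpleGraph V} [DecidableRel G.Adj] {D : ℕ}

private theorem q2_symm {u v : V} (h : QPair G D u v) : QPair G D v u := by
  obtain ⟨h1, h2, h3, h4, h5, h6, h7⟩ := h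
  exact ⟨h1.symm, h3, h2, h4.symm, h4 ▸ h5, h7, h6⟩

private theorem q2_uniq {u v w : V} (h : QPair G D u v) (h' : QPair G D u w) : w = v :=
  h.2.2.2.2.2.1 w h'.1 h'.2.2.1

variable (G D) in
open Classical in
/-- the class of a vertex -/
private noncomputable def q2q (v : V) : Finset V := univ.filter fun w => w = v ∨ QPair G D v w

private theorem q2_mem {v w : V} : w ∈ q2q G D v ↔ w = v ∨ QPair G D v w := by
  classical
  simp [q2q]

private theorem q2_self (v : V) : v ∈ q2q G D v := q2_mem.2 (Or.inl rfl)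

private theorem q2_eq_iff {u v : V} : q2q G D u = q2q G D v ↔ u = v ∨ QPair G D u v := by
  constructor
  · intro h
    have : u ∈ q2q G D v := by rw [← h]; exact q2_self u
    rcases q2_mem.1 this with h1 | h1
    · exact Or.inl h1
    · exact Or.inr (q2_symm h1)
  · rintro (rfl | h)
    · rfl
    · ext w
      rw [q2_mem, q2_mem]
      constructor
      · rintro (rfl | h1)
        · exact Or.inr (q2_symm h)
        · exact Or.inl (q2_uniq h h1)
      · rintro (rfl | h1)
        · exact Or.inr h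
        · exact Or.inl (q2_uniq (q2_symm h) h1)

private theorem q2_nonlow {v : V} (hv : ¬ Low G D v) : q2q G D v = {v} := by
  ext w
  rw [q2_mem, Finset.mem_singleton]
  constructor
  · rintro (h | h)
    · exact h
    · exact absurd h.2.1 hv
  · exact Or.inl

private theorem q2_card (v : V) : (q2q G D v).card ≤ 2 := by
  classical
  by_cases h : ∃ w, QPair G D v w
  · obtain ⟨w, hw⟩ := h
    have : q2q G D v ⊆ {v, w} := by
      intro x hx
      rcases q2_mem.1 hx with h1 | h1
      · simp [h1]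
      · simp [q2_uniq hw h1]
    exact le_trans (Finset.card_le_card this) Finset.card_le_two
  · have : q2q G D v ⊆ {v} := by
      intro x hx
      rcases q2_mem.1 hx with h1 | h1
      · simp [h1]
      · exact absurd ⟨x, h1⟩ h
    exact le_trans (Finset.card_le_card this) (by simp)

private theorem q2_low {v w : V} (hv : Low G D v) (h : w ∈ q2q G D v) : Low G D w := by
  rcases q2_mem.1 h with h1 | h1
  · rw [h1]; exact hv
  · exact h1.2.2.1

variable (G D) in
/-- the edges not joining two low vertices -/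
private def Q2E : Type := {e : Sym2 V // e ∈ G.edgeSet ∧ ¬ ∀ x ∈ e, Low G D x}

private noncomputable instance : Fintype (Q2E G D) := by
  classical
  unfold Q2E
  infer_instance

private noncomputable instance : DecidableEq (Q2E G D) := Classical.decEq _

variable (G D) in
/-- the contracted multigraph -/
private noncomputable def Q2M : MG (Finset V) (Q2E G D) where
  ends e := Sym2.map (q2q G D) e.1
  nd := by
    rintro ⟨e, he, hl⟩
    induction e using Sym2.ind with
    | _ u v =>
      simp only [Sym2.map_mk, Sym2.mk_isDiag_iff]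
      intro h
      rcases q2_eq_iff.1 h with h1 | h1
      · exact (G.ne_of_adj he) h1
      · apply hl
        intro x hx
        rcases Sym2.mem_iff.1 hx with h2 | h2
        · rw [h2]; exact h1.2.1
        · rw [h2]; exact h1.2.2.1

private theorem q2_ends {e : Q2E G D} {a : Finset V} :
    a ∈ (Q2M G D).ends e ↔ ∃ x ∈ e.1, q2q G D x = a := Sym2.mem_map

private theorem q2_ends_single {e : Q2E G D} {v : V} (hv : ¬ Low G D v) :
    {v} ∈ (Q2M G D).ends e ↔ v ∈ e.1 := by
  rw [q2_ends]
  constructor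
  · rintro ⟨x, hx, h⟩
    have : x ∈ q2q G D x := q2_self x
    rw [h, Finset.mem_singleton] at this
    rw [← this]; exact hx
  · intro h
    exact ⟨v, h, q2_nonlow hv⟩

private theorem q2_edge {v w : V} (h : G.Adj v w) (hl : ¬ (Low G D v ∧ Low G D w)) :
    s(v, w) ∈ G.edgeSet ∧ ¬ ∀ x ∈ s(v, w), Low G D x := by
  refine ⟨h, fun h1 => hl ⟨h1 v ?_, h1 w ?_⟩⟩
  · exact Sym2.mem_mk_left v w
  · exact Sym2.mem_mk_right v w

private theorem q2_deg_le (a : Finset V) : (Q2M G D).deg a ≤ ∑ w ∈ a, G.degree w := by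
  classical
  unfold MG.deg MG.inc
  have hinj : Function.Injective (fun e : Q2E G D => e.1) := fun e f h => Subtype.ext h
  rw [← Finset.card_image_of_injective _ hinj]
  have hsub : (univ.filter fun e => a ∈ (Q2M G D).ends e).image (fun e : Q2E G D => e.1) ⊆
      a.biUnion (fun w => (G.neighborFinset w).image (fun z => s(w, z))) := by
    intro e he
    obtain ⟨e', he', rfl⟩ := Finset.mem_image.1 he
    obtain ⟨x, hx, h⟩ := q2_ends.1 (Finset.mem_filter.1 he').2
    rw [Finset.mem_biUnion]
    refine ⟨x, by rw [← h]; exact q2_self x, ?_⟩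
    rw [Finset.mem_image]
    obtain ⟨z, hz⟩ := Sym2.mem_iff_exists.1 hx
    refine ⟨z, ?_, hz.symm⟩
    rw [SimpleGraph.mem_neighborFinset]
    have := e'.2.1
    rw [hz] at this
    exact this
  refine le_trans (Finset.card_le_card hsub) (le_trans Finset.card_biUnion_le ?_)
  exact Finset.sum_le_sum fun w _ => Finset.card_image_le

private theorem q2_deg_single {v : V} (hv : ¬ Low G D v) : (Q2M G D).deg {v} = G.degree v := by
  classical
  apply le_antisymm
  · have := q2_deg_le (G := G) (D := D) {v}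
    simpa using this
  · have h1 : G.degree v = ((G.neighborFinset v).image (fun w => s(v, w))).card := by
      rw [Finset.card_image_of_injective _ (fun a b h => Sym2.congr_right.1 h)]
      rfl
    rw [h1]
    unfold MG.deg MG.inc
    refine le_trans (Finset.card_le_card ?_)
      (Finset.card_image_le (f := fun e : Q2E G D => e.1))
    intro e he
    obtain ⟨w, hw, rfl⟩ := Finset.mem_image.1 he
    rw [SimpleGraph.mem_neighborFinset] at hw
    rw [Finset.mem_image]
    refine ⟨⟨s(v, w), q2_edge hw fun h => hv h.1⟩, ?_, rfl⟩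
    rw [Finset.mem_filter]
    refine ⟨Finset.mem_univ _, ?_⟩
    rw [q2_ends_single hv]
    exact Sym2.mem_mk_left v w

private theorem q2_mult_single (u : V) (y : Finset V) : (Q2M G D).mult {u} y ≤ y.card := by
  classical
  unfold MG.mult
  have hinj : Function.Injective (fun e : Q2E G D => e.1) := fun e f h => Subtype.ext h
  rw [← Finset.card_image_of_injective _ hinj]
  have hsub : (univ.filter fun e => (Q2M G D).ends e = s({u}, y)).image
      (fun e : Q2E G D => e.1) ⊆ y.image (fun z => s(u, z)) := by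
    intro e he
    obtain ⟨⟨e', h'⟩, he', rfl⟩ := Finset.mem_image.1 he
    replace he' := (Finset.mem_filter.1 he').2
    rw [Finset.mem_image]
    change Sym2.map (q2q G D) e' = s({u}, y) at he'
    induction e' using Sym2.ind with
    | _ a b =>
      have ha := q2_self (G := G) (D := D) a
      have hb := q2_self (G := G) (D := D) b
      rw [Sym2.map_mk, Sym2.eq_iff] at he'
      rcases he' with ⟨h1, h2⟩ | ⟨h1, h2⟩
      · rw [h1, Finset.mem_singleton] at ha
        rw [h2] at hb
        refine ⟨b, hb, ?_⟩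
        change s(u, b) = s(a, b)
        rw [ha]
      · rw [h1] at ha
        rw [h2, Finset.mem_singleton] at hb
        refine ⟨a, ha, ?_⟩
        change s(u, a) = s(a, b)
        rw [hb]
        exact Sym2.eq_swap
  exact le_trans (Finset.card_le_card hsub) Finset.card_image_le

private theorem q2_mult_comm (x y : Finset V) : (Q2M G D).mult x y = (Q2M G D).mult y x := by
  unfold MG.mult
  rw [Sym2.eq_swap]

private theorem q2_mult (x y : Finset V) : (Q2M G D).mult x y ≤ 2 := by
  classical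
  by_cases h : (univ.filter fun e => (Q2M G D).ends e = s(x, y)).Nonempty
  · obtain ⟨⟨e, he, hl⟩, h1⟩ := h
    replace h1 := (Finset.mem_filter.1 h1).2
    change Sym2.map (q2q G D) e = s(x, y) at h1
    push Not at hl
    obtain ⟨u, hu, hul⟩ := hl
    obtain ⟨w, rfl⟩ := Sym2.mem_iff_exists.1 hu
    rw [Sym2.map_mk, Sym2.eq_iff, q2_nonlow hul] at h1
    rcases h1 with ⟨h1, h2⟩ | ⟨h1, h2⟩
    · rw [← h1, ← h2]
      exact le_trans (q2_mult_single u _) (q2_card w)
    · rw [← h1, ← h2, q2_mult_comm]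
      exact le_trans (q2_mult_single u _) (q2_card w)
  · have : (Q2M G D).mult x y = 0 := by
      unfold MG.mult
      rw [Finset.card_eq_zero]
      exact Finset.not_nonempty_iff_eq_empty.1 h
    omega

private theorem q2_deg_low {a : Finset V} (ha : ¬ ∃ v, ¬ Low G D v ∧ a = {v}) :
    10 * (Q2M G D).deg a ≤ 6 * D := by
  classical
  by_cases h : ∃ v, q2q G D v = a
  · obtain ⟨v, rfl⟩ := h
    have hv : Low G D v := by
      by_contra hv
      exact ha ⟨v, hv, q2_nonlow hv⟩
    have h1 := q2_deg_le (G := G) (D := D) (q2q G D v)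
    have h2 : 10 * ∑ w ∈ q2q G D v, G.degree w ≤ 6 * D := by
      rw [Finset.mul_sum]
      have h3 : ∑ w ∈ q2q G D v, 10 * G.degree w ≤ (q2q G D v).card • (3 * D) :=
        Finset.sum_le_card_nsmul _ _ _ fun w hw => q2_low hv hw
      have h4 := q2_card (G := G) (D := D) v
      rw [smul_eq_mul] at h3
      nlinarith
    omega
  · have : (Q2M G D).deg a = 0 := by
      unfold MG.deg MG.inc
      rw [Finset.card_eq_zero, Finset.filter_eq_empty_iff]
      intro e _ he
      obtain ⟨x, _, hx⟩ := q2_ends.1 he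
      exact h ⟨x, hx⟩
    omega

end Q2aux

/-- PROOF. `E₁ := {e : Sym2 V // e ∈ G.edgeSet ∧ ¬ ∀ x ∈ e, Low G D x}`, `q : V → Finset V`,
`q v = univ.filter (fun w => w = v ∨ QPair G D v w)` (`QPair` is symmetric and a partial matching: `QPair v w, QPair v w' → w = w'`),
`M : MG (Finset V) E₁`, `ends e = Sym2.map q e.1`, `Hi a := ∃ v, ¬ Low G D v ∧ a = {v}`. `q v = {v}` for `v` non-low.
`q u = q v ↔ u = v ∨ QPair u v`; `nd`: an edge of `E₁` has a non-low end. Degrees: `M.deg (q v) ≤ ∑_{w ∈ q v} (number of edges of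
`E₁` at `w`)`: `= G.degree v ≤ D` for non-low `v` (all edges at `v` are in `E₁`; equality is needed for `3D < 10 deg` and for
`Sim`); `10 deg ≤ 6 D` for the others (also for finsets that are not of the form `q v`: degree 0). `mult ≤ 2`:
edges of `E₁` between the classes `a`, `b`, one of them is a singleton `{x}` (a non-low end), the other has at most two
elements; `mult ≤ 1` for two singletons; `mult x x = 0` by `nd`. `M.Adj {u} {v} ↔ G.Adj u v` for non-low `u, v`.
`hM` gives `c : E₁ → Fin (D+3)`; `c₀ e = c ⟨e, _⟩` if `e` is in `E₁`, `0` otherwise. First conclusion: two edges of `E₁` at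
`v` are both at `q v`. Second: the edges `s(u,x)`, `s(v,y)` are different edges of `E₁` (`x, y` are not low, as `v` (`u`) is the
only low neighbour of `u` (`v`)) at `q u = q v`. Third: for non-low `v`: `gpal G c₀ v = pal M c {v}`. -/
theorem mg_part (D : ℕ) (hM : MainMG D) (V : Type) [Fintype V] [DecidableEq V]
    (G : SimpleGraph V) [DecidableRel G.Adj] (hD : ∀ v, G.degree v ≤ D) :
    ∃ c₀ : Sym2 V → Fin (D + 3),
      (∀ v w w', G.Adj v w → G.Adj v w' → ¬ (Low G D v ∧ Low G D w) →
        ¬ (Low G D v ∧ Low G D w') → c₀ s(v, w) = c₀ s(v, w') → w = w') ∧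
      (∀ u v, QPair G D u v → ∀ x y, G.Adj u x → x ≠ v → G.Adj v y → y ≠ u →
        c₀ s(u, x) ≠ c₀ s(v, y)) ∧
      ∀ u v, G.Adj u v → ¬ Low G D u → ¬ Low G D v → G.degree u = G.degree v →
        gpal G c₀ u ≠ gpal G c₀ v := by
  classical
  obtain ⟨c, hc, hsim⟩ := hM (Finset V) (Q2E G D) (Q2M G D)
    (fun a => ∃ v, ¬ Low G D v ∧ a = {v})
    (by
      intro a
      by_cases ha : ∃ v, ¬ Low G D v ∧ a = {v}
      · obtain ⟨v, hv, rfl⟩ := ha
        rw [q2_deg_single hv]
        exact hD v
      · have := q2_deg_low ha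
        omega)
    q2_mult
    (by
      rintro x y ⟨u, _, rfl⟩ ⟨v, _, rfl⟩
      exact q2_mult_single u {v})
    (by
      rintro ⟨e, he, hl⟩
      push Not at hl
      obtain ⟨u, hu, hul⟩ := hl
      exact ⟨{u}, (q2_ends_single hul).2 hu, u, hul, rfl⟩)
    (by
      rintro x ⟨u, hu, rfl⟩
      rw [q2_deg_single hu]
      unfold Low at hu
      omega)
    (fun x hx => q2_deg_low hx)
  have hval : ∀ (e : Sym2 V) (h : e ∈ G.edgeSet ∧ ¬ ∀ x ∈ e, Low G D x),
      (if h : e ∈ G.edgeSet ∧ ¬ ∀ x ∈ e, Low G D x then c ⟨e, h⟩ else 0) = c ⟨e, h⟩ :=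
    fun e h => dif_pos h
  refine ⟨fun e => if h : e ∈ G.edgeSet ∧ ¬ ∀ x ∈ e, Low G D x then c ⟨e, h⟩ else 0, ?_, ?_, ?_⟩
  · intro v w w' hw hw' hl hl' heq
    dsimp only at heq
    rw [hval _ (q2_edge hw hl), hval _ (q2_edge hw' hl')] at heq
    have h1 := hc (q2q G D v) ⟨s(v, w), q2_edge hw hl⟩ ⟨s(v, w'), q2_edge hw' hl'⟩
      (Finset.mem_univ _) (Finset.mem_univ _)
      (q2_ends.2 ⟨v, Sym2.mem_mk_left v w, rfl⟩) (q2_ends.2 ⟨v, Sym2.mem_mk_left v w', rfl⟩) heq
    exact Sym2.congr_right.1 (congrArg Subtype.val h1)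
  · intro u v huv x y hx hxv hy hyu heq
    dsimp only at heq
    have hlx : ¬ (Low G D u ∧ Low G D x) := fun h => hxv (huv.2.2.2.2.2.1 x hx h.2)
    have hly : ¬ (Low G D v ∧ Low G D y) := fun h => hyu (huv.2.2.2.2.2.2 y hy h.2)
    rw [hval _ (q2_edge hx hlx), hval _ (q2_edge hy hly)] at heq
    have h1 := hc (q2q G D u) ⟨s(u, x), q2_edge hx hlx⟩ ⟨s(v, y), q2_edge hy hly⟩
      (Finset.mem_univ _) (Finset.mem_univ _)
      (q2_ends.2 ⟨u, Sym2.mem_mk_left u x, rfl⟩)
      (q2_ends.2 ⟨v, Sym2.mem_mk_left v y, (q2_eq_iff.2 (Or.inr (q2_symm huv)))⟩) heq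
    have h2 : s(u, x) = s(v, y) := congrArg Subtype.val h1
    rw [Sym2.eq_iff] at h2
    rcases h2 with ⟨h2, _⟩ | ⟨_, h2⟩
    · exact G.ne_of_adj huv.1 h2
    · exact hxv h2
  · have hpal : ∀ v, ¬ Low G D v →
        gpal G (fun e => if h : e ∈ G.edgeSet ∧ ¬ ∀ x ∈ e, Low G D x then c ⟨e, h⟩ else 0) v =
          pal (Q2M G D) c {v} := by
      intro v hv
      ext a
      unfold gpal pal MG.inc
      rw [Finset.mem_image, Finset.mem_image]
      constructor
      · rintro ⟨w, hw, rfl⟩
        rw [SimpleGraph.mem_neighborFinset] at hw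
        refine ⟨⟨s(v, w), q2_edge hw fun h => hv h.1⟩, ?_, ?_⟩
        · rw [Finset.mem_filter]
          exact ⟨Finset.mem_univ _, (q2_ends_single hv).2 (Sym2.mem_mk_left v w)⟩
        · exact (hval _ _).symm
      · rintro ⟨⟨e, he⟩, hmem, rfl⟩
        have h1 : v ∈ e := (q2_ends_single hv).1 (Finset.mem_filter.1 hmem).2
        obtain ⟨w, rfl⟩ := Sym2.mem_iff_exists.1 h1
        refine ⟨w, ?_, hval _ _⟩
        rw [SimpleGraph.mem_neighborFinset]
        exact he.1
    intro u v huv hu hv hdeg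
    rw [hpal u hu, hpal v hv]
    apply hsim
    refine ⟨⟨⟨s(u, v), q2_edge huv fun h => hu h.1⟩, ?_⟩, ⟨u, hu, rfl⟩, ⟨v, hv, rfl⟩, ?_⟩
    · change Sym2.map (q2q G D) s(u, v) = _
      rw [Sym2.map_mk, q2_nonlow hu, q2_nonlow hv]
    · rw [q2_deg_single hu, q2_deg_single hv, hdeg]

end Pool.Agent.Helper6.AVD
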