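import Pool.Agent.Helper6.AVD.Base

/-! Project AVD, piece V2: a Kempe component has at most two vertices missing exactly one of the two colours. -/

set_option autoImplicit false
set_option linter.unusedSectionVars false

namespace Pool.Agent.Helper6.AVD

open Finset

variable {V E K : Type*} [Fintype V] [DecidableEq V] [Fintype E] [DecidableEq E]
  [Fintype K] [DecidableEq K]

/-- the auxiliary graph of edges of `F` coloured `a` or `b` -/
private def ab2 (M : MG V E) (F : Finset E) (c : E → K) (a b : K) : SimpleGraph V where
  Adj x y := ∃ e ∈ F, M.ends e = s(x, y) ∧ (c e = a ∨ c e = b)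
  symm := ⟨by
    rintro x y ⟨e, he, h, h'⟩
    exact ⟨e, he, by rw [h, Sym2.eq_swap], h'⟩⟩
  loopless := ⟨by
    rintro x ⟨e, he, h, h'⟩
    exact M.nd e (by rw [h]; exact Sym2.mk_isDiag_iff.2 rfl)⟩

/-- the coloured edges at `x` -/
private def dx2 (M : MG V E) (F : Finset E) (c : E → K) (a b : K) (x : V) : Finset E := by
  classical
  exact F.filter fun e => x ∈ M.ends e ∧ (c e = a ∨ c e = b)

private lemma dx2_le (M : MG V E) (F : Finset E) (c : E → K) (hc : ProperOn M F c) (a b : K)
    (x : V) : (dx2 M F c a b x).card ≤ 2 := by
  classical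
  calc (dx2 M F c a b x).card ≤ ({a, b} : Finset K).card := by
        refine Finset.card_le_card_of_injOn c ?_ ?_
        · intro e he
          simp only [dx2, coe_filter, Set.mem_ofPred_eq] at he
          simp only [coe_insert, coe_singleton, Set.mem_insert_iff, Set.mem_singleton_iff]
          exact he.2.2
        · intro e he f hf h
          simp only [dx2, coe_filter, Set.mem_ofPred_eq] at he hf
          exact hc x e f he.1 hf.1 he.2.1 hf.2.1 h
    _ ≤ 2 := Finset.card_le_two

private lemma dx2_le_one (M : MG V E) (F : Finset E) (c : E → K) (hc : ProperOn M F c) (a b : K)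
    (x : V) (hx : X1 (misOn M F c x) a b) : (dx2 M F c a b x).card ≤ 1 := by
  classical
  rw [Finset.card_le_one]
  intro e he f hf
  simp only [dx2, mem_filter] at he hf
  refine hc x e f he.1 hf.1 he.2.1 hf.2.1 ?_
  rcases hx with ⟨h, -⟩ | ⟨-, h⟩
  · simp only [misOn, mem_filter, mem_univ, true_and] at h
    have h1 := h e he.1 he.2.1
    have h2 := h f hf.1 hf.2.1
    rcases he.2.2 with h3 | h3
    · exact absurd h3 h1
    rcases hf.2.2 with h4 | h4
    · exact absurd h4 h2
    rw [h3, h4]
  · simp only [misOn, mem_filter, mem_univ, true_and] at h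
    have h1 := h e he.1 he.2.1
    have h2 := h f hf.1 hf.2.1
    rcases he.2.2 with h3 | h3
    · rcases hf.2.2 with h4 | h4
      · rw [h3, h4]
      · exact absurd h4 h2
    · exact absurd h3 h1

/-- `rt v` = a representative of the `{a, b}`-component of `v`.
PROOF. Let `G : SimpleGraph V`, `G.Adj x y ↔ ∃ e ∈ F, M.ends e = s(x, y) ∧ (c e = a ∨ c e = b)` (irreflexive by
`M.nd`), `rt v = Quot.out (G.connectedComponentMk v)`. First claim: ends of such an edge are adjacent. Second:
suppose `u, v, w` lie in one component `C`. By `C.connected_toSimpleGraph` and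
`SimpleGraph.Connected.card_vert_le_card_edgeSet_add_one` the number of edges of `C.toSimpleGraph` is at least
`|C| - 1`, so the sum of its degrees (`SimpleGraph.sum_degrees_eq_twice_card_edges`) is `≥ 2|C| - 2`.
The degree of `x` in `C.toSimpleGraph` is at most the number `md x` of edges of `F` at `x` coloured `a` or `b`
(map each neighbour `y` to an edge `s(x, y)`: injective), `md x ≤ 2` since `c` is proper (one edge per colour),
and `md x ≤ 1` if `x` misses one of `a, b`. So the sum of the degrees is `≤ 2|C| - 3`: contradiction. -/
theorem comp_two (M : MG V E) (F : Finset E) (c : E → K) (hc : ProperOn M F c) (a b : K)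
    (hab : a ≠ b) :
    ∃ rt : V → V, (∀ e ∈ F, (c e = a ∨ c e = b) → ∀ u v, M.ends e = s(u, v) → rt u = rt v) ∧
      ∀ u v w, u ≠ v → u ≠ w → v ≠ w → rt u = rt v → rt u = rt w →
        ¬ (X1 (misOn M F c u) a b ∧ X1 (misOn M F c v) a b ∧ X1 (misOn M F c w) a b) := by
  classical
  set G := ab2 M F c a b with hG
  refine ⟨fun v => Quot.out (G.connectedComponentMk v), ?_, ?_⟩
  · intro e he hab' u v huv
    have hadj : G.Adj u v := ⟨e, he, huv, hab'⟩
    have : G.connectedComponentMk u = G.connectedComponentMk v :=
      SimpleGraph.ConnectedComponent.sound hadj.reachable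
    simp only [this]
  · rintro u v w huv huw hvw h1 h2 ⟨hu, hv, hw⟩
    have key : ∀ x y : V, Quot.out (G.connectedComponentMk x) = Quot.out (G.connectedComponentMk y) →
        G.connectedComponentMk x = G.connectedComponentMk y := by
      intro x y h
      have hx : G.connectedComponentMk (Quot.out (G.connectedComponentMk x)) =
        G.connectedComponentMk x := Quot.out_eq _
      have hy : G.connectedComponentMk (Quot.out (G.connectedComponentMk y)) =
        G.connectedComponentMk y := Quot.out_eq _
      rw [← hx, ← hy, h]
    have e1 := key _ _ h1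
    have e2 := key _ _ h2
    set C := G.connectedComponentMk u with hC
    have huC : u ∈ C.supp := rfl
    have hvC : v ∈ C.supp := e1.symm
    have hwC : w ∈ C.supp := e2.symm
    have hconn := C.connected_toSimpleGraph.card_vert_le_card_edgeSet_add_one
    rw [Nat.card_eq_fintype_card, Nat.card_eq_fintype_card, ← SimpleGraph.edgeFinset_card] at hconn
    have hsum := C.toSimpleGraph.sum_degrees_eq_twice_card_edges
    have hdeg : ∀ x : C, C.toSimpleGraph.degree x ≤ (dx2 M F c a b x.1).card := by
      intro x
      rw [← SimpleGraph.card_neighborFinset_eq_degree]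
      have hch : ∀ y : C, y ∈ C.toSimpleGraph.neighborFinset x →
          ∃ e ∈ F, M.ends e = s(x.1, y.1) ∧ (c e = a ∨ c e = b) := by
        intro y hy
        rw [SimpleGraph.mem_neighborFinset] at hy
        have : G.Adj x.1 y.1 := hy
        exact this
      rcases isEmpty_or_nonempty E with hE | hE
      · have : C.toSimpleGraph.neighborFinset x = ∅ := by
          refine Finset.eq_empty_of_forall_notMem ?_
          intro y hy
          obtain ⟨e, -⟩ := hch y hy
          exact hE.elim e
        rw [this]
        exact Nat.zero_le _
      choose! f hf using hch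
      refine Finset.card_le_card_of_injOn f ?_ ?_
      · intro y hy
        have h := hf y (by simpa using hy)
        simp only [dx2, coe_filter, Set.mem_ofPred_eq]
        exact ⟨h.1, by rw [h.2.1]; exact Sym2.mem_mk_left _ _, h.2.2⟩
      · intro y hy z hz hyz
        have h := hf y (by simpa using hy)
        have h' := hf z (by simpa using hz)
        have h3 : s(x.1, y.1) = s(x.1, z.1) := by rw [← h.2.1, ← h'.2.1, hyz]
        exact Subtype.ext (Sym2.congr_right.1 h3)
    let u' : C := ⟨u, huC⟩
    let v' : C := ⟨v, hvC⟩
    let w' : C := ⟨w, hwC⟩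
    have huv' : u' ≠ v' := fun h => huv (congrArg Subtype.val h)
    have huw' : u' ≠ w' := fun h => huw (congrArg Subtype.val h)
    have hvw' : v' ≠ w' := fun h => hvw (congrArg Subtype.val h)
    have hle : ∑ x : C, (C.toSimpleGraph.degree x + (if x ∈ ({u', v', w'} : Finset C) then 1 else 0))
        ≤ ∑ x : C, 2 := by
      refine Finset.sum_le_sum ?_
      intro x _
      have hx := hdeg x
      by_cases hxm : x ∈ ({u', v', w'} : Finset C)
      · rw [if_pos hxm]
        have hX : X1 (misOn M F c x.1) a b := by
          simp only [mem_insert, mem_singleton] at hxm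
          rcases hxm with rfl | rfl | rfl
          · exact hu
          · exact hv
          · exact hw
        have := dx2_le_one M F c hc a b x.1 hX
        omega
      · rw [if_neg hxm]
        have := dx2_le M F c hc a b x.1
        omega
    rw [Finset.sum_add_distrib, hsum, Finset.sum_ite_mem, Finset.univ_inter, Finset.sum_const,
      Finset.sum_const, Finset.card_univ] at hle
    have h3 : ({u', v', w'} : Finset C).card = 3 := by
      rw [Finset.card_eq_three]
      exact ⟨u', v', w', huv', huw', hvw', rfl⟩
    rw [h3] at hle
    simp only [smul_eq_mul, mul_one] at hle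
    omega

end Pool.Agent.Helper6.AVD
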