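import Pool.Agent.Helper6.AVD.Base
import Pool.Agent.Helper6.AVD.St.V1
import Pool.Agent.Helper6.AVD.St.V2

/-! Project AVD, piece R1: coins for the Kempe components of all pairs `{a, π a}`. -/

set_option autoImplicit false
set_option linter.unusedSectionVars false

namespace Pool.Agent.Helper6.AVD

open Finset

variable {V E K : Type*} [Fintype V] [DecidableEq V] [Fintype E] [DecidableEq E]
  [Fintype K] [DecidableEq K]

/-- `cn a v : K × V` is the name of the `{a, π a}`-component of `v`.
PROOF. Choose `rep : K → K` with `rep (π a) = rep a` and `rep a = a ∨ rep a = π a` (e.g. with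
`Fintype.equivFin K`: the smaller one of `a, π a`). For every `b` with `π b ≠ b` let `rt b : V → V` be the map of
`comp_two` (V2) for `F = univ` and the colours `b, π b`; `cn a v = (rep a, rt (rep a) v)` (and any `rt`, e.g. `id`,
if `π b = b`; for such `a` the second claim: `c e = a`; use the constant map `rt b v = v₀`... to make ends of an
edge coloured `a = π a` have the same coin take for `rt b` a constant function, `V` is nonempty as soon as there is
an edge; and the last claim is trivial because `X1 m a a` is false). -/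
theorem coins (M : MG V E) (c : E → K) (hc : Proper M c) (π : K → K) (hπ : ∀ a, π (π a) = a) :
    ∃ cn : K → V → K × V, (∀ a v, cn (π a) v = cn a v) ∧
      (∀ e u v, M.ends e = s(u, v) → cn (c e) u = cn (c e) v) ∧
      (∀ a b u v, cn a u = cn b v → b = a ∨ b = π a) ∧
      ∀ a u v w, u ≠ v → u ≠ w → v ≠ w → cn a u = cn a v → cn a u = cn a w →
        ¬ (X1 (mis M c u) a (π a) ∧ X1 (mis M c v) a (π a) ∧ X1 (mis M c w) a (π a)) := by
  classical
  let eq := Fintype.equivFin K
  let rep : K → K := fun a => if eq a ≤ eq (π a) then a else π a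
  have rep_pi : ∀ a, rep (π a) = rep a := by
    intro a
    simp only [rep, hπ]
    rcases lt_trichotomy (eq a) (eq (π a)) with h | h | h
    · rw [if_neg (not_le.2 h), if_pos h.le]
    · have h0 : a = π a := eq.injective h
      split_ifs <;> first | rfl | exact h0.symm | exact h0
    · rw [if_pos h.le, if_neg (not_le.2 h)]
  have rep_or : ∀ a, rep a = a ∨ rep a = π a := by
    intro a
    by_cases h : eq a ≤ eq (π a)
    · left
      exact if_pos h
    · right
      exact if_neg h
  have hX : ∀ (m : Finset K) (a b : K), X1 m a b → X1 m b a := by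
    rintro m a b (⟨h1, h2⟩ | ⟨h1, h2⟩)
    · exact Or.inr ⟨h2, h1⟩
    · exact Or.inl ⟨h2, h1⟩
  have hrt : ∀ b : K, ∃ rt : V → V,
      (∀ e, (c e = b ∨ c e = π b) → ∀ u v, M.ends e = s(u, v) → rt u = rt v) ∧
      ∀ u v w, u ≠ v → u ≠ w → v ≠ w → rt u = rt v → rt u = rt w →
        ¬ (X1 (mis M c u) b (π b) ∧ X1 (mis M c v) b (π b) ∧ X1 (mis M c w) b (π b)) := by
    intro b
    by_cases hb : b = π b
    · rcases isEmpty_or_nonempty V with hV | ⟨⟨v0⟩⟩
      · exact ⟨id, fun e _ u => hV.elim u, fun u => hV.elim u⟩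
      · refine ⟨fun _ => v0, fun _ _ _ _ _ => rfl, ?_⟩
        rintro u v w - - - - - ⟨h, -⟩
        rw [← hb] at h
        rcases h with ⟨h1, h2⟩ | ⟨h1, h2⟩
        · exact h2 h1
        · exact h1 h2
    · obtain ⟨rt, h1, h2⟩ := comp_two M univ c hc b (π b) hb
      exact ⟨rt, fun e he u v huv => h1 e (mem_univ _) he u v huv, h2⟩
  choose rt h1 h2 using hrt
  refine ⟨fun a v => (rep a, rt (rep a) v), ?_, ?_, ?_, ?_⟩
  · intro a v
    simp only [rep_pi]
  · intro e u v huv
    have h0 : rt (rep (c e)) u = rt (rep (c e)) v := by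
      apply h1 (rep (c e)) e _ u v huv
      rcases rep_or (c e) with h | h
      · left
        exact h.symm
      · right
        rw [h, hπ]
    simp only [h0]
  · intro a b u v h
    have h3 : rep a = rep b := (Prod.mk.inj h).1
    rcases rep_or a with ha | ha <;> rcases rep_or b with hb | hb
    · left
      rw [← hb, ← h3, ha]
    · right
      rw [ha, hb] at h3
      rw [h3, hπ]
    · right
      rw [ha, hb] at h3
      exact h3.symm
    · left
      rw [ha, hb] at h3
      rw [← hπ b, ← h3, hπ]
  · rintro a u v w huv huw hvw h h' ⟨hu, hv, hw⟩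
    have e1 := (Prod.mk.inj h).2
    have e2 := (Prod.mk.inj h').2
    apply h2 (rep a) u v w huv huw hvw e1 e2
    rcases rep_or a with ha | ha
    · rw [ha]
      exact ⟨hu, hv, hw⟩
    · rw [ha, hπ]
      exact ⟨hX _ _ _ hu, hX _ _ _ hv, hX _ _ _ hw⟩

end Pool.Agent.Helper6.AVD
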