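import Pool.Agent.Helper6.AVD.Base
import Pool.Agent.Helper61.LE.LLL

/-! Project AVD, piece R4: the local lemma for events indexed by vertices. -/

set_option autoImplicit false
set_option linter.unusedSectionVars false

namespace Pool.Agent.Helper6.AVD

open Finset

open Pool.Agent.Helper61.LE

/-- symmetric local lemma. PROOF. `lll` with `J = univ`: the sum is at most `d * δ ≤ 1/4`; `PP (Bad v) ≤ δ ≤ 1/4`
because `d ≥ 1` or `S v` is empty... (if `d = 0` then `S v` meets no `S w`, in particular `S v = ∅`; this is why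
`hδ1` is assumed separately). -/
theorem lll_vertex {ι Ω V : Type*} [Fintype ι] [DecidableEq ι] [Fintype Ω] [DecidableEq Ω]
    [Fintype V] [DecidableEq V] {μ : ι → Ω → ℝ} (h : IsProb μ) (Bad : V → (ι → Ω) → Prop)
    (S : V → Finset ι) (hdep : ∀ v, Dep (Bad v) (S v)) (δ : ℝ) (hδ : ∀ v, PP μ (Bad v) ≤ δ)
    (hδ1 : δ ≤ 1 / 4) (d : ℕ)
    (hd : ∀ v, (univ.filter fun w => ¬ Disjoint (S v) (S w)).card ≤ d) (hdδ : 4 * (d : ℝ) * δ ≤ 1) :
    ∃ ω, ∀ v, ¬ Bad v ω := by
  classical
  obtain ⟨ω, -, hω⟩ := lll h (univ : Finset V) Bad S (fun v _ => hdep v)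
    (fun v _ => (hδ v).trans hδ1) (fun v _ => by
      have hδ0 : 0 ≤ δ := (PP_nonneg h (Bad v)).trans (hδ v)
      calc ∑ j ∈ (univ : Finset V).filter (fun j => ¬ Disjoint (S v) (S j)), PP μ (Bad j)
          ≤ ∑ _j ∈ (univ : Finset V).filter (fun j => ¬ Disjoint (S v) (S j)), δ :=
            Finset.sum_le_sum fun j _ => hδ j
        _ = (((univ : Finset V).filter (fun j => ¬ Disjoint (S v) (S j))).card : ℝ) * δ := by
            rw [Finset.sum_const, nsmul_eq_mul]
        _ ≤ (d : ℝ) * δ := by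
            apply mul_le_mul_of_nonneg_right _ hδ0
            exact_mod_cast hd v
        _ ≤ 1 / 4 := by linarith)
  exact ⟨ω, fun v => hω v (Finset.mem_univ v)⟩

end Pool.Agent.Helper6.AVD
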