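import Pool.Agent.Helper6.AVD.Base
import Pool.Agent.Helper61.LE.Prob

/-! Project AVD, piece R2: upper tail for the number of vertices whose coin shows a given bit. -/

set_option autoImplicit false
set_option linter.unusedSectionVars false

namespace Pool.Agent.Helper6.AVD

open Finset

open Pool.Agent.Helper61.LE

/-- the fair coin weights -/
noncomputable def fair {ι : Type*} : ι → Bool → ℝ := fun _ _ => 1 / 2

theorem fair_prob {ι : Type*} [Fintype ι] [DecidableEq ι] : IsProb (fair (ι := ι)) := by
  constructor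
  · intro i a
    unfold fair
    norm_num
  · intro i
    simp [fair]

private theorem coin_mean {ι : Type*} [Fintype ι] [DecidableEq ι] (i : ι) (b : Bool) :
    EE fair (fun ω : ι → Bool => if ω i = b then (1 : ℝ) else 0) = 1 / 2 := by
  rw [← EE_resample fair_prob i]
  have h1 : ∀ ω : ι → Bool, (∑ a : Bool, fair i a *
      (if Function.update ω i a i = b then (1 : ℝ) else 0)) = 1 / 2 := by
    intro ω
    cases b <;> simp [fair]
  simp only [h1]
  exact EE_const fair_prob _

/-- every coin is used by at most two `v ∈ N`.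
PROOF. `X ω = #{v ∈ N | ω (cn v) = b v}` depends on the coins in `S = N.image cn` (`|S| ≤ D`), changing one coin
changes `X` by at most 2, `EE X = |N|/2` (`EE_sum`, one coin: `EE_prod` or `EE_resample`). `mgf` (Prob.lean) with
`c i = 2`, `p i = 1`, `N i = fun _ => False`: `EE exp(l X) ≤ exp(l |N|/2 + 4 l² |S|)` (read the exact form there) for
`2 l ≤ 1`; `PP_ge_le_exp` with `l = e/(8D)` gives `exp(-l e + 4 l² D) = exp(-e²/(16 D))`. (`D = 0`: right side
is `exp 0 = 1`.) -/
theorem tail_flat {ι V : Type*} [Fintype ι] [DecidableEq ι] [Fintype V] [DecidableEq V]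
    (N : Finset V) (cn : V → ι) (b : V → Bool)
    (h2 : ∀ i, (N.filter fun v => cn v = i).card ≤ 2) (D e : ℕ) (hN : N.card ≤ D)
    (he : e ≤ 4 * D) :
    PP fair (fun ω : ι → Bool => (N.card : ℝ) / 2 + e ≤
      ((N.filter fun v => ω (cn v) = b v).card : ℝ)) ≤ Real.exp (-((e : ℝ) ^ 2 / (16 * D))) := by
  classical
  rcases Nat.eq_zero_or_pos D with hD | hD
  · subst hD
    have h1 : Real.exp (-((e : ℝ) ^ 2 / (16 * ((0 : ℕ) : ℝ)))) = 1 := by simp
    rw [h1]
    exact PP_le_one fair_prob _
  have hDr : (0 : ℝ) < D := by exact_mod_cast hD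
  have her : (e : ℝ) ≤ 4 * D := by exact_mod_cast he
  have he0 : (0 : ℝ) ≤ e := Nat.cast_nonneg e
  set f : (ι → Bool) → ℝ := fun ω => ((N.filter fun v => ω (cn v) = b v).card : ℝ) with hf
  have hfs : ∀ ω, f ω = ∑ v ∈ N, (if ω (cn v) = b v then (1 : ℝ) else 0) := by
    intro ω
    rw [hf]
    simp only [Finset.card_filter]
    push_cast
    rfl
  have hE : EE fair f = (N.card : ℝ) / 2 := by
    rw [EE_congr hfs, EE_sum]
    simp only [coin_mean]
    rw [Finset.sum_const, nsmul_eq_mul]
    ring
  set S := N.image cn with hS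
  have hSD : (S.card : ℝ) ≤ D := by
    exact_mod_cast (Finset.card_image_le).trans hN
  have hdep : Dep f S := by
    intro ω ω' h
    rw [hfs, hfs]
    refine Finset.sum_congr rfl fun v hv => ?_
    rw [h (cn v) (Finset.mem_image_of_mem _ hv)]
  have hdiff : ∀ i ∈ S, ∀ (ω : ι → Bool) a c,
      |f (Function.update ω i a) - f (Function.update ω i c)| ≤ 2 := by
    intro i _ ω a c
    rw [hfs, hfs, ← Finset.sum_sub_distrib]
    have h1 : ∀ v ∈ N, |(if Function.update ω i a (cn v) = b v then (1 : ℝ) else 0) -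
        (if Function.update ω i c (cn v) = b v then (1 : ℝ) else 0)| ≤
        if cn v = i then 1 else 0 := by
      intro v _
      by_cases h : cn v = i
      · rw [if_pos h]
        split_ifs <;> norm_num
      · rw [if_neg h, Function.update_of_ne h, Function.update_of_ne h]
        simp
    refine (Finset.abs_sum_le_sum_abs _ _).trans ((Finset.sum_le_sum h1).trans ?_)
    rw [← Finset.sum_filter, Finset.sum_const, nsmul_eq_mul, mul_one]
    exact_mod_cast h2 i
  set l : ℝ := e / (8 * D) with hl
  have hl0 : 0 ≤ l := by positivity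
  have hl1 : l * 2 ≤ 1 := by
    rw [hl, div_mul_eq_mul_div, div_le_one (by positivity)]
    linarith
  have hm := mgf (fair_prob (ι := ι)) (fun _ => 2) (fun _ => 1) hl0 (fun _ _ => False) S f hdep
    (fun _ _ => hl1) hdiff (fun _ _ _ _ _ h => h.elim) (fun i _ => by
      simp only [if_false]
      exact (fair_prob.sum_one i).le)
  refine (PP_ge_le_exp fair_prob f _ l hl0).trans
    ((mul_le_mul_of_nonneg_left hm (Real.exp_pos _).le).trans ?_)
  rw [← Real.exp_add, hE, Real.exp_le_exp, Finset.sum_const, nsmul_eq_mul]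
  have h3 : l ^ 2 * ((S.card : ℝ) * (1 * 2 ^ 2)) ≤ l ^ 2 * (4 * D) := by
    refine mul_le_mul_of_nonneg_left ?_ (sq_nonneg l)
    linarith
  have h4 : l * e - l ^ 2 * (4 * D) = (e : ℝ) ^ 2 / (16 * D) := by
    rw [hl]
    field_simp
    ring
  have h5 : l * ((N.card : ℝ) / 2 + e) = l * ((N.card : ℝ) / 2) + l * e := by ring
  linarith

end Pool.Agent.Helper6.AVD
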