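import Pool.Agent.Helper6.AVD.Base
import Pool.Agent.Helper6.AVD.St.R2

/-! Project AVD: definitions for the random round. -/

set_option autoImplicit false
set_option linter.unusedSectionVars false

namespace Pool.Agent.Helper6.AVD

open Finset

open Pool.Agent.Helper61.LE

variable {V K ι : Type*} [Fintype V] [DecidableEq V] [Fintype K] [DecidableEq K]
  [Fintype ι] [DecidableEq ι]

/-- missing colours at `v` after the round with coins `ω` -/
def mw (m : V → Finset K) (π : K → K) (cn : K → V → ι) (ω : ι → Bool) (v : V) : Finset K :=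
  univ.filter fun a => (if ω (cn a v) = true then π a else a) ∈ m v

/-- the coins relevant for `v` -/
def supp (m : V → Finset K) (π : K → K) (cn : K → V → ι) (v : V) : Finset ι :=
  (univ.filter fun a => (a ∈ m v ∧ π a ∉ m v) ∨ (a ∉ m v ∧ π a ∈ m v)).image fun a => cn a v

/-- the coins relevant for `x` and the vertices of `N x` -/
def suppN (m : V → Finset K) (π : K → K) (cn : K → V → ι) (N : V → Finset V) (x : V) : Finset ι :=
  (insert x (N x)).biUnion fun v => supp m π cn v

/-- hypotheses on the coin names -/
structure CoinOK (m : V → Finset K) (π : K → K) (cn : K → V → ι) : Prop where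
  inv : ∀ a, π (π a) = a
  pair : ∀ a v, cn (π a) v = cn a v
  inj : ∀ a b u v, cn a u = cn b v → b = a ∨ b = π a
  two : ∀ a u v w, u ≠ v → u ≠ w → v ≠ w → cn a u = cn a v → cn a u = cn a w →
    ¬ (X1 (m u) a (π a) ∧ X1 (m v) a (π a) ∧ X1 (m w) a (π a))

end Pool.Agent.Helper6.AVD
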