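import Pool.Agent.Helper6.AVD.Base
import Pool.Agent.Helper6.AVD.St.R0

/-! Project AVD, piece R5: the probability that the flatness condition fails at `(u, γ)`. -/

set_option autoImplicit false
set_option linter.unusedSectionVars false

namespace Pool.Agent.Helper6.AVD

open Finset

open Pool.Agent.Helper61.LE

variable {V K ι : Type*} [Fintype V] [DecidableEq V] [Fintype K] [DecidableEq K]
  [Fintype ι] [DecidableEq ι]

/-- PROOF. Let `B` = the `v ∈ A u` missing (in `m`) both `γ, π γ`, `N` = those missing exactly one. Then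
`nn A m u γ + nn A m u (π γ) = 2|B| + |N|` and `nn A (mw ω) u γ = |B| + #{v ∈ N | ω (cn γ v) = b v}` with
`b v = (γ ∉ m v)` (if `v` misses `γ` only, it misses `γ` afterwards iff the coin is `false`; if it misses `π γ` only,
iff the coin is `true`). If `π γ = γ` then `N = ∅` and the event is impossible (also covered by the general
argument). Every coin is used by at most two `v ∈ N` (`CoinOK.two` with `a = γ`; a filter of card ≥ 3 contains three
distinct elements, `Finset.two_lt_card`). So the event is contained in the one of `tail_flat` (R2). -/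
theorem flat_prob (m : V → Finset K) (π : K → K) (cn : K → V → ι) (h : CoinOK m π cn)
    (A : V → Finset V) (D e : ℕ) (hA : ∀ u, (A u).card ≤ D) (he : e ≤ 4 * D) (u : V) (γ : K) :
    PP fair (fun ω : ι → Bool => nn A m u γ + nn A m u (π γ) + 2 * e < 2 * nn A (mw m π cn ω) u γ)
      ≤ Real.exp (-((e : ℝ) ^ 2 / (16 * D))) := by
  classical
  have hinv := h.inv
  obtain ⟨B, hB⟩ : ∃ B, B = (A u).filter fun v => γ ∈ m v ∧ π γ ∈ m v := ⟨_, rfl⟩
  obtain ⟨N, hNd⟩ : ∃ N, N = (A u).filter fun v => X1 (m v) γ (π γ) := ⟨_, rfl⟩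
  have e1 : nn A m u γ = B.card + (N.filter fun v => γ ∈ m v).card := by
    have : (A u).filter (fun v => γ ∈ m v) = B ∪ (N.filter fun v => γ ∈ m v) := by
      ext v
      simp only [hB, hNd, Finset.mem_union, Finset.mem_filter, X1]
      tauto
    unfold nn
    rw [this, Finset.card_union_of_disjoint]
    rw [Finset.disjoint_left]
    intro v hv hv'
    simp only [hB, hNd, Finset.mem_filter, X1] at hv hv'
    tauto
  have e2 : nn A m u (π γ) = B.card + (N.filter fun v => ¬ γ ∈ m v).card := by
    have : (A u).filter (fun v => π γ ∈ m v) = B ∪ (N.filter fun v => ¬ γ ∈ m v) := by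
      ext v
      simp only [hB, hNd, Finset.mem_union, Finset.mem_filter, X1]
      tauto
    unfold nn
    rw [this, Finset.card_union_of_disjoint]
    rw [Finset.disjoint_left]
    intro v hv hv'
    simp only [hB, hNd, Finset.mem_filter, X1] at hv hv'
    tauto
  have e3 : (N.filter fun v => γ ∈ m v).card + (N.filter fun v => ¬ γ ∈ m v).card = N.card :=
    Finset.card_filter_add_card_filter_not _
  have e4 : ∀ ω : ι → Bool, nn A (mw m π cn ω) u γ =
      B.card + (N.filter fun v => ω (cn γ v) = decide (γ ∉ m v)).card := by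
    intro ω
    have : (A u).filter (fun v => γ ∈ mw m π cn ω v) =
        B ∪ (N.filter fun v => ω (cn γ v) = decide (γ ∉ m v)) := by
      ext v
      simp only [hB, hNd, Finset.mem_union, Finset.mem_filter, X1, mw, Finset.mem_univ, true_and]
      rcases hω : ω (cn γ v) with _ | _
      · by_cases h1 : γ ∈ m v <;> by_cases h2 : π γ ∈ m v <;> simp [h1, h2]
      · by_cases h1 : γ ∈ m v <;> by_cases h2 : π γ ∈ m v <;> simp [h1, h2]
    unfold nn
    rw [this, Finset.card_union_of_disjoint]
    rw [Finset.disjoint_left]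
    intro v hv hv'
    simp only [hB, hNd, Finset.mem_filter, X1] at hv hv'
    tauto
  have h2 : ∀ i, (N.filter fun v => cn γ v = i).card ≤ 2 := by
    intro i
    by_contra hcon
    push Not at hcon
    obtain ⟨x, y, z, hx, hy, hz, hxy, hxz, hyz⟩ := Finset.two_lt_card_iff.1 hcon
    simp only [hNd, Finset.mem_filter] at hx hy hz
    exact h.two γ x y z hxy hxz hyz (hx.2.trans hy.2.symm) (hx.2.trans hz.2.symm)
      ⟨hx.1.2, hy.1.2, hz.1.2⟩
  have hND : N.card ≤ D := by
    rw [hNd]
    exact (Finset.card_filter_le _ _).trans (hA u)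
  refine (PP_mono fair_prob ?_).trans
    (tail_flat (ι := ι) N (fun v => cn γ v) (fun v => decide (γ ∉ m v)) h2 D e hND he)
  intro ω hω
  have h5 : nn A m u γ + nn A m u (π γ) + 2 * e < 2 * nn A (mw m π cn ω) u γ := hω
  rw [e1, e2, e4 ω] at h5
  have h6 : N.card + 2 * e < 2 * (N.filter fun v => ω (cn γ v) = decide (γ ∉ m v)).card := by
    omega
  have h7 : (N.card : ℝ) + 2 * e < 2 * ((N.filter fun v => ω (cn γ v) = decide (γ ∉ m v)).card : ℝ) := by
    exact_mod_cast h6
  change (N.card : ℝ) / 2 + e ≤ ((N.filter fun v => ω (cn γ v) = decide (γ ∉ m v)).card : ℝ)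
  linarith

end Pool.Agent.Helper6.AVD
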