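import Pool.Agent.Helper6.AVD.Base
import Pool.Agent.Helper6.AVD.St.R2

/-! Project AVD, piece R3: upper tail for the number of colour pairs on which three vertices agree. -/

set_option autoImplicit false
set_option linter.unusedSectionVars false

namespace Pool.Agent.Helper6.AVD

open Finset

open Pool.Agent.Helper61.LE

private theorem agree_half {ι : Type*} [Fintype ι] [DecidableEq ι] (i j : ι) (hij : i ≠ j)
    (b b' : Bool) :
    EE fair (fun ω : ι → Bool => if xor (ω i) b = xor (ω j) b' then (1 : ℝ) else 0) ≤ 1 / 2 := by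
  rw [← EE_resample fair_prob i]
  have h1 : ∀ ω : ι → Bool, (∑ a, fair i a * (if xor (Function.update ω i a i) b =
      xor (Function.update ω i a j) b' then (1 : ℝ) else 0)) ≤ 1 / 2 := by
    intro ω
    rw [Fintype.sum_bool]
    simp only [Function.update_self, Function.update_of_ne (Ne.symm hij), fair]
    cases hj : ω j <;> cases b <;> cases b' <;> norm_num
  calc EE fair (fun ω : ι → Bool => ∑ a, fair i a * (if xor (Function.update ω i a i) b =
      xor (Function.update ω i a j) b' then (1 : ℝ) else 0))
      ≤ EE fair (fun _ : ι → Bool => (1 / 2 : ℝ)) := EE_mono fair_prob h1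
    _ = 1 / 2 := EE_const fair_prob _

/-- For every `a ∈ P` three coins `x a, y a, z a`, not all equal, coins for different `a` are different.
PROOF. `f ω` = the number of `a ∈ P` with the agreement event. `P(agreement at a) ≤ 1/2`: say `x a ≠ y a` (or
`x a ≠ z a`), then `xor (ω (x a)) (bx a) = xor (ω (y a)) (by' a)` has probability 1/2 (resample the coin `x a`:
`EE_resample`). So `EE f ≤ |P|/2`. Changing one coin changes `f` by at most 1 (a coin belongs to at most one `a`),
`f` depends on at most `3|P|` coins. `mgf` with `c i = 1, p i = 1` (and `N i = fun _ => False`), `l = 1/24`, and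
`PP_ge_le_exp`: `exp(-l·3|P|/4 + l·|P|/2 + 3 l² |P|) = exp(-|P|/96 + |P|/192) = exp(-|P|/192)`. -/
theorem tail_triple {ι κ : Type*} [Fintype ι] [DecidableEq ι] [DecidableEq κ]
    (P : Finset κ) (x y z : κ → ι) (hne : ∀ a ∈ P, ¬ (x a = y a ∧ x a = z a))
    (hdis : ∀ a ∈ P, ∀ b ∈ P, a ≠ b →
      Disjoint ({x a, y a, z a} : Finset ι) ({x b, y b, z b} : Finset ι))
    (bx by' bz : κ → Bool) :
    PP fair (fun ω : ι → Bool => 3 * (P.card : ℝ) / 4 ≤
      ((P.filter fun a => xor (ω (x a)) (bx a) = xor (ω (y a)) (by' a) ∧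
        xor (ω (x a)) (bx a) = xor (ω (z a)) (bz a)).card : ℝ)) ≤
      Real.exp (-((P.card : ℝ) / 192)) := by
  classical
  set g : κ → (ι → Bool) → ℝ := fun a ω =>
    if xor (ω (x a)) (bx a) = xor (ω (y a)) (by' a) ∧
        xor (ω (x a)) (bx a) = xor (ω (z a)) (bz a) then (1 : ℝ) else 0 with hg
  set f : (ι → Bool) → ℝ := fun ω => ∑ a ∈ P, g a ω with hf
  have hfc : ∀ ω : ι → Bool, ((P.filter fun a => xor (ω (x a)) (bx a) = xor (ω (y a)) (by' a) ∧
        xor (ω (x a)) (bx a) = xor (ω (z a)) (bz a)).card : ℝ) = f ω := by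
    intro ω
    simp only [hf, hg]
    rw [Finset.card_filter]
    push_cast
    rfl
  simp only [hfc]
  set S : Finset ι := P.biUnion (fun a => ({x a, y a, z a} : Finset ι)) with hS
  have hScard : (S.card : ℝ) ≤ 3 * P.card := by
    have h1 : S.card ≤ P.card * 3 := by
      apply Finset.card_biUnion_le_card_mul
      intro a _
      exact Finset.card_le_three
    have h2 : (S.card : ℝ) ≤ ((P.card * 3 : ℕ) : ℝ) := by exact_mod_cast h1
    push_cast at h2
    linarith
  -- g depends only on the three coins
  have hgdep : ∀ a, Dep (g a) ({x a, y a, z a} : Finset ι) := by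
    intro a ω ω' h
    have hx := h (x a) (by simp)
    have hy := h (y a) (by simp)
    have hz := h (z a) (by simp)
    simp only [hg, hx, hy, hz]
  have hg01 : ∀ a ω, 0 ≤ g a ω ∧ g a ω ≤ 1 := by
    intro a ω
    simp only [hg]
    split_ifs <;> norm_num
  have hfdep : Dep f S := by
    intro ω ω' h
    simp only [hf]
    refine Finset.sum_congr rfl fun a ha => ?_
    apply hgdep a
    intro i hi
    exact h i (Finset.mem_biUnion.2 ⟨a, ha, hi⟩)
  have hEf : EE fair f ≤ (P.card : ℝ) / 2 := by
    simp only [hf]
    rw [EE_sum]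
    have h1 : ∀ a ∈ P, EE fair (g a) ≤ 1 / 2 := by
      intro a ha
      by_cases hxy : x a = y a
      · have hxz : x a ≠ z a := fun h => hne a ha ⟨hxy, h⟩
        refine le_trans (EE_mono fair_prob fun ω => ?_) (agree_half (x a) (z a) hxz (bx a) (bz a))
        simp only [hg]
        by_cases h2 : xor (ω (x a)) (bx a) = xor (ω (z a)) (bz a)
        · rw [if_pos h2]
          split_ifs <;> norm_num
        · rw [if_neg h2, if_neg (fun h => h2 h.2)]
      · refine le_trans (EE_mono fair_prob fun ω => ?_) (agree_half (x a) (y a) hxy (bx a) (by' a))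
        simp only [hg]
        by_cases h2 : xor (ω (x a)) (bx a) = xor (ω (y a)) (by' a)
        · rw [if_pos h2]
          split_ifs <;> norm_num
        · rw [if_neg h2, if_neg (fun h => h2 h.1)]
    calc ∑ a ∈ P, EE fair (g a) ≤ ∑ a ∈ P, (1 / 2 : ℝ) := Finset.sum_le_sum h1
      _ = (P.card : ℝ) / 2 := by
        rw [Finset.sum_const, nsmul_eq_mul]
        ring
  have hdiff : ∀ i ∈ S, ∀ (ω : ι → Bool) (a b : Bool),
      |f (Function.update ω i a) - f (Function.update ω i b)| ≤ 1 := by
    intro i hi ω b b'
    obtain ⟨a, ha, hia⟩ := Finset.mem_biUnion.1 hi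
    have h1 : f (Function.update ω i b) - f (Function.update ω i b') =
        g a (Function.update ω i b) - g a (Function.update ω i b') := by
      simp only [hf]
      rw [← Finset.sum_sub_distrib]
      rw [Finset.sum_eq_single a]
      · intro c hc hca
        rw [sub_eq_zero]
        apply hgdep c
        intro j hj
        have hji : j ≠ i := by
          rintro rfl
          exact Finset.disjoint_left.1 (hdis c hc a ha hca) hj hia
        rw [Function.update_of_ne hji, Function.update_of_ne hji]
      · intro h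
        exact absurd ha h
    rw [h1, abs_le]
    have h2 := hg01 a (Function.update ω i b)
    have h3 := hg01 a (Function.update ω i b')
    constructor <;> linarith [h2.1, h2.2, h3.1, h3.2]
  have hm := mgf (μ := fair) fair_prob (fun _ : ι => (1 : ℝ)) (fun _ : ι => (1 : ℝ))
    (l := 1 / 24) (by norm_num) (fun _ _ => False) S f hfdep
    (fun i _ => by norm_num) (fun i hi ω a b => hdiff i hi ω a b)
    (fun i _ ω a b h => h.elim) (fun i _ => by
      simp [fair])
  have hP := PP_ge_le_exp (μ := fair) fair_prob f (3 * (P.card : ℝ) / 4) (1 / 24) (by norm_num)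
  refine hP.trans ?_
  refine (mul_le_mul_of_nonneg_left hm (Real.exp_pos _).le).trans ?_
  rw [← Real.exp_add]
  apply Real.exp_le_exp.2
  have hsum : ∑ i ∈ S, (1 : ℝ) * (1 : ℝ) ^ 2 = S.card := by
    simp
  rw [hsum]
  nlinarith [hScard, hEf]

end Pool.Agent.Helper6.AVD
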