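import Pool.Agent.Helper6.AVD.Base
import Pool.Agent.Helper6.AVD.St.R0
import Pool.Agent.Helper6.AVD.St.R3

/-! Project AVD, piece R6: three vertices, one of them with many split pairs, do not all stay close. -/

set_option autoImplicit false
set_option linter.unusedSectionVars false

namespace Pool.Agent.Helper6.AVD

open Finset

open Pool.Agent.Helper61.LE

variable {V K ι : Type*} [Fintype V] [DecidableEq V] [Fintype K] [DecidableEq K]
  [Fintype ι] [DecidableEq ι]

private theorem mem_mw (m : V → Finset K) (π : K → K) (cn : K → V → ι) (ω : ι → Bool) (v : V) (a : K) :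
    a ∈ mw m π cn ω v ↔ (if ω (cn a v) = true then π a else a) ∈ m v := by
  simp [mw]

private theorem mem_mw_pi (m : V → Finset K) (π : K → K) (cn : K → V → ι) (h : CoinOK m π cn)
    (ω : ι → Bool) (v : V) (a : K) :
    π a ∈ mw m π cn ω v ↔ (if ω (cn a v) = true then a else π a) ∈ m v := by
  rw [mem_mw, h.pair, h.inv]

/-- the number of pairs meeting a set is at most the size of the set -/
private theorem card_pairs (m : V → Finset K) (π : K → K) (cn : K → V → ι) (h : CoinOK m π cn)
    (x : V) (S : Finset K) :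
    (((m x).filter fun a => π a ∉ m x).filter fun a => a ∈ S ∨ π a ∈ S).card ≤ S.card := by
  classical
  apply Finset.card_le_card_of_injOn (fun a => if a ∈ S then a else π a)
  · intro a ha
    simp only [Finset.coe_filter, Finset.mem_filter, Set.mem_setOf_eq] at ha
    by_cases hs : a ∈ S
    · simp [hs]
    · have : π a ∈ S := by tauto
      simp [hs, this]
  · intro a ha b hb hab
    simp only [Finset.coe_filter, Finset.mem_filter, Set.mem_setOf_eq] at ha hb
    by_cases h1 : a ∈ S <;> by_cases h2 : b ∈ S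
    · simpa [h1, h2] using hab
    · simp only [h1, h2, if_true, if_false] at hab
      exact absurd (hab ▸ ha.1.1) hb.1.2
    · simp only [h1, h2, if_true, if_false] at hab
      exact absurd (hab ▸ hb.1.1) ha.1.2
    · simp only [h1, h2, if_false] at hab
      have := congrArg π hab
      rwa [h.inv, h.inv] at this

/-- PROOF. `Q = {a ∈ m x | π a ∉ m x}`, `|Q| ≥ N`. `P` = the `a ∈ Q` for which `m y` and `m z` also contain exactly
one of `a, π a`. Write `x' = mw ω x` etc. For `a ∈ Q` the set `x'` contains exactly one of `a, π a`. For `a ∈ Q \ P` one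
of `y', z'` contains 0 or 2 of `a, π a`, so it differs from `x'` on `{a, π a}`. For `a ∈ P`: `a ∈ x' ↔` coin `cn a x`
is `false`; `a ∈ y' ↔ (ω (cn a y) = true) xor (a ∈ m y)`, same for `z`; so `x', y', z'` all agree on `{a, π a}` iff the
agreement event of `tail_triple` (R3) with `bx a = false`, `by' a = (a ∉ m y)`, `bz a = (a ∉ m z)` holds. The three
coins are not all equal by `CoinOK.two` and the coins for different `a, b ∈ Q` are different by `CoinOK.inj`
(`b = π a` is impossible since `a ∈ m x, π a ∉ m x, b ∈ m x`).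
Case `2|P| ≥ |Q|`: outside an event of probability `≤ exp(-|P|/192) ≤ exp(-N/400)` the number of disagreeing `a ∈ Q`
is `> |Q| - |P| + |P|/4 ≥ |Q|/4`. Case `2|P| < |Q|`: it is always `> |Q|/2`. In both cases `> |Q|/4` elements `a ∈ Q`
have `x' ≠ y'` or `x' ≠ z'` on `{a, π a}`, so for one of `y, z`, say `y`, more than `|Q|/8 ≥ N/8` elements; the sets
`{a, π a}`, `a ∈ Q`, are pairwise disjoint, hence `|symmDiff x' y'| > N/8` (choose an element of
`symmDiff x' y' ∩ {a, π a}` for each: injective). -/
theorem triple_prob (m : V → Finset K) (π : K → K) (cn : K → V → ι) (h : CoinOK m π cn)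
    (x y z : V) (hxy : x ≠ y) (hxz : x ≠ z) (hyz : y ≠ z) (N : ℕ) (hN : N ≤ spl π (m x)) :
    PP fair (fun ω : ι → Bool =>
      8 * (symmDiff (mw m π cn ω x) (mw m π cn ω y)).card < N ∧
      8 * (symmDiff (mw m π cn ω x) (mw m π cn ω z)).card < N) ≤ Real.exp (-((N : ℝ) / 400)) := by
  classical
  set Q : Finset K := (m x).filter fun a => π a ∉ m x with hQ
  have hNQ : N ≤ Q.card := hN
  set P : Finset K := Q.filter fun a => X1 (m y) a (π a) ∧ X1 (m z) a (π a) with hP
  have hPQ : P.card ≤ Q.card := Finset.card_filter_le _ _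
  -- the agreement event
  let Ag : (ι → Bool) → Finset K := fun ω => P.filter fun a =>
    xor (ω (cn a x)) false = xor (ω (cn a y)) (decide (a ∉ m y)) ∧
      xor (ω (cn a x)) false = xor (ω (cn a z)) (decide (a ∉ m z))
  have key : ∀ ω : ι → Bool,
      8 * (symmDiff (mw m π cn ω x) (mw m π cn ω y)).card < N →
      8 * (symmDiff (mw m π cn ω x) (mw m π cn ω z)).card < N →
      3 * Q.card < 4 * (Ag ω).card := by
    intro ω h1 h2
    set Sy := symmDiff (mw m π cn ω x) (mw m π cn ω y) with hSy
    set Sz := symmDiff (mw m π cn ω x) (mw m π cn ω z) with hSz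
    have c1 := card_pairs m π cn h x Sy
    have c2 := card_pairs m π cn h x Sz
    rw [← hQ] at c1 c2
    have hsub : Q ⊆ (Ag ω) ∪ ((Q.filter fun a => a ∈ Sy ∨ π a ∈ Sy) ∪
        (Q.filter fun a => a ∈ Sz ∨ π a ∈ Sz)) := by
      intro a ha
      rw [Finset.mem_union, Finset.mem_union]
      by_contra hcon
      push Not at hcon
      obtain ⟨n1, n2, n3⟩ := hcon
      have ha' : a ∈ m x ∧ π a ∉ m x := by simpa [hQ] using ha
      have ny : ¬ (a ∈ Sy ∨ π a ∈ Sy) := fun hh => n2 (Finset.mem_filter.2 ⟨ha, hh⟩)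
      have nz : ¬ (a ∈ Sz ∨ π a ∈ Sz) := fun hh => n3 (Finset.mem_filter.2 ⟨ha, hh⟩)
      have e1 : (a ∈ mw m π cn ω x ↔ a ∈ mw m π cn ω y) := by
        have : a ∉ Sy := fun hh => ny (Or.inl hh)
        rw [hSy, Finset.mem_symmDiff] at this
        tauto
      have e2 : (π a ∈ mw m π cn ω x ↔ π a ∈ mw m π cn ω y) := by
        have : π a ∉ Sy := fun hh => ny (Or.inr hh)
        rw [hSy, Finset.mem_symmDiff] at this
        tauto
      have e3 : (a ∈ mw m π cn ω x ↔ a ∈ mw m π cn ω z) := by
        have : a ∉ Sz := fun hh => nz (Or.inl hh)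
        rw [hSz, Finset.mem_symmDiff] at this
        tauto
      have e4 : (π a ∈ mw m π cn ω x ↔ π a ∈ mw m π cn ω z) := by
        have : π a ∉ Sz := fun hh => nz (Or.inr hh)
        rw [hSz, Finset.mem_symmDiff] at this
        tauto
      rw [mem_mw, mem_mw] at e1 e3
      rw [mem_mw_pi m π cn h, mem_mw_pi m π cn h] at e2 e4
      apply n1
      simp only [Ag, hP, Finset.mem_filter, X1]
      refine ⟨⟨ha, ?_, ?_⟩, ?_, ?_⟩
      · rcases hx : ω (cn a x) <;> rcases hy : ω (cn a y) <;> simp [hx, hy, ha'] at e1 e2 ⊢ <;> tauto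
      · rcases hx : ω (cn a x) <;> rcases hz : ω (cn a z) <;> simp [hx, hz, ha'] at e3 e4 ⊢ <;> tauto
      · rcases hx : ω (cn a x) <;> rcases hy : ω (cn a y) <;> simp [hx, hy, ha'] at e1 e2 ⊢ <;> tauto
      · rcases hx : ω (cn a x) <;> rcases hz : ω (cn a z) <;> simp [hx, hz, ha'] at e3 e4 ⊢ <;> tauto
    have hc := (Finset.card_le_card hsub).trans ((Finset.card_union_le _ _).trans
      (Nat.add_le_add_left (Finset.card_union_le _ _) _))
    omega
  by_cases hc : 3 * N ≤ 4 * P.card
  · have ht := tail_triple (ι := ι) P (fun a => cn a x) (fun a => cn a y) (fun a => cn a z)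
      (by
        intro a ha hh
        simp only [hP, hQ, Finset.mem_filter] at ha
        exact h.two a x y z hxy hxz hyz hh.1 hh.2 ⟨Or.inl ⟨ha.1.1, ha.1.2⟩, ha.2.1, ha.2.2⟩)
      (by
        intro a ha b hb hab
        simp only [hP, hQ, Finset.mem_filter] at ha hb
        have main : ∀ u v, cn a u ≠ cn b v := by
          intro u v hcc
          rcases h.inj a b u v hcc with h1 | h1
          · exact hab h1.symm
          · exact ha.1.2 (h1 ▸ hb.1.1)
        rw [Finset.disjoint_left]
        intro i hi hi'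
        simp only [Finset.mem_insert, Finset.mem_singleton] at hi hi'
        rcases hi with rfl | rfl | rfl <;> rcases hi' with h1 | h1 | h1 <;> exact main _ _ h1)
      (fun _ => false) (fun a => decide (a ∉ m y)) (fun a => decide (a ∉ m z))
    refine (PP_mono fair_prob ?_).trans (ht.trans ?_)
    · intro ω hω
      have h3 := key ω hω.1 hω.2
      have h4 : 3 * P.card ≤ 4 * (Ag ω).card := by omega
      have h5 : (3 : ℝ) * (P.card : ℝ) ≤ 4 * ((Ag ω).card : ℝ) := by exact_mod_cast h4
      show 3 * (P.card : ℝ) / 4 ≤ ((Ag ω).card : ℝ)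
      linarith
    · apply Real.exp_le_exp.2
      have h6 : (3 : ℝ) * N ≤ 4 * (P.card : ℝ) := by exact_mod_cast hc
      have h7 : (0 : ℝ) ≤ N := Nat.cast_nonneg N
      linarith
  · have hf : ∀ ω : ι → Bool, ¬ (8 * (symmDiff (mw m π cn ω x) (mw m π cn ω y)).card < N ∧
        8 * (symmDiff (mw m π cn ω x) (mw m π cn ω z)).card < N) := by
      intro ω hω
      have h3 := key ω hω.1 hω.2
      have h8 : (Ag ω).card ≤ P.card := Finset.card_filter_le _ _
      omega
    have h0 : PP (fair (ι := ι)) (fun ω : ι → Bool =>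
      8 * (symmDiff (mw m π cn ω x) (mw m π cn ω y)).card < N ∧
      8 * (symmDiff (mw m π cn ω x) (mw m π cn ω z)).card < N) = 0 := by
      unfold PP EE
      apply Finset.sum_eq_zero
      intro ω _
      simp [hf ω]
    rw [h0]
    exact (Real.exp_pos _).le

end Pool.Agent.Helper6.AVD
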