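import Pool.Agent.Helper6.AVD.Base
import Pool.Agent.Helper6.AVD.St.R0

/-! Project AVD, piece R7: dependencies between the events of a round. -/

set_option autoImplicit false
set_option linter.unusedSectionVars false

namespace Pool.Agent.Helper6.AVD

open Finset

open Pool.Agent.Helper61.LE

variable {V K ι : Type*} [Fintype V] [DecidableEq V] [Fintype K] [DecidableEq K]
  [Fintype ι] [DecidableEq ι]

/-- `mw ω v` only depends on the coins in `supp v`: if `m v` contains both or none of `a, π a` the coin does not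
matter for `a`. -/
theorem mw_congr (m : V → Finset K) (π : K → K) (cn : K → V → ι) (ω ω' : ι → Bool) (v : V)
    (hω : ∀ i ∈ supp m π cn v, ω i = ω' i) : mw m π cn ω v = mw m π cn ω' v := by
  ext a
  simp only [mw, mem_filter, mem_univ, true_and]
  by_cases h : (a ∈ m v ∧ π a ∉ m v) ∨ (a ∉ m v ∧ π a ∈ m v)
  · have h1 : cn a v ∈ supp m π cn v := by
      unfold supp
      exact mem_image.2 ⟨a, mem_filter.2 ⟨mem_univ _, h⟩, rfl⟩
    rw [hω _ h1]
  · have h2 : π a ∈ m v ↔ a ∈ m v := by tauto
    split_ifs <;> simp [h2]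

private theorem R7_X1_symm {m : Finset K} {a b : K} (h : X1 m a b) : X1 m b a := by
  unfold X1 at *
  tauto

/-- the vertices sharing a relevant coin with `v` -/
private noncomputable def R7_T (m : V → Finset K) (π : K → K) (cn : K → V → ι) (v : V) :
    Finset V := by
  classical
  exact univ.filter fun w => ∃ a, X1 (m v) a (π a) ∧ X1 (m w) a (π a) ∧ cn a v = cn a w

private theorem R7_T_mem {m : V → Finset K} {π : K → K} {cn : K → V → ι} {v w : V} :
    w ∈ R7_T m π cn v ↔ ∃ a, X1 (m v) a (π a) ∧ X1 (m w) a (π a) ∧ cn a v = cn a w := by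
  unfold R7_T
  simp

private theorem R7_T_card (m : V → Finset K) (π : K → K) (cn : K → V → ι) (h : CoinOK m π cn)
    (v : V) : (R7_T m π cn v).card ≤ Fintype.card K + 1 := by
  classical
  have h1 : ((R7_T m π cn v).erase v).card ≤ (univ : Finset K).card := by
    have hc : ∀ w ∈ (R7_T m π cn v).erase v,
        ∃ a, X1 (m v) a (π a) ∧ X1 (m w) a (π a) ∧ cn a v = cn a w := fun w hw =>
      R7_T_mem.1 (mem_of_mem_erase hw)
    rcases isEmpty_or_nonempty K with hK | hK
    · have he : (R7_T m π cn v).erase v = ∅ := by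
        rw [eq_empty_iff_forall_notMem]
        intro w hw
        obtain ⟨a, _⟩ := hc w hw
        exact hK.elim a
      rw [he]
      exact Nat.zero_le _
    choose! f hf using hc
    refine card_le_card_of_injOn f (fun _ _ => mem_univ _) ?_
    intro w hw w' hw' e
    by_contra hne
    have a1 := hf w hw
    have a2 := hf w' hw'
    have b1 : w ≠ v := ne_of_mem_erase hw
    have b2 : w' ≠ v := ne_of_mem_erase hw'
    rw [← e] at a2
    exact h.two (f w) v w w' b1.symm b2.symm hne a1.2.2 a2.2.2 ⟨a1.1, a1.2.1, a2.2.1⟩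
  have h2 : (R7_T m π cn v).card - 1 ≤ ((R7_T m π cn v).erase v).card :=
    pred_card_le_card_erase
  rw [card_univ] at h1
  omega

private theorem R7_mem (m : V → Finset K) (π : K → K) (cn : K → V → ι) (h : CoinOK m π cn)
    {v w : V} {i : ι} (h1 : i ∈ supp m π cn v) (h2 : i ∈ supp m π cn w) :
    w ∈ R7_T m π cn v := by
  unfold supp at h1 h2
  obtain ⟨a, ha, ea⟩ := mem_image.1 h1
  obtain ⟨b, hb, eb⟩ := mem_image.1 h2
  have xa : X1 (m v) a (π a) := (mem_filter.1 ha).2
  have xb : X1 (m w) b (π b) := (mem_filter.1 hb).2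
  refine R7_T_mem.2 ⟨a, xa, ?_, ?_⟩
  · rcases h.inj a b v w (ea.trans eb.symm) with e | e
    · rw [e] at xb
      exact xb
    · rw [e, h.inv] at xb
      exact R7_X1_symm xb
  · rcases h.inj a b v w (ea.trans eb.symm) with e | e
    · rw [e] at eb
      exact ea.trans eb.symm
    · rw [e, h.pair] at eb
      exact ea.trans eb.symm

/-- PROOF. If `suppN v` and `suppN w` meet there are `v' ∈ insert v (N v)`, `w' ∈ insert w (N w)` and a common coin
`cn a v' = cn b w'`, `X1 (m v') a (π a)`, `X1 (m w') b (π b)`; by `inj` `b = a` or `b = π a`, so `cn a w' = cn a v'` and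
`X1 (m w') a (π a)`: given `v'` and `a` there is by `two` at most one such `w' ≠ v'`. So `w'` lies in a set of at most
`|K| + 1` vertices, and `w ∈ insert w' (N w')` by symmetry. Total `(D+1)(|K|+1)(D+1)`. -/
theorem dep_count (m : V → Finset K) (π : K → K) (cn : K → V → ι) (h : CoinOK m π cn)
    (N : V → Finset V) (hs : ∀ u v, v ∈ N u → u ∈ N v) (D : ℕ) (hD : ∀ u, (N u).card ≤ D) (v : V) :
    (univ.filter fun w => ¬ Disjoint (suppN m π cn N v) (suppN m π cn N w)).card ≤
      (D + 1) ^ 2 * (Fintype.card K + 1) := by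
  classical
  have hsub : (univ.filter fun w => ¬ Disjoint (suppN m π cn N v) (suppN m π cn N w)) ⊆
      (insert v (N v)).biUnion fun v' => (R7_T m π cn v').biUnion fun w' => insert w' (N w') := by
    intro w hw
    have h1 := (mem_filter.1 hw).2
    rw [not_disjoint_iff] at h1
    obtain ⟨i, hi, hi'⟩ := h1
    unfold suppN at hi hi'
    obtain ⟨v', hv', iv⟩ := mem_biUnion.1 hi
    obtain ⟨w', hw', iw⟩ := mem_biUnion.1 hi'
    refine mem_biUnion.2 ⟨v', hv', mem_biUnion.2 ⟨w', R7_mem m π cn h iv iw, ?_⟩⟩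
    rcases mem_insert.1 hw' with e | e
    · rw [e]
      exact mem_insert_self _ _
    · exact mem_insert_of_mem (hs _ _ e)
  have hins : ∀ u, (insert u (N u)).card ≤ D + 1 := fun u =>
    (card_insert_le _ _).trans (Nat.succ_le_succ (hD u))
  have hinner : ∀ v', ((R7_T m π cn v').biUnion fun w' => insert w' (N w')).card ≤
      (Fintype.card K + 1) * (D + 1) := by
    intro v'
    refine (card_biUnion_le_card_mul _ _ (D + 1) fun w' _ => hins w').trans ?_
    exact Nat.mul_le_mul_right _ (R7_T_card m π cn h v')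
  refine (card_le_card hsub).trans ?_
  refine (card_biUnion_le_card_mul _ _ ((Fintype.card K + 1) * (D + 1))
    fun v' _ => hinner v').trans ?_
  refine (Nat.mul_le_mul_right _ (hins v)).trans (le_of_eq ?_)
  ring

end Pool.Agent.Helper6.AVD
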