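import Pool.Agent.Helper6.AVD.Base
import Pool.Agent.Helper6.AVD.St.R4
import Pool.Agent.Helper6.AVD.St.R5
import Pool.Agent.Helper6.AVD.St.R6
import Pool.Agent.Helper6.AVD.St.R7

/-! Project AVD, piece R8: the local lemma for a round. -/

set_option autoImplicit false
set_option linter.unusedSectionVars false

namespace Pool.Agent.Helper6.AVD

open Finset

open Pool.Agent.Helper61.LE

variable {V K ι : Type*} [Fintype V] [DecidableEq V] [Fintype K] [DecidableEq K]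
  [Fintype ι] [DecidableEq ι]

/-- union bound for two events -/
private theorem PP_or_le {Ω : Type*} [Fintype Ω] [DecidableEq Ω] {μ : ι → Ω → ℝ} (h : IsProb μ)
    (A B : (ι → Ω) → Prop) : PP μ (fun ω => A ω ∨ B ω) ≤ PP μ A + PP μ B := by
  rw [PP_split (μ := μ) (fun ω => A ω ∨ B ω) A]
  refine add_le_add (PP_mono h fun ω hω => hω.2) (PP_mono h fun ω hω => ?_)
  exact hω.1.resolve_left hω.2

/-- an impossible event -/
private theorem PP_le_zero {Ω : Type*} [Fintype Ω] [DecidableEq Ω] {μ : ι → Ω → ℝ} (h : IsProb μ)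
    (A : (ι → Ω) → Prop) (hA : ∀ ω, ¬ A ω) : PP μ A ≤ 0 := by
  classical
  have h1 : PP μ A = EE μ (fun _ => (0 : ℝ)) := by
    unfold PP
    exact EE_congr fun ω => by rw [if_neg (hA ω)]
  rw [h1, EE_const h]

/-- PROOF. `Bad x ω`: `(∃ γ, flatness fails at (x, γ)) ∨ (∃ v w, v ∈ A₂ x ∧ w ∈ A₂ x ∧ x, v, w distinct ∧ one of the
three has N ≤ spl ∧ all three 8|symmDiff| < N)`. Depends on `suppN x` (R7 `mw_congr`; `A₁ x, A₂ x ⊆ N₀ x`).
`PP (Bad x) ≤ |K| exp(-e²/(16D)) + D² · 3 exp(-N/400) =: δ` (`PP_exists_le`, R5, R6 applied to the rich vertex of the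
triple). `lll_vertex` (R4) with `d = (D+1)²(|K|+1)` (R7). `δ ≤ 1/4` follows from `hsmall` since `d ≥ 1`. -/
theorem round_core (m : V → Finset K) (π : K → K) (cn : K → V → ι) (h : CoinOK m π cn)
    (N₀ A₁ A₂ : V → Finset V) (hs : ∀ u v, v ∈ N₀ u → u ∈ N₀ v) (D e N : ℕ)
    (hD : ∀ u, (N₀ u).card ≤ D) (h1 : ∀ u, A₁ u ⊆ N₀ u) (h2 : ∀ u, A₂ u ⊆ N₀ u) (he : e ≤ 4 * D)
    (hsmall : 4 * (((D : ℝ) + 1) ^ 2 * (Fintype.card K + 1)) *
      (Fintype.card K * Real.exp (-((e : ℝ) ^ 2 / (16 * D))) +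
        (D : ℝ) ^ 2 * (3 * Real.exp (-((N : ℝ) / 400)))) ≤ 1) :
    ∃ ω : ι → Bool,
      (∀ u γ, 2 * nn A₁ (mw m π cn ω) u γ ≤ nn A₁ m u γ + nn A₁ m u (π γ) + 2 * e) ∧
      ∀ u v w, v ∈ A₂ u → w ∈ A₂ u → u ≠ v → u ≠ w → v ≠ w →
        (N ≤ spl π (m u) ∨ N ≤ spl π (m v) ∨ N ≤ spl π (m w)) →
        (N ≤ 8 * (symmDiff (mw m π cn ω u) (mw m π cn ω v)).card ∨
          N ≤ 8 * (symmDiff (mw m π cn ω u) (mw m π cn ω w)).card ∨
          N ≤ 8 * (symmDiff (mw m π cn ω v) (mw m π cn ω w)).card) := by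
  classical
  set δ : ℝ := (Fintype.card K * Real.exp (-((e : ℝ) ^ 2 / (16 * D))) +
        (D : ℝ) ^ 2 * (3 * Real.exp (-((N : ℝ) / 400)))) with hδdef
  have hδ0 : 0 ≤ δ := by positivity
  let Flat : V → K → (ι → Bool) → Prop := fun u γ ω =>
    nn A₁ m u γ + nn A₁ m u (π γ) + 2 * e < 2 * nn A₁ (mw m π cn ω) u γ
  let Tr : V → V × V → (ι → Bool) → Prop := fun u p ω =>
     (u ≠ p.1 ∧ u ≠ p.2 ∧ p.1 ≠ p.2 ∧
      (N ≤ spl π (m u) ∨ N ≤ spl π (m p.1) ∨ N ≤ spl π (m p.2))) ∧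
     8 * (symmDiff (mw m π cn ω u) (mw m π cn ω p.1)).card < N ∧
     8 * (symmDiff (mw m π cn ω u) (mw m π cn ω p.2)).card < N ∧
     8 * (symmDiff (mw m π cn ω p.1) (mw m π cn ω p.2)).card < N
  let Bad : V → (ι → Bool) → Prop := fun u ω =>
    (∃ γ ∈ (univ : Finset K), Flat u γ ω) ∨ (∃ p ∈ A₂ u ×ˢ A₂ u, Tr u p ω)
  have hTr : ∀ u p, PP fair (Tr u p) ≤ Real.exp (-((N : ℝ) / 400)) := by
    intro u p
    by_cases hc : u ≠ p.1 ∧ u ≠ p.2 ∧ p.1 ≠ p.2 ∧
        (N ≤ spl π (m u) ∨ N ≤ spl π (m p.1) ∨ N ≤ spl π (m p.2))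
    · obtain ⟨h12, h13, h23, hr⟩ := hc
      rcases hr with hr | hr | hr
      · refine (PP_mono fair_prob ?_).trans (triple_prob m π cn h u p.1 p.2 h12 h13 h23 N hr)
        intro ω hω
        exact ⟨hω.2.1, hω.2.2.1⟩
      · refine (PP_mono fair_prob ?_).trans
          (triple_prob m π cn h p.1 u p.2 h12.symm h23 h13 N hr)
        intro ω hω
        refine ⟨?_, hω.2.2.2⟩
        have := hω.2.1
        rwa [symmDiff_comm] at this
      · refine (PP_mono fair_prob ?_).trans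
          (triple_prob m π cn h p.2 u p.1 h13.symm h23.symm h12 N hr)
        intro ω hω
        refine ⟨?_, ?_⟩
        · have := hω.2.2.1
          rwa [symmDiff_comm] at this
        · have := hω.2.2.2
          rwa [symmDiff_comm] at this
    · exact (PP_le_zero fair_prob _ fun ω hω => hc hω.1).trans (Real.exp_pos _).le
  have hcardA₂ : ∀ u, (A₂ u).card ≤ D := fun u => (Finset.card_le_card (h2 u)).trans (hD u)
  have hcardA₁ : ∀ u, (A₁ u).card ≤ D := fun u => (Finset.card_le_card (h1 u)).trans (hD u)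
  have hBad : ∀ u, PP fair (Bad u) ≤ δ := by
    intro u
    refine (PP_or_le fair_prob _ _).trans ?_
    refine add_le_add ?_ ?_
    · refine (PP_exists_le fair_prob (univ : Finset K) (Flat u)).trans ?_
      calc ∑ γ : K, PP fair (Flat u γ)
          ≤ ∑ _γ : K, Real.exp (-((e : ℝ) ^ 2 / (16 * D))) :=
            Finset.sum_le_sum fun γ _ => flat_prob m π cn h A₁ D e hcardA₁ he u γ
        _ = Fintype.card K * Real.exp (-((e : ℝ) ^ 2 / (16 * D))) := by
            rw [Finset.sum_const, nsmul_eq_mul, Finset.card_univ]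
    · refine (PP_exists_le fair_prob (A₂ u ×ˢ A₂ u) (Tr u)).trans ?_
      have hexp : 0 < Real.exp (-((N : ℝ) / 400)) := Real.exp_pos _
      calc ∑ p ∈ A₂ u ×ˢ A₂ u, PP fair (Tr u p)
          ≤ ∑ _p ∈ A₂ u ×ˢ A₂ u, Real.exp (-((N : ℝ) / 400)) :=
            Finset.sum_le_sum fun p _ => hTr u p
        _ = ((A₂ u).card : ℝ) * ((A₂ u).card : ℝ) * Real.exp (-((N : ℝ) / 400)) := by
            rw [Finset.sum_const, nsmul_eq_mul, Finset.card_product]
            push_cast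
            ring
        _ ≤ (D : ℝ) * (D : ℝ) * Real.exp (-((N : ℝ) / 400)) := by
            have hc : ((A₂ u).card : ℝ) ≤ D := by exact_mod_cast hcardA₂ u
            have hc0 : (0 : ℝ) ≤ ((A₂ u).card : ℝ) := Nat.cast_nonneg _
            have : ((A₂ u).card : ℝ) * ((A₂ u).card : ℝ) ≤ (D : ℝ) * (D : ℝ) :=
              mul_le_mul hc hc hc0 (Nat.cast_nonneg _)
            exact mul_le_mul_of_nonneg_right this hexp.le
        _ ≤ (D : ℝ) ^ 2 * (3 * Real.exp (-((N : ℝ) / 400))) := by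
            have : 0 ≤ (D : ℝ) ^ 2 * Real.exp (-((N : ℝ) / 400)) := by positivity
            nlinarith
  have hmw : ∀ (u : V) (ω ω' : ι → Bool), (∀ i ∈ suppN m π cn N₀ u, ω i = ω' i) →
      ∀ v ∈ insert u (N₀ u), mw m π cn ω v = mw m π cn ω' v := by
    intro u ω ω' hω v hv
    refine mw_congr m π cn ω ω' v fun i hi => hω i ?_
    unfold suppN
    exact Finset.mem_biUnion.2 ⟨v, hv, hi⟩
  have himp : ∀ (u : V) (ω ω' : ι → Bool), (∀ i ∈ suppN m π cn N₀ u, ω i = ω' i) →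
      Bad u ω → Bad u ω' := by
    intro u ω ω' hω hB
    have hv := hmw u ω ω' hω
    rcases hB with ⟨γ, hγ, hF⟩ | ⟨p, hp, hT⟩
    · left
      refine ⟨γ, hγ, ?_⟩
      have hnn : nn A₁ (mw m π cn ω) u γ = nn A₁ (mw m π cn ω') u γ := by
        unfold nn
        congr 1
        refine Finset.filter_congr fun v hvA => ?_
        rw [hv v (Finset.mem_insert_of_mem (h1 u hvA))]
      change nn A₁ m u γ + nn A₁ m u (π γ) + 2 * e < 2 * nn A₁ (mw m π cn ω') u γ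
      rw [← hnn]
      exact hF
    · right
      refine ⟨p, hp, ?_⟩
      obtain ⟨hp1, hp2⟩ := Finset.mem_product.1 hp
      obtain ⟨ha, hb, hc, hd⟩ := hT
      rw [hv u (Finset.mem_insert_self _ _), hv p.1 (Finset.mem_insert_of_mem (h2 u hp1))] at hb
      rw [hv u (Finset.mem_insert_self _ _), hv p.2 (Finset.mem_insert_of_mem (h2 u hp2))] at hc
      rw [hv p.1 (Finset.mem_insert_of_mem (h2 u hp1)),
        hv p.2 (Finset.mem_insert_of_mem (h2 u hp2))] at hd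
      exact ⟨ha, hb, hc, hd⟩
  have hdep : ∀ u, Dep (Bad u) (suppN m π cn N₀ u) := by
    intro u ω ω' hω
    exact propext ⟨himp u ω ω' hω, himp u ω' ω fun i hi => (hω i hi).symm⟩
  have hd1 : (1 : ℝ) ≤ (((D : ℝ) + 1) ^ 2 * (Fintype.card K + 1)) := by
    have e1 : (1 : ℝ) ≤ ((D : ℝ) + 1) ^ 2 := by
      have : (0 : ℝ) ≤ (D : ℝ) := Nat.cast_nonneg _
      nlinarith
    have e2 : (1 : ℝ) ≤ (Fintype.card K : ℝ) + 1 := by
      have : (0 : ℝ) ≤ (Fintype.card K : ℝ) := Nat.cast_nonneg _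
      linarith
    nlinarith
  have hδ1 : δ ≤ 1 / 4 := by
    have : δ ≤ (((D : ℝ) + 1) ^ 2 * (Fintype.card K + 1)) * δ := by nlinarith
    linarith
  obtain ⟨ω, hω⟩ := lll_vertex fair_prob Bad (suppN m π cn N₀) hdep δ hBad hδ1
    ((D + 1) ^ 2 * (Fintype.card K + 1)) (fun v => dep_count m π cn h N₀ hs D hD v)
    (by push_cast; exact hsmall)
  refine ⟨ω, ?_, ?_⟩
  · intro u γ
    by_contra hcon
    exact hω u (Or.inl ⟨γ, Finset.mem_univ _, not_le.1 hcon⟩)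
  · intro u v w hv hw huv huw hvw hr
    by_contra hcon
    push Not at hcon
    exact hω u (Or.inr ⟨(v, w), Finset.mem_product.2 ⟨hv, hw⟩, ⟨huv, huw, hvw, hr⟩,
      hcon.1, hcon.2.1, hcon.2.2⟩)

end Pool.Agent.Helper6.AVD
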