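import Pool.Agent.Helper6.AVD.Base
import Pool.Agent.Helper6.AVD.St.R1
import Pool.Agent.Helper6.AVD.St.R8

/-! Project AVD, piece R9: the random Kempe round. -/

set_option autoImplicit false
set_option linter.unusedSectionVars false

namespace Pool.Agent.Helper6.AVD

open Finset

open Pool.Agent.Helper61.LE

variable {V E K : Type*} [Fintype V] [DecidableEq V] [Fintype E] [DecidableEq E]
  [Fintype K] [DecidableEq K]

/-- PROOF. Given `c, π` take `cn` from `coins` (R1), `m = mis M c`; `CoinOK` holds. `round_core` (R8) gives `ω`. Put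
`σ v a = if ω (cn a v) then π a else a` (an involution because `cn (π a) v = cn a v`), apply `sigma_flip` (V1) with
`F = univ` to get `c'` with `mis M c' v = (mis M c v).image (σ v) = mw (mis M c) π cn ω v`. -/
theorem roundOK (M : MG V E) (N₀ A₁ A₂ : V → Finset V) (hs : ∀ u v, v ∈ N₀ u → u ∈ N₀ v)
    (D e N : ℕ) (hD : ∀ u, (N₀ u).card ≤ D) (h1 : ∀ u, A₁ u ⊆ N₀ u) (h2 : ∀ u, A₂ u ⊆ N₀ u)
    (he : e ≤ 4 * D)
    (hsmall : 4 * (((D : ℝ) + 1) ^ 2 * (Fintype.card K + 1)) *
      (Fintype.card K * Real.exp (-((e : ℝ) ^ 2 / (16 * D))) +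
        (D : ℝ) ^ 2 * (3 * Real.exp (-((N : ℝ) / 400)))) ≤ 1) :
    RoundOK K M A₁ A₂ e N := by
  classical
  intro c hc π hπ
  obtain ⟨cn, hpair, hedge, hinj, htwo⟩ := coins M c hc π hπ
  have hok : CoinOK (mis M c) π cn := ⟨hπ, hpair, hinj, htwo⟩
  obtain ⟨ω, hω1, hω2⟩ := round_core (mis M c) π cn hok N₀ A₁ A₂ hs D e N hD h1 h2 he hsmall
  let σ : V → K → K := fun v a => if ω (cn a v) = true then π a else a
  have hσ : ∀ v a, σ v (σ v a) = a := by
    intro v a
    by_cases h : ω (cn a v) = true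
    · simp only [σ, h, if_true, hpair, hπ]
    · simp only [σ, h, if_false, Bool.false_eq_true]
  obtain ⟨c', -, hp, hm⟩ := sigma_flip M univ c hc σ hσ (by
    intro e _ u v he
    simp only [σ, hedge e u v he])
  have hmis : ∀ v, mis M c' v = mw (mis M c) π cn ω v := by
    intro v
    have h1 : mis M c' v = (mis M c v).image (σ v) := hm v
    rw [h1]
    ext a
    simp only [Finset.mem_image, mw, Finset.mem_filter, Finset.mem_univ, true_and]
    constructor
    · rintro ⟨b, hb, rfl⟩
      have : σ v (σ v b) ∈ mis M c v := by rw [hσ]; exact hb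
      exact this
    · intro h
      exact ⟨σ v a, h, hσ v a⟩
  refine ⟨c', ⟨hp, σ, ?_, hσ, fun v => hm v⟩, ?_, ?_⟩
  · intro v a
    by_cases h : ω (cn a v) = true
    · right; simp only [σ, h, if_true]
    · left; simp only [σ, h, if_false, Bool.false_eq_true]
  · have h3 : mis M c' = mw (mis M c) π cn ω := funext hmis
    rw [h3]
    exact hω1
  · have h3 : mis M c' = mw (mis M c) π cn ω := funext hmis
    rw [h3]
    exact hω2

end Pool.Agent.Helper6.AVD
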