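import Pool.Agent.Helper6.AVD.Base
import Pool.Agent.Helper6.AVD.St.V1
import Pool.Agent.Helper6.AVD.St.V2

/-! Project AVD, piece V3: Vizing fans. `Reach M F c x e₀ n f`: the edge `f` at `x` is reached from the uncoloured
edge `e₀` at `x` in `n` fan steps. -/

set_option autoImplicit false
set_option linter.unusedSectionVars false

namespace Pool.Agent.Helper6.AVD

open Finset

variable {V E K : Type*} [Fintype V] [DecidableEq V] [Fintype E] [DecidableEq E]
  [Fintype K] [DecidableEq K]

/-- fan reachability: `e → f` if `e = xy`, `f ∈ F` is an edge at `x` and its colour is missing at `y`. -/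
def Reach (M : MG V E) (F : Finset E) (c : E → K) (x : V) (e₀ : E) : ℕ → E → Prop
  | 0, f => f = e₀
  | n + 1, f => ∃ e y, Reach M F c x e₀ n e ∧ M.ends e = s(x, y) ∧ f ∈ F ∧ x ∈ M.ends f ∧
      c f ∈ misOn M F c y

/-- Claim A. If a reachable edge `e = xy` has a colour `a` missing at both ends then `e₀` can be coloured too.
PROOF. Strong induction on `n` (for all `c, e, y, a`; `F, x, e₀` fixed). `n = 0`: `e = e₀`, colour it with `a`
(`Function.update c e₀ a`). `n ≥ 1`: if some edge with the same property is reachable in fewer steps, use the
induction hypothesis. Otherwise let `e' → e` be the last step, `e' = xy'`, `Reach (n-1) e'`, `a' := c e ∈ mis y'`.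
Recolour `c₁ := Function.update c e a` (`e ∈ F`, proper since `a` is missing at both ends of `e`). Then `a'` is missing
at `x` in `c₁` (`e` was the only edge of `F` at `x` coloured `a'`) and still at `y'` (`y' ≠ y`, because `e` is an
edge at `y` coloured `a'`; the only palettes that change are those of `x`, `y`). Every `Reach j g` with `j < n`
for `c` holds for `c₁` (induction on `j`; the edges `g` reached are `≠ e` by minimality, and for a step with
colour `c g ∈ mis z`: `c g ≠ a` because `a` is missing at `x`, so it is still missing at `z`, also if `z = y`).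
So `e'` has the property for `c₁` with `n - 1` steps: induction hypothesis. -/
theorem claimA (M : MG V E) (F : Finset E) (x : V) (e₀ : E) (he₀ : e₀ ∉ F) (hx : x ∈ M.ends e₀) :
    ∀ (n : ℕ) (c : E → K), ProperOn M F c → ∀ e y a, Reach M F c x e₀ n e → M.ends e = s(x, y) →
      a ∈ misOn M F c x → a ∈ misOn M F c y → ∃ c' : E → K, ProperOn M (insert e₀ F) c' := by
  intro n
  induction n using Nat.strong_induction_on with
  | _ n ih =>
  intro c hc e y a hr hey hax hay
  have hmem : ∀ z b, b ∈ misOn M F c z ↔ ∀ f ∈ F, z ∈ M.ends f → c f ≠ b := by
    intro z b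
    simp [misOn]
  rw [hmem] at hax hay
  cases n with
  | zero =>
    have hee : e = e₀ := hr
    subst hee
    have key : ∀ v f, f ∈ F → v ∈ M.ends e → v ∈ M.ends f → c f ≠ a := by
      intro v f hf hve hvf
      rw [hey, Sym2.mem_iff] at hve
      rcases hve with rfl | rfl
      · exact hax f hf hvf
      · exact hay f hf hvf
    refine ⟨Function.update c e a, ?_⟩
    intro v f g hf hg hvf hvg hfg
    rw [mem_insert] at hf hg
    by_cases hfe : f = e
    · by_cases hge : g = e
      · rw [hfe, hge]
      · exfalso
        have hgF : g ∈ F := hg.resolve_left hge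
        rw [hfe, Function.update_self, Function.update_of_ne hge] at hfg
        exact key v g hgF (hfe ▸ hvf) hvg hfg.symm
    · have hfF : f ∈ F := hf.resolve_left hfe
      by_cases hge : g = e
      · exfalso
        rw [hge, Function.update_self, Function.update_of_ne hfe] at hfg
        exact key v f hfF (hge ▸ hvg) hvf hfg
      · have hgF : g ∈ F := hg.resolve_left hge
        rw [Function.update_of_ne hfe, Function.update_of_ne hge] at hfg
        exact hc v f g hfF hgF hvf hvg hfg
  | succ m =>
    by_cases hmin : ∃ k < m + 1, ∃ g z b, Reach M F c x e₀ k g ∧ M.ends g = s(x, z) ∧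
        b ∈ misOn M F c x ∧ b ∈ misOn M F c z
    · obtain ⟨k, hk, g, z, b, h1, h2, h3, h4⟩ := hmin
      exact ih k hk c hc g z b h1 h2 h3 h4
    · obtain ⟨e', y', hr', hey', heF, hxe, hce⟩ := hr
      rw [hmem] at hce
      have hane : c e ≠ a := hax e heF hxe
      set c₁ : E → K := Function.update c e a with hc₁
      have hc₁e : c₁ e = a := by rw [hc₁, Function.update_self]
      have hc₁n : ∀ g, g ≠ e → c₁ g = c g := by
        intro g hg
        rw [hc₁, Function.update_of_ne hg]
      have key : ∀ v f, f ∈ F → v ∈ M.ends e → v ∈ M.ends f → c f ≠ a := by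
        intro v f hf hve hvf
        rw [hey, Sym2.mem_iff] at hve
        rcases hve with rfl | rfl
        · exact hax f hf hvf
        · exact hay f hf hvf
      have hprop : ProperOn M F c₁ := by
        intro v f g hfF hgF hvf hvg hfg
        by_cases hfe : f = e
        · by_cases hge : g = e
          · rw [hfe, hge]
          · exfalso
            rw [hfe, hc₁e, hc₁n g hge] at hfg
            exact key v g hgF (hfe ▸ hvf) hvg hfg.symm
        · by_cases hge : g = e
          · exfalso
            rw [hge, hc₁e, hc₁n f hfe] at hfg
            exact key v f hfF (hge ▸ hvg) hvf hfg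
          · rw [hc₁n f hfe, hc₁n g hge] at hfg
            exact hc v f g hfF hgF hvf hvg hfg
      have hmem₁ : ∀ z b, b ∈ misOn M F c₁ z ↔ ∀ f ∈ F, z ∈ M.ends f → c₁ f ≠ b := by
        intro z b
        simp [misOn]
      have hkeep : ∀ z b, b ≠ a → (∀ f ∈ F, z ∈ M.ends f → c f ≠ b) → b ∈ misOn M F c₁ z := by
        intro z b hba h
        rw [hmem₁]
        intro f hf hz
        by_cases hfe : f = e
        · rw [hfe, hc₁e]
          exact hba.symm
        · rw [hc₁n f hfe]
          exact h f hf hz
      have hreach : ∀ j g, j ≤ m → Reach M F c x e₀ j g → Reach M F c₁ x e₀ j g := by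
        intro j
        induction j with
        | zero =>
          intro g _ hg
          exact hg
        | succ j ihj =>
          intro g hj hg
          have hg' := hg
          obtain ⟨e'', z, h1, h2, h3, h4, h5⟩ := hg'
          refine ⟨e'', z, ihj e'' (by omega) h1, h2, h3, h4, ?_⟩
          have hge : g ≠ e := by
            rintro rfl
            apply hmin
            refine ⟨j + 1, by omega, g, y, a, hg, hey, ?_, ?_⟩
            · rw [hmem]; exact hax
            · rw [hmem]; exact hay
          rw [hc₁n g hge]
          rw [hmem] at h5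
          exact hkeep z (c g) (hax g h3 h4) h5
      refine ih m (Nat.lt_succ_self m) c₁ hprop e' y' (c e) (hreach m e' le_rfl hr') hey' ?_ ?_
      · rw [hmem₁]
        intro f hf hxf
        by_cases hfe : f = e
        · rw [hfe, hc₁e]
          exact hane.symm
        · rw [hc₁n f hfe]
          intro h
          exact hfe (hc x f e hf heF hxf hxe h)
      · exact hkeep y' (c e) hane hce

end Pool.Agent.Helper6.AVD
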