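import Pool.Agent.Helper6.AVD.Base
import Pool.Agent.Helper6.AVD.St.V1
import Pool.Agent.Helper6.AVD.St.V2
import Pool.Agent.Helper6.AVD.St.V3

/-! Project AVD, piece V3B: Vizing fans, Claim B. -/

set_option autoImplicit false
set_option linter.unusedSectionVars false

namespace Pool.Agent.Helper6.AVD

open Finset

variable {V E K : Type*} [Fintype V] [DecidableEq V] [Fintype E] [DecidableEq E]
  [Fintype K] [DecidableEq K]

private theorem claimB_aux (M : MG V E) (F : Finset E) (x : V) (e₀ : E) (he₀ : e₀ ∉ F)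
    (hx : x ∈ M.ends e₀) (c : E → K) (hc : ProperOn M F c) (a b : K)
    (ha : a ∈ misOn M F c x) (rt : V → V)
    (hrt : ∀ e ∈ F, (c e = a ∨ c e = b) → ∀ u v, M.ends e = s(u, v) → rt u = rt v)
    (n : ℕ) (e : E) (y : V) (h : Reach M F c x e₀ n e) (hy : M.ends e = s(x, y))
    (hb : b ∈ misOn M F c y) (hxy : rt x ≠ rt y) :
    ∃ c' : E → K, ProperOn M (insert e₀ F) c' := by
  classical
  obtain ⟨c₁, h1, h2, h3⟩ := sigma_flip M F c hc
    (fun v => if rt v = rt y then Equiv.swap a b else id)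
    (fun v k => by
      by_cases hv : rt v = rt y
      · simp [hv]
      · simp [hv])
    (fun f hf u v huv => by
      by_cases hab : c f = a ∨ c f = b
      · have := hrt f hf hab u v huv
        simp only [this]
      · rw [not_or] at hab
        have hs : Equiv.swap a b (c f) = c f := Equiv.swap_apply_of_ne_of_ne hab.1 hab.2
        have key : ∀ w : V, (if rt w = rt y then (Equiv.swap a b : K → K) else id) (c f) = c f := by
          intro w
          by_cases hw : rt w = rt y
          · simp [hw, hs]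
          · simp [hw]
        rw [key u, key v])
  have hex : ∃ j, ∃ g z, Reach M F c x e₀ j g ∧ M.ends g = s(x, z) ∧ rt z = rt y ∧
      b ∈ misOn M F c z := ⟨n, e, y, h, hy, rfl, hb⟩
  set j := Nat.find hex with hj
  obtain ⟨g, z, hg, hgz, hz, hbz⟩ := Nat.find_spec hex
  rw [← hj] at hg
  have hmin : ∀ i < j, ¬ ∃ g z, Reach M F c x e₀ i g ∧ M.ends g = s(x, z) ∧ rt z = rt y ∧
      b ∈ misOn M F c z := fun i hi => Nat.find_min hex hi
  have hreach : ∀ i, i ≤ j → ∀ f, Reach M F c x e₀ i f → Reach M F c₁ x e₀ i f := by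
    intro i
    induction i with
    | zero => intro _ f hf; exact hf
    | succ i ih =>
      intro hij f hf
      obtain ⟨p, w, hp, hpw, hfF, hxf, hcf⟩ := hf
      refine ⟨p, w, ih (by omega) p hp, hpw, hfF, hxf, ?_⟩
      have hc1 : c₁ f = c f := by
        have := h1 f hfF x hxf
        simpa [hxy] using this
      rw [hc1, h3 w, Finset.mem_image]
      refine ⟨c f, hcf, ?_⟩
      by_cases hw : rt w = rt y
      · have hbw : b ∉ misOn M F c w := fun hb' => hmin i (by omega) ⟨p, w, hp, hpw, hw, hb'⟩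
        have hfb : c f ≠ b := fun hh => hbw (hh ▸ hcf)
        have hfa : c f ≠ a := by
          have := (Finset.mem_filter.mp ha).2 f hfF hxf
          exact this
        simp [hw, Equiv.swap_apply_of_ne_of_ne hfa hfb]
      · simp [hw]
  have hg1 := hreach j le_rfl g hg
  have ha1 : a ∈ misOn M F c₁ x := by
    rw [h3 x, Finset.mem_image]
    exact ⟨a, ha, by simp [hxy]⟩
  have ha2 : a ∈ misOn M F c₁ z := by
    rw [h3 z, Finset.mem_image]
    exact ⟨b, hbz, by simp [hz]⟩
  exact claimA M F x e₀ he₀ hx j c₁ h2 g z a hg1 hgz ha1 ha2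

/-- Claim B. If two reachable edges `e = xy`, `e' = xy'`, `y ≠ y'`, have a colour `b` missing at `y` and at `y'` then
`e₀` can be coloured.
PROOF. If `a` is missing at `y` or `y'`, or `b` at `x`: Claim A. Otherwise (`a ≠ b`) `x` misses `a` only and
`y, y'` miss `b` only; by `comp_two` (V2) there is `y* ∈ {y, y'}` with `rt y* ≠ rt x` (also `x ≠ y, y'` by `M.nd`). Let
`X = {v | rt v = rt y*}`, `σ v = if v ∈ X then Equiv.swap a b else id` and flip by `sigma_flip` (V1) to get `c₁`.
Let `j` be minimal (`Nat.find`) such that there are `g, z` with `Reach c j g`, `M.ends g = s(x, z)`, `z ∈ X`,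
`b ∈ mis z` (exists: `e*, y*`). For `i ≤ j`: `Reach c i h → Reach c₁ i h` by induction: in a step `h = xz → h'`
with `i < j` we have `c₁ h' = c h'` (`x ∉ X`), `c h' ≠ a` (`a` missing at `x`); if `z ∉ X` the missing colours at
`z` do not change; if `z ∈ X` then `b ∉ mis z` by minimality, so `c h' ∉ {a, b}` and it stays missing at `z`.
At `g`: `z ∈ X`, `b ∈ mis z`, so `a` is missing at `z` and at `x` in `c₁`. Claim A for `c₁`. -/
theorem claimB (M : MG V E) (F : Finset E) (x : V) (e₀ : E) (he₀ : e₀ ∉ F) (hx : x ∈ M.ends e₀)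
    (c : E → K) (hc : ProperOn M F c) (a b : K) (ha : a ∈ misOn M F c x) (n n' : ℕ) (e e' : E)
    (y y' : V) (h : Reach M F c x e₀ n e) (h' : Reach M F c x e₀ n' e')
    (hy : M.ends e = s(x, y)) (hy' : M.ends e' = s(x, y')) (hne : y ≠ y')
    (hb : b ∈ misOn M F c y) (hb' : b ∈ misOn M F c y') :
    ∃ c' : E → K, ProperOn M (insert e₀ F) c' := by
  classical
  by_cases hay : a ∈ misOn M F c y
  · exact claimA M F x e₀ he₀ hx n c hc e y a h hy ha hay
  by_cases hay' : a ∈ misOn M F c y'
  · exact claimA M F x e₀ he₀ hx n' c hc e' y' a h' hy' ha hay'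
  by_cases hbx : b ∈ misOn M F c x
  · exact claimA M F x e₀ he₀ hx n c hc e y b h hy hbx hb
  have hab : a ≠ b := fun hh => hay (hh ▸ hb)
  have hxy : x ≠ y := by
    intro hh
    apply M.nd e
    rw [hy, hh]
    exact Sym2.mk_isDiag_iff.mpr rfl
  have hxy' : x ≠ y' := by
    intro hh
    apply M.nd e'
    rw [hy', hh]
    exact Sym2.mk_isDiag_iff.mpr rfl
  obtain ⟨rt, hrt, htwo⟩ := comp_two M F c hc a b hab
  by_cases hr : rt x = rt y
  · by_cases hr' : rt x = rt y'
    · exact absurd ⟨Or.inl ⟨ha, hbx⟩, Or.inr ⟨hay, hb⟩, Or.inr ⟨hay', hb'⟩⟩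
        (htwo x y y' hxy hxy' hne hr hr')
    · exact claimB_aux M F x e₀ he₀ hx c hc a b ha rt hrt n' e' y' h' hy' hb' hr'
  · exact claimB_aux M F x e₀ he₀ hx c hc a b ha rt hrt n e y h hy hb hr

end Pool.Agent.Helper6.AVD
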