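import Pool.Agent.Helper6.AVD.Base
import Pool.Agent.Helper6.AVD.St.V3
import Pool.Agent.Helper6.AVD.St.V3B

/-! Project AVD, piece V4: Vizing's theorem for multigraphs. -/

set_option autoImplicit false
set_option linter.unusedSectionVars false

namespace Pool.Agent.Helper6.AVD

open Finset

variable {V E K : Type*} [Fintype V] [DecidableEq V] [Fintype E] [DecidableEq E]
  [Fintype K] [DecidableEq K]

private theorem card_misOn_add (M : MG V E) (F : Finset E) (c : E → K) (v : V) :
    Fintype.card K ≤ (misOn M F c v).card + (F.filter fun e => v ∈ M.ends e).card := by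
  classical
  have h : (univ : Finset K) ⊆ misOn M F c v ∪ (F.filter fun e => v ∈ M.ends e).image c := by
    intro a _
    by_cases ha : a ∈ misOn M F c v
    · exact mem_union_left _ ha
    · apply mem_union_right
      have : ¬ ∀ e ∈ F, v ∈ M.ends e → c e ≠ a := by
        intro h
        exact ha (by simp only [misOn, mem_filter, mem_univ, true_and]; exact h)
      push Not at this
      obtain ⟨e, he, hv, hc⟩ := this
      exact mem_image.mpr ⟨e, mem_filter.mpr ⟨he, hv⟩, hc⟩
  calc Fintype.card K = (univ : Finset K).card := rfl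
    _ ≤ _ := card_le_card h
    _ ≤ _ := card_union_le _ _
    _ ≤ _ := Nat.add_le_add_left card_image_le _

/-- One more edge can be coloured. PROOF. Suppose not. There is a colour `a` missing at `x` (at most `deg x - 1 < |K|`
edges of `F` at `x`). Let `R` = finset of all edges `f` with `∃ n, Reach M F c x e₀ n f`; they are edges at `x`
(`e₀` by `hx`), `e₀ ∈ R`, the others are in `F`. Let `Y` = finset of all `y` with `∃ f ∈ R, M.ends f = s(x, y)`.
(1) for `y ∈ Y` and `b ∈ mis y`: `b ∉ mis x` by claimA, so some `f ∈ F` at `x` has colour `b`, and `f ∈ R` (one more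
step). Hence `mis y ⊆ (R.erase e₀).image c`. (2) By claimB the sets `mis y`, `y ∈ Y`, are pairwise disjoint. So
`∑ y ∈ Y, |mis y| ≤ |R| - 1`. (3) `|mis y| ≥ |K| - #{f ∈ F at y} ≥ |K| - deg y ≥ mult x y`, and for the other end
`y₀` of `e₀` even `≥ mult x y₀ + 1` (`e₀ ∉ F`). (4) `|R| ≤ ∑ y ∈ Y, mult x y`. Contradiction. -/
theorem extend_one (M : MG V E) (F : Finset E) (x : V) (e₀ : E) (he₀ : e₀ ∉ F)
    (hx : x ∈ M.ends e₀) (hdeg : M.deg x ≤ Fintype.card K)
    (hfan : ∀ y, M.Adj x y → M.deg y + M.mult x y ≤ Fintype.card K)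
    (c : E → K) (hc : ProperOn M F c) : ∃ c' : E → K, ProperOn M (insert e₀ F) c' := by
  classical
  by_contra hno
  -- edges of `F` at `v`, when `e₀` is an edge at `v`
  have hF0 : ∀ v, v ∈ M.ends e₀ → (F.filter fun e => v ∈ M.ends e).card + 1 ≤ M.deg v := by
    intro v hv
    have h1 : insert e₀ (F.filter fun e => v ∈ M.ends e) ⊆ M.inc v := by
      intro e he
      rcases mem_insert.mp he with rfl | he
      · simp [MG.inc, hv]
      · simp [MG.inc, (mem_filter.mp he).2]
    have h2 := card_le_card h1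
    rw [card_insert_of_notMem (by simp [he₀])] at h2
    exact h2
  have hF1 : ∀ v, (F.filter fun e => v ∈ M.ends e).card ≤ M.deg v := by
    intro v
    apply card_le_card
    intro e he
    simp [MG.inc, (mem_filter.mp he).2]
  -- a colour missing at `x`
  obtain ⟨a, ha⟩ : ∃ a, a ∈ misOn M F c x := by
    have h1 := card_misOn_add M F c x
    have h2 := hF0 x hx
    have h3 : 0 < (misOn M F c x).card := by omega
    exact card_pos.mp h3
  set R : Finset E := univ.filter fun f => ∃ n, Reach M F c x e₀ n f with hR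
  set Y : Finset V := univ.filter fun y => ∃ f ∈ R, M.ends f = s(x, y) with hY
  have hRm : ∀ f, f ∈ R ↔ ∃ n, Reach M F c x e₀ n f := by
    intro f
    rw [hR, mem_filter]
    exact ⟨fun h => h.2, fun h => ⟨mem_univ _, h⟩⟩
  have hYm : ∀ y, y ∈ Y ↔ ∃ f ∈ R, M.ends f = s(x, y) := by
    intro y
    rw [hY, mem_filter]
    exact ⟨fun h => h.2, fun h => ⟨mem_univ _, h⟩⟩
  have he₀R : e₀ ∈ R := (hRm e₀).mpr ⟨0, rfl⟩
  have hRx : ∀ f ∈ R, x ∈ M.ends f := by
    intro f hf
    obtain ⟨n, hn⟩ := (hRm f).mp hf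
    cases n with
    | zero =>
      have : f = e₀ := hn
      rw [this]; exact hx
    | succ n =>
      obtain ⟨e, y, h1, h2, h3, h4, h5⟩ := hn
      exact h4
  have hother : ∀ f ∈ R, ∃ y, M.ends f = s(x, y) := by
    intro f hf
    obtain ⟨y, hy⟩ := hRx f hf
    exact ⟨y, hy⟩
  obtain ⟨y₀, hy₀⟩ := hother e₀ he₀R
  have hy₀Y : y₀ ∈ Y := (hYm y₀).mpr ⟨e₀, he₀R, hy₀⟩
  -- (1)
  have h1 : ∀ y ∈ Y, misOn M F c y ⊆ (R.erase e₀).image c := by
    intro y hy b hb
    obtain ⟨e, heR, hey⟩ := (hYm y).mp hy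
    obtain ⟨n, hn⟩ := (hRm e).mp heR
    have hbx : b ∉ misOn M F c x := fun hbx =>
      hno (claimA M F x e₀ he₀ hx n c hc e y b hn hey hbx hb)
    have : ¬ ∀ e ∈ F, x ∈ M.ends e → c e ≠ b := by
      intro h
      exact hbx (by simp only [misOn, mem_filter, mem_univ, true_and]; exact h)
    push Not at this
    obtain ⟨f, hfF, hxf, hfb⟩ := this
    have hfR : f ∈ R := (hRm f).mpr ⟨n + 1, e, y, hn, hey, hfF, hxf, hfb ▸ hb⟩
    refine mem_image.mpr ⟨f, mem_erase.mpr ⟨?_, hfR⟩, hfb⟩
    rintro rfl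
    exact he₀ hfF
  -- (2)
  have h2 : ∀ y ∈ Y, ∀ y' ∈ Y, y ≠ y' → Disjoint (misOn M F c y) (misOn M F c y') := by
    intro y hy y' hy' hne
    rw [Finset.disjoint_left]
    intro b hb hb'
    obtain ⟨e, heR, hey⟩ := (hYm y).mp hy
    obtain ⟨n, hn⟩ := (hRm e).mp heR
    obtain ⟨e', heR', hey'⟩ := (hYm y').mp hy'
    obtain ⟨n', hn'⟩ := (hRm e').mp heR'
    exact hno (claimB M F x e₀ he₀ hx c hc a b ha n n' e e' y y' hn hn' hey hey' hne hb hb')
  have h12 : ∑ y ∈ Y, (misOn M F c y).card + 1 ≤ R.card := by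
    have h3 : ∑ y ∈ Y, (misOn M F c y).card = (Y.biUnion fun y => misOn M F c y).card := by
      rw [card_biUnion]
      intro y hy y' hy' hne
      exact h2 y hy y' hy' hne
    have h4 : (Y.biUnion fun y => misOn M F c y).card ≤ ((R.erase e₀).image c).card := by
      apply card_le_card
      intro b hb
      obtain ⟨y, hy, hb⟩ := mem_biUnion.mp hb
      exact h1 y hy hb
    have h5 : ((R.erase e₀).image c).card ≤ (R.erase e₀).card := card_image_le
    have h6 : (R.erase e₀).card + 1 = R.card := card_erase_add_one he₀R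
    omega
  -- (3)
  have h3 : ∀ y ∈ Y, M.mult x y + (if y = y₀ then 1 else 0) ≤ (misOn M F c y).card := by
    intro y hy
    obtain ⟨e, heR, hey⟩ := (hYm y).mp hy
    have hK := hfan y ⟨e, hey⟩
    have hm := card_misOn_add M F c y
    by_cases hyy : y = y₀
    · have h4 := hF0 y₀ (by rw [hy₀]; exact Sym2.mem_mk_right x y₀)
      rw [hyy] at hK hm ⊢
      simp only [if_true]
      omega
    · have h4 := hF1 y
      simp only [if_neg hyy]
      omega
  -- (4)
  have h4 : R.card ≤ ∑ y ∈ Y, M.mult x y := by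
    have hsub : R ⊆ Y.biUnion fun y => univ.filter fun e => M.ends e = s(x, y) := by
      intro f hf
      obtain ⟨y, hy⟩ := hother f hf
      exact mem_biUnion.mpr ⟨y, (hYm y).mpr ⟨f, hf, hy⟩, mem_filter.mpr ⟨mem_univ _, hy⟩⟩
    exact (card_le_card hsub).trans card_biUnion_le
  have h5 : ∑ y ∈ Y, (M.mult x y + (if y = y₀ then 1 else 0)) ≤ ∑ y ∈ Y, (misOn M F c y).card :=
    sum_le_sum h3
  rw [sum_add_distrib] at h5
  have h6 : (∑ y ∈ Y, if y = y₀ then 1 else 0) = 1 := by
    rw [sum_ite_eq' Y y₀ fun _ => 1]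
    simp [hy₀Y]
  omega

/-- Vizing's theorem. PROOF. Induction on `F` from `∅` to `univ` with `extend_one`. If `E` is nonempty then `K` is
nonempty (an edge `e`, an end `x`: `1 ≤ deg x ≤ |K|`), so there is a function `E → K` to start with; if `E` is
empty everything is trivial. -/
theorem vizing (M : MG V E) (hdeg : ∀ v, M.deg v ≤ Fintype.card K)
    (h : ∀ e, ∃ x ∈ M.ends e, ∀ y, M.Adj x y → M.deg y + M.mult x y ≤ Fintype.card K) :
    ∃ c : E → K, Proper M c := by
  classical
  have key : ∀ F : Finset E, ∃ c : E → K, ProperOn M F c := by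
    intro F
    induction F using Finset.induction_on with
    | empty =>
      by_cases hE : Nonempty E
      · obtain ⟨e⟩ := hE
        obtain ⟨x, hx, -⟩ := h e
        have h1 : 0 < M.deg x := card_pos.mpr ⟨e, by simp [MG.inc, hx]⟩
        have h2 : 0 < Fintype.card K := lt_of_lt_of_le h1 (hdeg x)
        obtain ⟨k⟩ := Fintype.card_pos_iff.mp h2
        exact ⟨fun _ => k, fun v e f he => absurd he (notMem_empty e)⟩
      · rw [not_nonempty_iff] at hE
        exact ⟨fun e => (hE.false e).elim, fun v e => (hE.false e).elim⟩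
    | insert e₀ F he₀ ih =>
      obtain ⟨c, hc⟩ := ih
      obtain ⟨x, hx, hfan⟩ := h e₀
      exact extend_one M F x e₀ he₀ hx (hdeg x) hfan c hc
  exact key univ

end Pool.Agent.Helper6.AVD
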