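import Pool.Agent.Helper6.AVD.Base
import Pool.Agent.Helper6.AVD.St.V1

/-! Project AVD, piece C1: every edge is in at most `6κ` conflicts. -/

set_option autoImplicit false
set_option linter.unusedSectionVars false

namespace Pool.Agent.Helper6.AVD

open Finset

variable {V E K : Type*} [Fintype V] [DecidableEq V] [Fintype E] [DecidableEq E]
  [Fintype K] [DecidableEq K]

theorem sim_symm {M : MG V E} {Hi : V → Prop} {u v : V} (h : Sim M Hi u v) : Sim M Hi v u := by
  obtain ⟨⟨e, he⟩, h1, h2, h3⟩ := h
  exact ⟨⟨e, by rw [he, Sym2.eq_swap]⟩, h2, h1, h3.symm⟩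

theorem conf_symm {M : MG V E} {Hi : V → Prop} {c : E → K} {e f : E} (h : Conf M Hi c e f) :
    Conf M Hi c f e := by
  obtain ⟨hne, h | h⟩ := h
  · obtain ⟨u, v, hu, hv, hs, hi⟩ := h
    exact ⟨hne.symm, Or.inl ⟨v, u, hv, hu, sim_symm hs, hi.symm⟩⟩
  · obtain ⟨u, v, hu, hv, hs, hi⟩ := h
    exact ⟨hne.symm, Or.inr ⟨u, v, hv, hu, hs, by rw [hi, Finset.pair_comm]⟩⟩

private theorem card_le_of_rel {α β : Type*} [DecidableEq β] (B : Finset α) (S : Finset β)
    (R : α → β → Prop) (h1 : ∀ f ∈ B, ∃ v ∈ S, R f v)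
    (h2 : ∀ f ∈ B, ∀ f' ∈ B, ∀ v ∈ S, R f v → R f' v → f = f') : B.card ≤ S.card := by
  classical
  rcases B.eq_empty_or_nonempty with rfl | ⟨f₀, hf₀⟩
  · simp
  haveI : Nonempty β := ⟨(h1 f₀ hf₀).choose⟩
  choose! g hg1 hg2 using h1
  refine Finset.card_le_card_of_injOn g (fun f hf => hg1 f hf) ?_
  rintro f hf f' hf' hff
  have e1 : f ∈ B := hf
  have e2 : f' ∈ B := hf'
  refine h2 f e1 f' e2 (g f) (hg1 f e1) (hg2 f e1) ?_
  have e3 : g f = g f' := hff
  rw [e3]
  exact hg2 f' e2

private theorem not_mem_mis {M : MG V E} {c : E → K} {e : E} {u : V} (h : u ∈ M.ends e) :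
    c e ∉ mis M c u := by
  intro h'
  exact (Finset.mem_filter.1 h').2 e (Finset.mem_univ _) h rfl

private theorem sim_ne {M : MG V E} {Hi : V → Prop} {u v : V} (h : Sim M Hi u v) : u ≠ v := by
  rintro rfl
  obtain ⟨⟨e, he⟩, -⟩ := h
  exact M.nd e (by rw [he]; exact Sym2.mk_isDiag_iff.2 rfl)

private theorem sd_card (s t : Finset K) : (symmDiff s t).card = (s \ t).card + (t \ s).card := by
  rw [symmDiff_def, Finset.sup_eq_union, Finset.card_union_of_disjoint]
  rw [Finset.disjoint_left]
  intro x hx hx'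
  exact (Finset.mem_sdiff.1 hx').2 (Finset.mem_sdiff.1 hx).1

private theorem sd_tri (s t r : Finset K) :
    (symmDiff s r).card ≤ (symmDiff s t).card + (symmDiff t r).card := by
  refine le_trans (Finset.card_le_card ?_) (Finset.card_union_le _ _)
  intro x hx
  rw [Finset.mem_symmDiff] at hx
  rw [Finset.mem_union, Finset.mem_symmDiff, Finset.mem_symmDiff]
  tauto

/-- The conflict partners via `u`. -/
private theorem part_card (M : MG V E) (Hi : V → Prop) (c : E → K) (hc : Proper M c)
    (A₁ A₂ : V → Finset V) (κ : ℕ) (hκ : 1 ≤ κ) (hflat : ∀ u γ, nn A₁ (mis M c) u γ ≤ κ)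
    (htri : Tri A₂ (mis M c) 9)
    (hA : ∀ u, (∀ v, Sim M Hi u v → v ∈ A₁ u) ∨ (∀ v, Sim M Hi u v → v ∈ A₂ u))
    (hdeg : ∀ u, M.deg u < Fintype.card K) (e : E) (u : V) (hu : u ∈ M.ends e)
    (B : Finset E) (hB : ∀ f ∈ B, e ≠ f ∧
      ((∃ v, v ∈ M.ends f ∧ Sim M Hi u v ∧
      insert (c e) (mis M c u) = insert (c f) (mis M c v)) ∨
    (∃ v, u ∈ M.ends f ∧ Sim M Hi u v ∧
      mis M c v \ mis M c u = {c e, c f}))) : B.card ≤ 3 * κ := by
  classical
  set m := mis M c with hm
  -- the two sets of vertices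
  set S : Finset V := univ.filter fun v => Sim M Hi u v ∧ m v = m u with hS
  set S' : Finset V := univ.filter fun v => Sim M Hi u v ∧ c e ∈ m v ∧
    (symmDiff (m u) (m v)).card ≤ 4 with hS'
  have hSc : S.card ≤ κ ∧ S'.card ≤ κ := by
    rcases hA u with h | h
    · constructor
      · have hpos : 0 < (m u).card := by
          have h1 := card_mis M c hc u
          have h2 := hdeg u
          rw [← hm] at h1
          omega
        obtain ⟨γ, hγ⟩ := Finset.card_pos.1 hpos
        refine le_trans (Finset.card_le_card ?_) (hflat u γ)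
        intro v hv
        obtain ⟨-, hv1, hv2⟩ := Finset.mem_filter.1 hv
        rw [Finset.mem_filter]
        exact ⟨h v hv1, by rw [hv2]; exact hγ⟩
      · refine le_trans (Finset.card_le_card ?_) (hflat u (c e))
        intro v hv
        obtain ⟨-, hv1, hv2, -⟩ := Finset.mem_filter.1 hv
        rw [Finset.mem_filter]
        exact ⟨h v hv1, hv2⟩
    · have key : ∀ v w, Sim M Hi u v → Sim M Hi u w → (symmDiff (m u) (m v)).card ≤ 4 →
          (symmDiff (m u) (m w)).card ≤ 4 → v = w := by
        intro v w hv hw h1 h2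
        by_contra hne
        rcases htri u v w (h v hv) (h w hw) (sim_ne hv) (sim_ne hw) hne with h3 | h3 | h3
        · omega
        · omega
        · have h4 := sd_tri (m v) (m u) (m w)
          rw [symmDiff_comm (m v) (m u)] at h4
          omega
      have h0 : ∀ v, m v = m u → (symmDiff (m u) (m v)).card ≤ 4 := by
        intro v hv
        rw [hv, symmDiff_self]
        simp
      constructor
      · refine le_trans (Finset.card_le_one.2 ?_) hκ
        intro v hv w hw
        obtain ⟨-, hv1, hv2⟩ := Finset.mem_filter.1 hv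
        obtain ⟨-, hw1, hw2⟩ := Finset.mem_filter.1 hw
        exact key v w hv1 hw1 (h0 v hv2) (h0 w hw2)
      · refine le_trans (Finset.card_le_one.2 ?_) hκ
        intro v hv w hw
        obtain ⟨-, hv1, -, hv2⟩ := Finset.mem_filter.1 hv
        obtain ⟨-, hw1, -, hw2⟩ := Finset.mem_filter.1 hw
        exact key v w hv1 hw1 hv2 hw2
  have hprop : ∀ v f f', v ∈ M.ends f → v ∈ M.ends f' → c f = c f' → f = f' := fun v f f' h1 h2 h3 =>
    hc v f f' (Finset.mem_univ _) (Finset.mem_univ _) h1 h2 h3
  have hceu : c e ∉ m u := not_mem_mis hu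
  -- split
  set B1 := B.filter fun f => ∃ v ∈ S, v ∈ M.ends f ∧ c f = c e with hB1
  set B2 := B.filter fun f => ∃ v ∈ S', v ∈ M.ends f ∧ m u \ m v = {c f} with hB2
  set B3 := B.filter fun f => ∃ v ∈ S', u ∈ M.ends f ∧ m v \ m u = {c e, c f} with hB3
  have hcov : B ⊆ B1 ∪ (B2 ∪ B3) := by
    intro f hf
    obtain ⟨hne, h | h⟩ := hB f hf
    · obtain ⟨v, hv, hs, hi⟩ := h
      have hcfv : c f ∉ m v := not_mem_mis hv
      by_cases hcc : c f = c e
      · refine Finset.mem_union_left _ (Finset.mem_filter.2 ⟨hf, v, ?_, hv, hcc⟩)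
        refine Finset.mem_filter.2 ⟨Finset.mem_univ _, hs, ?_⟩
        have h1 : (insert (c e) (m u)).erase (c e) = (insert (c f) (m v)).erase (c e) := by rw [hi]
        rw [hcc] at h1 hcfv
        rw [Finset.erase_insert hceu, Finset.erase_insert hcfv] at h1
        exact h1.symm
      · refine Finset.mem_union_right _ (Finset.mem_union_left _ (Finset.mem_filter.2 ⟨hf, v, ?_, hv, ?_⟩))
        · have h1 : c e ∈ m v := by
            have h2 : c e ∈ insert (c f) (m v) := hi ▸ Finset.mem_insert_self _ _
            rcases Finset.mem_insert.1 h2 with h3 | h3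
            · exact absurd h3.symm hcc
            · exact h3
          refine Finset.mem_filter.2 ⟨Finset.mem_univ _, hs, h1, ?_⟩
          rw [sd_card]
          have h2 : m u \ m v ⊆ {c f} := by
            intro x hx
            obtain ⟨hx1, hx2⟩ := Finset.mem_sdiff.1 hx
            have h3 : x ∈ insert (c f) (m v) := hi ▸ Finset.mem_insert_of_mem hx1
            rcases Finset.mem_insert.1 h3 with h4 | h4
            · exact Finset.mem_singleton.2 h4
            · exact absurd h4 hx2
          have h3 : m v \ m u ⊆ {c e} := by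
            intro x hx
            obtain ⟨hx1, hx2⟩ := Finset.mem_sdiff.1 hx
            have h3 : x ∈ insert (c e) (m u) := hi ▸ Finset.mem_insert_of_mem hx1
            rcases Finset.mem_insert.1 h3 with h4 | h4
            · exact Finset.mem_singleton.2 h4
            · exact absurd h4 hx2
          have h4 := Finset.card_le_card h2
          have h5 := Finset.card_le_card h3
          rw [Finset.card_singleton] at h4 h5
          omega
        · ext x
          rw [Finset.mem_sdiff, Finset.mem_singleton]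
          constructor
          · rintro ⟨hx1, hx2⟩
            have h3 : x ∈ insert (c f) (m v) := hi ▸ Finset.mem_insert_of_mem hx1
            rcases Finset.mem_insert.1 h3 with h4 | h4
            · exact h4
            · exact absurd h4 hx2
          · rintro rfl
            refine ⟨?_, hcfv⟩
            have h2 : c f ∈ insert (c e) (m u) := hi ▸ Finset.mem_insert_self _ _
            rcases Finset.mem_insert.1 h2 with h3 | h3
            · exact absurd h3 hcc
            · exact h3
    · obtain ⟨v, hv, hs, hi⟩ := h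
      refine Finset.mem_union_right _ (Finset.mem_union_right _ (Finset.mem_filter.2 ⟨hf, v, ?_, hv, hi⟩))
      have h1 : c e ∈ m v := by
        have h2 : c e ∈ m v \ m u := by rw [hi]; exact Finset.mem_insert_self _ _
        exact (Finset.mem_sdiff.1 h2).1
      refine Finset.mem_filter.2 ⟨Finset.mem_univ _, hs, h1, ?_⟩
      rw [sd_card]
      have h2 : (m v \ m u).card ≤ 2 := by rw [hi]; exact Finset.card_le_two
      have h3 : (m u).card = (m v).card := by
        have h4 := card_mis M c hc u
        have h5 := card_mis M c hc v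
        have h6 := hs.2.2.2
        rw [← hm] at h4 h5
        omega
      have h4 : (m u \ m v).card = (m v \ m u).card := by
        have h5 := Finset.card_sdiff_add_card_inter (m u) (m v)
        have h6 := Finset.card_sdiff_add_card_inter (m v) (m u)
        rw [Finset.inter_comm (m v) (m u)] at h6
        omega
      omega
  have c1 : B1.card ≤ S.card := by
    refine card_le_of_rel B1 S (fun f v => v ∈ M.ends f ∧ c f = c e) ?_ ?_
    · intro f hf
      exact (Finset.mem_filter.1 hf).2
    · intro f _ f' _ v _ h h'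
      exact hprop v f f' h.1 h'.1 (h.2.trans h'.2.symm)
  have c2 : B2.card ≤ S'.card := by
    refine card_le_of_rel B2 S' (fun f v => v ∈ M.ends f ∧ m u \ m v = {c f}) ?_ ?_
    · intro f hf
      exact (Finset.mem_filter.1 hf).2
    · intro f _ f' _ v _ h h'
      exact hprop v f f' h.1 h'.1 (Finset.singleton_injective (h.2.symm.trans h'.2))
  have c3 : B3.card ≤ S'.card := by
    refine card_le_of_rel B3 S' (fun f v => u ∈ M.ends f ∧ m v \ m u = {c e, c f}) ?_ ?_
    · intro f hf
      exact (Finset.mem_filter.1 hf).2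
    · intro f hf f' hf' v _ h h'
      have hne : c f ≠ c e := fun hcc =>
        (hB f (Finset.mem_filter.1 hf).1).1 (hprop u e f hu h.1 hcc.symm)
      have h1 : c f ∈ ({c e, c f'} : Finset K) := by
        rw [← h'.2, h.2]
        exact Finset.mem_insert_of_mem (Finset.mem_singleton_self _)
      rcases Finset.mem_insert.1 h1 with h2 | h2
      · exact absurd h2 hne
      · exact hprop u f f' h.1 h'.1 (Finset.mem_singleton.1 h2)
  have h1 := Finset.card_le_card hcov
  have h2 := Finset.card_union_le B1 (B2 ∪ B3)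
  have h3 := Finset.card_union_le B2 B3
  obtain ⟨h4, h5⟩ := hSc
  omega

/-- Hypotheses: `Sim` neighbours of `u` are all in `A₁ u` (and then few of them miss a given colour) or all in
`A₂ u` (and then no two of them are close to `u`).
PROOF. Let `e = s(u₁, u₂)`. A conflict partner `f` of `e` arises from some `u ∈ {u₁, u₂}` and some `v` with `Sim u v` in one of
the following ways. (I) first alternative of `Conf`, `v ∈ ends f`, `insert (c e) (mis u) = insert (c f) (mis v)`;
`c e ∉ mis u`, `c f ∉ mis v`. (Ia) `c f = c e`: then `mis v = mis u`, and `f` is the unique edge at `v` of colour `c e`.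
(Ib) `c f ≠ c e`: then `c e ∈ mis v`, `c f ∈ mis u \ mis v` and this set has exactly one element, so `f` is determined by
`v`. (II) `c e ∈ mis v \ mis u = {c e, c f}`: `c f` is determined by `u, v` (`c f ≠ c e` as `e ≠ f` share `u`, or the set
would force...; note `c f = c e` and `u ∈ ends e ∩ ends f` contradict properness) and `f` is the edge at `u` of this colour.
Number of `v`: if all `Sim` neighbours of `u` are in `A₁ u`: (Ia) `mis u` is nonempty (`card_mis`, `deg u < |K|`), take
`γ ∈ mis u`: `≤ nn A₁ (mis c) u γ ≤ κ`; (Ib), (II): `c e ∈ mis v`: `≤ κ` each. Total `3κ` for `u`. If they are all in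
`A₂ u`: in all cases `|symmDiff (mis u) (mis v)| ≤ 4` (equal cardinalities, since equal degrees; `card_mis`), and by
`Tri` there is at most one such `v` (two would be within 8 of each other): `≤ 3 ≤ 3κ`. Total `≤ 6κ`. -/
theorem conf_card (M : MG V E) (Hi : V → Prop) (c : E → K) (hc : Proper M c)
    (A₁ A₂ : V → Finset V) (κ : ℕ) (hκ : 1 ≤ κ) (hflat : ∀ u γ, nn A₁ (mis M c) u γ ≤ κ)
    (htri : Tri A₂ (mis M c) 9)
    (hA : ∀ u, (∀ v, Sim M Hi u v → v ∈ A₁ u) ∨ (∀ v, Sim M Hi u v → v ∈ A₂ u))
    (hdeg : ∀ u, M.deg u < Fintype.card K) (e : E) [DecidablePred (Conf M Hi c e)] :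
    (univ.filter fun f => Conf M Hi c e f).card ≤ 6 * κ := by
  classical
  obtain ⟨u₁, u₂, he⟩ : ∃ u₁ u₂, M.ends e = s(u₁, u₂) := by
    induction h : M.ends e using Sym2.ind with
    | _ x y => exact ⟨x, y, rfl⟩
  let P : V → E → Prop := fun u f => e ≠ f ∧
      ((∃ v, v ∈ M.ends f ∧ Sim M Hi u v ∧
      insert (c e) (mis M c u) = insert (c f) (mis M c v)) ∨
    (∃ v, u ∈ M.ends f ∧ Sim M Hi u v ∧
      mis M c v \ mis M c u = {c e, c f}))
  have h1 : (univ.filter (P u₁)).card ≤ 3 * κ :=
    part_card M Hi c hc A₁ A₂ κ hκ hflat htri hA hdeg e u₁ (by rw [he]; exact Sym2.mem_mk_left _ _)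
      _ (fun f hf => (Finset.mem_filter.1 hf).2)
  have h2 : (univ.filter (P u₂)).card ≤ 3 * κ :=
    part_card M Hi c hc A₁ A₂ κ hκ hflat htri hA hdeg e u₂ (by rw [he]; exact Sym2.mem_mk_right _ _)
      _ (fun f hf => (Finset.mem_filter.1 hf).2)
  have h3 : (univ.filter fun f => Conf M Hi c e f) ⊆ univ.filter (P u₁) ∪ univ.filter (P u₂) := by
    intro f hf
    obtain ⟨-, hne, h | h⟩ := Finset.mem_filter.1 hf
    · obtain ⟨u, v, hu, hv, hs, hi⟩ := h
      rw [he, Sym2.mem_iff] at hu
      rcases hu with rfl | rfl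
      · exact Finset.mem_union_left _ (Finset.mem_filter.2 ⟨Finset.mem_univ _, hne, Or.inl ⟨v, hv, hs, hi⟩⟩)
      · exact Finset.mem_union_right _ (Finset.mem_filter.2 ⟨Finset.mem_univ _, hne, Or.inl ⟨v, hv, hs, hi⟩⟩)
    · obtain ⟨u, v, hu, hv, hs, hi⟩ := h
      rw [he, Sym2.mem_iff] at hu
      rcases hu with rfl | rfl
      · exact Finset.mem_union_left _ (Finset.mem_filter.2 ⟨Finset.mem_univ _, hne, Or.inr ⟨v, hv, hs, hi⟩⟩)
      · exact Finset.mem_union_right _ (Finset.mem_filter.2 ⟨Finset.mem_univ _, hne, Or.inr ⟨v, hv, hs, hi⟩⟩)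
  have h4 := Finset.card_le_card h3
  have h5 := Finset.card_union_le (univ.filter (P u₁)) (univ.filter (P u₂))
  omega

end Pool.Agent.Helper6.AVD
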