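import Pool.Agent.Helper6.AVD.Base
import Pool.Agent.Helper6.AVD.St.V1

/-! Project AVD, piece C2: the key fact about recolouring two conflict-free matchings. -/

set_option autoImplicit false
set_option linter.unusedSectionVars false

namespace Pool.Agent.Helper6.AVD

open Finset

variable {V E K : Type*} [Fintype V] [DecidableEq V] [Fintype E] [DecidableEq E]
  [Fintype K] [DecidableEq K]

/-- the new colouring: `A` gets the colour `inr false`, `B` the colour `inr true` -/
def newc (c : E → K) (A B : Finset E) (e : E) : K ⊕ Bool :=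
  if e ∈ A then Sum.inr false else if e ∈ B then Sum.inr true else Sum.inl (c e)

theorem newc_proper (M : MG V E) (c : E → K) (hc : Proper M c) (A B : Finset E) (hA : Mtch M A)
    (hB : Mtch M B) : Proper M (newc c A B) := by
  intro v e f _ _ hve hvf hcc
  unfold newc at hcc
  by_cases heA : e ∈ A
  · by_cases hfA : f ∈ A
    · exact hA v e f heA hfA hve hvf
    · by_cases hfB : f ∈ B
      · simp [heA, hfA, hfB] at hcc
      · simp [heA, hfA, hfB] at hcc
  · by_cases heB : e ∈ B
    · by_cases hfA : f ∈ A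
      · simp [heA, heB, hfA] at hcc
      · by_cases hfB : f ∈ B
        · exact hB v e f heB hfB hve hvf
        · simp [heA, heB, hfA, hfB] at hcc
    · by_cases hfA : f ∈ A
      · simp [heA, heB, hfA] at hcc
      · by_cases hfB : f ∈ B
        · simp [heA, heB, hfA, hfB] at hcc
        · simp only [heA, heB, hfA, hfB, if_false] at hcc
          exact hc v e f (mem_univ _) (mem_univ _) hve hvf (Sum.inl_injective hcc)

private theorem mem_mis' (M : MG V E) (c : E → K) (v : V) (a : K) :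
    a ∈ mis M c v ↔ ∀ e, v ∈ M.ends e → c e ≠ a := by
  simp [mis, misOn]

private theorem notin_mis (M : MG V E) (c : E → K) (v : V) (e : E) (h : v ∈ M.ends e) :
    c e ∉ mis M c v := by
  intro h'
  exact (mem_mis' M c v (c e)).1 h' e h rfl

private theorem one_edge (M : MG V E) (Hi : V → Prop) (c : E → K) (H : Finset E)
    (hconf : ∀ e ∈ H, ∀ f ∈ H, ¬ Conf M Hi c e f) (hF : ∀ e ∈ H, ¬ IsF M Hi c e)
    (u v : V) (huv : Sim M Hi u v) (e f : E) (he : e ∈ H) (hf : f ∈ H)
    (hue : u ∈ M.ends e) (hvf : v ∈ M.ends f)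
    (heq : insert (c e) (mis M c u) = insert (c f) (mis M c v)) : False := by
  by_cases hef : e = f
  · subst hef
    have h1 := notin_mis M c u e hue
    have h2 := notin_mis M c v e hvf
    have hm : mis M c u = mis M c v := by
      rw [← erase_insert h1, ← erase_insert h2, heq]
    have hne : u ≠ v := by
      intro huv'
      obtain ⟨⟨g, hg⟩, _⟩ := huv
      apply M.nd g
      rw [hg, huv']
      simp
    have hends : M.ends e = s(u, v) := (Sym2.mem_and_mem_iff hne).1 ⟨hue, hvf⟩
    exact hF e he ⟨u, v, hends, huv, hm⟩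
  · exact hconf e he f hf ⟨hef, Or.inl ⟨u, v, hue, hvf, huv, heq⟩⟩

private theorem two_edge_one (M : MG V E) (Hi : V → Prop) (c : E → K) (H : Finset E)
    (hconf : ∀ e ∈ H, ∀ f ∈ H, ¬ Conf M Hi c e f) (hF : ∀ e ∈ H, ¬ IsF M Hi c e)
    (u v : V) (huv : Sim M Hi u v) (e e' f₁ f₂ : E) (he : e ∈ H) (hf₁ : f₁ ∈ H) (hf₂ : f₂ ∈ H)
    (hue : u ∈ M.ends e) (hvf₁ : v ∈ M.ends f₁) (hvf₂ : v ∈ M.ends f₂)
    (hcard : (mis M c u).card = (mis M c v).card)
    (hst : ∀ x, (x ∈ mis M c u ∨ x = c e ∨ x = c e') ↔ (x ∈ mis M c v ∨ x = c f₁ ∨ x = c f₂))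
    (h1 : c e ∈ mis M c v) (h2 : c e' ∉ mis M c v) : False := by
  have hd : mis M c v \ mis M c u = {c e} := by
    ext x
    simp only [mem_sdiff, mem_singleton]
    constructor
    · rintro ⟨hx, hx'⟩
      rcases (hst x).2 (Or.inl hx) with h | h | h
      · exact absurd h hx'
      · exact h
      · subst h; exact absurd hx h2
    · rintro rfl
      exact ⟨h1, notin_mis M c u e hue⟩
  have hc1 : (mis M c u \ mis M c v).card = 1 := by
    rw [card_sdiff_comm hcard, hd, card_singleton]
  obtain ⟨y, hy⟩ := card_eq_one.1 hc1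
  have hyu : y ∈ mis M c u ∧ y ∉ mis M c v := by
    have : y ∈ mis M c u \ mis M c v := by rw [hy]; exact mem_singleton_self y
    exact mem_sdiff.1 this
  have hyf : ∃ f ∈ H, v ∈ M.ends f ∧ y = c f := by
    rcases (hst y).1 (Or.inl hyu.1) with h | h | h
    · exact absurd h hyu.2
    · exact ⟨f₁, hf₁, hvf₁, h⟩
    · exact ⟨f₂, hf₂, hvf₂, h⟩
  obtain ⟨f, hfH, hvf, hyf⟩ := hyf
  apply one_edge M Hi c H hconf hF u v huv e f he hfH hue hvf
  rw [← hyf]
  ext x
  have e1 : x ∈ mis M c v \ mis M c u ↔ x ∈ ({c e} : Finset K) := by rw [hd]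
  have e2 : x ∈ mis M c u \ mis M c v ↔ x ∈ ({y} : Finset K) := by rw [hy]
  simp only [mem_sdiff, mem_singleton] at e1 e2
  simp only [mem_insert]
  tauto

private theorem star_of_pal (M : MG V E) (c : E → K) (hc : Proper M c) (A B : Finset E)
    (u : V) (x : K) :
    Sum.inl x ∉ pal M (newc c A B) u ↔
      (x ∈ mis M c u ∨ ∃ e ∈ A ∪ B, u ∈ M.ends e ∧ c e = x) := by
  rw [mem_mis']
  constructor
  · intro h
    by_cases hx : ∀ e, u ∈ M.ends e → c e ≠ x
    · exact Or.inl hx
    · push Not at hx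
      obtain ⟨e, hue, hce⟩ := hx
      right
      refine ⟨e, ?_, hue, hce⟩
      by_contra hn
      apply h
      simp only [mem_union, not_or] at hn
      unfold pal
      rw [mem_image]
      refine ⟨e, ?_, ?_⟩
      · simp [MG.inc, hue]
      · simp [newc, hn.1, hn.2, hce]
  · intro h hx
    unfold pal at hx
    rw [mem_image] at hx
    obtain ⟨g, hg, hgx⟩ := hx
    have hug : u ∈ M.ends g := by simpa [MG.inc] using hg
    have hgA : g ∉ A := by
      intro hgA
      simp [newc, hgA] at hgx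
    have hgB : g ∉ B := by
      intro hgB
      simp [newc, hgA, hgB] at hgx
    have hgc : c g = x := by
      simpa [newc, hgA, hgB] using hgx
    rcases h with h | ⟨e, he, hue, hce⟩
    · exact h g hug hgc
    · have : e = g := hc u e g (mem_univ _) (mem_univ _) hue hug (hce.trans hgc.symm)
      subst this
      rcases mem_union.1 he with h | h
      · exact hgA h
      · exact hgB h

private theorem inrA_of_pal (M : MG V E) (c : E → K) (A B : Finset E) (u : V) :
    Sum.inr false ∈ pal M (newc c A B) u ↔ ∃ e ∈ A, u ∈ M.ends e := by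
  unfold pal
  rw [mem_image]
  constructor
  · rintro ⟨g, hg, hgx⟩
    have hug : u ∈ M.ends g := by simpa [MG.inc] using hg
    refine ⟨g, ?_, hug⟩
    by_contra hgA
    by_cases hgB : g ∈ B
    · simp [newc, hgA, hgB] at hgx
    · simp [newc, hgA, hgB] at hgx
  · rintro ⟨g, hg, hug⟩
    refine ⟨g, by simp [MG.inc, hug], by simp [newc, hg]⟩

private theorem inrB_of_pal (M : MG V E) (c : E → K) (A B : Finset E) (hAB : Disjoint A B)
    (u : V) :
    Sum.inr true ∈ pal M (newc c A B) u ↔ ∃ e ∈ B, u ∈ M.ends e := by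
  unfold pal
  rw [mem_image]
  constructor
  · rintro ⟨g, hg, hgx⟩
    have hug : u ∈ M.ends g := by simpa [MG.inc] using hg
    refine ⟨g, ?_, hug⟩
    by_contra hgB
    by_cases hgA : g ∈ A
    · simp [newc, hgA] at hgx
    · simp [newc, hgA, hgB] at hgx
  · rintro ⟨g, hg, hug⟩
    have hgA : g ∉ A := fun h => (disjoint_left.1 hAB) h hg
    refine ⟨g, by simp [MG.inc, hug], by simp [newc, hgA, hg]⟩

/-- PROOF. Suppose `pal (newc) u = pal (newc) v`. Then `u` is covered by `A` iff `v` is, same for `B`. Let `H = A ∪ B`. The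
old-colour part: `S u \ {c e : e ∈ H at u} = S v \ {c e : e ∈ H at v}`, equivalently
(*) `mis u ∪ {c e : e ∈ H at u} = mis v ∪ {c e : e ∈ H at v}`.
No edge of `H` at `u`: none at `v`, so `mis u = mis v` and neither is covered: contradiction to `h`.
Exactly one edge `e` at `u`, and so exactly one, `f`, at `v`: (*) says `insert (c e) (mis u) = insert (c f) (mis v)`. If
`e ≠ f` this is `Conf e f`, contradiction. If `e = f` then (as `c e` is in neither `mis`) `mis u = mis v` and
`e = s(u, v)` (`u ≠ v` both ends), so `IsF e`: contradiction.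
Two edges `e₁ ∈ A, e₂ ∈ B` at `u` and `f₁ ∈ A, f₂ ∈ B` at `v` (`e₁ ≠ e₂`, `c e₁ ≠ c e₂`, same for `f`). By (*)
`mis v \ mis u ⊆ {c e₁, c e₂}`, `mis u \ mis v ⊆ {c f₁, c f₂}`, and both have the same cardinality `t ≤ 2` (same degree,
`card_mis`). `t = 2`: `mis v \ mis u = {c e₁, c e₂}`: `Conf e₁ e₂` (second alternative). `t = 1`:
`mis v \ mis u = {c e}`, `e ∈ {e₁, e₂}`, `mis u \ mis v = {c f}`, `f ∈ {f₁, f₂}`; `insert (c e) (mis u) = mis u ∪ mis v =
insert (c f) (mis v)`; `e ≠ f` since `c f ∈ mis u`, `c e ∉ mis u`; so `Conf e f`. `t = 0`: `mis u = mis v` and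
`{c e₁, c e₂} = {c f₁, c f₂}` (disjoint from `mis`); the `f ∈ {f₁, f₂}` with `c f = c e₁`: if `f ≠ e₁`: `Conf e₁ f`; if
`f = e₁` then `e₁ = s(u, v)` is `IsF`. -/
theorem key_fact (M : MG V E) (Hi : V → Prop) (c : E → K) (hc : Proper M c) (A B : Finset E)
    (hA : Mtch M A) (hB : Mtch M B) (hAB : Disjoint A B)
    (hconf : ∀ e ∈ A ∪ B, ∀ f ∈ A ∪ B, ¬ Conf M Hi c e f) (hF : ∀ e ∈ A ∪ B, ¬ IsF M Hi c e)
    (u v : V) (huv : Sim M Hi u v)
    (h : mis M c u ≠ mis M c v ∨ Cov M (A ∪ B) u ∨ Cov M (A ∪ B) v) :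
    pal M (newc c A B) u ≠ pal M (newc c A B) v := by
  intro hp
  have hcard : (mis M c u).card = (mis M c v).card := by
    have h1 := card_mis M c hc u
    have h2 := card_mis M c hc v
    have h3 := huv.2.2.2
    omega
  have hst : ∀ x, (x ∈ mis M c u ∨ ∃ e ∈ A ∪ B, u ∈ M.ends e ∧ c e = x) ↔
      (x ∈ mis M c v ∨ ∃ e ∈ A ∪ B, v ∈ M.ends e ∧ c e = x) := by
    intro x
    rw [← star_of_pal M c hc A B u x, ← star_of_pal M c hc A B v x, hp]
  have hAiff : (∃ e ∈ A, u ∈ M.ends e) ↔ (∃ e ∈ A, v ∈ M.ends e) := by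
    rw [← inrA_of_pal M c A B u, ← inrA_of_pal M c A B v, hp]
  have hBiff : (∃ e ∈ B, u ∈ M.ends e) ↔ (∃ e ∈ B, v ∈ M.ends e) := by
    rw [← inrB_of_pal M c A B hAB u, ← inrB_of_pal M c A B hAB v, hp]
  by_cases hAu : ∃ e ∈ A, u ∈ M.ends e
  · have hAv := hAiff.1 hAu
    obtain ⟨e₁, he₁, hue₁⟩ := hAu
    obtain ⟨f₁, hf₁, hvf₁⟩ := hAv
    have he₁H : e₁ ∈ A ∪ B := mem_union_left _ he₁
    have hf₁H : f₁ ∈ A ∪ B := mem_union_left _ hf₁
    by_cases hBu : ∃ e ∈ B, u ∈ M.ends e
    · have hBv := hBiff.1 hBu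
      obtain ⟨e₂, he₂, hue₂⟩ := hBu
      obtain ⟨f₂, hf₂, hvf₂⟩ := hBv
      have he₂H : e₂ ∈ A ∪ B := mem_union_right _ he₂
      have hf₂H : f₂ ∈ A ∪ B := mem_union_right _ hf₂
      have hne : e₁ ≠ e₂ := by
        intro h'
        subst h'
        exact (disjoint_left.1 hAB) he₁ he₂
      have hu : ∀ x, (∃ e ∈ A ∪ B, u ∈ M.ends e ∧ c e = x) ↔ (x = c e₁ ∨ x = c e₂) := by
        intro x
        constructor
        · rintro ⟨e, he, hue, hce⟩
          rcases mem_union.1 he with h' | h'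
          · left
            rw [← hA u e e₁ h' he₁ hue hue₁, hce]
          · right
            rw [← hB u e e₂ h' he₂ hue hue₂, hce]
        · rintro (h' | h')
          · exact ⟨e₁, he₁H, hue₁, h'.symm⟩
          · exact ⟨e₂, he₂H, hue₂, h'.symm⟩
      have hv : ∀ x, (∃ e ∈ A ∪ B, v ∈ M.ends e ∧ c e = x) ↔ (x = c f₁ ∨ x = c f₂) := by
        intro x
        constructor
        · rintro ⟨e, he, hue, hce⟩
          rcases mem_union.1 he with h' | h'
          · left
            rw [← hA v e f₁ h' hf₁ hue hvf₁, hce]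
          · right
            rw [← hB v e f₂ h' hf₂ hue hvf₂, hce]
        · rintro (h' | h')
          · exact ⟨f₁, hf₁H, hvf₁, h'.symm⟩
          · exact ⟨f₂, hf₂H, hvf₂, h'.symm⟩
      have hst' : ∀ x, (x ∈ mis M c u ∨ x = c e₁ ∨ x = c e₂) ↔
          (x ∈ mis M c v ∨ x = c f₁ ∨ x = c f₂) := by
        intro x
        rw [← hu x, ← hv x]
        exact hst x
      by_cases h1 : c e₁ ∈ mis M c v
      · by_cases h2 : c e₂ ∈ mis M c v
        · apply hconf e₁ he₁H e₂ he₂H
          refine ⟨hne, Or.inr ⟨u, v, hue₁, hue₂, huv, ?_⟩⟩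
          ext x
          simp only [mem_sdiff, mem_insert, mem_singleton]
          constructor
          · rintro ⟨hx, hx'⟩
            rcases (hst' x).2 (Or.inl hx) with h' | h'
            · exact absurd h' hx'
            · exact h'
          · rintro (rfl | rfl)
            · exact ⟨h1, notin_mis M c u e₁ hue₁⟩
            · exact ⟨h2, notin_mis M c u e₂ hue₂⟩
        · exact two_edge_one M Hi c (A ∪ B) hconf hF u v huv e₁ e₂ f₁ f₂ he₁H hf₁H hf₂H
            hue₁ hvf₁ hvf₂ hcard hst' h1 h2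
      · by_cases h2 : c e₂ ∈ mis M c v
        · refine two_edge_one M Hi c (A ∪ B) hconf hF u v huv e₂ e₁ f₁ f₂ he₂H hf₁H hf₂H
            hue₂ hvf₁ hvf₂ hcard ?_ h2 h1
          intro x
          rw [← hst' x]
          tauto
        · have hsub : mis M c v ⊆ mis M c u := by
            intro x hx
            rcases (hst' x).2 (Or.inl hx) with h' | h' | h'
            · exact h'
            · subst h'; exact absurd hx h1
            · subst h'; exact absurd hx h2
          have hm : mis M c v = mis M c u := eq_of_subset_of_card_le hsub (le_of_eq hcard)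
          rcases (hst' (c e₁)).1 (Or.inr (Or.inl rfl)) with h' | h' | h'
          · exact h1 h'
          · exact one_edge M Hi c (A ∪ B) hconf hF u v huv e₁ f₁ he₁H hf₁H hue₁ hvf₁
              (by rw [h', hm])
          · exact one_edge M Hi c (A ∪ B) hconf hF u v huv e₁ f₂ he₁H hf₂H hue₁ hvf₂
              (by rw [h', hm])
    · have hBv : ¬ ∃ e ∈ B, v ∈ M.ends e := fun h' => hBu (hBiff.2 h')
      apply one_edge M Hi c (A ∪ B) hconf hF u v huv e₁ f₁ he₁H hf₁H hue₁ hvf₁
      have hu : ∀ x, (∃ e ∈ A ∪ B, u ∈ M.ends e ∧ c e = x) ↔ x = c e₁ := by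
        intro x
        constructor
        · rintro ⟨e, he, hue, hce⟩
          rcases mem_union.1 he with h' | h'
          · rw [← hA u e e₁ h' he₁ hue hue₁, hce]
          · exact absurd ⟨e, h', hue⟩ hBu
        · intro h'
          exact ⟨e₁, he₁H, hue₁, h'.symm⟩
      have hv : ∀ x, (∃ e ∈ A ∪ B, v ∈ M.ends e ∧ c e = x) ↔ x = c f₁ := by
        intro x
        constructor
        · rintro ⟨e, he, hue, hce⟩
          rcases mem_union.1 he with h' | h'
          · rw [← hA v e f₁ h' hf₁ hue hvf₁, hce]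
          · exact absurd ⟨e, h', hue⟩ hBv
        · intro h'
          exact ⟨f₁, hf₁H, hvf₁, h'.symm⟩
      ext x
      have := hst x
      rw [hu x, hv x] at this
      simp only [mem_insert]
      tauto
  · have hAv : ¬ ∃ e ∈ A, v ∈ M.ends e := fun h' => hAu (hAiff.2 h')
    by_cases hBu : ∃ e ∈ B, u ∈ M.ends e
    · have hBv := hBiff.1 hBu
      obtain ⟨e₂, he₂, hue₂⟩ := hBu
      obtain ⟨f₂, hf₂, hvf₂⟩ := hBv
      have he₂H : e₂ ∈ A ∪ B := mem_union_right _ he₂
      have hf₂H : f₂ ∈ A ∪ B := mem_union_right _ hf₂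
      apply one_edge M Hi c (A ∪ B) hconf hF u v huv e₂ f₂ he₂H hf₂H hue₂ hvf₂
      have hu : ∀ x, (∃ e ∈ A ∪ B, u ∈ M.ends e ∧ c e = x) ↔ x = c e₂ := by
        intro x
        constructor
        · rintro ⟨e, he, hue, hce⟩
          rcases mem_union.1 he with h' | h'
          · exact absurd ⟨e, h', hue⟩ hAu
          · rw [← hB u e e₂ h' he₂ hue hue₂, hce]
        · intro h'
          exact ⟨e₂, he₂H, hue₂, h'.symm⟩
      have hv : ∀ x, (∃ e ∈ A ∪ B, v ∈ M.ends e ∧ c e = x) ↔ x = c f₂ := by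
        intro x
        constructor
        · rintro ⟨e, he, hue, hce⟩
          rcases mem_union.1 he with h' | h'
          · exact absurd ⟨e, h', hue⟩ hAv
          · rw [← hB v e f₂ h' hf₂ hue hvf₂, hce]
        · intro h'
          exact ⟨f₂, hf₂H, hvf₂, h'.symm⟩
      ext x
      have := hst x
      rw [hu x, hv x] at this
      simp only [mem_insert]
      tauto
    · have hBv : ¬ ∃ e ∈ B, v ∈ M.ends e := fun h' => hBu (hBiff.2 h')
      rcases h with h | ⟨e, he, hue⟩ | ⟨e, he, hue⟩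
      · apply h
        ext x
        have := hst x
        have n1 : ¬ ∃ e ∈ A ∪ B, u ∈ M.ends e ∧ c e = x := by
          rintro ⟨e, he, hue, _⟩
          rcases mem_union.1 he with h' | h'
          · exact hAu ⟨e, h', hue⟩
          · exact hBu ⟨e, h', hue⟩
        have n2 : ¬ ∃ e ∈ A ∪ B, v ∈ M.ends e ∧ c e = x := by
          rintro ⟨e, he, hue, _⟩
          rcases mem_union.1 he with h' | h'
          · exact hAv ⟨e, h', hue⟩
          · exact hBv ⟨e, h', hue⟩
        exact ⟨fun hx => (this.1 (Or.inl hx)).resolve_right n2,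
          fun hx => (this.2 (Or.inl hx)).resolve_right n1⟩
      · rcases mem_union.1 he with h' | h'
        · exact hAu ⟨e, h', hue⟩
        · exact hBu ⟨e, h', hue⟩
      · rcases mem_union.1 he with h' | h'
        · exact hAv ⟨e, h', hue⟩
        · exact hBv ⟨e, h', hue⟩

end Pool.Agent.Helper6.AVD
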