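import Pool.Agent.Helper6.AVD.Base

/-! Project AVD, piece H1: Mendelsohn-Dulmage. -/

set_option autoImplicit false
set_option linter.unusedSectionVars false

namespace Pool.Agent.Helper6.AVD

open Finset

variable {V E : Type*} [Fintype V] [DecidableEq V] [Fintype E] [DecidableEq E]

/-- the smallest set of `true`-vertices closed under the two rules -/
private inductive CC (M : MG V E) (side : V → Bool) (P Q : Finset E) : V → Prop
  | base (x : V) (hx : side x = true) (hP : Cov M P x) (hQ : ¬ Cov M Q x) : CC M side P Q x
  | step (x x' y : V) (e f : E) (h : CC M side P Q x) (he : e ∈ P) (hee : M.ends e = s(x, y))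
      (hf : f ∈ Q) (hff : M.ends f = s(x', y)) (hs : side x' = true) (hc : Cov M P x') :
      CC M side P Q x'

private theorem CC.side_true {M : MG V E} {side : V → Bool} {P Q : Finset E} {x : V}
    (h : CC M side P Q x) : side x = true := by
  cases h with
  | base _ hx _ _ => exact hx
  | step _ _ _ _ _ _ _ _ _ _ hs _ => exact hs

/-- `P`, `Q` matchings all of whose edges cross the bipartition `side`. There is a matching in `P ∪ Q` covering the
`true`-vertices covered by `P` and the `false`-vertices covered by `Q`.
PROOF (Schröder-Bernstein). Let `C` be the smallest set of `true`-vertices covered by `P` such that (1) every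
`true`-vertex covered by `P` but not by `Q` is in `C`, (2) if `x ∈ C`, `xy ∈ P`, `yx' ∈ Q` and `x'` is covered by `P`
then `x' ∈ C` (an inductive predicate). Put `A = {e ∈ P | the true end of e is in C} ∪ {e ∈ Q | the false end y of e is
not the P-partner of an element of C}`. Matching: the only problem is an edge `xy ∈ P`, `x ∈ C` and an edge `xy' ∈ Q` of the
second kind: `x ∈ C` is covered by `Q`, so it is in `C` by rule (2): there are `x₁ ∈ C`, `x₁y₁ ∈ P`, `y₁x ∈ Q`; `Q` is a
matching, so `y' = y₁` is the `P`-partner of `x₁ ∈ C`: contradiction. (And `xy ∈ P`, `x ∈ C`, `x'y ∈ Q` of the second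
kind is excluded by definition.) Covering: a `true`-vertex `x` covered by `P`: if `x ∈ C` clear; if `x ∉ C` it is covered
by an edge `xy ∈ Q`; `y` is not the partner of an `x₁ ∈ C` (else `x ∈ C` by (2)), so `xy ∈ A`. A `false`-vertex `y` covered
by `Q`: if it is the `P`-partner of an element of `C` that `P`-edge is in `A`; otherwise its `Q`-edge is in `A`. -/
theorem mendelsohn_dulmage (M : MG V E) (side : V → Bool) (P Q : Finset E)
    (hcross : ∀ e ∈ P ∪ Q, ∀ u v, M.ends e = s(u, v) → side u ≠ side v) (hP : Mtch M P)
    (hQ : Mtch M Q) :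
    ∃ A ⊆ P ∪ Q, Mtch M A ∧ (∀ v, side v = true → Cov M P v → Cov M A v) ∧
      ∀ v, side v = false → Cov M Q v → Cov M A v := by
  classical
  have hends : ∀ e ∈ P ∪ Q, ∃ x y, M.ends e = s(x, y) ∧ side x = true ∧ side y = false := by
    intro e he
    induction hz : M.ends e using Sym2.ind with
    | _ u v =>
      have h1 := hcross e he u v hz
      cases hu : side u with
      | true =>
        cases hv : side v with
        | true => exact absurd (hu.trans hv.symm) h1
        | false => exact ⟨u, v, rfl, hu, hv⟩
      | false =>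
        cases hv : side v with
        | true => exact ⟨v, u, Sym2.eq_swap, hv, hu⟩
        | false => exact absurd (hu.trans hv.symm) h1
  let isP : E → Prop := fun e => ∃ x, x ∈ M.ends e ∧ CC M side P Q x
  let isQ : E → Prop := fun e => ∀ y, side y = false → y ∈ M.ends e →
    ¬ ∃ x p, CC M side P Q x ∧ p ∈ P ∧ M.ends p = s(x, y)
  refine ⟨P.filter isP ∪ Q.filter isQ, ?_, ?_, ?_, ?_⟩
  · exact Finset.union_subset_union (Finset.filter_subset _ _) (Finset.filter_subset _ _)
  · -- matching
    have key : ∀ v e f, e ∈ P.filter isP → f ∈ Q.filter isQ → v ∈ M.ends e → v ∈ M.ends f →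
        False := by
      intro v e f he hf hve hvf
      obtain ⟨heP, x0, hx0e, hx0C⟩ := Finset.mem_filter.1 he
      obtain ⟨hfQ, hfq⟩ := Finset.mem_filter.1 hf
      obtain ⟨x, y, hxy, hx, hy⟩ := hends e (Finset.mem_union_left _ heP)
      obtain ⟨x', y', hxy', hx', hy'⟩ := hends f (Finset.mem_union_right _ hfQ)
      have hx0 : x0 = x := by
        rw [hxy, Sym2.mem_iff] at hx0e
        rcases hx0e with h | h
        · exact h
        · have := hx0C.side_true; rw [h, hy] at this; exact absurd this (by decide)
      subst hx0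
      rw [hxy, Sym2.mem_iff] at hve
      rw [hxy', Sym2.mem_iff] at hvf
      rcases hve with hv | hv
      · -- v = x
        have hvx' : v = x' := by
          rcases hvf with h | h
          · exact h
          · rw [hv] at h; rw [h, hy'] at hx; exact absurd hx (by decide)
        have hcov : Cov M Q x0 := ⟨f, hfQ, by rw [hxy', ← hvx', hv]; exact Sym2.mem_mk_left _ _⟩
        have hff' : M.ends f = s(x0, y') := by rw [hxy', ← hvx', hv]
        cases hx0C with
        | base _ _ _ hQn => exact hQn hcov
        | step x1 _ y1 e1 f1 hC1 he1 hee1 hf1 hff1 _ _ =>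
          have h2 : f = f1 := hQ x0 f f1 hfQ hf1 (by rw [hff']; exact Sym2.mem_mk_left _ _)
            (by rw [hff1]; exact Sym2.mem_mk_left _ _)
          have h3 : y' = y1 := by
            rw [← h2, hff'] at hff1
            rcases Sym2.eq_iff.1 hff1 with ⟨_, h⟩ | ⟨h, h'⟩
            · exact h
            · rw [h', ← h] ; 
          exact hfq y' hy' (by rw [hxy']; exact Sym2.mem_mk_right _ _)
            ⟨x1, e1, hC1, he1, by rw [hee1, h3]⟩
      · -- v = y
        have hvy' : v = y' := by
          rcases hvf with h | h
          · rw [hv] at h; rw [← h, hy] at hx'; exact absurd hx' (by decide)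
          · exact h
        exact hfq y' hy' (by rw [hxy']; exact Sym2.mem_mk_right _ _)
          ⟨x0, e, hx0C, heP, by rw [hxy, ← hvy', hv]⟩
    intro v e f he hf hve hvf
    rcases Finset.mem_union.1 he with he | he <;> rcases Finset.mem_union.1 hf with hf | hf
    · exact hP v e f (Finset.mem_of_mem_filter _ he) (Finset.mem_of_mem_filter _ hf) hve hvf
    · exact (key v e f he hf hve hvf).elim
    · exact (key v f e hf he hvf hve).elim
    · exact hQ v e f (Finset.mem_of_mem_filter _ he) (Finset.mem_of_mem_filter _ hf) hve hvf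
  · intro v hv hcov
    by_cases hC : CC M side P Q v
    · obtain ⟨e, he, hve⟩ := hcov
      exact ⟨e, Finset.mem_union_left _ (Finset.mem_filter.2 ⟨he, v, hve, hC⟩), hve⟩
    · by_cases hcQ : Cov M Q v
      · obtain ⟨f, hf, hvf⟩ := hcQ
        refine ⟨f, Finset.mem_union_right _ (Finset.mem_filter.2 ⟨hf, ?_⟩), hvf⟩
        intro y hy hyf ⟨x, p, hCx, hp, hpe⟩
        apply hC
        have hvy : v ≠ y := by rintro rfl; rw [hv] at hy; exact absurd hy (by decide)
        have hfe : M.ends f = s(v, y) := (Sym2.mem_and_mem_iff hvy).1 ⟨hvf, hyf⟩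
        exact CC.step x v y p f hCx hp hpe hf hfe hv hcov
      · exact absurd (CC.base v hv hcov hcQ) hC
  · intro y hy hcov
    obtain ⟨f, hf, hyf⟩ := hcov
    by_cases hex : ∃ x p, CC M side P Q x ∧ p ∈ P ∧ M.ends p = s(x, y)
    · obtain ⟨x, p, hCx, hp, hpe⟩ := hex
      refine ⟨p, Finset.mem_union_left _ (Finset.mem_filter.2 ⟨hp, x, ?_, hCx⟩), ?_⟩
      · rw [hpe]; exact Sym2.mem_mk_left _ _
      · rw [hpe]; exact Sym2.mem_mk_right _ _
    · refine ⟨f, Finset.mem_union_right _ (Finset.mem_filter.2 ⟨hf, ?_⟩), hyf⟩
      intro y' hy' hy'f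
      obtain ⟨x1, y1, h1, hx1, hy1⟩ := hends f (Finset.mem_union_right _ hf)
      have ha : y = y1 := by
        rw [h1, Sym2.mem_iff] at hyf
        rcases hyf with h | h
        · rw [h, hx1] at hy; exact absurd hy (by decide)
        · exact h
      have hb : y' = y1 := by
        rw [h1, Sym2.mem_iff] at hy'f
        rcases hy'f with h | h
        · rw [h, hx1] at hy'; exact absurd hy' (by decide)
        · exact h
      rw [hb, ← ha]; exact hex

end Pool.Agent.Helper6.AVD
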