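import Pool.Agent.Helper6.AVD.Base

/-! Project AVD, piece H2: Hall with capacity 2. -/

set_option autoImplicit false
set_option linter.unusedSectionVars false

namespace Pool.Agent.Helper6.AVD

open Finset

variable {V E : Type*} [Fintype V] [DecidableEq V] [Fintype E] [DecidableEq E]

/-- an edge containing two different vertices is the edge joining them -/
private theorem H2.ends_eq (M : MG V E) {e : E} {x y : V} (hxy : x ≠ y) (hx : x ∈ M.ends e)
    (hy : y ∈ M.ends e) : M.ends e = s(x, y) :=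
  (Sym2.mem_and_mem_iff hxy).1 ⟨hx, hy⟩

/-- the Hall condition -/
private theorem H2.hall (M : MG V E) (side : V → Bool) (b : Bool) (G : Finset E)
    (hcross : ∀ e ∈ G, ∀ u v, M.ends e = s(u, v) → side u ≠ side v) (s : Finset (Finset V))
    (hside : ∀ S ∈ s, ∀ x ∈ S, side x = b) (hdisj : ∀ S ∈ s, ∀ S' ∈ s, S ≠ S' → Disjoint S S')
    (D₁ : ℝ) (hD₁ : 0 < D₁) (hup : ∀ v, ((G.filter fun e => v ∈ M.ends e).card : ℝ) ≤ 2 * D₁)
    (hlow : ∀ S ∈ s, D₁ ≤ ∑ x ∈ S, ((G.filter fun e => x ∈ M.ends e).card : ℝ))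
    (N : Finset V)
    (hN : ∀ y, side y ≠ b → ∀ e ∈ G, y ∈ M.ends e → (∃ S ∈ s, ∃ x ∈ S, x ∈ M.ends e) → y ∈ N) :
    s.card ≤ N.card * 2 := by
  classical
  set G' : Finset E := s.biUnion fun S => S.biUnion fun x => G.filter fun e => x ∈ M.ends e
    with hG'
  have hmemG' : ∀ e, e ∈ G' ↔ ∃ S ∈ s, ∃ x ∈ S, e ∈ G ∧ x ∈ M.ends e := by
    intro e
    simp [hG', mem_biUnion]
  -- two different vertices on side `b` have no common edge
  have hne : ∀ x x' : V, side x = b → side x' = b → x ≠ x' →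
      Disjoint (G.filter fun e => x ∈ M.ends e) (G.filter fun e => x' ∈ M.ends e) := by
    intro x x' hx hx' hxx
    rw [Finset.disjoint_left]
    intro e he he'
    rw [mem_filter] at he he'
    exact hcross e he.1 x x' (H2.ends_eq M hxx he.2 he'.2) (hx.trans hx'.symm)
  have h1 : G'.card = ∑ S ∈ s, ∑ x ∈ S, (G.filter fun e => x ∈ M.ends e).card := by
    rw [hG', card_biUnion]
    · refine sum_congr rfl fun S hS => ?_
      rw [card_biUnion]
      intro x hx x' hx' hxx
      exact hne x x' (hside S hS x hx) (hside S hS x' hx') hxx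
    · intro S hS S' hS' hSS
      show Disjoint _ _
      rw [disjoint_biUnion_left]
      intro x hx
      rw [disjoint_biUnion_right]
      intro x' hx'
      refine hne x x' (hside S hS x hx) (hside S' hS' x' hx') ?_
      rintro rfl
      exact (Finset.disjoint_left.1 (hdisj S hS S' hS' hSS) hx) hx'
  have h2 : G'.card ≤ ∑ y ∈ N, (G.filter fun e => y ∈ M.ends e).card := by
    refine le_trans (card_le_card ?_) card_biUnion_le
    intro e he
    obtain ⟨S, hS, x, hx, heG, hxe⟩ := (hmemG' e).1 he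
    obtain ⟨y, hy⟩ := Sym2.mem_iff_exists.1 hxe
    have hys : side y ≠ b := by
      intro h
      exact hcross e heG x y hy ((hside S hS x hx).trans h.symm)
    have hye : y ∈ M.ends e := by rw [hy]; exact Sym2.mem_mk_right x y
    rw [mem_biUnion]
    exact ⟨y, hN y hys e heG hye ⟨S, hS, x, hx, hxe⟩, mem_filter.2 ⟨heG, hye⟩⟩
  have h3 : D₁ * (s.card : ℝ) ≤ (G'.card : ℝ) := by
    rw [h1]
    push_cast
    calc D₁ * (s.card : ℝ) = ∑ _S ∈ s, D₁ := by rw [sum_const, nsmul_eq_mul, mul_comm]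
      _ ≤ _ := sum_le_sum fun S hS => hlow S hS
  have h4 : (G'.card : ℝ) ≤ (N.card : ℝ) * (2 * D₁) := by
    calc (G'.card : ℝ) ≤ ((∑ y ∈ N, (G.filter fun e => y ∈ M.ends e).card : ℕ) : ℝ) := by
          exact_mod_cast h2
      _ = ∑ y ∈ N, ((G.filter fun e => y ∈ M.ends e).card : ℝ) := by push_cast; rfl
      _ ≤ ∑ _y ∈ N, (2 * D₁) := sum_le_sum fun y _ => hup y
      _ = _ := by rw [sum_const, nsmul_eq_mul]
  have h5 : D₁ * (s.card : ℝ) ≤ D₁ * ((N.card : ℝ) * 2) := by
    calc _ ≤ _ := h3.trans h4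
      _ = _ := by ring
  have h6 := le_of_mul_le_mul_left h5 hD₁
  exact_mod_cast h6

/-- `U` = disjoint units on side `b`; all degrees in `G` are `≤ 2 D₁`, every unit has total degree `≥ D₁`. Then two
matchings in `G` touch all the units.
PROOF. Hall (`Finset.all_card_le_biUnion_card_iff_exists_injective`) for `ι = U` (subtype) and
`t S = {(y, i) : V × Bool | side y ≠ b ∧ ∃ e ∈ G, y ∈ ends e ∧ ∃ x ∈ S, x ∈ ends e}`. Condition: for a set `𝒮` of
units let `G'` = the edges of `G` with an end in `⋃𝒮`: `|G'| = ∑ S ∈ 𝒮, ∑ x ∈ S, deg_G x ≥ D₁ |𝒮|` (an edge of `G` has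
exactly one end on side `b`, the units are disjoint) and `|G'| ≤ 2 D₁ |N|`, `N` = the ends of these edges on the other side;
`|⋃ t S| = 2|N| ≥ |𝒮|`. The injection gives for each unit `S` a pair `(y, i)` and an edge `e_S ∈ G` from some `x ∈ S` to `y`;
`P i` = the edges `e_S` with label `i`: a matching since the `y` are different and the units disjoint (edges cross). -/
theorem hall_units (M : MG V E) (side : V → Bool) (b : Bool) (G : Finset E)
    (hcross : ∀ e ∈ G, ∀ u v, M.ends e = s(u, v) → side u ≠ side v) (U : Finset (Finset V))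
    (hside : ∀ S ∈ U, ∀ x ∈ S, side x = b) (hdisj : ∀ S ∈ U, ∀ S' ∈ U, S ≠ S' → Disjoint S S')
    (D₁ : ℝ) (hD₁ : 0 < D₁) (hup : ∀ v, ((G.filter fun e => v ∈ M.ends e).card : ℝ) ≤ 2 * D₁)
    (hlow : ∀ S ∈ U, D₁ ≤ ∑ x ∈ S, ((G.filter fun e => x ∈ M.ends e).card : ℝ)) :
    ∃ P Q : Finset E, P ⊆ G ∧ Q ⊆ G ∧ Mtch M P ∧ Mtch M Q ∧
      ∀ S ∈ U, ∃ x ∈ S, Cov M P x ∨ Cov M Q x := by
  classical
  let nbr : {S // S ∈ U} → Finset V := fun S =>
    univ.filter fun y => side y ≠ b ∧ ∃ e ∈ G, y ∈ M.ends e ∧ ∃ x ∈ S.1, x ∈ M.ends e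
  let t : {S // S ∈ U} → Finset (V × Bool) := fun S => nbr S ×ˢ (univ : Finset Bool)
  have hmemt : ∀ (S : {S // S ∈ U}) (p : V × Bool), p ∈ t S ↔
      side p.1 ≠ b ∧ ∃ e ∈ G, p.1 ∈ M.ends e ∧ ∃ x ∈ S.1, x ∈ M.ends e := by
    intro S p
    simp [t, nbr, mem_product]
  have hall : ∀ s : Finset {S // S ∈ U}, s.card ≤ (s.biUnion t).card := by
    intro s
    have hb : s.biUnion t = (s.biUnion nbr) ×ˢ (univ : Finset Bool) := by
      ext p
      simp only [mem_biUnion, t, mem_product, mem_univ, and_true]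
    rw [hb, card_product, card_univ, Fintype.card_bool]
    have key := H2.hall M side b G hcross (s.map (Function.Embedding.subtype _))
      (fun S hS => hside S (by
        obtain ⟨T, _, rfl⟩ := mem_map.1 hS
        exact T.2))
      (fun S hS S' hS' => hdisj S (by
        obtain ⟨T, _, rfl⟩ := mem_map.1 hS
        exact T.2) S' (by
        obtain ⟨T, _, rfl⟩ := mem_map.1 hS'
        exact T.2)) D₁ hD₁ hup
      (fun S hS => hlow S (by
        obtain ⟨T, _, rfl⟩ := mem_map.1 hS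
        exact T.2)) (s.biUnion nbr) (by
        rintro y hy e he hye ⟨S, hS, x, hx, hxe⟩
        obtain ⟨T, hT, rfl⟩ := mem_map.1 hS
        rw [mem_biUnion]
        refine ⟨T, hT, ?_⟩
        rw [mem_filter]
        exact ⟨mem_univ _, hy, e, he, hye, x, hx, hxe⟩)
    rw [card_map] at key
    exact key
  obtain ⟨f, hfinj, hf⟩ := (Finset.all_card_le_biUnion_card_iff_exists_injective t).1 hall
  have hf' : ∀ S : {S // S ∈ U}, side (f S).1 ≠ b ∧ ∃ e ∈ G, (f S).1 ∈ M.ends e ∧
      ∃ x ∈ S.1, x ∈ M.ends e := fun S => (hmemt S (f S)).1 (hf S)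
  choose hfs e heG hye x hxS hxe using hf'
  have hxs : ∀ S : {S // S ∈ U}, side (x S) = b := fun S => hside S.1 S.2 _ (hxS S)
  have hends : ∀ S : {S // S ∈ U}, M.ends (e S) = s(x S, (f S).1) := by
    intro S
    refine H2.ends_eq M ?_ (hxe S) (hye S)
    intro h
    exact hfs S (by rw [← h]; exact hxs S)
  let P : Bool → Finset E := fun i => (univ.filter fun S : {S // S ∈ U} => (f S).2 = i).image e
  have hPG : ∀ i, P i ⊆ G := by
    intro i g hg
    obtain ⟨S, _, rfl⟩ := mem_image.1 hg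
    exact heG S
  have hPM : ∀ i, Mtch M (P i) := by
    intro i v g g' hg hg' hv hv'
    obtain ⟨S, hS, rfl⟩ := mem_image.1 hg
    obtain ⟨S', hS', rfl⟩ := mem_image.1 hg'
    rw [mem_filter] at hS hS'
    have hSS : S = S' := by
      rw [hends S, Sym2.mem_iff] at hv
      rw [hends S', Sym2.mem_iff] at hv'
      rcases hv with hv | hv
      · rcases hv' with hv' | hv'
        · by_contra hne
          have hne' : S.1 ≠ S'.1 := fun h => hne (Subtype.ext h)
          have hd := hdisj S.1 S.2 S'.1 S'.2 hne'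
          rw [Finset.disjoint_left] at hd
          refine hd (hxS S) ?_
          rw [← hv, hv']
          exact hxS S'
        · exact absurd (by rw [← hv', hv]; exact hxs S) (hfs S')
      · rcases hv' with hv' | hv'
        · exact absurd (by rw [← hv, hv']; exact hxs S') (hfs S)
        · apply hfinj
          exact Prod.ext (hv.symm.trans hv') (hS.2.trans hS'.2.symm)
    rw [hSS]
  refine ⟨P true, P false, hPG _, hPG _, hPM _, hPM _, ?_⟩
  intro S hS
  refine ⟨x ⟨S, hS⟩, hxS ⟨S, hS⟩, ?_⟩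
  rcases hb : (f ⟨S, hS⟩).2 with _ | _
  · right
    exact ⟨e ⟨S, hS⟩, mem_image.2 ⟨⟨S, hS⟩, mem_filter.2 ⟨mem_univ _, hb⟩, rfl⟩, hxe _⟩
  · left
    exact ⟨e ⟨S, hS⟩, mem_image.2 ⟨⟨S, hS⟩, mem_filter.2 ⟨mem_univ _, hb⟩, rfl⟩, hxe _⟩

end Pool.Agent.Helper6.AVD
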