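import Pool.Agent.Helper6.AVD.Base
import Pool.Agent.Helper6.AVD.St.H1
import Pool.Agent.Helper6.AVD.St.H2

/-! Project AVD, piece H3: two disjoint matchings touching all the units of both sides. -/

set_option autoImplicit false
set_option linter.unusedSectionVars false

namespace Pool.Agent.Helper6.AVD

open Finset

variable {V E : Type*} [Fintype V] [DecidableEq V] [Fintype E] [DecidableEq E]

/-- PROOF. `hall_units` for the units on side `true` gives `P₁, P₂`, for those on side `false` gives `Q₁, Q₂`.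
`mendelsohn_dulmage` for `(P₁, Q₁)` gives `A`, for `(P₂, Q₂)` gives `B₀`; `B = B₀ \ A`. -/
theorem two_matchings (M : MG V E) (side : V → Bool) (G : Finset E)
    (hcross : ∀ e ∈ G, ∀ u v, M.ends e = s(u, v) → side u ≠ side v) (U : Finset (Finset V))
    (hside : ∀ S ∈ U, ∀ x ∈ S, ∀ y ∈ S, side x = side y)
    (hne : ∀ S ∈ U, S.Nonempty)
    (hdisj : ∀ S ∈ U, ∀ S' ∈ U, S ≠ S' → Disjoint S S')
    (D₁ : ℝ) (hD₁ : 0 < D₁) (hup : ∀ v, ((G.filter fun e => v ∈ M.ends e).card : ℝ) ≤ 2 * D₁)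
    (hlow : ∀ S ∈ U, D₁ ≤ ∑ x ∈ S, ((G.filter fun e => x ∈ M.ends e).card : ℝ)) :
    ∃ A B : Finset E, A ⊆ G ∧ B ⊆ G ∧ Disjoint A B ∧ Mtch M A ∧ Mtch M B ∧
      ∀ S ∈ U, ∃ x ∈ S, Cov M (A ∪ B) x := by
  classical
  have key : ∀ b : Bool, ∃ P Q : Finset E, P ⊆ G ∧ Q ⊆ G ∧ Mtch M P ∧ Mtch M Q ∧
      ∀ S ∈ U.filter (fun S => ∀ x ∈ S, side x = b), ∃ x ∈ S, Cov M P x ∨ Cov M Q x := by
    intro b
    refine hall_units M side b G hcross (U.filter fun S => ∀ x ∈ S, side x = b) ?_ ?_ D₁ hD₁ hup ?_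
    · intro S hS
      exact (mem_filter.mp hS).2
    · intro S hS S' hS' hne'
      exact hdisj S (mem_filter.mp hS).1 S' (mem_filter.mp hS').1 hne'
    · intro S hS
      exact hlow S (mem_filter.mp hS).1
  obtain ⟨P₁, P₂, hP₁, hP₂, mP₁, mP₂, hP⟩ := key true
  obtain ⟨Q₁, Q₂, hQ₁, hQ₂, mQ₁, mQ₂, hQ⟩ := key false
  obtain ⟨A, hA, mA, hAt, hAf⟩ := mendelsohn_dulmage M side P₁ Q₁
    (fun e he u v h => hcross e ((union_subset hP₁ hQ₁) he) u v h) mP₁ mQ₁
  obtain ⟨B, hB, mB, hBt, hBf⟩ := mendelsohn_dulmage M side P₂ Q₂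
    (fun e he u v h => hcross e ((union_subset hP₂ hQ₂) he) u v h) mP₂ mQ₂
  have hcovA : ∀ x, Cov M A x → Cov M (A ∪ B \ A) x := by
    rintro x ⟨e, he, hx⟩
    exact ⟨e, mem_union_left _ he, hx⟩
  have hcovB : ∀ x, Cov M B x → Cov M (A ∪ B \ A) x := by
    rintro x ⟨e, he, hx⟩
    refine ⟨e, ?_, hx⟩
    rw [union_sdiff_self_eq_union]
    exact mem_union_right _ he
  refine ⟨A, B \ A, hA.trans (union_subset hP₁ hQ₁),
    sdiff_subset.trans (hB.trans (union_subset hP₂ hQ₂)), disjoint_sdiff, mA, ?_, ?_⟩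
  · intro v e f he hf hve hvf
    exact mB v e f (mem_sdiff.mp he).1 (mem_sdiff.mp hf).1 hve hvf
  · intro S hS
    obtain ⟨y, hy⟩ := hne S hS
    rcases hsy : side y with _ | _
    · obtain ⟨x, hx, h⟩ := hQ S (mem_filter.mpr ⟨hS, fun x hx => (hside S hS x hx y hy).trans hsy⟩)
      have hsx : side x = false := (hside S hS x hx y hy).trans hsy
      rcases h with h | h
      · exact ⟨x, hx, hcovA x (hAf x hsx h)⟩
      · exact ⟨x, hx, hcovB x (hBf x hsx h)⟩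
    · obtain ⟨x, hx, h⟩ := hP S (mem_filter.mpr ⟨hS, fun x hx => (hside S hS x hx y hy).trans hsy⟩)
      have hsx : side x = true := (hside S hS x hx y hy).trans hsy
      rcases h with h | h
      · exact ⟨x, hx, hcovA x (hAt x hsx h)⟩
      · exact ⟨x, hx, hcovB x (hBt x hsx h)⟩

end Pool.Agent.Helper6.AVD
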