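import Pool.Agent.Helper6.AVD.Base
import Pool.Agent.Helper6.AVD.St.R2
import Pool.Agent.Helper6.AVD.St.R4

/-! Project AVD, piece S1: a balanced bipartition respecting classes of size at most 2. -/

set_option autoImplicit false
set_option linter.unusedSectionVars false

namespace Pool.Agent.Helper6.AVD

open Finset

open Pool.Agent.Helper61.LE

variable {V E C : Type*} [Fintype V] [DecidableEq V] [Fintype E] [DecidableEq E]
  [Fintype C] [DecidableEq C]

/-- the edges at `v`, not in `F`, whose ends are on different sides -/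
def crossing (M : MG V E) (F : Finset E) (side : V → Bool) (v : V) : Finset E :=
  (M.inc v).filter fun e => e ∉ F ∧ ∃ u ∈ M.ends e, ∃ w ∈ M.ends e, side u ≠ side w

/-- the edges at `v` not in `F` -/
def nonF (M : MG V E) (F : Finset E) (v : V) : Finset E := (M.inc v).filter fun e => e ∉ F

/-- the other end -/
private noncomputable def oth (M : MG V E) (e : E) (v : V) : V :=
  if h : v ∈ M.ends e then Sym2.Mem.other' h else v

private theorem oth_spec (M : MG V E) {e : E} {v : V} (h : v ∈ M.ends e) :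
    M.ends e = s(v, oth M e v) := by
  unfold oth
  rw [dif_pos h]
  exact (Sym2.other_spec' h).symm

private theorem oth_mem (M : MG V E) {e : E} {v : V} (h : v ∈ M.ends e) :
    oth M e v ∈ M.ends e := by
  rw [oth_spec M h]
  exact Sym2.mem_mk_right _ _

private theorem oth_oth (M : MG V E) {e : E} {v : V} (h : v ∈ M.ends e) :
    oth M e (oth M e v) = v := by
  have h1 := oth_spec M h
  have h2 := oth_spec M (oth_mem M h)
  rw [h1] at h2
  rcases Sym2.eq_iff.1 h2 with ⟨h3, h4⟩ | ⟨h3, h4⟩
  · exfalso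
    apply M.nd e
    rw [h1, ← h3]
    exact Sym2.mk_isDiag_iff.2 rfl
  · exact h3.symm

private theorem oth_of_eq (M : MG V E) {e : E} {v w : V} (h : M.ends e = s(v, w)) :
    oth M e v = w := by
  have hv : v ∈ M.ends e := by rw [h]; simp
  have h1 := oth_spec M hv
  rw [h] at h1
  rcases Sym2.eq_iff.1 h1 with ⟨_, h4⟩ | ⟨h3, h4⟩
  · exact h4.symm
  · rw [← h3, h4]

private theorem mem_nonF {M : MG V E} {F : Finset E} {v : V} {e : E} :
    e ∈ nonF M F v ↔ v ∈ M.ends e ∧ e ∉ F := by
  simp [nonF, MG.inc]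

private theorem crossing_eq (M : MG V E) (F : Finset E) (cl : V → C) (ω : C → Bool) (v : V) :
    crossing M F (fun u => ω (cl u)) v =
      (nonF M F v).filter fun e => ω (cl (oth M e v)) ≠ ω (cl v) := by
  ext e
  simp only [crossing, mem_filter, MG.inc, mem_univ, true_and, mem_nonF]
  constructor
  · rintro ⟨hv, hF, u, hu, w, hw, huw⟩
    refine ⟨⟨hv, hF⟩, ?_⟩
    rw [oth_spec M hv, Sym2.mem_iff] at hu hw
    intro hcon
    apply huw
    rcases hu with rfl | hu <;> rcases hw with hw | hw
    · rw [hw]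
    · rw [hw, hcon]
    · rw [hu, hw, hcon]
    · rw [hu, hw]
  · rintro ⟨⟨hv, hF⟩, hne⟩
    exact ⟨hv, hF, _, oth_mem M hv, v, hv, hne⟩

/-- number of edges at `v` whose other end does not show `b` -/
private noncomputable def XX (M : MG V E) (F : Finset E) (cl : V → C) (v : V) (b : Bool)
    (ω : C → Bool) : ℝ := (((nonF M F v).filter fun e => ω (cl (oth M e v)) ≠ b).card : ℝ)

private theorem XX_eq (M : MG V E) (F : Finset E) (cl : V → C) (v : V) (b : Bool)
    (ω : C → Bool) : XX M F cl v b ω =
      ∑ e ∈ nonF M F v, (if ω (cl (oth M e v)) ≠ b then (1 : ℝ) else 0) := by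
  unfold XX
  rw [Finset.card_filter]
  push_cast
  rfl

private theorem EE_bit (i : C) (b : Bool) :
    EE (fair (ι := C)) (fun ω => if ω i ≠ b then (1 : ℝ) else 0) = 1 / 2 := by
  rw [← EE_resample fair_prob i]
  have : (fun ω : C → Bool => ∑ a, fair (ι := C) i a *
      (if (Function.update ω i a) i ≠ b then (1 : ℝ) else 0)) = fun _ => 1 / 2 := by
    funext ω
    simp only [Function.update_self, fair]
    rw [Fintype.sum_bool]
    cases b <;> simp
  rw [this, EE_const fair_prob]

private theorem EE_XX (M : MG V E) (F : Finset E) (cl : V → C) (v : V) (b : Bool) :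
    EE (fair (ι := C)) (XX M F cl v b) = ((nonF M F v).card : ℝ) / 2 := by
  have : XX M F cl v b = fun ω =>
      ∑ e ∈ nonF M F v, (if ω (cl (oth M e v)) ≠ b then (1 : ℝ) else 0) := by
    funext ω
    exact XX_eq M F cl v b ω
  rw [this, EE_sum, Finset.sum_congr rfl (fun e _ => EE_bit (cl (oth M e v)) b),
    Finset.sum_const, nsmul_eq_mul]
  ring

/-- coins used by `v` -/
private noncomputable def SS (M : MG V E) (F : Finset E) (cl : V → C) (v : V) : Finset C :=
  (nonF M F v).image fun e => cl (oth M e v)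

/-- number of edges at `v` using the coin `i` -/
private noncomputable def NN (M : MG V E) (F : Finset E) (cl : V → C) (v : V) (i : C) : ℕ :=
  ((nonF M F v).filter fun e => cl (oth M e v) = i).card

private theorem dep_XX (M : MG V E) (F : Finset E) (cl : V → C) (v : V) (b : Bool) :
    Dep (XX M F cl v b) (SS M F cl v) := by
  intro ω ω' hω
  rw [XX_eq, XX_eq]
  refine Finset.sum_congr rfl fun e he => ?_
  rw [hω (cl (oth M e v)) (Finset.mem_image.2 ⟨e, he, rfl⟩)]

private theorem diff_XX (M : MG V E) (F : Finset E) (cl : V → C) (v : V) (b : Bool) (i : C)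
    (ω : C → Bool) (a a' : Bool) :
    |XX M F cl v b (Function.update ω i a) - XX M F cl v b (Function.update ω i a')| ≤
      (NN M F cl v i : ℝ) := by
  rw [XX_eq, XX_eq, ← Finset.sum_sub_distrib]
  have hNN : (NN M F cl v i : ℝ) =
      ∑ e ∈ nonF M F v, (if cl (oth M e v) = i then (1 : ℝ) else 0) := by
    unfold NN
    rw [Finset.card_filter]
    push_cast
    rfl
  rw [hNN]
  refine (Finset.abs_sum_le_sum_abs _ _).trans (Finset.sum_le_sum fun e _ => ?_)
  by_cases h : cl (oth M e v) = i
  · rw [if_pos h]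
    split_ifs <;> norm_num
  · rw [if_neg h, Function.update_of_ne h, Function.update_of_ne h, sub_self, abs_zero]

private theorem NN_le (M : MG V E) (hmult : ∀ x y, M.mult x y ≤ 2)
    (cl : V → C) (hcl : ∀ a, (univ.filter fun v => cl v = a).card ≤ 2) (F : Finset E) (v : V)
    (i : C) : NN M F cl v i ≤ 4 := by
  unfold NN
  have hsub : ((nonF M F v).filter fun e => cl (oth M e v) = i) ⊆
      (univ.filter fun w => cl w = i).biUnion fun w => univ.filter fun e => M.ends e = s(v, w) := by
    intro e he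
    rw [mem_filter, mem_nonF] at he
    rw [mem_biUnion]
    exact ⟨oth M e v, mem_filter.2 ⟨mem_univ _, he.2⟩,
      mem_filter.2 ⟨mem_univ _, oth_spec M he.1.1⟩⟩
  refine (card_le_card hsub).trans ?_
  refine (card_biUnion_le_card_mul _ _ 2 (fun w _ => hmult v w)).trans ?_
  have := hcl i
  omega

private theorem sum_NN (M : MG V E) (F : Finset E) (cl : V → C) (v : V) :
    ∑ i ∈ SS M F cl v, NN M F cl v i = (nonF M F v).card := by
  unfold NN SS
  exact (Finset.card_eq_sum_card_image _ _).symm

private theorem nonF_le (M : MG V E) (D : ℕ) (hdeg : ∀ v, M.deg v ≤ D) (F : Finset E) (v : V) :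
    (nonF M F v).card ≤ D :=
  (card_le_card (filter_subset _ _)).trans (hdeg v)

private theorem tail (M : MG V E) (D : ℕ) (hdeg : ∀ v, M.deg v ≤ D)
    (hmult : ∀ x y, M.mult x y ≤ 2)
    (cl : V → C) (hcl : ∀ a, (univ.filter fun v => cl v = a).card ≤ 2) (F : Finset E) (v : V)
    (f : (C → Bool) → ℝ) (m : ℝ) (hf : Dep f (SS M F cl v)) (hm : EE (fair (ι := C)) f = m)
    (hdiff : ∀ i ω a a', |f (Function.update ω i a) - f (Function.update ω i a')| ≤
      (NN M F cl v i : ℝ)) :
    PP (fair (ι := C)) (fun ω => m + (D : ℝ) / 200 ≤ f ω) ≤ Real.exp (-((D : ℝ) / 640000)) := by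
  classical
  have h1 := PP_ge_le_exp (fair_prob (ι := C)) f (m + (D : ℝ) / 200) (1 / 1600) (by norm_num)
  have h2 := mgf (fair_prob (ι := C)) (fun i => (NN M F cl v i : ℝ)) (fun _ => 1)
    (l := 1 / 1600) (by norm_num) (fun _ _ => False) (SS M F cl v) f hf
    (fun i _ => by
      have : (NN M F cl v i : ℝ) ≤ 4 := by exact_mod_cast NN_le M hmult cl hcl F v i
      linarith)
    (fun i _ ω a b => hdiff i ω a b) (fun i _ ω a b ha _ => ha.elim)
    (fun i _ => by
      simp only [if_false]
      exact (fair_prob (ι := C)).sum_one i |>.le)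
  refine h1.trans ((mul_le_mul_of_nonneg_left h2 (Real.exp_pos _).le).trans ?_)
  rw [← Real.exp_add, hm]
  apply Real.exp_le_exp.2
  have h3 : ∑ i ∈ SS M F cl v, 1 * ((NN M F cl v i : ℝ)) ^ 2 ≤ 4 * (D : ℝ) := by
    calc ∑ i ∈ SS M F cl v, 1 * ((NN M F cl v i : ℝ)) ^ 2
        ≤ ∑ i ∈ SS M F cl v, 4 * ((NN M F cl v i : ℝ)) := by
          refine Finset.sum_le_sum fun i _ => ?_
          have h4 : (NN M F cl v i : ℝ) ≤ 4 := by exact_mod_cast NN_le M hmult cl hcl F v i
          have h5 : (0 : ℝ) ≤ (NN M F cl v i : ℝ) := Nat.cast_nonneg _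
          nlinarith
      _ = 4 * ((nonF M F v).card : ℝ) := by
          rw [← Finset.mul_sum]
          congr 1
          exact_mod_cast sum_NN M F cl v
      _ ≤ 4 * (D : ℝ) := by
          have : ((nonF M F v).card : ℝ) ≤ D := by exact_mod_cast nonF_le M D hdeg F v
          linarith
  have h6 : (0 : ℝ) ≤ (D : ℝ) := Nat.cast_nonneg _
  nlinarith

private noncomputable def nb (M : MG V E) (u : V) : Finset V := (M.inc u).image fun e => oth M e u

/-- PROOF. Coins `ω : C → Bool`, `side v = ω (cl v)`. For `b : Bool` let `X_b v ω` = the number of edges `e ∈ nonF v` whose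
other end `w` has `ω (cl w) ≠ b` (`cl w ≠ cl v` by `hF`; so `X_b` does not depend on the coin `cl v`, and
`|crossing v| = X_b v ω` for `b = ω (cl v)`). `EE X_b = |nonF v| / 2`. Changing the coin `i` changes `X_b` by at most
`n_i` = the number of edges of `nonF v` with the other end in class `i`, `n_i ≤ 4` (2 vertices, multiplicity `≤ 2`),
`∑ n_i ≤ D`, so `∑ n_i² ≤ 4 D`. `mgf` (with `p i = 1`, `N i = fun _ => False`, `c i = n_i`) and `PP_ge_le_exp` for `X_b` and `-X_b`,
`l = 1/1600`: `PP(|X_b - |nonF v|/2| ≥ D/200) ≤ 2 exp(-l D/200 + 4 l² D) = 2 exp(-D/640000)`. (`-D/320000 + D/640000`.)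
`Bad v` = `∃ b, |X_b - |nonF v|/2| ≥ D/200` (or `>`), `PP ≤ 4 exp(-D/640000)`, depends on the coins of the
neighbours' classes (`≤ D`), every coin matters for at most `2 D` vertices: `lll_vertex` with `d = 2 (D+1)^2`. -/
theorem sides (M : MG V E) (D : ℕ) (hdeg : ∀ v, M.deg v ≤ D) (hmult : ∀ x y, M.mult x y ≤ 2)
    (cl : V → C) (hcl : ∀ a, (univ.filter fun v => cl v = a).card ≤ 2) (F : Finset E)
    (hF : ∀ e, e ∉ F → ∀ u w, M.ends e = s(u, w) → cl u ≠ cl w)
    (hsmall : 4 * (2 * ((D : ℝ) + 1) ^ 2) * (4 * Real.exp (-((D : ℝ) / 640000))) ≤ 1) :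
    ∃ side : V → Bool, (∀ u v, cl u = cl v → side u = side v) ∧
      ∀ v, |2 * ((crossing M F side v).card : ℝ) - (nonF M F v).card| ≤ (D : ℝ) / 100 := by
  classical
  set δ : ℝ := 4 * Real.exp (-((D : ℝ) / 640000)) with hδdef
  have hδ0 : 0 ≤ δ := by positivity
  -- the four one-sided events
  let A : V → Bool × Bool → (C → Bool) → Prop := fun v k ω =>
    if k.2 then ((nonF M F v).card : ℝ) / 2 + (D : ℝ) / 200 ≤ XX M F cl v k.1 ω
    else -(((nonF M F v).card : ℝ) / 2) + (D : ℝ) / 200 ≤ - XX M F cl v k.1 ω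
  let Bad : V → (C → Bool) → Prop := fun v ω => ∃ k ∈ (univ : Finset (Bool × Bool)), A v k ω
  have hPA : ∀ v k, PP (fair (ι := C)) (A v k) ≤ Real.exp (-((D : ℝ) / 640000)) := by
    rintro v ⟨b, s⟩
    cases s
    · have h := tail M D hdeg hmult cl hcl F v (fun ω => - XX M F cl v b ω)
        (-(((nonF M F v).card : ℝ) / 2))
        (fun ω ω' hω => by
          show - XX M F cl v b ω = - XX M F cl v b ω'
          rw [dep_XX M F cl v b ω ω' hω])
        (by rw [EE_neg, EE_XX])
        (fun i ω a a' => by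
          have h0 := diff_XX M F cl v b i ω a' a
          have h00 : - XX M F cl v b (Function.update ω i a) -
              - XX M F cl v b (Function.update ω i a') =
              XX M F cl v b (Function.update ω i a') - XX M F cl v b (Function.update ω i a) := by
            ring
          rw [h00]
          exact h0)
      refine le_trans (le_of_eq (PP_congr fun ω => ?_)) h
      simp [A]
    · have h := tail M D hdeg hmult cl hcl F v (XX M F cl v b) (((nonF M F v).card : ℝ) / 2)
        (dep_XX M F cl v b) (EE_XX M F cl v b) (diff_XX M F cl v b)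
      refine le_trans (le_of_eq (PP_congr fun ω => ?_)) h
      simp [A]
  have hPB : ∀ v, PP (fair (ι := C)) (Bad v) ≤ δ := by
    intro v
    refine (PP_exists_le (fair_prob (ι := C)) univ (A v)).trans ?_
    refine (Finset.sum_le_sum fun k _ => hPA v k).trans ?_
    rw [Finset.sum_const, nsmul_eq_mul]
    simp [hδdef]
  have hdep : ∀ v, Dep (Bad v) (SS M F cl v) := by
    intro v ω ω' hω
    apply propext
    have : ∀ k, A v k ω ↔ A v k ω' := by
      intro k
      simp only [A]
      rw [dep_XX M F cl v k.1 ω ω' hω]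
    simp only [Bad, this]
  have hδ1 : δ ≤ 1 / 4 := by
    have h1 : (1 : ℝ) ≤ ((D : ℝ) + 1) ^ 2 := by
      have : (0 : ℝ) ≤ (D : ℝ) := Nat.cast_nonneg _
      nlinarith
    have h2 : 8 * δ ≤ 4 * (2 * ((D : ℝ) + 1) ^ 2) * δ := by nlinarith
    linarith
  have hnb : ∀ u, (nb M u).card ≤ D := fun u => (card_image_le).trans (hdeg u)
  have hd : ∀ v, (univ.filter fun w => ¬ Disjoint (SS M F cl v) (SS M F cl w)).card ≤
      2 * (D + 1) ^ 2 := by
    intro v
    have hsub : (univ.filter fun w => ¬ Disjoint (SS M F cl v) (SS M F cl w)) ⊆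
        (SS M F cl v).biUnion fun i => (univ.filter fun u => cl u = i).biUnion fun u => nb M u := by
      intro w hw
      rw [mem_filter, Finset.not_disjoint_iff] at hw
      obtain ⟨-, i, hi, hi'⟩ := hw
      rw [mem_biUnion]
      refine ⟨i, hi, ?_⟩
      unfold SS at hi'
      rw [mem_image] at hi'
      obtain ⟨e, he, hei⟩ := hi'
      rw [mem_nonF] at he
      rw [mem_biUnion]
      refine ⟨oth M e w, mem_filter.2 ⟨mem_univ _, hei⟩, ?_⟩
      unfold nb
      rw [mem_image]
      refine ⟨e, ?_, oth_oth M he.1⟩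
      unfold MG.inc
      exact mem_filter.2 ⟨mem_univ _, oth_mem M he.1⟩
    refine (card_le_card hsub).trans ?_
    have h1 : ((SS M F cl v).biUnion fun i =>
        (univ.filter fun u => cl u = i).biUnion fun u => nb M u).card ≤
        (SS M F cl v).card * (2 * D) := by
      refine card_biUnion_le_card_mul _ _ _ (fun i _ => ?_)
      refine (card_biUnion_le_card_mul _ _ D (fun u _ => hnb u)).trans ?_
      exact Nat.mul_le_mul_right _ (hcl i)
    have h2 : (SS M F cl v).card ≤ D := (card_image_le).trans (nonF_le M D hdeg F v)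
    refine h1.trans ((Nat.mul_le_mul_right _ h2).trans ?_)
    nlinarith
  obtain ⟨ω, hω⟩ := lll_vertex (fair_prob (ι := C)) Bad (SS M F cl) hdep δ hPB hδ1
    (2 * (D + 1) ^ 2) hd (by
      push_cast
      exact hsmall)
  refine ⟨fun v => ω (cl v), fun u v huv => by simp only [huv], fun v => ?_⟩
  rw [crossing_eq]
  have hX : (((nonF M F v).filter fun e => ω (cl (oth M e v)) ≠ ω (cl v)).card : ℝ) =
      XX M F cl v (ω (cl v)) ω := rfl
  rw [hX]
  have h1 : ¬ A v (ω (cl v), true) ω := fun hA => hω v ⟨_, mem_univ _, hA⟩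
  have h2 : ¬ A v (ω (cl v), false) ω := fun hA => hω v ⟨_, mem_univ _, hA⟩
  simp only [A, if_true, not_le] at h1
  simp only [A, Bool.false_eq_true, if_false, not_le] at h2
  rw [abs_le]
  constructor <;> linarith

end Pool.Agent.Helper6.AVD
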