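import Pool.Agent.Helper6.AVD.Base
import Pool.Agent.Helper61.LE.Prob

/-! Project AVD: Bernoulli selection (definitions). -/

set_option autoImplicit false
set_option linter.unusedSectionVars false

namespace Pool.Agent.Helper6.AVD

open Finset

open Pool.Agent.Helper61.LE

/-- weights of a Bernoulli(p) bit -/
noncomputable def bern {ι : Type*} (p : ℝ) : ι → Bool → ℝ := fun _ b => if b then p else 1 - p

theorem bern_prob {ι : Type*} [Fintype ι] [DecidableEq ι] {p : ℝ} (h0 : 0 ≤ p) (h1 : p ≤ 1) :
    IsProb (bern (ι := ι) p) := by
  constructor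
  · intro i a
    unfold bern
    cases a <;> simp <;> linarith
  · intro i
    simp [bern]

end Pool.Agent.Helper6.AVD
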