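import Pool.Agent.Helper6.AVD.Base
import Pool.Agent.Helper6.AVD.St.T0

/-! Project AVD, piece T1A: elementary probabilities for Bernoulli selection. -/

set_option autoImplicit false
set_option linter.unusedSectionVars false

namespace Pool.Agent.Helper6.AVD

open Finset

open Pool.Agent.Helper61.LE

variable {ι : Type*} [Fintype ι] [DecidableEq ι]

/-- PROOF. The indicator is `∏ i, if i ∈ Z then (if ω i then 1 else 0) else 1`; `EE_prod`. -/
theorem pp_all {p : ℝ} (h0 : 0 ≤ p) (h1 : p ≤ 1) (Z : Finset ι) :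
    PP (bern p) (fun ω : ι → Bool => ∀ i ∈ Z, ω i = true) = p ^ Z.card := by
  classical
  have hind : ∀ ω : ι → Bool, (if (∀ i ∈ Z, ω i = true) then (1 : ℝ) else 0) =
      ∏ i, (fun (i : ι) (b : Bool) => if i ∈ Z then (if b = true then (1 : ℝ) else 0) else 1)
        i (ω i) := by
    intro ω
    by_cases h : ∀ i ∈ Z, ω i = true
    · rw [if_pos h]
      symm
      refine Finset.prod_eq_one fun i _ => ?_
      by_cases hi : i ∈ Z
      · simp [hi, h i hi]
      · simp [hi]
    · rw [if_neg h]
      symm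
      push Not at h
      obtain ⟨i, hi, hne⟩ := h
      refine Finset.prod_eq_zero (Finset.mem_univ i) ?_
      simp [hi, hne]
  have hE : PP (bern p) (fun ω : ι → Bool => ∀ i ∈ Z, ω i = true) =
      EE (bern p) (fun ω : ι → Bool => ∏ i, (fun (i : ι) (b : Bool) =>
        if i ∈ Z then (if b = true then (1 : ℝ) else 0) else 1) i (ω i)) := by
    unfold PP
    refine EE_congr fun ω => ?_
    rw [← hind ω]
    congr
  rw [hE, EE_prod (fun (i : ι) (b : Bool) =>
        if i ∈ Z then (if b = true then (1 : ℝ) else 0) else 1)]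
  have hval : ∀ i : ι, (∑ a : Bool, bern p i a *
      (fun (i : ι) (b : Bool) => if i ∈ Z then (if b = true then (1 : ℝ) else 0) else 1) i a) =
      if i ∈ Z then p else 1 := by
    intro i
    by_cases hi : i ∈ Z
    · simp [hi, bern]
    · simp [hi, bern]
  rw [Finset.prod_congr rfl (fun i _ => hval i)]
  rw [Finset.prod_ite_mem, Finset.univ_inter, Finset.prod_const]

/-- PROOF. Union bound (`PP_exists_le`) over the `t`-subsets of `Z` (`Finset.powersetCard t Z`), `pp_all`,
`Nat.choose_le_pow`-type bound `(|Z|).choose t ≤ |Z|^t`. -/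
theorem pp_many {p : ℝ} (h0 : 0 ≤ p) (h1 : p ≤ 1) (Z : Finset ι) (t : ℕ) :
    PP (bern p) (fun ω : ι → Bool => t ≤ (Z.filter fun i => ω i = true).card) ≤
      ((Z.card : ℝ) * p) ^ t := by
  classical
  have hpr := bern_prob (ι := ι) h0 h1
  calc PP (bern p) (fun ω : ι → Bool => t ≤ (Z.filter fun i => ω i = true).card)
      ≤ PP (bern p) (fun ω : ι → Bool =>
          ∃ U ∈ Finset.powersetCard t Z, ∀ i ∈ U, ω i = true) := by
        refine PP_mono hpr fun ω hω => ?_
        obtain ⟨U, hU, hUc⟩ := Finset.exists_subset_card_eq hω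
        refine ⟨U, ?_, fun i hi => ?_⟩
        · rw [Finset.mem_powersetCard]
          exact ⟨hU.trans (Finset.filter_subset _ _), hUc⟩
        · exact (Finset.mem_filter.1 (hU hi)).2
    _ ≤ ∑ U ∈ Finset.powersetCard t Z, PP (bern p) (fun ω : ι → Bool => ∀ i ∈ U, ω i = true) :=
        PP_exists_le hpr _ _
    _ = ∑ U ∈ Finset.powersetCard t Z, p ^ t := by
        refine Finset.sum_congr rfl fun U hU => ?_
        rw [pp_all h0 h1, (Finset.mem_powersetCard.1 hU).2]
    _ = (Z.card.choose t : ℝ) * p ^ t := by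
        rw [Finset.sum_const, Finset.card_powersetCard, nsmul_eq_mul]
    _ ≤ ((Z.card : ℝ) ^ t) * p ^ t := by
        refine mul_le_mul_of_nonneg_right ?_ (pow_nonneg h0 t)
        exact_mod_cast Nat.choose_le_pow Z.card t
    _ = ((Z.card : ℝ) * p) ^ t := by rw [mul_pow]

end Pool.Agent.Helper6.AVD
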