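import Pool.Agent.Helper6.AVD.Base
import Pool.Agent.Helper6.AVD.St.T0
import Pool.Agent.Helper6.AVD.St.T1A

/-! Project AVD, piece T1B: elementary probabilities for Bernoulli selection. -/

set_option autoImplicit false
set_option linter.unusedSectionVars false

namespace Pool.Agent.Helper6.AVD

open Finset

open Pool.Agent.Helper61.LE

variable {ι : Type*} [Fintype ι] [DecidableEq ι]

/-- `t` disjoint pairs. PROOF. Union bound over `f ∈ Fintype.piFinset (fun _ : Fin t => Pr)` (`|Pr|^t` functions; restrict
to the `f` with `2t` different coordinates), `pp_all` for `Z = univ.image (fst ∘ f) ∪ univ.image (snd ∘ f)`,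
`|Z| = 2 t`. The condition `hf` says that the map `Fin t × Bool → ι`, `(i, false) ↦ (f i).1`, `(i, true) ↦ (f i).2` is injective. -/
theorem pp_pairs {p : ℝ} (h0 : 0 ≤ p) (h1 : p ≤ 1) (Pr : Finset (ι × ι)) (t : ℕ) :
    PP (bern p) (fun ω : ι → Bool => ∃ f : Fin t → ι × ι, (∀ i, f i ∈ Pr) ∧
      Function.Injective (fun q : Fin t × Bool => if q.2 then (f q.1).2 else (f q.1).1) ∧
      ∀ i, ω (f i).1 = true ∧ ω (f i).2 = true) ≤ ((Pr.card : ℝ) * p ^ 2) ^ t := by
  classical
  have hpr := bern_prob (ι := ι) h0 h1
  set S : Finset (Fin t → ι × ι) := (Fintype.piFinset (fun _ : Fin t => Pr)).filter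
    (fun f => Function.Injective (fun q : Fin t × Bool => if q.2 then (f q.1).2 else (f q.1).1))
    with hS
  set Z : (Fin t → ι × ι) → Finset ι := fun f =>
    univ.image (fun q : Fin t × Bool => if q.2 then (f q.1).2 else (f q.1).1) with hZ
  have hcard : ∀ f ∈ S, (Z f).card = 2 * t := by
    intro f hf
    have hinj := (Finset.mem_filter.1 hf).2
    rw [hZ]
    simp only
    rw [Finset.card_image_of_injective _ hinj, Finset.card_univ, Fintype.card_prod,
      Fintype.card_fin, Fintype.card_bool, mul_comm]
  calc PP (bern p) (fun ω : ι → Bool => ∃ f : Fin t → ι × ι, (∀ i, f i ∈ Pr) ∧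
      Function.Injective (fun q : Fin t × Bool => if q.2 then (f q.1).2 else (f q.1).1) ∧
      ∀ i, ω (f i).1 = true ∧ ω (f i).2 = true)
      ≤ PP (bern p) (fun ω : ι → Bool => ∃ f ∈ S, ∀ i ∈ Z f, ω i = true) := by
        refine PP_mono hpr fun ω hω => ?_
        obtain ⟨f, hf1, hf2, hf3⟩ := hω
        refine ⟨f, ?_, ?_⟩
        · rw [hS, Finset.mem_filter]
          exact ⟨Fintype.mem_piFinset.2 hf1, hf2⟩
        · intro i hi
          rw [hZ] at hi
          simp only [Finset.mem_image, Finset.mem_univ, true_and] at hi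
          obtain ⟨⟨j, b⟩, hjb⟩ := hi
          cases b
          · simp only [Bool.false_eq_true, if_false] at hjb
            rw [← hjb]
            exact (hf3 j).1
          · simp only [if_true] at hjb
            rw [← hjb]
            exact (hf3 j).2
    _ ≤ ∑ f ∈ S, PP (bern p) (fun ω : ι → Bool => ∀ i ∈ Z f, ω i = true) :=
        PP_exists_le hpr _ _
    _ = ∑ f ∈ S, p ^ (2 * t) := by
        refine Finset.sum_congr rfl fun f hf => ?_
        rw [pp_all h0 h1, hcard f hf]
    _ = (S.card : ℝ) * p ^ (2 * t) := by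
        rw [Finset.sum_const, nsmul_eq_mul]
    _ ≤ ((Pr.card : ℝ) ^ t) * p ^ (2 * t) := by
        refine mul_le_mul_of_nonneg_right ?_ (pow_nonneg h0 _)
        have h2 : S.card ≤ Pr.card ^ t := by
          calc S.card ≤ (Fintype.piFinset (fun _ : Fin t => Pr)).card :=
                Finset.card_filter_le _ _
            _ = Pr.card ^ t := by
                rw [Fintype.card_piFinset]
                simp
        exact_mod_cast h2
    _ = ((Pr.card : ℝ) * p ^ 2) ^ t := by rw [mul_pow, pow_mul]

end Pool.Agent.Helper6.AVD
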