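import Pool.Agent.Helper6.AVD.Base
import Pool.Agent.Helper6.AVD.St.T0

/-! Project AVD, piece T1C: elementary probabilities for Bernoulli selection. -/

set_option autoImplicit false
set_option linter.unusedSectionVars false

namespace Pool.Agent.Helper6.AVD

open Finset

open Pool.Agent.Helper61.LE

variable {ι : Type*} [Fintype ι] [DecidableEq ι]

private theorem card_eq_sum_ite (Z : Finset ι) (ω : ι → Bool) :
    ((Z.filter fun i => ω i = true).card : ℝ) = ∑ i ∈ Z, (if ω i = true then (1 : ℝ) else 0) := by
  rw [Finset.card_filter]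
  push_cast
  rfl

private theorem EE_coord {p : ℝ} (h0 : 0 ≤ p) (h1 : p ≤ 1) (i : ι) :
    EE (bern (ι := ι) p) (fun ω : ι → Bool => if ω i = true then (1 : ℝ) else 0) = p := by
  have hP := bern_prob (ι := ι) h0 h1
  rw [← EE_resample hP i]
  have : ∀ ω : ι → Bool, (∑ a, bern (ι := ι) p i a *
      (if Function.update ω i a i = true then (1 : ℝ) else 0)) = p := by
    intro ω
    simp [bern]
  simp only [this]
  exact EE_const hP p

private theorem EE_count {p : ℝ} (h0 : 0 ≤ p) (h1 : p ≤ 1) (Z : Finset ι) :
    EE (bern (ι := ι) p) (fun ω : ι → Bool => ((Z.filter fun i => ω i = true).card : ℝ)) =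
      p * Z.card := by
  simp only [card_eq_sum_ite]
  rw [EE_sum]
  simp only [EE_coord h0 h1]
  rw [Finset.sum_const, nsmul_eq_mul, mul_comm]

private theorem one_side {p : ℝ} (h0 : 0 ≤ p) (h1 : p ≤ 1) (Z : Finset ι) (D : ℕ)
    (hD : Z.card ≤ D) (s : ℝ) (hs : s = 1 ∨ s = -1) :
    PP (bern p) (fun ω : ι → Bool => p * D / 200 ≤
      s * (((Z.filter fun i => ω i = true).card : ℝ) - p * Z.card)) ≤
      Real.exp (-(p * D / 160000)) := by
  classical
  have hP := bern_prob (ι := ι) h0 h1
  set f : (ι → Bool) → ℝ :=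
    fun ω => s * (((Z.filter fun i => ω i = true).card : ℝ) - p * Z.card) with hf
  have hs1 : |s| = 1 := by rcases hs with rfl | rfl <;> simp
  have hEE : EE (bern (ι := ι) p) f = 0 := by
    rw [hf, EE_const_mul, EE_sub, EE_count h0 h1, EE_const hP]
    ring
  have hup : ∀ i ∈ Z, ∀ (ω : ι → Bool) (a b : Bool),
      f (Function.update ω i a) - f (Function.update ω i b) =
        s * ((if a = true then (1 : ℝ) else 0) - (if b = true then (1 : ℝ) else 0)) := by
    intro i hi ω a b
    simp only [hf, card_eq_sum_ite]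
    have h2 : ∀ c : Bool, (∑ j ∈ Z, (if Function.update ω i c j = true then (1 : ℝ) else 0)) =
        (if c = true then (1 : ℝ) else 0) +
          ∑ j ∈ Z.erase i, (if ω j = true then (1 : ℝ) else 0) := by
      intro c
      rw [← Finset.add_sum_erase Z _ hi]
      congr 1
      · simp
      · refine Finset.sum_congr rfl fun j hj => ?_
        rw [Function.update_of_ne (Finset.ne_of_mem_erase hj)]
    rw [h2 a, h2 b]
    ring
  have hm := mgf hP (fun _ => (1 : ℝ)) (fun _ => p) (l := 1 / 400) (by norm_num)
    (fun _ a => a = false) Z f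
    (by
      intro ω ω' hω
      simp only [hf]
      congr 3
      congr 1
      refine Finset.filter_congr fun i hi => ?_
      rw [hω i hi])
    (fun i _ => by norm_num)
    (by
      intro i hi ω a b
      rw [hup i hi ω a b, abs_mul, hs1, one_mul]
      cases a <;> cases b <;> simp)
    (by
      intro i hi ω a b ha hb
      have := hup i hi ω a b
      subst ha hb
      linarith [this])
    (by
      intro i _
      simp [bern])
  rw [hEE] at hm
  have h3 := PP_ge_le_exp hP f (p * D / 200) (1 / 400) (by norm_num)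
  refine h3.trans ?_
  refine (mul_le_mul_of_nonneg_left hm (Real.exp_pos _).le).trans ?_
  rw [← Real.exp_add]
  apply Real.exp_le_exp.2
  simp only [one_pow, mul_one, Finset.sum_const, nsmul_eq_mul]
  have h4 : (Z.card : ℝ) * p ≤ D * p := by
    apply mul_le_mul_of_nonneg_right _ h0
    exact_mod_cast hD
  nlinarith

/-- Chernoff. PROOF. `f ω = #{i ∈ Z | ω i}`, `mgf` with `c i = 1`, `p i = p`, `N i a = (a = false)`, for `f` and `-f`,
`EE f = p |Z|`, `PP_ge_le_exp` with `l = 1/400`: `exp(-l p D/200 + l² p D) = exp(-p D/160000)`. -/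
theorem pp_dev {p : ℝ} (h0 : 0 ≤ p) (h1 : p ≤ 1) (Z : Finset ι) (D : ℕ) (hD : Z.card ≤ D) :
    PP (bern p) (fun ω : ι → Bool => p * D / 200 ≤
      |((Z.filter fun i => ω i = true).card : ℝ) - p * Z.card|) ≤
      2 * Real.exp (-(p * D / 160000)) := by
  classical
  have hP := bern_prob (ι := ι) h0 h1
  have ha := one_side h0 h1 Z D hD 1 (Or.inl rfl)
  have hb := one_side h0 h1 Z D hD (-1) (Or.inr rfl)
  have hu := PP_exists_le hP (Finset.univ : Finset Bool) (fun (b : Bool) (ω : ι → Bool) =>
    p * D / 200 ≤ (if b = true then (1 : ℝ) else -1) *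
      (((Z.filter fun i => ω i = true).card : ℝ) - p * Z.card))
  have hm : PP (bern p) (fun ω : ι → Bool => p * D / 200 ≤
      |((Z.filter fun i => ω i = true).card : ℝ) - p * Z.card|) ≤
      PP (bern p) (fun ω : ι → Bool => ∃ b ∈ (Finset.univ : Finset Bool),
        p * D / 200 ≤ (if b = true then (1 : ℝ) else -1) *
      (((Z.filter fun i => ω i = true).card : ℝ) - p * Z.card)) := by
    refine PP_mono hP fun ω hω => ?_
    rcases le_abs.1 hω with h | h
    · exact ⟨true, Finset.mem_univ _, by simpa using h⟩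
    · refine ⟨false, Finset.mem_univ _, ?_⟩
      simp only [Bool.false_eq_true, if_false]
      linarith
  refine (hm.trans hu).trans ?_
  rw [Fintype.sum_bool]
  simp only [if_true, Bool.false_eq_true, if_false]
  linarith

end Pool.Agent.Helper6.AVD
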