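import Pool.Agent.Helper6.AVD.Base

/-! Project AVD, piece T2: few selected edges at `v` are in conflict with a selected edge (deterministic). -/

set_option autoImplicit false
set_option linter.unusedSectionVars false

namespace Pool.Agent.Helper6.AVD

open Finset

private theorem few_conf_aux {ι : Type*} [DecidableEq ι] (I : Finset ι) (nb : ι → Finset ι)
    (hs : ∀ e f, f ∈ nb e → e ∈ nb f) (hirr : ∀ e, e ∉ nb e) (ω : ι → Bool) (t : ℕ)
    (h2 : ∀ g ∈ I ∪ I.biUnion nb, ((I ∩ nb g).filter fun e => ω e = true).card < t)
    (hY : 2 * t * (1 + t) < (I.filter fun e => ω e = true ∧ ∃ e' ∈ nb e, ω e' = true).card)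
    (j : ℕ) (hj : j ≤ t) :
    ∃ f : Fin j → ι × ι, (∀ i, (f i).1 ∈ I ∧ (f i).2 ∈ nb (f i).1) ∧
      Function.Injective (fun q : Fin j × Bool => if q.2 then (f q.1).2 else (f q.1).1) ∧
      ∀ i, ω (f i).1 = true ∧ ω (f i).2 = true := by
  classical
  induction j with
  | zero =>
    refine ⟨fun i => i.elim0, fun i => i.elim0, ?_, fun i => i.elim0⟩
    intro q
    exact q.1.elim0
  | succ j ih =>
    obtain ⟨f, hf1, hf2, hf3⟩ := ih (by omega)
    set F : Fin j × Bool → ι := fun q => if q.2 then (f q.1).2 else (f q.1).1 with hF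
    set Z : Finset ι := univ.image F with hZ
    have hZc : Z.card ≤ 2 * j := by
      calc Z.card ≤ (univ : Finset (Fin j × Bool)).card := Finset.card_image_le
        _ = 2 * j := by
          rw [Finset.card_univ, Fintype.card_prod, Fintype.card_fin, Fintype.card_bool, mul_comm]
    have hZm : ∀ g ∈ Z, g ∈ I ∪ I.biUnion nb := by
      intro g hg
      rw [hZ, Finset.mem_image] at hg
      obtain ⟨⟨i, b⟩, -, hib⟩ := hg
      rw [Finset.mem_union, Finset.mem_biUnion]
      cases b
      · left
        simp only [hF, Bool.false_eq_true, if_false] at hib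
        rw [← hib]
        exact (hf1 i).1
      · right
        simp only [hF, if_true] at hib
        rw [← hib]
        exact ⟨(f i).1, (hf1 i).1, (hf1 i).2⟩
    set B : Finset ι := Z ∪ Z.biUnion (fun g => (I ∩ nb g).filter fun e => ω e = true) with hB
    have hBc : B.card ≤ 2 * t * (1 + t) := by
      have h3 : (Z.biUnion (fun g => (I ∩ nb g).filter fun e => ω e = true)).card ≤ Z.card * t := by
        refine Finset.card_biUnion_le_card_mul _ _ _ fun g hg => ?_
        exact (h2 g (hZm g hg)).le
      calc B.card ≤ Z.card + (Z.biUnion (fun g => (I ∩ nb g).filter fun e => ω e = true)).card :=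
            Finset.card_union_le _ _
        _ ≤ Z.card + Z.card * t := by omega
        _ ≤ 2 * t + 2 * t * t := by
            have h4 : Z.card ≤ 2 * t := by omega
            have h5 : Z.card * t ≤ 2 * t * t := Nat.mul_le_mul_right t h4
            omega
        _ = 2 * t * (1 + t) := by ring
    have hex : ∃ e ∈ (I.filter fun e => ω e = true ∧ ∃ e' ∈ nb e, ω e' = true), e ∉ B := by
      by_contra hcon
      push Not at hcon
      have := Finset.card_le_card (show (I.filter fun e => ω e = true ∧ ∃ e' ∈ nb e, ω e' = true) ⊆ B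
        from fun x hx => hcon x hx)
      omega
    obtain ⟨e, he, heB⟩ := hex
    obtain ⟨heI, heω, e', he', he'ω⟩ := Finset.mem_filter.1 he
    have heZ : e ∉ Z := fun h => heB (Finset.mem_union_left _ h)
    have he'Z : e' ∉ Z := by
      intro h
      apply heB
      rw [hB, Finset.mem_union, Finset.mem_biUnion]
      right
      exact ⟨e', h, Finset.mem_filter.2 ⟨Finset.mem_inter.2 ⟨heI, hs e e' he'⟩, heω⟩⟩
    have hee : e ≠ e' := by
      intro h
      rw [← h] at he'
      exact hirr e he'
    have hFZ : ∀ q, F q ∈ Z := fun q => by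
      rw [hZ]
      exact Finset.mem_image_of_mem _ (Finset.mem_univ q)
    refine ⟨Fin.snoc (α := fun _ => ι × ι) f (e, e'), ?_, ?_, ?_⟩
    · intro i
      refine Fin.lastCases ?_ (fun k => ?_) i
      · simp only [Fin.snoc_last]
        exact ⟨heI, he'⟩
      · simp only [Fin.snoc_castSucc]
        exact hf1 k
    · have hv : ∀ (k : Fin j) (b : Bool), (if b then
          (Fin.snoc (α := fun _ => ι × ι) f (e, e') (Fin.castSucc k)).2 else
          (Fin.snoc (α := fun _ => ι × ι) f (e, e') (Fin.castSucc k)).1) = F (k, b) := by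
        intro k b
        simp only [Fin.snoc_castSucc, hF]
      have hl : ∀ (b : Bool), (if b then
          (Fin.snoc (α := fun _ => ι × ι) f (e, e') (Fin.last j)).2 else
          (Fin.snoc (α := fun _ => ι × ι) f (e, e') (Fin.last j)).1) = if b then e' else e := by
        intro b
        simp only [Fin.snoc_last]
      have hnZ : ∀ b : Bool, (if b then e' else e) ∉ Z := by
        intro b
        cases b
        · simpa using heZ
        · simpa using he'Z
      rintro ⟨i, b⟩ ⟨i', b'⟩ h
      simp only at h
      revert h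
      refine Fin.lastCases ?_ (fun k => ?_) i
      · refine Fin.lastCases ?_ (fun k' => ?_) i'
        · intro h
          rw [hl b, hl b'] at h
          have hbb : b = b' := by
            cases b <;> cases b' <;> simp at h ⊢
            · exact hee h
            · exact hee h.symm
          rw [hbb]
        · intro h
          rw [hl b, hv k' b'] at h
          exact absurd (h ▸ hFZ (k', b')) (hnZ b)
      · refine Fin.lastCases ?_ (fun k' => ?_) i'
        · intro h
          rw [hv k b, hl b'] at h
          exact absurd (h ▸ hFZ (k, b)) (hnZ b')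
        · intro h
          rw [hv k b, hv k' b'] at h
          have := hf2 h
          simp only [Prod.mk.injEq] at this ⊢
          exact ⟨congrArg Fin.castSucc this.1, this.2⟩
    · intro i
      refine Fin.lastCases ?_ (fun k => ?_) i
      · simp only [Fin.snoc_last]
        exact ⟨heω, he'ω⟩
      · simp only [Fin.snoc_castSucc]
        exact hf3 k

/-- `I` = edges at `v`, `nb e` = conflict partners of `e`.
PROOF. Suppose `Y > 2t(1+t)` where `Y` is the cardinality in the conclusion. Show by induction on `j ≤ t` that there is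
`f : Fin j → ι × ι` as in `h1` (with `j` instead of `t`). Step: `Z` = the `2j` coordinates so far; the number of
`e ∈ I` selected with `e ∈ Z` or `e ∈ nb g` for some `g ∈ Z` is `≤ 2j + 2j·t ≤ 2t(1+t) < Y` (`g ∈ Z` is in `I` or in
`nb e'` with `e' ∈ I`, so `h2` applies). So there is a selected `e ∈ I` with a selected `e' ∈ nb e`, `e ∉ Z`, and
`e ∉ nb g` for `g ∈ Z`, hence `e' ∉ Z` (`hs`). `e' ≠ e` by `hirr`. Append `(e, e')` (`Fin.snoc`). -/
theorem few_conf {ι : Type*} [DecidableEq ι] (I : Finset ι) (nb : ι → Finset ι)
    (hs : ∀ e f, f ∈ nb e → e ∈ nb f) (hirr : ∀ e, e ∉ nb e) (ω : ι → Bool) (t : ℕ)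
    (h1 : ¬ ∃ f : Fin t → ι × ι, (∀ i, (f i).1 ∈ I ∧ (f i).2 ∈ nb (f i).1) ∧
      Function.Injective (fun q : Fin t × Bool => if q.2 then (f q.1).2 else (f q.1).1) ∧
      ∀ i, ω (f i).1 = true ∧ ω (f i).2 = true)
    (h2 : ∀ g ∈ I ∪ I.biUnion nb, ((I ∩ nb g).filter fun e => ω e = true).card < t) :
    (I.filter fun e => ω e = true ∧ ∃ e' ∈ nb e, ω e' = true).card ≤ 2 * t * (1 + t) := by
  by_contra hY
  push Not at hY
  exact h1 (few_conf_aux I nb hs hirr ω t h2 hY t le_rfl)

end Pool.Agent.Helper6.AVD
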