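import Pool.Agent.Helper6.AVD.Base
import Pool.Agent.Helper6.AVD.St.R4
import Pool.Agent.Helper6.AVD.St.T1A
import Pool.Agent.Helper6.AVD.St.T1B
import Pool.Agent.Helper6.AVD.St.T1C
import Pool.Agent.Helper6.AVD.St.T2

/-! Project AVD, piece T3: a sparse conflict-free subgraph with controlled degrees. -/

set_option autoImplicit false
set_option linter.unusedSectionVars false

namespace Pool.Agent.Helper6.AVD

open Finset

open Pool.Agent.Helper61.LE

variable {V E : Type*} [Fintype V] [DecidableEq V] [Fintype E] [DecidableEq E]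

private theorem t3_pp_or {ι Ω : Type*} [Fintype ι] [DecidableEq ι] [Fintype Ω] [DecidableEq Ω]
    {μ : ι → Ω → ℝ} (h : IsProb μ) (A B : (ι → Ω) → Prop) :
    PP μ (fun ω => A ω ∨ B ω) ≤ PP μ A + PP μ B := by
  classical
  have h1 := PP_exists_le h (univ : Finset Bool) (fun b ω => if b then A ω else B ω)
  simp only [Fintype.sum_bool, if_true, Bool.false_eq_true, if_false] at h1
  refine (PP_mono h fun ω hω => ?_).trans h1
  rcases hω with hA | hB
  · exact ⟨true, mem_univ _, by simpa using hA⟩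
  · exact ⟨false, mem_univ _, by simpa using hB⟩

/-- the set of coordinates relevant at `v` -/
private def t3I (M : MG V E) (Ec : Finset E) (v : V) : Finset E := Ec.filter fun e => v ∈ M.ends e

private def t3W (M : MG V E) (Ec : Finset E) (nb : E → Finset E) (v : V) : Finset E :=
  t3I M Ec v ∪ (t3I M Ec v).biUnion nb

private def t3Pr (M : MG V E) (Ec : Finset E) (nb : E → Finset E) (v : V) : Finset (E × E) :=
  (t3I M Ec v).biUnion fun e => (nb e).image (Prod.mk e)

private theorem t3_mem_Pr (M : MG V E) (Ec : Finset E) (nb : E → Finset E) (v : V) (q : E × E) :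
    q ∈ t3Pr M Ec nb v ↔ q.1 ∈ t3I M Ec v ∧ q.2 ∈ nb q.1 := by
  unfold t3Pr
  simp only [mem_biUnion, mem_image]
  constructor
  · rintro ⟨e, he, f, hf, rfl⟩
    exact ⟨he, hf⟩
  · rintro ⟨h1, h2⟩
    exact ⟨q.1, h1, q.2, h2, rfl⟩

private def t3Bad (M : MG V E) (Ec : Finset E) (nb : E → Finset E) (p : ℝ) (D t : ℕ) (v : V)
    (ω : E → Bool) : Prop :=
  p * D / 200 ≤ |(((t3I M Ec v).filter fun i => ω i = true).card : ℝ) - p * (t3I M Ec v).card| ∨
  (∃ f : Fin t → E × E, (∀ i, f i ∈ t3Pr M Ec nb v) ∧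
      Function.Injective (fun q : Fin t × Bool => if q.2 then (f q.1).2 else (f q.1).1) ∧
      ∀ i, ω (f i).1 = true ∧ ω (f i).2 = true) ∨
  (∃ g ∈ t3W M Ec nb v, t ≤ ((t3I M Ec v ∩ nb g).filter fun i => ω i = true).card)

private theorem t3_cardI (M : MG V E) (D : ℕ) (hdeg : ∀ v, M.deg v ≤ D) (Ec : Finset E) (v : V) :
    (t3I M Ec v).card ≤ D := by
  refine le_trans (card_le_card ?_) (hdeg v)
  intro e he
  rw [t3I, mem_filter] at he
  rw [MG.inc, mem_filter]
  exact ⟨mem_univ _, he.2⟩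

private theorem t3_cardW (M : MG V E) (D κ : ℕ) (hdeg : ∀ v, M.deg v ≤ D) (Ec : Finset E)
    (nb : E → Finset E) (hκ : ∀ e, (nb e).card ≤ κ) (v : V) :
    (t3W M Ec nb v).card ≤ D * (1 + κ) := by
  have h1 := t3_cardI M D hdeg Ec v
  have h2 : ((t3I M Ec v).biUnion nb).card ≤ (t3I M Ec v).card * κ :=
    card_biUnion_le_card_mul _ _ _ fun e _ => hκ e
  calc (t3W M Ec nb v).card ≤ (t3I M Ec v).card + ((t3I M Ec v).biUnion nb).card := card_union_le _ _
    _ ≤ (t3I M Ec v).card + (t3I M Ec v).card * κ := by omega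
    _ = (t3I M Ec v).card * (1 + κ) := by ring
    _ ≤ D * (1 + κ) := Nat.mul_le_mul_right _ h1

private theorem t3_cardPr (M : MG V E) (D κ : ℕ) (hdeg : ∀ v, M.deg v ≤ D) (Ec : Finset E)
    (nb : E → Finset E) (hκ : ∀ e, (nb e).card ≤ κ) (v : V) :
    (t3Pr M Ec nb v).card ≤ D * κ := by
  refine le_trans (card_biUnion_le_card_mul _ _ κ fun e _ => ?_) ?_
  · exact card_image_le.trans (hκ e)
  · exact Nat.mul_le_mul_right _ (t3_cardI M D hdeg Ec v)

private theorem t3_dep (M : MG V E) (Ec : Finset E) (nb : E → Finset E) (p : ℝ) (D t : ℕ) (v : V) :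
    Dep (t3Bad M Ec nb p D t v) (t3W M Ec nb v) := by
  classical
  have key : ∀ ω ω' : E → Bool, (∀ i ∈ t3W M Ec nb v, ω i = ω' i) →
      t3Bad M Ec nb p D t v ω → t3Bad M Ec nb p D t v ω' := by
    intro ω ω' hω hB
    have hI : ∀ i ∈ t3I M Ec v, ω i = ω' i := fun i hi => hω i (mem_union_left _ hi)
    have hfil : ∀ Z : Finset E, Z ⊆ t3I M Ec v →
        (Z.filter fun i => ω i = true) = (Z.filter fun i => ω' i = true) := by
      intro Z hZ
      apply filter_congr
      intro i hi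
      rw [hI i (hZ hi)]
    rcases hB with h | ⟨f, hf1, hf2, hf3⟩ | ⟨g, hg, hgt⟩
    · left
      rw [← hfil _ (Subset.refl _)]
      exact h
    · right; left
      refine ⟨f, hf1, hf2, fun i => ?_⟩
      have h1 := (t3_mem_Pr M Ec nb v (f i)).1 (hf1 i)
      have h2 : (f i).2 ∈ t3W M Ec nb v :=
        mem_union_right _ (mem_biUnion.2 ⟨(f i).1, h1.1, h1.2⟩)
      rw [← hI _ h1.1, ← hω _ h2]
      exact hf3 i
    · right; right
      refine ⟨g, hg, ?_⟩
      rw [← hfil _ inter_subset_left]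
      exact hgt
  intro ω ω' hω
  apply propext
  exact ⟨key ω ω' hω, key ω' ω fun i hi => (hω i hi).symm⟩

private theorem t3_pow_le {a b : ℝ} (ha : 0 ≤ a) (hab : a ≤ b) (t : ℕ) : a ^ t ≤ b ^ t :=
  pow_le_pow_left₀ ha hab t

private theorem t3_prob (M : MG V E) (D κ t : ℕ) (hdeg : ∀ v, M.deg v ≤ D) (Ec : Finset E)
    (nb : E → Finset E) (hκ : ∀ e, (nb e).card ≤ κ) (p : ℝ) (hp0 : 0 ≤ p) (hp1 : p ≤ 1) (v : V) :
    PP (bern p) (t3Bad M Ec nb p D t v) ≤
      2 * Real.exp (-(p * D / 160000)) + (D * κ * p ^ 2) ^ t + D * (1 + κ) * (κ * p) ^ t := by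
  classical
  have hP : IsProb (bern (ι := E) p) := bern_prob hp0 hp1
  have ha := pp_dev hp0 hp1 (t3I M Ec v) D (t3_cardI M D hdeg Ec v)
  have hb := pp_pairs hp0 hp1 (t3Pr M Ec nb v) t
  have hb2 : (((t3Pr M Ec nb v).card : ℝ) * p ^ 2) ^ t ≤ ((D : ℝ) * κ * p ^ 2) ^ t := by
    apply t3_pow_le (by positivity)
    apply mul_le_mul_of_nonneg_right _ (by positivity)
    exact_mod_cast t3_cardPr M D κ hdeg Ec nb hκ v
  have hc : PP (bern p) (fun ω : E → Bool => ∃ g ∈ t3W M Ec nb v,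
      t ≤ ((t3I M Ec v ∩ nb g).filter fun i => ω i = true).card) ≤
      D * (1 + κ) * (κ * p) ^ t := by
    refine (PP_exists_le hP (t3W M Ec nb v)
      (fun g ω => t ≤ ((t3I M Ec v ∩ nb g).filter fun i => ω i = true).card)).trans ?_
    calc ∑ g ∈ t3W M Ec nb v, PP (bern p)
          (fun ω : E → Bool => t ≤ ((t3I M Ec v ∩ nb g).filter fun i => ω i = true).card)
        ≤ ∑ _g ∈ t3W M Ec nb v, ((κ : ℝ) * p) ^ t := by
          refine sum_le_sum fun g _ => ?_
          refine (pp_many hp0 hp1 (t3I M Ec v ∩ nb g) t).trans ?_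
          apply t3_pow_le (by positivity)
          apply mul_le_mul_of_nonneg_right _ hp0
          exact_mod_cast (card_le_card inter_subset_right).trans (hκ g)
      _ = ((t3W M Ec nb v).card : ℝ) * ((κ : ℝ) * p) ^ t := by
          rw [sum_const, nsmul_eq_mul]
      _ ≤ D * (1 + κ) * (κ * p) ^ t := by
          apply mul_le_mul_of_nonneg_right _ (by positivity)
          exact_mod_cast t3_cardW M D κ hdeg Ec nb hκ v
  have h1 := t3_pp_or hP
    (fun ω : E → Bool => p * D / 200 ≤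
      |(((t3I M Ec v).filter fun i => ω i = true).card : ℝ) - p * (t3I M Ec v).card|)
    (fun ω : E → Bool => (∃ f : Fin t → E × E, (∀ i, f i ∈ t3Pr M Ec nb v) ∧
      Function.Injective (fun q : Fin t × Bool => if q.2 then (f q.1).2 else (f q.1).1) ∧
      ∀ i, ω (f i).1 = true ∧ ω (f i).2 = true) ∨
      (∃ g ∈ t3W M Ec nb v, t ≤ ((t3I M Ec v ∩ nb g).filter fun i => ω i = true).card))
  have h2 := t3_pp_or hP
    (fun ω : E → Bool => ∃ f : Fin t → E × E, (∀ i, f i ∈ t3Pr M Ec nb v) ∧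
      Function.Injective (fun q : Fin t × Bool => if q.2 then (f q.1).2 else (f q.1).1) ∧
      ∀ i, ω (f i).1 = true ∧ ω (f i).2 = true)
    (fun ω : E → Bool => ∃ g ∈ t3W M Ec nb v,
      t ≤ ((t3I M Ec v ∩ nb g).filter fun i => ω i = true).card)
  have h3 : PP (bern p) (t3Bad M Ec nb p D t v) ≤ _ := h1
  linarith

/-- the finset of the ends of an edge -/
private def t3Ends (M : MG V E) (g : E) : Finset V := univ.filter fun w => w ∈ M.ends g

private theorem t3_cardEnds (M : MG V E) (g : E) : (t3Ends M g).card ≤ 2 := by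
  classical
  unfold t3Ends
  induction' h : M.ends g with a b
  refine le_trans (card_le_card (t := {a, b}) ?_) card_le_two
  intro w hw
  rw [mem_filter, Sym2.mem_iff] at hw
  simpa using hw.2

private theorem t3_cardMeet (M : MG V E) (D κ : ℕ) (hdeg : ∀ v, M.deg v ≤ D) (Ec : Finset E)
    (nb : E → Finset E) (hs : ∀ e f, f ∈ nb e → e ∈ nb f) (hκ : ∀ e, (nb e).card ≤ κ) (v : V) :
    (univ.filter fun w => ¬ Disjoint (t3W M Ec nb v) (t3W M Ec nb w)).card ≤
      D * (1 + κ) * (2 * (1 + κ)) := by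
  classical
  have hsub : (univ.filter fun w => ¬ Disjoint (t3W M Ec nb v) (t3W M Ec nb w)) ⊆
      (t3W M Ec nb v).biUnion fun e => (insert e (nb e)).biUnion fun g => t3Ends M g := by
    intro w hw
    rw [mem_filter] at hw
    rw [Finset.not_disjoint_iff] at hw
    obtain ⟨-, e, he1, he2⟩ := hw
    rw [mem_biUnion]
    refine ⟨e, he1, ?_⟩
    rw [mem_biUnion]
    rw [t3W, mem_union, mem_biUnion] at he2
    rcases he2 with he2 | ⟨g, hg1, hg2⟩
    · refine ⟨e, mem_insert_self _ _, ?_⟩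
      rw [t3I, mem_filter] at he2
      exact mem_filter.2 ⟨mem_univ _, he2.2⟩
    · refine ⟨g, mem_insert_of_mem (hs g e hg2), ?_⟩
      rw [t3I, mem_filter] at hg1
      exact mem_filter.2 ⟨mem_univ _, hg1.2⟩
  refine (card_le_card hsub).trans ?_
  refine (card_biUnion_le_card_mul _ _ (2 * (1 + κ)) fun e _ => ?_).trans
    (Nat.mul_le_mul_right _ (t3_cardW M D κ hdeg Ec nb hκ v))
  refine (card_biUnion_le_card_mul _ _ 2 fun g _ => t3_cardEnds M g).trans ?_
  have h1 : (insert e (nb e)).card ≤ 1 + κ := by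
    have := card_insert_le e (nb e)
    have := hκ e
    omega
  calc (insert e (nb e)).card * 2 ≤ (1 + κ) * 2 := Nat.mul_le_mul_right _ h1
    _ = 2 * (1 + κ) := by ring

/-- PROOF. Coins `ω : E → Bool`, `bern p`. `I v = {e ∈ Ec | v ∈ ends e}`, `W v = I v ∪ (I v).biUnion nb`, `|I v| ≤ D`,
`|W v| ≤ D(1+κ)`. `Bad v`: (a) the event of `pp_dev` for `Z = I v`; or (b) the event of `pp_pairs` for
`Pr = {(e, e') | e ∈ I v, e' ∈ nb e}` (`|Pr| ≤ D κ`); or (c) for some `g ∈ W v` at least `t` elements of `I v ∩ nb g` are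
selected (`pp_many`, `|I v ∩ nb g| ≤ κ`). `Bad v` depends on `W v`; if `W v, W w` share an edge `e` then `w` is an end of
`e` or of some `g ∈ nb e`: at most `2(1+κ)` vertices `w`, so `d = D(1+κ)·2(1+κ)` in `lll_vertex` (R4). Take the good `ω`,
`G = {e ∈ Ec | ω e, ∀ e' ∈ nb e, ω e' = false}`. `deg_G v = X - Y`, `|X - p |I v|| < pD/200`,
`Y ≤ 2t(1+t) ≤ pD/200` by `few_conf` (T2). -/
theorem sparsify (M : MG V E) (D κ t : ℕ) (hD : 1 ≤ D) (hdeg : ∀ v, M.deg v ≤ D) (Ec : Finset E)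
    (nb : E → Finset E) (hs : ∀ e f, f ∈ nb e → e ∈ nb f) (hirr : ∀ e, e ∉ nb e)
    (hκ : ∀ e, (nb e).card ≤ κ) (p : ℝ) (hp0 : 0 ≤ p) (hp1 : p ≤ 1)
    (ht : 2 * (t : ℝ) * (1 + t) ≤ p * D / 200)
    (hsmall : 4 * ((D : ℝ) * (1 + κ) * (2 * (1 + κ))) *
      (2 * Real.exp (-(p * D / 160000)) + (D * κ * p ^ 2) ^ t + D * (1 + κ) * (κ * p) ^ t) ≤ 1) :
    ∃ G ⊆ Ec, (∀ e ∈ G, ∀ f ∈ G, f ∉ nb e) ∧
      ∀ v, |((G.filter fun e => v ∈ M.ends e).card : ℝ) -
        p * (Ec.filter fun e => v ∈ M.ends e).card| ≤ p * D / 100 := by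
  classical
  have hP : IsProb (bern (ι := E) p) := bern_prob hp0 hp1
  set δ : ℝ := 2 * Real.exp (-(p * D / 160000)) + (D * κ * p ^ 2) ^ t + D * (1 + κ) * (κ * p) ^ t
    with hδdef
  have hδ0 : 0 ≤ δ := by
    rw [hδdef]
    have := Real.exp_pos (-(p * D / 160000))
    positivity
  have hδ1 : δ ≤ 1 / 4 := by
    have hD' : (1 : ℝ) ≤ D := by exact_mod_cast hD
    have hk0 : (0 : ℝ) ≤ κ := Nat.cast_nonneg κ
    have h1 : (1 : ℝ) ≤ (D : ℝ) * (1 + κ) * (2 * (1 + κ)) := by
      have h2 : (1 : ℝ) ≤ (D : ℝ) * (1 + κ) := by nlinarith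
      nlinarith
    nlinarith
  obtain ⟨ω, hω⟩ := lll_vertex hP (t3Bad M Ec nb p D t) (t3W M Ec nb)
    (fun v => t3_dep M Ec nb p D t v) δ
    (fun v => t3_prob M D κ t hdeg Ec nb hκ p hp0 hp1 v) hδ1 (D * (1 + κ) * (2 * (1 + κ)))
    (fun v => t3_cardMeet M D κ hdeg Ec nb hs hκ v) (by push_cast; exact hsmall)
  refine ⟨Ec.filter fun e => ω e = true ∧ ∀ e' ∈ nb e, ω e' = false, filter_subset _ _, ?_, ?_⟩
  · intro e he f hf hfe
    rw [mem_filter] at he hf
    have h1 := he.2.2 f hfe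
    rw [hf.2.1] at h1
    exact Bool.noConfusion h1
  · intro v
    have hv := hω v
    unfold t3Bad at hv
    rw [not_or, not_or] at hv
    obtain ⟨hv1, hv2, hv3⟩ := hv
    rw [not_le] at hv1
    have hY := few_conf (t3I M Ec v) nb hs hirr ω t
      (by
        intro hcon
        apply hv2
        obtain ⟨f, hf1, hf2, hf3⟩ := hcon
        exact ⟨f, fun i => (t3_mem_Pr M Ec nb v (f i)).2 (hf1 i), hf2, hf3⟩)
      (by
        intro g hg
        by_contra hcon
        rw [not_lt] at hcon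
        exact hv3 ⟨g, hg, hcon⟩)
    have hcard : ((Ec.filter fun e => ω e = true ∧ ∀ e' ∈ nb e, ω e' = false).filter
          fun e => v ∈ M.ends e).card +
        ((t3I M Ec v).filter fun e => ω e = true ∧ ∃ e' ∈ nb e, ω e' = true).card =
        ((t3I M Ec v).filter fun e => ω e = true).card := by
      rw [← card_union_of_disjoint]
      · congr 1
        ext e
        simp only [mem_union, mem_filter, t3I]
        constructor
        · rintro (⟨⟨h1, h2, -⟩, h3⟩ | ⟨⟨h1, h2⟩, h3, -⟩)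
          · exact ⟨⟨h1, h3⟩, h2⟩
          · exact ⟨⟨h1, h2⟩, h3⟩
        · rintro ⟨⟨h1, h2⟩, h3⟩
          by_cases hex : ∃ e' ∈ nb e, ω e' = true
          · right
            exact ⟨⟨h1, h2⟩, h3, hex⟩
          · left
            refine ⟨⟨h1, h3, fun e' he' => ?_⟩, h2⟩
            by_contra hne
            exact hex ⟨e', he', by simpa using hne⟩
      · rw [Finset.disjoint_left]
        intro e h1 h2
        rw [mem_filter, mem_filter] at h1
        rw [mem_filter] at h2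
        obtain ⟨e', he', hw⟩ := h2.2.2
        have := h1.1.2.2 e' he'
        rw [hw] at this
        exact Bool.noConfusion this
    have hcardR : (((Ec.filter fun e => ω e = true ∧ ∀ e' ∈ nb e, ω e' = false).filter
          fun e => v ∈ M.ends e).card : ℝ) +
        (((t3I M Ec v).filter fun e => ω e = true ∧ ∃ e' ∈ nb e, ω e' = true).card : ℝ) =
        (((t3I M Ec v).filter fun e => ω e = true).card : ℝ) := by
      exact_mod_cast hcard
    have hYR : (((t3I M Ec v).filter fun e => ω e = true ∧ ∃ e' ∈ nb e, ω e' = true).card : ℝ) ≤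
        p * D / 200 := by
      refine le_trans ?_ ht
      exact_mod_cast hY
    have hY0 : (0 : ℝ) ≤
        (((t3I M Ec v).filter fun e => ω e = true ∧ ∃ e' ∈ nb e, ω e' = true).card : ℝ) :=
      Nat.cast_nonneg _
    have hI : (Ec.filter fun e => v ∈ M.ends e) = t3I M Ec v := rfl
    rw [hI]
    rw [abs_lt] at hv1
    rw [abs_le]
    constructor <;> linarith [hv1.1, hv1.2]

end Pool.Agent.Helper6.AVD
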