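import Pool.Agent.Helper6.AVD.Base
import Pool.Agent.Helper6.AVD.St.L0

/-! Project AVD: the notions of the problem. -/

set_option autoImplicit false
set_option linter.unusedSectionVars false

namespace Pool.Agent.Helper6.AVD

open Finset

variable {V : Type*}

/-- the open neighbourhood `E_G(e)`: the edges other than `e` that share an end with `e` -/
def openNbhd (G : SimpleGraph V) (e : G.edgeSet) : Set G.edgeSet :=
  {f | f ≠ e ∧ ∃ v, v ∈ f.1 ∧ v ∈ e.1}

/-- proper open conflict-free edge colourings with colours in `Fin n` -/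
structure IsPOCF (G : SimpleGraph V) {n : ℕ} (c : G.edgeSet → Fin n) : Prop where
  proper : ∀ e f : G.edgeSet, f ∈ openNbhd G e → c f ≠ c e
  satisfied : ∀ e : G.edgeSet, (openNbhd G e).Nonempty →
    ∃ a, ∃! f, f ∈ openNbhd G e ∧ c f = a

end Pool.Agent.Helper6.AVD
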