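import Pool.Agent.Helper6.AVD.Base
import Pool.Agent.Helper6.AVD.St.Q0

/-! Project AVD, piece Q1: distinguishing palettes give a proper open conflict-free colouring. -/

set_option autoImplicit false
set_option linter.unusedSectionVars false

namespace Pool.Agent.Helper6.AVD

open Finset

variable {V : Type*} [Fintype V] [DecidableEq V]

/-- the colour `a` seen at `u` and not at `v` occurs exactly once in the open neighbourhood. -/
private theorem key_unique (G : SimpleGraph V) [DecidableRel G.Adj] {n : ℕ} (c : Sym2 V → Fin n)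
    (hc : GProper G c) (u v : V) (huv : G.Adj u v) (a : Fin n) (ha : a ∈ gpal G c u)
    (ha' : a ∉ gpal G c v) (e : G.edgeSet) (he : e.1 = s(u, v)) :
    ∃! f : G.edgeSet, f ∈ openNbhd G e ∧ c f.1 = a := by
  unfold gpal at ha ha'
  obtain ⟨w, hw, hwa⟩ := Finset.mem_image.mp ha
  rw [SimpleGraph.mem_neighborFinset] at hw
  have hnot : ∀ w', G.Adj v w' → c s(v, w') ≠ a := by
    intro w' hw' h1
    exact ha' (Finset.mem_image.mpr ⟨w', (SimpleGraph.mem_neighborFinset _ _ _).mpr hw', h1⟩)
  have hwv : w ≠ v := by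
    rintro rfl
    apply hnot u huv.symm
    rw [Sym2.eq_swap]
    exact hwa
  refine ⟨⟨s(u, w), hw⟩, ⟨⟨?_, u, ?_, ?_⟩, hwa⟩, ?_⟩
  · intro h1
    have h2 : s(u, w) = s(u, v) := by
      rw [← he, ← h1]
    rw [Sym2.eq_iff] at h2
    rcases h2 with ⟨-, h3⟩ | ⟨h3, h4⟩
    · exact hwv h3
    · exact hwv (h4.trans h3)
  · simp
  · rw [he]
    simp
  · rintro ⟨f, hf⟩ ⟨⟨-, x, hx1, hx2⟩, h3⟩
    apply Subtype.ext
    simp only at hx1 h3 ⊢
    rw [he] at hx2
    obtain ⟨y, rfl⟩ := Sym2.mem_iff_exists.mp hx1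
    have hxy : G.Adj x y := hf
    rw [Sym2.mem_iff] at hx2
    rcases hx2 with rfl | rfl
    · rw [hc x y w hxy hw (h3.trans hwa.symm)]
    · exact absurd h3 (hnot y hxy)

private theorem card_gpal (G : SimpleGraph V) [DecidableRel G.Adj] {n : ℕ} (c : Sym2 V → Fin n)
    (hc : GProper G c) (v : V) : (gpal G c v).card = G.degree v := by
  unfold gpal
  rw [Finset.card_image_of_injOn, SimpleGraph.card_neighborFinset_eq_degree]
  intro x hx y hy hxy
  exact hc v x y ((SimpleGraph.mem_neighborFinset _ _ _).mp hx)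
    ((SimpleGraph.mem_neighborFinset _ _ _).mp hy) hxy

/-- PROOF. Proper: two different edges sharing `v` are `s(v, w), s(v, w')`, `w ≠ w'`. Satisfied: `e = s(u, v)`. If
`gpal u ≠ gpal v` take a colour `a` in exactly one of them, say in `gpal u`; `a = c s(u, w)`, `w ≠ v` (else
`a ∈ gpal v`); `f = s(u, w)` is the unique edge of `openNbhd e` of colour `a`: another one at `u` contradicts properness,
one at `v` contradicts `a ∉ gpal v`. `gpal u ≠ gpal v`: if `deg u ≠ deg v` because `|gpal v| = deg v` (properness,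
`Finset.card_image_of_injOn`); if `deg u = deg v ≥ 2` by `h`; `deg u = deg v = 1` is impossible if `openNbhd e` is nonempty. -/
theorem toPOCF (G : SimpleGraph V) [DecidableRel G.Adj] {n : ℕ} (c : Sym2 V → Fin n)
    (hc : GProper G c)
    (h : ∀ u v, G.Adj u v → G.degree u = G.degree v → 2 ≤ G.degree u → gpal G c u ≠ gpal G c v) :
    IsPOCF G (fun e : G.edgeSet => c e.1) := by
  constructor
  · rintro ⟨e, he⟩ ⟨f, hf⟩ ⟨hne, v, hv1, hv2⟩ hcc
    simp only at hv1 hv2 hcc
    obtain ⟨w, rfl⟩ := Sym2.mem_iff_exists.mp hv1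
    obtain ⟨w', rfl⟩ := Sym2.mem_iff_exists.mp hv2
    apply hne
    apply Subtype.ext
    simp only
    rw [hc v w w' hf he hcc]
  · rintro ⟨e, he⟩ hnon
    induction e using Sym2.ind with
    | _ u v =>
    have huv : G.Adj u v := he
    have hne : gpal G c u ≠ gpal G c v := by
      intro heq
      have hdeg : G.degree u = G.degree v := by
        rw [← card_gpal G c hc u, ← card_gpal G c hc v, heq]
      rcases Nat.lt_or_ge (G.degree u) 2 with h1 | h1
      · obtain ⟨⟨f, hf⟩, hfe, x, hx1, hx2⟩ := hnon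
        simp only at hx1 hx2
        obtain ⟨y, rfl⟩ := Sym2.mem_iff_exists.mp hx1
        have hxy : G.Adj x y := hf
        have hone : ∀ a b b' : V, G.degree a < 2 → G.Adj a b → G.Adj a b' → b = b' := by
          intro a b b' hd hab hab'
          have h2 : (G.neighborFinset a).card ≤ 1 := by
            rw [SimpleGraph.card_neighborFinset_eq_degree]; omega
          exact Finset.card_le_one.mp h2 b ((SimpleGraph.mem_neighborFinset _ _ _).mpr hab) b'
            ((SimpleGraph.mem_neighborFinset _ _ _).mpr hab')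
        apply hfe
        apply Subtype.ext
        simp only
        rw [Sym2.mem_iff] at hx2
        rcases hx2 with rfl | rfl
        · rw [hone x y v h1 hxy huv]
        · rw [hone x y u (hdeg ▸ h1) hxy huv.symm]
          exact Sym2.eq_swap
      · exact h u v huv hdeg h1 heq
    by_cases h1 : gpal G c u ⊆ gpal G c v
    · have h2 : ¬ gpal G c v ⊆ gpal G c u := fun h2 => hne (Finset.Subset.antisymm h1 h2)
      obtain ⟨a, ha, ha'⟩ := Finset.not_subset.mp h2
      exact ⟨a, key_unique G c hc v u huv.symm a ha ha' _ Sym2.eq_swap⟩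
    · obtain ⟨a, ha, ha'⟩ := Finset.not_subset.mp h1
      exact ⟨a, key_unique G c hc u v huv a ha ha' _ rfl⟩

end Pool.Agent.Helper6.AVD
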